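import Mathlib
import Pool.Agent.H24P.Rec

/-!
KAP, module Fun: a monotone family of functionals acting on finite strings over an alphabet.
-/

set_option autoImplicit false

namespace Pool.Agent.KAP

open Encodable

variable {α : Type}

/-- The initial segment of length `s` of the infinite sequence `Y`. -/
def pr (Y : ℕ → α) (s : ℕ) : List α := (List.range s).map Y

theorem pr_length (Y : ℕ → α) (s : ℕ) : (pr Y s).length = s := by simp [pr]

theorem pr_getElem? (Y : ℕ → α) {s n : ℕ} (h : n < s) : (pr Y s)[n]? = some (Y n) := by
  simp [pr, h]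

theorem pr_getElem?_none (Y : ℕ → α) {s n : ℕ} (h : s ≤ n) : (pr Y s)[n]? = none := by
  simp [pr, h]

theorem pr_succ (Y : ℕ → α) (s : ℕ) : pr Y (s + 1) = pr Y s ++ [Y s] := by
  simp [pr, List.range_succ]

theorem pr_take (Y : ℕ → α) {s t : ℕ} (h : t ≤ s) : (pr Y s).take t = pr Y t := by
  rw [pr, pr, ← List.map_take, List.take_range, min_eq_left h]

theorem pr_mono (Y : ℕ → α) {s t : ℕ} (h : s ≤ t) : pr Y s <+: pr Y t := by
  rw [← pr_take Y h]; exact List.take_prefix _ _

variable [Primcodable α]

/-- One round of simulation of the code `c` on the string `v`: the first `k ≤ |v|` such that the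
code stops on `(m, v.take k)` within `|v|` steps. -/
def ev0 (c : Nat.Partrec.Code) (v : List α) (m : ℕ) : Option ℕ :=
  ((List.range (v.length + 1)).filterMap fun k =>
    Nat.Partrec.Code.evaln v.length c (encode (m, v.take k))).head?

/-- The value found in the first round in which there is a value. -/
def ev1 (c : Nat.Partrec.Code) (v : List α) (m : ℕ) : Option ℕ :=
  ((List.range (v.length + 1)).filterMap fun n => ev0 c (v.take n) m).head?

/-- The family of functionals. Those with an odd index are nowhere defined. -/
def fnl (e : ℕ) (v : List α) (m : ℕ) : Option Bool :=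
  if e % 2 = 1 then none
  else (ev1 (Denumerable.ofNat Nat.Partrec.Code (e / 2)) v m).map fun x => decide (x = 1)

theorem fnl_odd (e : ℕ) (v : List α) (m : ℕ) : fnl (2 * e + 1) v m = none := by
  simp [fnl]

end Pool.Agent.KAP
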