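import Mathlib
import Pool.Agent.H24P.Rec
import Pool.Agent.KAP.Fun

/-!
KAP, definitions.  Blueprint: /team-store/KAP_BLUEPRINT.md
-/

set_option autoImplicit false

namespace Pool.Agent.KAP

open Encodable Pool.Agent.H19 Pool.Agent.H24P

/-! ### Basic types -/

/-- Finite binary strings. -/
abbrev Str := List Bool

/-- Symbols of the real `B`: events `(q, y, u, v)` and column symbols `(n, q, b)`. -/
abbrev Sym := (ℕ × Str × Str × Str) ⊕ (ℕ × ℕ × Bool)

/-- Trees: functional index, identifier, root. -/
abbrev Tree := ℕ × ℕ × Str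

/-- Coordinates of a vector: a tree, or a list of forbidden identifiers. -/
abbrev Coord := Tree ⊕ List ℕ

/-- Items `(P, Q, F)`: allowed steps respect the trees `P` and the forbidden identifiers `F`;
the strings considered are on the trees `Q`. -/
abbrev Item := List Tree × List Tree × List ℕ

/-- Contexts: the items of the agents, last agent first (`none` for satisfied agents). -/
abbrev Ctx := List (Option Item)

/-- Agents: `none` for a satisfied agent, and `some (L, R, z)` for an active agent with vector
`R.reverse ++ L` (top coordinate first), where the coordinates in `L` have been dealt with, and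
with fake `z`. -/
abbrev Agt := Option (List Coord × List Coord × Option Str)

/-- States: the string built so far and the stack of agents (last agent first). -/
abbrev State := List Sym × List Agt

/-- Questions put to the columns. -/
abbrev Qn := ℕ ⊕ (Ctx × List Tree × List Sym × Str)

/-- The event symbol. -/
abbrev ev (q : ℕ) (y u v : Str) : Sym := Sum.inl (q, y, u, v)

/-- The column symbol. -/
abbrev col (n q : ℕ) (b : Bool) : Sym := Sum.inr (n, q, b)

/-- functional index of a tree -/
abbrev tf (t : Tree) : ℕ := t.1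

/-- identifier of a tree -/
abbrev tid (t : Tree) : ℕ := t.2.1

/-- root of a tree -/
abbrev rt (t : Tree) : Str := t.2.2

/-- Functionals on binary strings. -/
def Phi (e : ℕ) (u : Str) (m : ℕ) : Option Bool := fnl e u m

/-- Functionals on strings of symbols. -/
def Psi (i : ℕ) (β : List Sym) (m : ℕ) : Option Bool := fnl i β m

/-! ### Trees given by events -/

/-- `y` is a node of the tree `t` as given by the events in `β`. -/
def Node (β : List Sym) (t : Tree) (y : Str) : Prop :=
  y = rt t ∨ ∃ y0 u v, ev (tid t) y0 u v ∈ β ∧ (y = u ∨ y = v)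

/-- `y` is a node of the first tree in the list, if there is one. -/
def NTop (β : List Sym) (P : List Tree) (y : Str) : Prop := ∀ t, P.head? = some t → Node β t y

/-- `y` is not excluded by the events on trees in `P`. -/
def NX (β : List Sym) (P : List Tree) (y : Str) : Prop :=
  ∀ t ∈ P, ∀ y0 u v, ev (tid t) y0 u v ∈ β → y0 <+: y → u <+: y ∨ v <+: y

/-- All strings occurring in `β` have length at most `n`. -/
def Short (β : List Sym) (n : ℕ) : Prop :=
  ∀ q y u v, ev q y u v ∈ β → y.length ≤ n ∧ u.length ≤ n ∧ v.length ≤ n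

/-- `u` and `v` are split by the functional with index `e`. -/
def Split (e : ℕ) (u v : Str) : Prop := ∃ m b, Phi e u m = some b ∧ Phi e v m = some (!b)

/-- The event `(y, u, v)` may be added to the tree `t`, whose ancestors are `P2`. -/
def WF (β : List Sym) (t : Tree) (P2 : List Tree) (y u v : Str) : Prop :=
  Node β t y ∧ (∀ u' v', ev (tid t) y u' v' ∉ β) ∧ y <+: u ∧ y ≠ u ∧ y <+: v ∧ y ≠ v ∧
    NTop β P2 u ∧ NTop β P2 v ∧ Split (tf t) u v

/-! ### Allowed steps, killed strings, alive strings -/

/-- The symbol may be appended to `β` in the environment `(P, F)`. -/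
def Allow (K : ℕ → ℕ → Bool) (AL : List Tree → List Sym → Str → Prop) (i : ℕ)
    (P : List Tree) (F : List ℕ) (β : List Sym) : Sym → Prop
  | Sum.inl (q, y, u, v) => q ∉ F ∧ ∀ P1 t P2, P = P1 ++ t :: P2 → tid t = q →
      WF β t P2 y u v ∧ AL P2 β u ∧ AL P2 β v
  | Sum.inr (n, q, b) => n < i → b = K n q

/-- All symbols of `γ`, appended to `β` one after the other, satisfy `S`. -/
def Ext (S : List Sym → Sym → Prop) (β γ : List Sym) : Prop :=
  ∀ γ1 a γ2, γ = γ1 ++ a :: γ2 → S (β ++ γ1) a

/-- The agent with number `i` and item `it` can act against the reals extending `y`. -/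
def Killed (K : ℕ → ℕ → Bool) (AL : List Tree → List Sym → Str → Prop) (i : ℕ) (it : Item)
    (β : List Sym) (y : Str) : Prop :=
  ∃ γ m b, Ext (Allow K AL i it.1 it.2.2) β γ ∧ Short (β ++ γ) y.length ∧ NX γ it.1 y ∧
    NX β it.2.1 y ∧ Psi i (β ++ γ) m = some b ∧ y[m]? = some (!b)

/-- There are arbitrarily long extensions of `z` which are not excluded and satisfy `U`. -/
def ALof (U : List Sym → Str → Prop) (P : List Tree) (β : List Sym) (z : Str) : Prop :=
  ∀ n : ℕ, ∃ y : Str, n ≤ y.length ∧ z <+: y ∧ NX β P y ∧ U β y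

/-- `y` is killed by no agent in the context. -/
def Unk (K : ℕ → ℕ → Bool) : Ctx → List Sym → Str → Prop
  | [] => fun _ _ => True
  | none :: κ => Unk K κ
  | some it :: κ => fun β y => Unk K κ β y ∧ ¬ Killed K (ALof (Unk K κ)) κ.length it β y

/-- `z` is alive. -/
def al (K : ℕ → ℕ → Bool) (κ : Ctx) (P : List Tree) (β : List Sym) (z : Str) : Prop :=
  ALof (Unk K κ) P β z

/-! ### The finite jumps and the columns -/

open Classical in
/-- The finite jumps of the empty set, as in the frozen statement. -/
def Zj (n : ℕ) : ℕ → Prop :=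
  Nat.rec (motive := fun _ => ℕ → Prop) (fun _ => False)
    (fun _ (A : ℕ → Prop) (e : ℕ) => ∃ k : ℕ,
      (Nat.Partrec.Code.eval (Denumerable.ofNat Nat.Partrec.Code e)
        (Nat.pair e (Encodable.encode
          ((List.range k).map (fun i => if A i then (1 : ℕ) else 0))))).Dom) n

open Classical in
/-- Characteristic functions of the finite jumps. -/
noncomputable def Zs (n : ℕ) (e : ℕ) : Bool := decide (Zj n e)

/-- The code of a question about a string being alive. -/
def qc (κ : Ctx) (P : List Tree) (β : List Sym) (z : Str) : ℕ :=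
  encode (Sum.inr (κ, P, β, z) : Qn)

open Classical in
/-- The column with number `n`, computed from the columns `K`. -/
noncomputable def colOf (K : ℕ → ℕ → Bool) (n : ℕ) (q : ℕ) : Bool :=
  match (decode q : Option Qn) with
  | some (Sum.inl m) => Zs n m
  | some (Sum.inr (κ, P, β, z)) => decide (κ.length ≤ n ∧ al K κ P β z)
  | none => false

/-- The columns, up to the one with number `n` (excluded). -/
noncomputable def Kseq : ℕ → ℕ → ℕ → Bool
  | 0 => fun _ _ => false
  | n + 1 => fun m => if m = n then colOf (Kseq n) n else Kseq n m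

/-- The columns. -/
noncomputable def Kc (n : ℕ) : ℕ → Bool := colOf (Kseq n) n

/-! ### Vectors -/

/-- The trees of a vector. -/
def Prot : List Coord → List Tree
  | [] => []
  | Sum.inl t :: V => t :: Prot V
  | Sum.inr _ :: V => Prot V

/-- The forbidden identifiers of a vector. -/
def Forb : List Coord → List ℕ
  | [] => []
  | Sum.inl _ :: V => Forb V
  | Sum.inr l :: V => l ++ Forb V

/-- All identifiers of a vector. -/
def ids : List Coord → List ℕ
  | [] => []
  | Sum.inl t :: V => tid t :: ids V
  | Sum.inr l :: V => l ++ ids V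

/-- The vector which an agent passes on to its successors. -/
def vout (L R : List Coord) : List Coord := if R = [] then L else Sum.inr (ids R) :: L

/-- The vector given by a stack of agents. -/
def Vof : List Agt → List Coord
  | [] => []
  | none :: κ => Vof κ
  | some (L, R, _) :: _ => vout L R

/-- The vector of an agent. -/
def Wv (L R : List Coord) : List Coord := R.reverse ++ L

/-- The item of an agent. -/
def itemOf : Agt → Option Item
  | none => none
  | some (L, R, _) => some (Prot (Wv L R), Prot L, Forb (Wv L R))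

/-- The context of a stack of agents. -/
def ctx (κ : List Agt) : Ctx := κ.map itemOf

/-- `(P, F)` is weaker than `(P', F')`. -/
def LeE (P : List Tree) (F : List ℕ) (P' : List Tree) (F' : List ℕ) : Prop :=
  F ⊆ F' ∧ ∀ P1 t P2, P = P1 ++ t :: P2 → tid t ∈ F' ∨ ∃ P1', P' = P1' ++ t :: P2

/-- The item is respected by the environment `(P', F')`. -/
def LeI (it : Item) (P' : List Tree) (F' : List ℕ) : Prop :=
  it.2.2 ⊆ F' ∧ ∀ P1 t P2, it.1 = P1 ++ t :: P2 →
    tid t ∈ F' ∨ (t ∈ it.2.1 ∧ ∃ P1', P' = P1' ++ t :: P2)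

/-! ### Invariants of trees -/

/-- The tree `t` with ancestors `P2` is well formed. -/
structure TI (β : List Sym) (t : Tree) (P2 : List Tree) : Prop where
  root : NTop β P2 (rt t)
  memb : ∀ y u v, ev (tid t) y u v ∈ β → Node β t y ∧ NTop β P2 u ∧ NTop β P2 v ∧
    y <+: u ∧ y ≠ u ∧ y <+: v ∧ y ≠ v ∧ Split (tf t) u v
  inner : ∀ y y', Node β t y → Node β t y' → y <+: y' → y ≠ y' →
    ∃ u v, ev (tid t) y u v ∈ β ∧ (u <+: y' ∨ v <+: y')
  uniq : ∀ y u v u' v', ev (tid t) y u v ∈ β → ev (tid t) y u' v' ∈ β → u = u' ∧ v = v'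

/-- All trees in the list are well formed. -/
def TInv (β : List Sym) (P : List Tree) : Prop := ∀ P1 t P2, P = P1 ++ t :: P2 → TI β t P2

/-! ### The real `A` -/

/-- The string `y` is an initial segment of `A`. -/
def On (A : ℕ → Bool) (y : Str) : Prop := pre A y.length = y

/-- The events in `β` on trees in `P` do not exclude `A`. -/
def NXA (A : ℕ → Bool) (β : List Sym) (P : List Tree) : Prop :=
  ∀ t ∈ P, ∀ y u v, ev (tid t) y u v ∈ β → On A y → On A u ∨ On A v

/-- Good vectors. -/
structure GoodV (A : ℕ → Bool) (β : List Sym) (V : List Coord) : Prop where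
  nod : (ids V).Nodup
  tin : TInv β (Prot V)
  nxa : NXA A β (Prot V)
  root : ∀ t ∈ Prot V, On A (rt t)
  idx : ∀ V1 t V2, V = V1 ++ Sum.inl t :: V2 → tf t = V2.length

/-- The invariants of the last agent of a stack. -/
def GoodSt (A : ℕ → Bool) (β : List Sym) : List Agt → Prop
  | [] => True
  | none :: κ => ∃ m b, Psi κ.length β m = some b ∧ A m = !b
  | some (L, R, z) :: κ => (∃ tn, Wv L R = Sum.inl tn :: Vof κ) ∧ GoodV A β (Wv L R) ∧
      (z = none → L = []) ∧ ∀ z', z = some z' → ¬ On A z' ∧ NTop β (Prot L) z'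

/-- The invariants of states. -/
def Inv (A : ℕ → Bool) (s : State) : Prop := ∀ κ, κ <:+ s.2 → GoodSt A s.1 κ

/-! ### The construction -/

/-- The symbol may be appended, according to the column approximations `X` at time `t`. -/
def AllowX (X : ℕ → ℕ → ℕ → Bool) (t : ℕ) (κ : Ctx) (P : List Tree) (F : List ℕ)
    (β : List Sym) : Sym → Prop
  | Sum.inl (q, y, u, v) => q ∉ F ∧ ∀ P1 t' P2, P = P1 ++ t' :: P2 → tid t' = q →
      WF β t' P2 y u v ∧ ∀ κ', κ' <:+ κ →
        X κ'.length t (qc κ' P2 β u) = true ∧ X κ'.length t (qc κ' P2 β v) = true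
  | Sum.inr (n, q, b) => n < κ.length → b = X n t q

/-- All active agents have a fake and find that `A` is alive. -/
def Ready (X : ℕ → ℕ → ℕ → Bool) (A : ℕ → Bool) (t : ℕ) (β : List Sym) : List Agt → Prop
  | [] => True
  | none :: κ => Ready X A t β κ
  | some (L, R, z) :: κ => Ready X A t β κ ∧ z.isSome = true ∧
      X (κ.length + 1) t (qc (ctx (some (L, R, z) :: κ)) (Prot L) β (pre A t)) = true

/-- The column symbols appended at time `t` when there are `r` agents. -/
def cols (X : ℕ → ℕ → ℕ → Bool) (t r : ℕ) : List Sym :=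
  (List.range (r + 1)).flatMap fun n => (List.range (r + 1)).map fun q => col n q (X n t q)

/-- Names of actions. -/
abbrev Act := (ℕ × Str) ⊕ (ℕ × List Sym × ℕ × Bool) ⊕ (ℕ × ℕ) ⊕ (ℕ × Str × Str × Str) ⊕
  (ℕ × Str) ⊕ ℕ

/-- Actions. -/
inductive Stp (X : ℕ → ℕ → ℕ → Bool) (A : ℕ → Bool) (t : ℕ) : State → Act → State → Prop
  /-- a new agent -/
  | new (β : List Sym) (ags : List Agt) (i : ℕ) (y0 : Str) (hr : Ready X A t β ags)
      (hf : ∀ q y u v, ev q y u v ∈ β → q ≠ i) (hi : i ∉ ids (Vof ags))
      (hy : NTop β (Prot (Vof ags)) y0) (hA : On A y0) :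
      Stp X A t (β, ags) (Sum.inl (i, y0))
        (β ++ cols X t ags.length,
          some ([], (Vof ags).reverse ++ [Sum.inl ((Vof ags).length, i, y0)], none) :: ags)
  /-- an agent becomes satisfied -/
  | sat (β : List Sym) (Y : List Agt) (L R : List Coord) (z : Option Str) (κ : List Agt)
      (γ : List Sym) (m : ℕ) (b : Bool) (hr : Ready X A t β κ)
      (hγ : Ext (AllowX X t (ctx κ) (Prot (Wv L R)) (Forb (Wv L R))) β γ)
      (hA : NXA A γ (Prot (Wv L R))) (hm : Psi κ.length (β ++ γ) m = some b)
      (hb : A m = !b) :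
      Stp X A t (β, Y ++ some (L, R, z) :: κ) (Sum.inr (Sum.inl (κ.length, γ, m, b)))
        (β ++ γ, none :: κ)
  /-- an agent is reset -/
  | rst (β : List Sym) (Y : List Agt) (L R : List Coord) (z : Str) (κ : List Agt)
      (n : ℕ) (hr : Ready X A t β κ) (hz : z[n]? = some (!(A n)))
      (hn : Psi κ.length β n = some (A n)) :
      Stp X A t (β, Y ++ some (L, R, some z) :: κ) (Sum.inr (Sum.inr (Sum.inl (κ.length, n))))
        (β, some ([], L.reverse ++ R, none) :: κ)
  /-- an agent adds an event to the next tree -/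
  | imp (β : List Sym) (Y : List Agt) (L : List Coord) (t' : Tree) (R : List Coord)
      (z0 : Str) (κ : List Agt) (y w z : Str) (hr : Ready X A t β κ)
      (ha : AllowX X t (ctx (some (L, Sum.inl t' :: R, some z0) :: κ))
        (Prot (Wv L (Sum.inl t' :: R))) (Forb (Wv L (Sum.inl t' :: R))) β (ev (tid t') y w z))
      (hw : On A w) (hz : ¬ On A z) :
      Stp X A t (β, Y ++ some (L, Sum.inl t' :: R, some z0) :: κ)
        (Sum.inr (Sum.inr (Sum.inr (Sum.inl (κ.length, y, w, z)))))
        (β ++ [ev (tid t') y w z], some (Sum.inl t' :: L, R, some z) :: κ)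
  /-- an agent finds a fake -/
  | fak (β : List Sym) (Y : List Agt) (R : List Coord) (κ : List Agt) (z : Str)
      (hr : Ready X A t β κ) (hz : ¬ On A z)
      (hX : X (κ.length + 1) t (qc (ctx (some ([], R, none) :: κ)) [] β z) = true) :
      Stp X A t (β, Y ++ some ([], R, none) :: κ)
        (Sum.inr (Sum.inr (Sum.inr (Sum.inr (Sum.inl (κ.length, z))))))
        (β, some ([], R, some z) :: κ)
  /-- an agent skips a list of forbidden identifiers -/
  | skp (β : List Sym) (Y : List Agt) (L : List Coord) (l : List ℕ) (R : List Coord)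
      (z : Str) (κ : List Agt) (hr : Ready X A t β κ) :
      Stp X A t (β, Y ++ some (L, Sum.inr l :: R, some z) :: κ)
        (Sum.inr (Sum.inr (Sum.inr (Sum.inr (Sum.inr κ.length)))))
        (β, some (Sum.inr l :: L, R, some z) :: κ)

/-- Runs of the construction. -/
structure Run (X : ℕ → ℕ → ℕ → Bool) (A : ℕ → Bool) (s : ℕ → State) : Prop where
  init : s 0 = ([], [])
  seq : ∀ t, s (t + 1) = s t ∨ ∃ a, Stp X A t (s t) a (s (t + 1))
  fair : ∀ a t0, (∀ t, t0 ≤ t → ∃ s', Stp X A t (s t) a s') →
    ∃ t, t0 ≤ t ∧ Stp X A t (s t) a (s (t + 1))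

/-- The approximations `X` are eventually correct on each column. -/
def Correct (X : ℕ → ℕ → ℕ → Bool) : Prop := ∀ n, ∃ T, ∀ t, T ≤ t → ∀ q, X n t q = Kc n q

/-- The approximations given by a real. -/
def Xof (x : ℕ → Bool) (n t q : ℕ) : Bool := x (Nat.pair n (Nat.pair t q))

/-! ### Relations decidable in an oracle, arithmetical relations -/

variable {α : Type} [Primcodable α]

/-- The relation `P` is decidable in `Z`. -/
def Dc (Z : ℕ → Bool) (P : α → Prop) : Prop := Sg Z P ∧ Sg Z (fun a => ¬ P a)

/-- The relation `P` is arithmetical. -/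
def Arith (P : α → Prop) : Prop := ∃ n, Dc (Zs n) P

/-- The set `Z` as a relation is above all finite jumps. -/
def Above (Z : ℕ → Bool) : Prop := ∀ n, Ar Z (Zs n)

/-- The join of all finite jumps. -/
noncomputable def Zom (m : ℕ) : Bool := Zs m.unpair.1 m.unpair.2

/-- The graph of a sequence, as a set of natural numbers. -/
def gr {β : Type} [Encodable β] (Y : ℕ → β) (p : ℕ) : Bool :=
  decide (encode (Y p.unpair.1) = p.unpair.2)

end Pool.Agent.KAP
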