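import Mathlib
import Pool.Agent.KAP.Defs

/-!
KAP, module CA: a calculus of relations decidable in an oracle.
-/

set_option autoImplicit false

namespace Pool.Agent.KAP

open Encodable Pool.Agent.H19 Pool.Agent.H24P

variable {α β γ : Type} [Primcodable α] [Primcodable β] [Primcodable γ] {Z : ℕ → Bool}

theorem Dc.congr {P Q : α → Prop} (h : Dc Z P) (e : ∀ a, P a ↔ Q a) : Dc Z Q := by
  have : P = Q := funext fun a => propext (e a)
  rwa [← this]

theorem Dc.of_comp {p : α → Bool} (hp : Computable p) : Dc Z (fun a => p a = true) :=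
  ⟨Sg.of_comp hp, (Sg.of_comp (comp_not hp)).congr fun a => by simp⟩

theorem Dc.const (Z : ℕ → Bool) (p : Prop) : Dc Z (fun _ : α => p) :=
  ⟨Sg.const Z p, Sg.const Z (¬ p)⟩

theorem Dc.comp {P : β → Prop} (h : Dc Z P) {f : α → β} (hf : Computable f) :
    Dc Z (fun a => P (f a)) :=
  ⟨h.1.comp hf, h.2.comp hf⟩

theorem Dc.subst {P : β → Prop} (h : Dc Z P) {f : α → β} (hf : Cp Z f) :
    Dc Z (fun a => P (f a)) :=
  ⟨h.1.subst hf, h.2.subst hf⟩

theorem Dc.and {P Q : α → Prop} (hP : Dc Z P) (hQ : Dc Z Q) : Dc Z (fun a => P a ∧ Q a) :=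
  ⟨hP.1.and hQ.1, (hP.2.or hQ.2).congr fun _ => not_and_or.symm⟩

theorem Dc.or {P Q : α → Prop} (hP : Dc Z P) (hQ : Dc Z Q) : Dc Z (fun a => P a ∨ Q a) :=
  ⟨hP.1.or hQ.1, (hP.2.and hQ.2).congr fun _ => not_or.symm⟩

theorem Dc.not {P : α → Prop} (hP : Dc Z P) : Dc Z (fun a => ¬ P a) :=
  ⟨hP.2, hP.1.congr fun _ => not_not.symm⟩

theorem Dc.imp {P Q : α → Prop} (hP : Dc Z P) (hQ : Dc Z Q) : Dc Z (fun a => P a → Q a) :=
  (hP.not.or hQ).congr fun _ => by tauto

theorem Dc.iff {P Q : α → Prop} (hP : Dc Z P) (hQ : Dc Z Q) : Dc Z (fun a => P a ↔ Q a) :=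
  ((hP.imp hQ).and (hQ.imp hP)).congr fun _ => by tauto

theorem Dc.ball {Q : α → β → Prop} (h : Dc Z (fun p : α × β => Q p.1 p.2))
    {l : α → List β} (hl : Computable l) : Dc Z (fun a => ∀ b ∈ l a, Q a b) :=
  ⟨Sg.ball h.1 hl, (Sg.bex (Q := fun a b => ¬ Q a b) h.2 hl).congr fun a => by
    push Not; rfl⟩

theorem Dc.bex {Q : α → β → Prop} (h : Dc Z (fun p : α × β => Q p.1 p.2))
    {l : α → List β} (hl : Computable l) : Dc Z (fun a => ∃ b ∈ l a, Q a b) :=
  ⟨Sg.bex h.1 hl, (Sg.ball (Q := fun a b => ¬ Q a b) h.2 hl).congr fun a => by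
    push Not; rfl⟩

theorem Dc.ball_lt {Q : α → ℕ → Prop} (h : Dc Z (fun p : α × ℕ => Q p.1 p.2))
    {l : α → ℕ} (hl : Computable l) : Dc Z (fun a => ∀ i < l a, Q a i) :=
  (Dc.ball h (comp_range hl)).congr fun a => by simp

theorem Dc.bex_lt {Q : α → ℕ → Prop} (h : Dc Z (fun p : α × ℕ => Q p.1 p.2))
    {l : α → ℕ} (hl : Computable l) : Dc Z (fun a => ∃ i < l a, Q a i) :=
  (Dc.bex h (comp_range hl)).congr fun a => by simp

theorem Dc.eq_comp [DecidableEq β] {f g : α → β} (hf : Computable f)
    (hg : Computable g) : Dc Z (fun a => f a = g a) :=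
  ⟨Sg.eq_comp hf hg, Sg.ne_comp hf hg⟩

theorem Dc.lt_comp {f g : α → ℕ} (hf : Computable f) (hg : Computable g) :
    Dc Z (fun a => f a < g a) :=
  ⟨Sg.lt_comp hf hg, (Sg.le_comp hg hf).congr fun _ => not_lt.symm⟩

theorem Dc.le_comp {f g : α → ℕ} (hf : Computable f) (hg : Computable g) :
    Dc Z (fun a => f a ≤ g a) :=
  ⟨Sg.le_comp hf hg, (Sg.lt_comp hg hf).congr fun _ => not_le.symm⟩

theorem Dc.mem_list [DecidableEq β] {f : α → β} {l : α → List β}
    (hf : Computable f) (hl : Computable l) : Dc Z (fun a => f a ∈ l a) :=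
  (Dc.bex (Q := fun a b => f a = b) (Dc.eq_comp (hf.comp Computable.fst) Computable.snd)
    hl).congr fun a => by simp

theorem Dc.oracle (Z : ℕ → Bool) : Dc Z (fun n => Z n = true) :=
  ⟨Sg.oracle Z true, (Sg.oracle Z false).congr fun n => by simp⟩

theorem Dc.trans {Z' : ℕ → Bool} (hZ : Ar Z Z') {P : α → Prop} (h : Dc Z' P) : Dc Z P :=
  ⟨h.1.trans hZ, h.2.trans hZ⟩

theorem ar_iff_dc {B : ℕ → Bool} : Ar Z B ↔ Dc Z (fun n => B n = true) :=
  ⟨fun h => ⟨h.1, h.2.congr fun n => by simp⟩, fun h => ⟨h.1, h.2.congr fun n => by simp⟩⟩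

/-- The initial segments of the oracle. -/
theorem sg_eq_of_cp {f : α → β} (hf : Cp Z f) {g : α → β} (hg : Cp Z g) :
    Sg Z (fun a => f a = g a) := by
  have h1 : Sg Z (fun p : β × β => encode p.1 = encode p.2) :=
    Sg.eq_comp (Computable.encode.comp Computable.fst) (Computable.encode.comp Computable.snd)
  have h2 : Sg Z (fun p : β × β => p.1 = p.2) := h1.congr fun p => encode_injective.eq_iff
  exact h2.subst (hf.pair hg)

/-- `∃ x, f a = some x ∧ Q a x` is decidable. -/
theorem Dc.optEx {f : α → Option β} (hf : Cp Z f) {Q : α → β → Prop}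
    (h : Dc Z (fun p : α × β => Q p.1 p.2)) : Dc Z (fun a => ∃ x, f a = some x ∧ Q a x) := by
  have hg : Sg Z (fun p : α × β => f p.1 = some p.2) := by
    have h1 : Sg Z (fun p : (α × β) => f p.1 = some p.2) :=
      sg_eq_of_cp (hf.comp (Cp.of_computable Computable.fst))
        (Cp.of_computable (Computable.option_some.comp Computable.snd))
    exact h1
  have hn : Sg Z (fun a : α => f a = none) := by
    have h1 : Sg Z (fun a : α => f a = (fun _ : α => (none : Option β)) a) :=
      sg_eq_of_cp hf (Cp.of_computable (Computable.const none))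
    exact h1
  refine ⟨Sg.ex (Q := fun a x => f a = some x ∧ Q a x) (hg.and h.1), ?_⟩
  refine (hn.or (Sg.ex (Q := fun a x => f a = some x ∧ ¬ Q a x) (hg.and h.2))).congr fun a => ?_
  beta_reduce
  constructor
  · rintro (h1 | ⟨x, h1, h2⟩) ⟨x', h3, h4⟩
    · rw [h1] at h3; exact absurd h3 (by simp)
    · rw [h1] at h3
      rw [Option.some.inj h3] at h2
      exact h2 h4
  · intro h5
    cases hfa : f a with
    | none => exact Or.inl rfl
    | some x => exact Or.inr ⟨x, rfl, fun h6 => h5 ⟨x, hfa, h6⟩⟩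

/-- `∀ x, f a = some x → Q a x` is decidable. -/
theorem Dc.optAll {f : α → Option β} (hf : Cp Z f) {Q : α → β → Prop}
    (h : Dc Z (fun p : α × β => Q p.1 p.2)) : Dc Z (fun a => ∀ x, f a = some x → Q a x) :=
  (Dc.optEx hf (Q := fun a x => ¬ Q a x) h.not).not.congr fun a => by
    push Not; rfl

/-- Case distinction on a sum type. -/
theorem Dc.sum {P : α ⊕ β → Prop} (h1 : Dc Z (fun a => P (Sum.inl a)))
    (h2 : Dc Z (fun b => P (Sum.inr b))) : Dc Z P := by
  have hl : Computable (fun s : α ⊕ β => (Sum.casesOn s (fun a => some a) (fun _ => none) :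
      Option α)) := by
    refine Computable.sumCasesOn (f := fun s : α ⊕ β => s) Computable.id ?_ ?_
    · exact Computable.option_some.comp Computable.snd
    · exact Computable.const none
  have hr : Computable (fun s : α ⊕ β => (Sum.casesOn s (fun _ => none) (fun b => some b) :
      Option β)) := by
    refine Computable.sumCasesOn (f := fun s : α ⊕ β => s) Computable.id ?_ ?_
    · exact Computable.const none
    · exact Computable.option_some.comp Computable.snd
  refine ((Dc.optEx (Cp.of_computable hl) (Q := fun _ a => P (Sum.inl a))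
    (h1.comp Computable.snd)).or (Dc.optEx (Cp.of_computable hr) (Q := fun _ b => P (Sum.inr b))
    (h2.comp Computable.snd))).congr fun s => ?_
  cases s <;> simp

/-- Composition of a total function of two variables. -/
theorem Cp.of_dc {P : α → Prop} [DecidablePred P] (h : Dc Z P) : Cp Z (fun a => decide (P a)) :=
  Cp.of_dec h.1 h.2

theorem Cp.fst : Cp Z (fun p : α × β => p.1) := Cp.of_computable Computable.fst

theorem Cp.snd : Cp Z (fun p : α × β => p.2) := Cp.of_computable Computable.snd

/-- Prefix is decidable. -/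
theorem comp_isPre {f g : α → List Bool} (hf : Computable f) (hg : Computable g) :
    Computable (fun a => decide (f a <+: g a)) := by
  have h := comp_decEq hf (comp_take (Computable.list_length.comp hf) hg)
  refine h.of_eq fun a => ?_
  simp only [List.prefix_iff_eq_take]

theorem Dc.isPre {f g : α → List Bool} (hf : Computable f) (hg : Computable g) :
    Dc Z (fun a => f a <+: g a) :=
  (Dc.of_comp (comp_isPre hf hg)).congr fun a => by simp

/-- The value of the oracle as a function. -/
theorem Cp.oracle (Z : ℕ → Bool) : Cp Z Z := by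
  have h1 : Sg Z (fun p : ℕ × Bool => (Z p.1 = true ∧ p.2 = true) ∨
      (Z p.1 = false ∧ p.2 = false)) :=
    Sg.or (Sg.and ((Sg.oracle Z true).comp Computable.fst)
      (Sg.eq_comp Computable.snd (Computable.const true)))
      (Sg.and ((Sg.oracle Z false).comp Computable.fst)
      (Sg.eq_comp Computable.snd (Computable.const false)))
  refine h1.congr fun p => ?_
  obtain ⟨n, b⟩ := p
  cases hZ : Z n <;> cases b <;> simp [hZ]

theorem Ar.cp {B : ℕ → Bool} (h : Ar Z B) : Cp Z B := by
  have h1 : Sg Z (fun p : ℕ × Bool => (B p.1 = true ∧ p.2 = true) ∨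
      (B p.1 = false ∧ p.2 = false)) :=
    Sg.or (Sg.and (h.1.comp Computable.fst)
      (Sg.eq_comp Computable.snd (Computable.const true)))
      (Sg.and (h.2.comp Computable.fst)
      (Sg.eq_comp Computable.snd (Computable.const false)))
  refine h1.congr fun p => ?_
  obtain ⟨n, b⟩ := p
  cases hB : B n <;> cases b <;> simp [hB]

theorem Ar.of_cp {B : ℕ → Bool} (h : Cp Z B) : Ar Z B := by
  constructor
  · exact Sg.comp (P := fun p : ℕ × Bool => B p.1 = p.2) h
      (Computable.id.pair (Computable.const true))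
  · exact Sg.comp (P := fun p : ℕ × Bool => B p.1 = p.2) h
      (Computable.id.pair (Computable.const false))

/-- Initial segments of a sequence computable in the oracle. -/
theorem Cp.pr {Y : ℕ → α} (hY : Cp Z Y) : Cp Z (fun n => KAP.pr Y n) := by
  have h1 : Sg Z (fun p : ℕ × List α => p.2.length = p.1 ∧
      ∀ i < p.1, encode (some (Y i)) = encode (p.2[i]?)) := by
    refine Sg.and (Sg.eq_comp (Computable.list_length.comp Computable.snd) Computable.fst)
      (Sg.ball_lt (Q := fun (p : ℕ × List α) i => encode (some (Y i)) = encode (p.2[i]?)) ?_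
      Computable.fst)
    exact sg_eq_of_cp (f := fun q : (ℕ × List α) × ℕ => encode (some (Y q.2)))
      (g := fun q : (ℕ × List α) × ℕ => encode (q.1.2[q.2]?))
      ((Cp.of_computable (Computable.encode.comp Computable.option_some)).comp
        (hY.comp Cp.snd))
      (Cp.of_computable (Computable.encode.comp (Computable.list_getElem?.comp
        (Computable.snd.comp Computable.fst) Computable.snd)))
  refine h1.congr fun p => ?_
  obtain ⟨n, l⟩ := p
  simp only [encode_injective.eq_iff]
  constructor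
  · rintro ⟨h2, h3⟩
    refine List.ext_getElem? fun i => ?_
    by_cases hi : i < n
    · rw [← h3 i hi, pr_getElem? Y hi]
    · have h4 : n ≤ i := by omega
      have h5 : (KAP.pr Y n)[i]? = none := pr_getElem?_none Y h4
      rw [h5, List.getElem?_eq_none (by omega)]
  · rintro rfl
    refine ⟨pr_length Y n, fun i hi => by rw [pr_getElem? Y hi]⟩

/-- A sequence is computable in its graph. -/
theorem cp_gr (Y : ℕ → α) : Cp (gr Y) Y := by
  have h1 : Sg (gr Y) (fun p : ℕ × α => gr Y (Nat.pair p.1 (encode p.2)) = true) :=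
    (Sg.oracle (gr Y) true).comp (comp_natpair Computable.fst
      (Computable.encode.comp Computable.snd))
  refine h1.congr fun p => ?_
  simp only [gr, Nat.unpair_pair, decide_eq_true_eq, encode_injective.eq_iff]

/-- The graph is computable in the sequence. -/
theorem ar_gr {Y : ℕ → α} (hY : Cp Z Y) : Ar Z (gr Y) := by
  rw [ar_iff_dc]
  have h1 : Cp Z (fun p : ℕ => encode (Y p.unpair.1)) :=
    (Cp.of_computable Computable.encode).comp (hY.comp (Cp.of_computable
      (Computable.fst.comp Computable.unpair)))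
  have h2 : Cp Z (fun p : ℕ => p.unpair.2) :=
    Cp.of_computable (Computable.snd.comp Computable.unpair)
  have h3 : Dc Z (fun q : ℕ × ℕ => q.1 = q.2) := Dc.eq_comp Computable.fst Computable.snd
  refine (h3.subst (h1.pair h2)).congr fun p => ?_
  simp [gr]

end Pool.Agent.KAP
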