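import Mathlib
import Pool.Agent.KAP.Fun

/-!
KAP, module FM. Monotonicity of the functionals.
Proof: for `n <= |v|` and `v <+: v'` one has `v'.take n = v.take n`, and
`List.range (|v'| + 1) = List.range (|v| + 1) ++ rest`, so the `filterMap` list for `v` is an initial
segment of the one for `v'`, hence `head?` agrees when it is `some`.
-/

set_option autoImplicit false

namespace Pool.Agent.KAP

open Encodable Pool.Agent.H19 Pool.Agent.H24P

theorem FM_range {a b : ℕ} (h : a ≤ b) : ∃ t, List.range b = List.range a ++ t := by
  have h1 : (List.range b).take a = List.range a := by rw [List.take_range, min_eq_left h]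
  exact ⟨(List.range b).drop a, by rw [← h1, List.take_append_drop]⟩

theorem FM_head {β : Type} {l t : List β} {x : β} (hx : l.head? = some x) :
    (l ++ t).head? = some x := by
  cases l with
  | nil => simp at hx
  | cons a l => simpa using hx

theorem ev1_mono {α : Type} [Primcodable α] {c : Nat.Partrec.Code} {v v' : List α} {m x : ℕ}
    (h : v <+: v') (hx : ev1 c v m = some x) : ev1 c v' m = some x := by
  have hl : v.length + 1 ≤ v'.length + 1 := Nat.succ_le_succ h.length_le
  obtain ⟨t, ht⟩ := FM_range hl
  unfold ev1 at hx ⊢
  rw [ht, List.filterMap_append]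
  apply FM_head
  rw [← hx]
  congr 1
  apply List.filterMap_congr
  intro n hn
  have hn1 : n ≤ v.length := by
    have := List.mem_range.1 hn
    omega
  have h2 : v'.take n = v.take n := by
    obtain ⟨w, rfl⟩ := h
    rw [List.take_append_of_le_length hn1]
  rw [h2]

theorem fnl_mono {α : Type} [Primcodable α] {e : ℕ} {v v' : List α} {m : ℕ} {b : Bool}
    (h : v <+: v') (hx : fnl e v m = some b) : fnl e v' m = some b := by
  unfold fnl at hx ⊢
  split_ifs at hx ⊢ with h1
  obtain ⟨x, hx1, hx2⟩ := Option.map_eq_some_iff.1 hx
  rw [ev1_mono h hx1]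
  simp [hx2]

end Pool.Agent.KAP
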