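import Mathlib
import Pool.Agent.KAP.FM
import Pool.Agent.KAP.CA

/-!
KAP, module FP. Completeness of the family of functionals.
Proof: let `c` be a code of the function `(m, v) => value of G v m` (with values 1 and 0, undefined
if `none`), see `exists_code_of_partrec₂` in Pool/Agent/H19/Use.lean for `α = Bool` (the same proof
works here), and `e = 2 * encode c`.  For `m` take `s`, `b` with `G (pr Y s) m = some b`, and `k`
with `evaln k c (encode (m, pr Y s)) = some _` (`evaln_complete`).  For `n = max k s` the list in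
`ev0 c (pr Y n) m` is not empty (`evaln_mono`), so `ev1 c (pr Y n) m = some x` for some `x`.  Any such
`x` is a value of `evaln _ c (encode (m, (pr Y n).take k'))`, so by `evaln_sound` it is the value of
`G (pr Y k'') m`, which is `C m` by hypothesis.
-/

set_option autoImplicit false

namespace Pool.Agent.KAP

open Encodable Pool.Agent.H19 Pool.Agent.H24P

theorem FP_mem {β : Type} {l : List β} {x : β} (h : l.head? = some x) : x ∈ l := by
  cases l with
  | nil => simp at h
  | cons a l => simp at h; simp [h]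

theorem FP_some {β : Type} {l : List β} {x : β} (h : x ∈ l) : ∃ y, l.head? = some y := by
  cases l with
  | nil => simp at h
  | cons a l => exact ⟨a, rfl⟩

theorem FP_sound0 {α : Type} [Primcodable α] {c : Nat.Partrec.Code} {v : List α} {m x : ℕ}
    (h : ev0 c v m = some x) : ∃ w, w <+: v ∧ x ∈ c.eval (encode (m, w)) := by
  have h1 := FP_mem h
  obtain ⟨k, _, h2⟩ := List.mem_filterMap.1 h1
  exact ⟨v.take k, List.take_prefix _ _, Nat.Partrec.Code.evaln_sound h2⟩

theorem FP_sound1 {α : Type} [Primcodable α] {c : Nat.Partrec.Code} {v : List α} {m x : ℕ}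
    (h : ev1 c v m = some x) : ∃ w, w <+: v ∧ x ∈ c.eval (encode (m, w)) := by
  have h1 := FP_mem h
  obtain ⟨k, _, h2⟩ := List.mem_filterMap.1 h1
  obtain ⟨w, hw, hx⟩ := FP_sound0 h2
  exact ⟨w, hw.trans (List.take_prefix _ _), hx⟩

theorem FP_compl0 {α : Type} [Primcodable α] {c : Nat.Partrec.Code} {v : List α} {m k s x : ℕ}
    (hs : s ≤ v.length) (hk : k ≤ v.length)
    (h : Nat.Partrec.Code.evaln k c (encode (m, v.take s)) = some x) :
    ∃ y, ev0 c v m = some y := by
  unfold ev0
  refine FP_some (x := x) (List.mem_filterMap.2 ⟨s, List.mem_range.2 (by omega), ?_⟩)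
  exact Nat.Partrec.Code.evaln_mono hk h

theorem FP_compl1 {α : Type} [Primcodable α] {c : Nat.Partrec.Code} {v : List α} {m k s x : ℕ}
    (hs : s ≤ v.length) (hk : k ≤ v.length)
    (h : Nat.Partrec.Code.evaln k c (encode (m, v.take s)) = some x) :
    ∃ y, ev1 c v m = some y := by
  obtain ⟨y, hy⟩ := FP_compl0 hs hk h
  unfold ev1
  refine FP_some (x := y) (List.mem_filterMap.2 ⟨v.length, List.mem_range.2 (by omega), ?_⟩)
  rw [List.take_length]
  exact hy

theorem FP_code {α : Type} [Primcodable α] {F : ℕ → List α → Part ℕ} (hF : Partrec₂ F) :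
    ∃ c : Nat.Partrec.Code, ∀ n σ, c.eval (encode (n, σ)) = F n σ := by
  obtain ⟨c, hc⟩ := Nat.Partrec.Code.exists_code.1 hF
  refine ⟨c, fun n σ => ?_⟩
  rw [hc]
  simp only [encodek, Part.coe_some, Part.bind_some]
  exact Part.map_id' (fun x => rfl) _

theorem fnl_complete {α : Type} [Primcodable α] (G : List α → ℕ → Option Bool)
    (hG : Computable fun p : List α × ℕ => G p.1 p.2) :
    ∃ e, ∀ (Y : ℕ → α) (C : ℕ → Bool), (∀ s m b, G (pr Y s) m = some b → b = C m) →
      (∀ m, ∃ s b, G (pr Y s) m = some b) → ∀ m, ∃ s, fnl e (pr Y s) m = some (C m) := by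
  have hG1 : Computable (fun p : ℕ × List α =>
      (G p.2 p.1).map (fun b : Bool => if b then (1 : ℕ) else 0)) := by
    refine Computable.option_map (g := fun _ (b : Bool) => (if b then 1 else 0 : ℕ)) ?_ ?_
    · exact Computable.comp (f := fun p : List α × ℕ => G p.1 p.2)
        (g := fun p : ℕ × List α => (p.2, p.1)) hG (Computable.snd.pair Computable.fst)
    · exact comp_ite (c := fun p : (ℕ × List α) × Bool => p.2) Computable.snd
        (Computable.const 1) (Computable.const 0)
  obtain ⟨c, hc⟩ := FP_code (F := fun m v =>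
    (((G v m).map (fun b : Bool => if b then (1 : ℕ) else 0) : Option ℕ) : Part ℕ)) hG1.ofOption
  refine ⟨2 * encode c, fun Y C h1 h2 m => ?_⟩
  obtain ⟨s, b, hb⟩ := h2 m
  have h3 : (if b then 1 else 0 : ℕ) ∈ c.eval (encode (m, pr Y s)) := by
    rw [hc, hb]
    simp
  obtain ⟨k, hk⟩ := Nat.Partrec.Code.evaln_complete.1 h3
  have hlen : (pr Y (max k s)).length = max k s := pr_length Y _
  have h4 : (pr Y (max k s)).take s = pr Y s := pr_take Y (le_max_right k s)
  obtain ⟨x, hx⟩ := FP_compl1 (c := c) (v := pr Y (max k s)) (m := m) (k := k) (s := s)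
    (x := if b then 1 else 0) (by rw [hlen]; exact le_max_right _ _)
    (by rw [hlen]; exact le_max_left _ _) (by rw [h4]; exact hk)
  refine ⟨max k s, ?_⟩
  obtain ⟨w, hw, hxw⟩ := FP_sound1 hx
  have hwl : w.length ≤ max k s := by
    have := hw.length_le
    rwa [hlen] at this
  have hw1 : w = pr Y w.length := by
    rw [List.prefix_iff_eq_take, pr_take Y hwl] at hw
    exact hw
  rw [hw1, hc] at hxw
  have h5 : ∃ b', G (pr Y w.length) m = some b' ∧ x = if b' then 1 else 0 := by
    cases hgb : G (pr Y w.length) m with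
    | none => rw [hgb] at hxw; simp at hxw
    | some b' =>
      rw [hgb] at hxw
      refine ⟨b', rfl, ?_⟩
      simpa using hxw
  obtain ⟨b', hb', hxb⟩ := h5
  have hb'' := h1 _ _ _ hb'
  unfold fnl
  have h6 : ¬ (2 * encode c) % 2 = 1 := by omega
  have h7 : 2 * encode c / 2 = encode c := by omega
  rw [if_neg h6, h7, Denumerable.ofNat_encode, hx, Option.map_some, hxb, hb'']
  cases C m <;> simp

end Pool.Agent.KAP
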