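import Mathlib
import Pool.Agent.KAP.FP

/-!
KAP, module FQ. Completeness for `Phi` and `Psi`, and monotonicity.
Proofs: (Phi) `Ar A C` gives computable `H1`, `H0` with `C m = true <-> exists s, H1 m (pre A s)` and
`C m = false <-> exists s, H0 m (pre A s)`.  Use `fnl_complete` with
`G v m = if H1 m v then some true else if H0 m v then some false else none`
(`pre A s = pr A s` by `rfl`).
(Psi) The same, with oracle `gr B`: the string `pre (gr B) s` is computable from `pr B s`: for
`p < s` one has `p.unpair.1 <= p < s`, so `gr B p = decide ((pr B s)[p.unpair.1]?.map encode =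
some p.unpair.2)`.
-/

set_option autoImplicit false

namespace Pool.Agent.KAP

open Encodable Pool.Agent.H19 Pool.Agent.H24P

theorem Phi_mono {e : ℕ} {u u' : Str} {m : ℕ} {b : Bool} (h : u <+: u')
    (hx : Phi e u m = some b) : Phi e u' m = some b := fnl_mono h hx

theorem Psi_mono {i : ℕ} {β β' : List Sym} {m : ℕ} {b : Bool} (h : β <+: β')
    (hx : Psi i β m = some b) : Psi i β' m = some b := fnl_mono h hx

private def FQG (H1 H0 : ℕ → List Bool → Bool) (v : List Bool) (m : ℕ) : Option Bool :=
  if H1 m v then some true else if H0 m v then some false else none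

private theorem FQG_comp {H1 H0 : ℕ → List Bool → Bool} (h1 : Computable₂ H1)
    (h0 : Computable₂ H0) : Computable fun p : List Bool × ℕ => FQG H1 H0 p.1 p.2 :=
  comp_ite (c := fun p : List Bool × ℕ => H1 p.2 p.1) (h1.comp Computable.snd Computable.fst)
    (Computable.const (some true))
    (comp_ite (c := fun p : List Bool × ℕ => H0 p.2 p.1) (h0.comp Computable.snd Computable.fst)
      (Computable.const (some false)) (Computable.const none))

private theorem FQG_sound {H1 H0 : ℕ → List Bool → Bool} {A C : ℕ → Bool}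
    (h1 : ∀ m, C m = true ↔ ∃ s, H1 m (pre A s) = true)
    (h0 : ∀ m, C m = false ↔ ∃ s, H0 m (pre A s) = true) {s m : ℕ} {b : Bool}
    (h : FQG H1 H0 (pre A s) m = some b) : b = C m := by
  unfold FQG at h
  by_cases c1 : H1 m (pre A s) = true
  · rw [if_pos c1] at h
    rw [(h1 m).2 ⟨s, c1⟩]
    exact (Option.some.inj h).symm
  · rw [if_neg c1] at h
    by_cases c0 : H0 m (pre A s) = true
    · rw [if_pos c0] at h
      rw [(h0 m).2 ⟨s, c0⟩]
      exact (Option.some.inj h).symm
    · rw [if_neg c0] at h
      exact absurd h (by simp)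

private theorem FQG_total {H1 H0 : ℕ → List Bool → Bool} {A C : ℕ → Bool}
    (h1 : ∀ m, C m = true ↔ ∃ s, H1 m (pre A s) = true)
    (h0 : ∀ m, C m = false ↔ ∃ s, H0 m (pre A s) = true) (m : ℕ) :
    ∃ s b, FQG H1 H0 (pre A s) m = some b := by
  cases hC : C m with
  | true =>
    obtain ⟨s, hs⟩ := (h1 m).1 hC
    exact ⟨s, true, by unfold FQG; rw [if_pos hs]⟩
  | false =>
    obtain ⟨s, hs⟩ := (h0 m).1 hC
    by_cases c1 : H1 m (pre A s) = true
    · exact ⟨s, true, by unfold FQG; rw [if_pos c1]⟩
    · exact ⟨s, false, by unfold FQG; rw [if_neg c1, if_pos hs]⟩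

theorem Phi_complete {A C : ℕ → Bool} (h : Ar A C) :
    ∃ e, ∀ m, ∃ s, Phi e (pre A s) m = some (C m) := by
  obtain ⟨⟨H1, c1, h1⟩, ⟨H0, c0, h0⟩⟩ := h
  obtain ⟨e, he⟩ := fnl_complete (FQG H1 H0) (FQG_comp c1 c0)
  exact ⟨e, he A C (fun s m b hb => FQG_sound h1 h0 hb) (FQG_total h1 h0)⟩

/-- The initial segment of the graph, computed from the initial segment of the sequence. -/
private def FQS (β : List Sym) : List Bool :=
  (List.range β.length).map fun p => decide (β[p.unpair.1]?.map encode = some p.unpair.2)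

private theorem FQS_comp : Computable FQS := by
  refine comp_list_map (f := fun β : List Sym => List.range β.length)
    (g := fun (β : List Sym) (p : ℕ) => decide (β[p.unpair.1]?.map encode = some p.unpair.2))
    (comp_range Computable.list_length) ?_
  refine comp_decEq (f := fun q : List Sym × ℕ => q.1[q.2.unpair.1]?.map encode)
    (g := fun q : List Sym × ℕ => some q.2.unpair.2) ?_ ?_
  · exact Computable.option_map
      (Computable.list_getElem?.comp Computable.fst
        (Computable.fst.comp (Computable.unpair.comp Computable.snd)))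
      (Computable.encode.comp Computable.snd)
  · exact Computable.option_some.comp
      (Computable.snd.comp (Computable.unpair.comp Computable.snd))

private theorem FQS_eq (B : ℕ → Sym) (s : ℕ) : FQS (pr B s) = pre (gr B) s := by
  unfold FQS pre
  rw [pr_length]
  refine List.map_congr_left fun p hp => ?_
  have h1 : p.unpair.1 < s := lt_of_le_of_lt (Nat.unpair_left_le p) (List.mem_range.1 hp)
  rw [pr_getElem? B h1]
  simp [gr]

theorem Psi_complete {B : ℕ → Sym} {A : ℕ → Bool} (h : Ar (gr B) A) :
    ∃ i, ∀ m, ∃ s, Psi i (pr B s) m = some (A m) := by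
  obtain ⟨⟨H1, c1, h1⟩, ⟨H0, c0, h0⟩⟩ := h
  obtain ⟨e, he⟩ := fnl_complete (fun (β : List Sym) m => FQG H1 H0 (FQS β) m)
    ((FQG_comp c1 c0).comp ((FQS_comp.comp Computable.fst).pair Computable.snd))
  refine ⟨e, he B A (fun s m b hb => ?_) fun m => ?_⟩
  · rw [FQS_eq] at hb
    exact FQG_sound h1 h0 hb
  · obtain ⟨s, b, hb⟩ := FQG_total h1 h0 m
    exact ⟨s, b, by rw [FQS_eq]; exact hb⟩

end Pool.Agent.KAP
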