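import Mathlib
import Pool.Agent.KAP.FQ

/-!
KAP, module AM. Basic monotonicity facts.
Proofs: directly from the definitions; `Unk_suffix` by induction on the longer context;
`Allow_mono`: for an event with identifier `q` and a decomposition `P = P1 ++ t :: P2`, `tid t = q`:
by `LeE` either `q ∈ F'` (excluded) or `P' = P1' ++ t :: P2`, and `al K κ P2 β u` implies
`al K κs P2 β u` by `Unk_suffix`; for a column symbol use `κs.length ≤ κ.length`.
-/

set_option autoImplicit false

namespace Pool.Agent.KAP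

open Encodable Pool.Agent.H19 Pool.Agent.H24P

theorem Node_mono {β γ : List Sym} {t : Tree} {y : Str} (h : Node β t y) :
    Node (β ++ γ) t y := by
  rcases h with h | ⟨y0, u, v, h1, h2⟩
  · exact Or.inl h
  · exact Or.inr ⟨y0, u, v, List.mem_append.2 (Or.inl h1), h2⟩

theorem NTop_mono {β γ : List Sym} {P : List Tree} {y : Str} (h : NTop β P y) :
    NTop (β ++ γ) P y := fun t ht => Node_mono (h t ht)

theorem exists_short (β : List Sym) : ∃ n, ∀ m, n ≤ m → Short β m := by
  induction β with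
  | nil => exact ⟨0, fun m _ q y u v h => absurd h (by simp)⟩
  | cons a β ih =>
    obtain ⟨n, hn⟩ := ih
    rcases a with ⟨q0, y0, u0, v0⟩ | e
    · refine ⟨n + (y0.length + u0.length + v0.length), fun m hm q y u v h => ?_⟩
      rcases List.mem_cons.1 h with h | h
      · have h1 : (q, y, u, v) = (q0, y0, u0, v0) := Sum.inl.inj h
        simp only [Prod.mk.injEq] at h1
        obtain ⟨-, rfl, rfl, rfl⟩ := h1
        omega
      · exact hn m (by omega) q y u v h
    · refine ⟨n, fun m hm q y u v h => ?_⟩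
      rcases List.mem_cons.1 h with h | h
      · exact absurd h (by simp)
      · exact hn m hm q y u v h

theorem Unk_suffix {K : ℕ → ℕ → Bool} {κs κ : Ctx} (hs : κs <:+ κ) {β : List Sym} {y : Str}
    (h : Unk K κ β y) : Unk K κs β y := by
  induction κ with
  | nil =>
    rw [List.suffix_nil.1 hs]
    exact h
  | cons x κ ih =>
    rcases List.suffix_cons_iff.1 hs with h1 | h1
    · rw [h1]
      exact h
    · refine ih h1 ?_
      cases x with
      | none => exact h
      | some it => exact h.1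

theorem al_suffix {K : ℕ → ℕ → Bool} {κs κ : Ctx} (hs : κs <:+ κ) {P : List Tree}
    {β : List Sym} {z : Str} (h : al K κ P β z) : al K κs P β z := fun n => by
  obtain ⟨y, h1, h2, h3, h4⟩ := h n
  exact ⟨y, h1, h2, h3, Unk_suffix hs h4⟩

theorem al_pre {K : ℕ → ℕ → Bool} {κ : Ctx} {P : List Tree} {β : List Sym} {w z : Str}
    (hw : w <+: z) (h : al K κ P β z) : al K κ P β w := fun n => by
  obtain ⟨y, h1, h2, h3, h4⟩ := h n
  exact ⟨y, h1, hw.trans h2, h3, h4⟩

theorem LeE_refl (P : List Tree) (F : List ℕ) : LeE P F P F :=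
  ⟨fun _ h => h, fun P1 _ _ h => Or.inr ⟨P1, h⟩⟩

theorem LeE_trans {P F P' F' P'' F''} (h1 : LeE P F P' F') (h2 : LeE P' F' P'' F'') :
    LeE P F P'' F'' := by
  refine ⟨fun _ h => h2.1 (h1.1 h), fun P1 t P2 h => ?_⟩
  rcases h1.2 P1 t P2 h with h3 | ⟨P1', h3⟩
  · exact Or.inl (h2.1 h3)
  · exact h2.2 P1' t P2 h3

theorem LeI_trans {it : Item} {P' F' P'' F''} (h1 : LeI it P' F') (h2 : LeE P' F' P'' F'') :
    LeI it P'' F'' := by
  refine ⟨fun _ h => h2.1 (h1.1 h), fun P1 t P2 h => ?_⟩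
  rcases h1.2 P1 t P2 h with h3 | ⟨h3, P1', h4⟩
  · exact Or.inl (h2.1 h3)
  · rcases h2.2 P1' t P2 h4 with h5 | h5
    · exact Or.inl h5
    · exact Or.inr ⟨h3, h5⟩

theorem LeE_of_LeI {it : Item} {P' F'} (h : LeI it P' F') : LeE it.1 it.2.2 P' F' := by
  refine ⟨h.1, fun P1 t P2 h1 => ?_⟩
  rcases h.2 P1 t P2 h1 with h2 | ⟨-, h2⟩
  · exact Or.inl h2
  · exact Or.inr h2

theorem Allow_mono {K : ℕ → ℕ → Bool} {κ κs : Ctx} {P P' : List Tree} {F F' : List ℕ}
    {β : List Sym} {a : Sym} (hs : κs <:+ κ) (hle : LeE P F P' F')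
    (h : Allow K (al K κ) κ.length P' F' β a) : Allow K (al K κs) κs.length P F β a := by
  rcases a with ⟨q, y, u, v⟩ | ⟨n, q, b⟩
  · obtain ⟨h1, h2⟩ := h
    refine ⟨fun h3 => h1 (hle.1 h3), fun P1 t P2 hP ht => ?_⟩
    rcases hle.2 P1 t P2 hP with h4 | ⟨P1', h4⟩
    · rw [ht] at h4
      exact absurd h4 h1
    · obtain ⟨h5, h6, h7⟩ := h2 P1' t P2 h4 ht
      exact ⟨h5, al_suffix hs h6, al_suffix hs h7⟩
  · intro h1
    exact h (lt_of_lt_of_le h1 hs.length_le)

theorem Ext_nil {S : List Sym → Sym → Prop} (β : List Sym) : Ext S β [] := by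
  intro γ1 a γ2 h
  exact absurd h (by simp)

theorem Ext_cons {S : List Sym → Sym → Prop} {β γ : List Sym} {a : Sym} :
    Ext S β (a :: γ) ↔ S β a ∧ Ext S (β ++ [a]) γ := by
  constructor
  · intro h
    refine ⟨?_, fun γ1 b γ2 hγ => ?_⟩
    · have := h [] a γ rfl
      rwa [List.append_nil] at this
    · have := h (a :: γ1) b γ2 (by rw [hγ]; rfl)
      rwa [List.append_cons] at this
  · rintro ⟨h1, h2⟩ γ1 b γ2 hγ
    cases γ1 with
    | nil =>
      have h3 : a = b ∧ γ = γ2 := by simpa using hγ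
      rw [List.append_nil, ← h3.1]
      exact h1
    | cons c γ1 =>
      have h3 : a = c ∧ γ = γ1 ++ b :: γ2 := by simpa using hγ
      rw [← h3.1, List.append_cons]
      exact h2 γ1 b γ2 h3.2

theorem Ext_snoc {S : List Sym → Sym → Prop} {β γ : List Sym} {a : Sym} :
    Ext S β (γ ++ [a]) ↔ Ext S β γ ∧ S (β ++ γ) a := by
  induction γ generalizing β with
  | nil =>
    rw [List.nil_append, Ext_cons, List.append_nil]
    exact ⟨fun h => ⟨Ext_nil β, h.1⟩, fun h => ⟨h.2, Ext_nil _⟩⟩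
  | cons c γ ih =>
    rw [List.cons_append, Ext_cons, Ext_cons, ih, and_assoc, List.append_cons β c γ]

theorem Ext_mono {S S' : List Sym → Sym → Prop} {β γ : List Sym} (h : ∀ β a, S β a → S' β a)
    (hγ : Ext S β γ) : Ext S' β γ := fun γ1 a γ2 h1 => h _ _ (hγ γ1 a γ2 h1)

end Pool.Agent.KAP
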