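import Mathlib
import Pool.Agent.KAP.CA

/-!
KAP, module JA. The jump.
Proofs: (1) Let `H` be as in the definition of `Sg` and let `c` be a code with
`eval c (pair n (pair e k))` defined iff `n = encode a`, `k = encode (L : List ℕ)` and
`H a (L.map (fun i => decide (i = 1))) = true` (a function which is recursive on its domain:
`Nat.Partrec.Code.exists_code`).  Put `f a = encode (Nat.Partrec.Code.curry c (encode a))`, which is
computable (`Nat.Partrec.Code.primrec₂_curry`).  Unfolding `Zj (n + 1)` once (by `Iff.rfl`) and using
`Nat.Partrec.Code.eval_curry`, `Zj (n + 1) (f a)` iff `exists k, H a (pre (Zs n) k) = true` iff `P a`.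
(2) is (1) for `P e = (Zs n e = true)` and `oracle`.
(3) If `Ar (Zs n) (Zs (n + 1))`, then `Zs (n + 1) e = false` is `Sg (Zs n)`, by `H`.  Let `c` be a code
with `eval c (pair e (encode L))` defined iff `H e (L.map ..) = true`, and `e = encode c`; then
`Zs (n + 1) e = true` iff `Zs (n + 1) e = false`.
-/

set_option autoImplicit false

namespace Pool.Agent.KAP

open Encodable Pool.Agent.H19 Pool.Agent.H24P

private theorem JA_code {G : ℕ → Option ℕ} (hG : Computable G) :
    ∃ c : Nat.Partrec.Code, ∀ p, (Nat.Partrec.Code.eval c p).Dom ↔ (G p).isSome = true := by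
  have h1 : Partrec (fun p => (G p : Part ℕ)) := Computable.ofOption hG
  obtain ⟨c, hc⟩ := Nat.Partrec.Code.exists_code.1 (Partrec.nat_iff.1 h1)
  refine ⟨c, fun p => ?_⟩
  rw [hc]
  cases hg : G p with
  | none => simp [hg]
  | some x => simp [hg]

private theorem JA_map {α : Type} [Primcodable α] {f : α → List ℕ} (hf : Computable f) :
    Computable (fun a => (f a).map (fun i => decide (i = 1))) :=
  comp_list_map (g := fun _ i => decide (i = 1)) hf
    (comp_decEq Computable.snd (Computable.const 1))

private theorem JA_list (n k : ℕ) :
    ((List.range k).map (fun i => @ite ℕ (Zj n i) (Classical.propDecidable _) 1 0)).map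
      (fun i => decide (i = 1)) = pre (Zs n) k := by
  rw [List.map_map]
  refine List.map_congr_left fun i _ => ?_
  simp only [Function.comp, Zs]
  by_cases h : Zj n i <;> simp [h]

private theorem JA_Zj (n e : ℕ) : Zj (n + 1) e ↔ ∃ k : ℕ,
    (Nat.Partrec.Code.eval (Denumerable.ofNat Nat.Partrec.Code e)
      (Nat.pair e (Encodable.encode
        ((List.range k).map (fun i => @ite ℕ (Zj n i) (Classical.propDecidable _) 1 0))))).Dom :=
  Iff.rfl

theorem exists_jump_reduction {n : ℕ} {α : Type} [Primcodable α] {P : α → Prop}
    (h : Sg (Zs n) P) : ∃ f : α → ℕ, Computable f ∧ ∀ a, P a ↔ Zs (n + 1) (f a) = true := by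
  obtain ⟨H, hH, hP⟩ := h
  let G : ℕ → Option ℕ := fun p => (decode (α := α) p.unpair.1).bind fun a =>
    (decode (α := List ℕ) p.unpair.2.unpair.2).bind fun L =>
      if H a (L.map (fun i => decide (i = 1))) then some 0 else none
  have hG : Computable G := by
    refine Computable.option_bind (f := fun p : ℕ => decode (α := α) p.unpair.1)
      (g := fun p a => (decode (α := List ℕ) p.unpair.2.unpair.2).bind fun L =>
      if H a (L.map (fun i => decide (i = 1))) then some 0 else none) ?_ ?_
    · exact Computable.decode.comp (Computable.fst.comp Computable.unpair)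
    · refine Computable.option_bind
        (f := fun q : ℕ × α => decode (α := List ℕ) q.1.unpair.2.unpair.2)
        (g := fun q L => if H q.2 (L.map (fun i => decide (i = 1))) then some 0 else none) ?_ ?_
      · exact Computable.decode.comp (Computable.snd.comp (Computable.unpair.comp
          (Computable.snd.comp (Computable.unpair.comp Computable.fst))))
      · exact comp_ite (c := fun x : (ℕ × α) × List ℕ =>
            H x.1.2 (x.2.map (fun i => decide (i = 1))))
          (hH.comp (Computable.snd.comp Computable.fst) (JA_map Computable.snd))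
          (Computable.const (some 0)) (Computable.const none)
  obtain ⟨c, hc⟩ := JA_code hG
  refine ⟨fun a => encode (Nat.Partrec.Code.curry c (encode a)), ?_, fun a => ?_⟩
  · exact Computable.encode.comp (Nat.Partrec.Code.primrec₂_curry.to_comp.comp
      (Computable.const c) Computable.encode)
  · have h1 : Zs (n + 1) (encode (Nat.Partrec.Code.curry c (encode a))) = true ↔
        Zj (n + 1) (encode (Nat.Partrec.Code.curry c (encode a))) := by simp [Zs]
    rw [h1, JA_Zj, hP]
    refine exists_congr fun k => ?_
    rw [Denumerable.ofNat_encode, Nat.Partrec.Code.eval_curry, hc]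
    simp only [G, Nat.unpair_pair, encodek, Option.bind_some]
    rw [JA_list]
    cases H a (pre (Zs n) k) <;> simp

theorem Sg.jump {n : ℕ} {α : Type} [Primcodable α] {P : α → Prop} (h : Sg (Zs n) P) :
    Dc (Zs (n + 1)) P := by
  obtain ⟨f, hf, hP⟩ := exists_jump_reduction h
  exact ((Dc.oracle (Zs (n + 1))).comp hf).congr fun a => (hP a).symm

theorem ar_succ (n : ℕ) : Ar (Zs (n + 1)) (Zs n) :=
  ar_iff_dc.2 (Sg.jump (Sg.oracle (Zs n) true))

theorem not_ar_succ (n : ℕ) : ¬ Ar (Zs n) (Zs (n + 1)) := by
  intro h
  obtain ⟨H, hH, hP⟩ := h.2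
  let G : ℕ → Option ℕ := fun p => (decode (α := List ℕ) p.unpair.2).bind fun L =>
      if H p.unpair.1 (L.map (fun i => decide (i = 1))) then some 0 else none
  have hG : Computable G := by
    refine Computable.option_bind
        (f := fun q : ℕ => decode (α := List ℕ) q.unpair.2)
        (g := fun q L => if H q.unpair.1 (L.map (fun i => decide (i = 1))) then some 0
          else none) ?_ ?_
    · exact Computable.decode.comp (Computable.snd.comp Computable.unpair)
    · exact comp_ite (c := fun x : ℕ × List ℕ =>
            H x.1.unpair.1 (x.2.map (fun i => decide (i = 1))))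
          (hH.comp (Computable.fst.comp (Computable.unpair.comp Computable.fst))
            (JA_map Computable.snd))
          (Computable.const (some 0)) (Computable.const none)
  obtain ⟨c, hc⟩ := JA_code hG
  have h1 : Zj (n + 1) (encode c) ↔ ∃ s, H (encode c) (pre (Zs n) s) = true := by
    rw [JA_Zj]
    refine exists_congr fun k => ?_
    rw [Denumerable.ofNat_encode, hc]
    simp only [G, Nat.unpair_pair, encodek, Option.bind_some]
    rw [JA_list]
    cases H (encode c) (pre (Zs n) k) <;> simp
  have h2 := hP (encode c)
  rw [← h1] at h2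
  by_cases h3 : Zj (n + 1) (encode c) <;> simp [Zs, h3] at h2

end Pool.Agent.KAP
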