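import Mathlib
import Pool.Agent.KAP.JA

/-!
KAP, module AR. Closure properties of arithmetical relations.
Proofs: `Arith P` means `Dc (Zs n) P` for some `n`.  By `ar_succ` and `Ar.trans`, `Ar (Zs m) (Zs n)` for
`n <= m`, so one may raise `n` (`Dc.trans`).  `ex`: `Dc (Zs n) Q` gives `Sg (Zs n)` of the projection
(`Sg.ex`), then `Sg.jump`.  `all` by negation.  `not_arith_of_above`: if `Ar (Zs m) Z`, then by
`Above Z` and `Ar.trans`, `Ar (Zs m) (Zs (m + 1))`, against `not_ar_succ`.  `Zom_not_arith`: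
`Zs (n + 1) q = Zom (Nat.pair (n + 1) q)`.
-/

set_option autoImplicit false

namespace Pool.Agent.KAP

open Encodable Pool.Agent.H19 Pool.Agent.H24P

variable {α β : Type} [Primcodable α] [Primcodable β]

theorem ar_le {n m : ℕ} (h : n ≤ m) : Ar (Zs m) (Zs n) := by
  induction h with
  | refl => exact Ar.refl _
  | step _ ih => exact Ar.trans (ar_succ _) ih

private theorem AR_two {P : α → Prop} {Q : β → Prop} (hP : Arith P) (hQ : Arith Q) :
    ∃ n, Dc (Zs n) P ∧ Dc (Zs n) Q := by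
  obtain ⟨n, hn⟩ := hP
  obtain ⟨m, hm⟩ := hQ
  exact ⟨max n m, Dc.trans (ar_le (le_max_left _ _)) hn,
    Dc.trans (ar_le (le_max_right _ _)) hm⟩

theorem Arith.of_comp {p : α → Bool} (hp : Computable p) : Arith (fun a => p a = true) :=
  ⟨0, Dc.of_comp hp⟩

theorem Arith.const (p : Prop) : Arith (fun _ : α => p) := ⟨0, Dc.const _ p⟩

theorem Arith.congr {P Q : α → Prop} (h : Arith P) (e : ∀ a, P a ↔ Q a) : Arith Q := by
  have : P = Q := funext fun a => propext (e a)
  rwa [← this]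

theorem Arith.and {P Q : α → Prop} (hP : Arith P) (hQ : Arith Q) :
    Arith (fun a => P a ∧ Q a) := by
  obtain ⟨n, h1, h2⟩ := AR_two hP hQ
  exact ⟨n, h1.and h2⟩

theorem Arith.or {P Q : α → Prop} (hP : Arith P) (hQ : Arith Q) :
    Arith (fun a => P a ∨ Q a) := by
  obtain ⟨n, h1, h2⟩ := AR_two hP hQ
  exact ⟨n, h1.or h2⟩

theorem Arith.not {P : α → Prop} (hP : Arith P) : Arith (fun a => ¬ P a) := by
  obtain ⟨n, hn⟩ := hP
  exact ⟨n, hn.not⟩

theorem Arith.imp {P Q : α → Prop} (hP : Arith P) (hQ : Arith Q) :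
    Arith (fun a => P a → Q a) := by
  obtain ⟨n, h1, h2⟩ := AR_two hP hQ
  exact ⟨n, h1.imp h2⟩

theorem Arith.iff {P Q : α → Prop} (hP : Arith P) (hQ : Arith Q) :
    Arith (fun a => P a ↔ Q a) := by
  obtain ⟨n, h1, h2⟩ := AR_two hP hQ
  exact ⟨n, h1.iff h2⟩

theorem Arith.ex {Q : α → β → Prop} (h : Arith (fun p : α × β => Q p.1 p.2)) :
    Arith (fun a => ∃ b, Q a b) := by
  obtain ⟨n, hn⟩ := h
  exact ⟨n + 1, Sg.jump (Sg.ex (Q := Q) hn.1)⟩

theorem Arith.all {Q : α → β → Prop} (h : Arith (fun p : α × β => Q p.1 p.2)) :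
    Arith (fun a => ∀ b, Q a b) := by
  have h1 : Arith (fun p : α × β => ¬ Q p.1 p.2) := Arith.not h
  have h2 : Arith (fun a => ∃ b, ¬ Q a b) := Arith.ex (Q := fun a b => ¬ Q a b) h1
  exact (Arith.not h2).congr fun a => by push Not; rfl

theorem Arith.comp {P : β → Prop} (h : Arith P) {f : α → β} (hf : Computable f) :
    Arith (fun a => P (f a)) := by
  obtain ⟨n, hn⟩ := h
  exact ⟨n, hn.comp hf⟩

theorem Arith.eq_comp [DecidableEq β] {f g : α → β} (hf : Computable f) (hg : Computable g) :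
    Arith (fun a => f a = g a) := ⟨0, Dc.eq_comp hf hg⟩

theorem Arith.le_comp {f g : α → ℕ} (hf : Computable f) (hg : Computable g) :
    Arith (fun a => f a ≤ g a) := ⟨0, Dc.le_comp hf hg⟩

theorem Arith.lt_comp {f g : α → ℕ} (hf : Computable f) (hg : Computable g) :
    Arith (fun a => f a < g a) := ⟨0, Dc.lt_comp hf hg⟩

theorem Arith.mem_list [DecidableEq β] {f : α → β} {l : α → List β}
    (hf : Computable f) (hl : Computable l) : Arith (fun a => f a ∈ l a) :=
  ⟨0, Dc.mem_list hf hl⟩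

theorem Arith.isPre {f g : α → List Bool} (hf : Computable f) (hg : Computable g) :
    Arith (fun a => f a <+: g a) := ⟨0, Dc.isPre hf hg⟩

theorem Arith.sum {P : α ⊕ β → Prop} (h1 : Arith (fun a => P (Sum.inl a)))
    (h2 : Arith (fun b => P (Sum.inr b))) : Arith P := by
  obtain ⟨n, h3, h4⟩ := AR_two h1 h2
  exact ⟨n, Dc.sum h3 h4⟩

theorem Arith.zs (n : ℕ) : Arith (fun q => Zs n q = true) := ⟨n, Dc.oracle _⟩

theorem Arith.dc {Z : ℕ → Bool} (hZ : Above Z) {P : α → Prop} (h : Arith P) : Dc Z P := by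
  obtain ⟨n, hn⟩ := h
  exact Dc.trans (hZ n) hn

theorem not_arith_of_above {Z : ℕ → Bool} (hZ : Above Z) : ¬ Arith (fun n => Z n = true) := by
  rintro ⟨m, hm⟩
  exact not_ar_succ m (Ar.trans (ar_iff_dc.2 hm) (hZ (m + 1)))

theorem Zom_not_arith : ¬ Arith (fun m => Zom m = true) := by
  rintro ⟨n, hn⟩
  refine not_ar_succ n (ar_iff_dc.2 ?_)
  have h1 : Computable (fun q : ℕ => Nat.pair (n + 1) q) :=
    comp_natpair (Computable.const (n + 1)) Computable.id
  refine (hn.comp h1).congr fun q => ?_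
  simp only [Zom, Nat.unpair_pair]

end Pool.Agent.KAP
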