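import Mathlib
import Pool.Agent.KAP.CA

/-!
KAP, module FC. Computability of the functionals.
Proof: `Nat.Partrec.Code.primrec_evaln`, `Primrec.listFilterMap`, `Primrec.list_head?`,
`Primrec.list_range`, `Primrec.list_take` and so on (or the combinators of
Pool/Agent/H19/CompList.lean, replacing `(l.filterMap f).head?` by a fold).
-/

set_option autoImplicit false

namespace Pool.Agent.KAP

open Encodable Pool.Agent.H19 Pool.Agent.H24P

theorem FC_first {α β γ : Type} [Primcodable α] [Primcodable β] [Primcodable γ]
    {f : α → List β} {g : α → β → Option γ} (hf : Computable f) (hg : Computable₂ g) :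
    Computable fun a => ((f a).filterMap (g a)).head? := by
  have h1 : Computable₂ (fun (a : α) (b : β) => (g a b).toList) := by
    have h2 : Computable (fun p : α × β =>
        (Option.casesOn (g p.1 p.2) [] (fun x => [x]) : List γ)) := by
      refine Computable.option_casesOn (o := fun p : α × β => g p.1 p.2) (f := fun _ => [])
        (g := fun _ x => [x]) hg (Computable.const []) ?_
      exact Computable.list_cons.comp Computable.snd (Computable.const [])
    refine h2.of_eq fun p => ?_
    beta_reduce
    cases g p.1 p.2 <;> rfl
  have h3 := Primrec.list_head?.to_comp.comp (comp_list_flatMap hf h1)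
  refine h3.of_eq fun a => ?_
  have h4 : (f a).flatMap (fun b => (g a b).toList) = (f a).filterMap (g a) := by
    induction f a with
    | nil => rfl
    | cons b l ih =>
      rw [List.flatMap_cons, ih, List.filterMap_cons]
      cases g a b <;> rfl
  rw [h4]

theorem FC_ev0 {α : Type} [Primcodable α] :
    Computable (fun p : Nat.Partrec.Code × List α × ℕ => ev0 p.1 p.2.1 p.2.2) := by
  unfold ev0
  refine FC_first (f := fun p : Nat.Partrec.Code × List α × ℕ => List.range (p.2.1.length + 1))
    (g := fun p k => Nat.Partrec.Code.evaln p.2.1.length p.1 (encode (p.2.2, p.2.1.take k)))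
    ?_ ?_
  · exact comp_range (Computable.succ.comp (Computable.list_length.comp
      (Computable.fst.comp Computable.snd)))
  · have h1 := Nat.Partrec.Code.primrec_evaln.to_comp
    have hv : Computable (fun q : (Nat.Partrec.Code × List α × ℕ) × ℕ => q.1.2.1) :=
      Computable.fst.comp (Computable.snd.comp Computable.fst)
    exact h1.comp (((Computable.list_length.comp hv).pair
      (Computable.fst.comp Computable.fst)).pair
      (Computable.encode.comp ((Computable.snd.comp (Computable.snd.comp Computable.fst)).pair
        (comp_take Computable.snd hv))))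

theorem FC_ev1 {α : Type} [Primcodable α] :
    Computable (fun p : Nat.Partrec.Code × List α × ℕ => ev1 p.1 p.2.1 p.2.2) := by
  unfold ev1
  refine FC_first (f := fun p : Nat.Partrec.Code × List α × ℕ => List.range (p.2.1.length + 1))
    (g := fun p n => ev0 p.1 (p.2.1.take n) p.2.2) ?_ ?_
  · exact comp_range (Computable.succ.comp (Computable.list_length.comp
      (Computable.fst.comp Computable.snd)))
  · have hv : Computable (fun q : (Nat.Partrec.Code × List α × ℕ) × ℕ => q.1.2.1) :=
      Computable.fst.comp (Computable.snd.comp Computable.fst)
    exact Computable.comp (f := fun p : Nat.Partrec.Code × List α × ℕ => ev0 p.1 p.2.1 p.2.2)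
      (g := fun q : (Nat.Partrec.Code × List α × ℕ) × ℕ =>
        (q.1.1, q.1.2.1.take q.2, q.1.2.2)) FC_ev0
      ((Computable.fst.comp Computable.fst).pair
      ((comp_take Computable.snd hv).pair
        (Computable.snd.comp (Computable.snd.comp Computable.fst))))

theorem fnl_computable {α : Type} [Primcodable α] :
    Computable (fun p : ℕ × List α × ℕ => fnl p.1 p.2.1 p.2.2) := by
  unfold fnl
  have h1 : Computable (fun p : ℕ × List α × ℕ => decide (p.1 % 2 = 1)) :=
    comp_decEq (Primrec.nat_mod.to_comp.comp Computable.fst (Computable.const 2))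
      (Computable.const 1)
  have h2 : Computable (fun p : ℕ × List α × ℕ =>
      (ev1 (Denumerable.ofNat Nat.Partrec.Code (p.1 / 2)) p.2.1 p.2.2).map
        fun x => decide (x = 1)) := by
    refine Computable.option_map (g := fun _ x => decide (x = 1)) ?_ ?_
    · have h3 : Computable (fun p : ℕ × List α × ℕ =>
          Denumerable.ofNat Nat.Partrec.Code (p.1 / 2)) :=
        (Computable.ofNat Nat.Partrec.Code).comp
          (Primrec.nat_div.to_comp.comp Computable.fst (Computable.const 2))
      exact Computable.comp (f := fun p : Nat.Partrec.Code × List α × ℕ => ev1 p.1 p.2.1 p.2.2)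
        (g := fun p : ℕ × List α × ℕ => (Denumerable.ofNat Nat.Partrec.Code (p.1 / 2), p.2))
        FC_ev1 (h3.pair Computable.snd)
    · exact comp_decEq Computable.snd (Computable.const 1)
  refine (comp_ite h1 (Computable.const none) h2).of_eq fun p => ?_
  by_cases h : p.1 % 2 = 1 <;> simp [h]

theorem Phi_computable : Computable (fun p : ℕ × Str × ℕ => Phi p.1 p.2.1 p.2.2) := by
  exact fnl_computable

theorem Psi_computable : Computable (fun p : ℕ × List Sym × ℕ => Psi p.1 p.2.1 p.2.2) := by
  exact fnl_computable

end Pool.Agent.KAP
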