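import Mathlib
import Pool.Agent.KAP.AR
import Pool.Agent.KAP.FC

/-!
KAP, module AT. Atomic relations are arithmetical.
Proofs: write each relation as a first-order formula over `∈`, `<+:`, equality of computable functions
(`Arith.mem_list`, `Arith.isPre`, `Arith.eq_comp`, ...) and use the closure properties of module AR
(quantifiers may be unbounded).  The element `ev q y u v` is a computable function of `(q, y, u, v)`
(`Computable.sumInl` composed with pairing).  `Split`: `Phi_computable`.  In `arith_WF` the argument is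
`(β, t, P2, y, u, v)`.  `arith_head`: `P.head? = some t` is `Arith.eq_comp` for
`Primrec.list_head?`.
-/

set_option autoImplicit false

namespace Pool.Agent.KAP

open Encodable Pool.Agent.H19 Pool.Agent.H24P

private theorem AT_ev {α : Type} [Primcodable α] {q : α → ℕ} {y u v : α → Str}
    (hq : Computable q) (hy : Computable y) (hu : Computable u) (hv : Computable v) :
    Computable fun a => ev (q a) (y a) (u a) (v a) :=
  Computable.sumInl.comp (hq.pair (hy.pair (hu.pair hv)))

private theorem AT_f1 {α β : Type} [Primcodable α] [Primcodable β] :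
    Computable fun p : α × β => p.1 := Computable.fst

private theorem AT_f2 {α β γ : Type} [Primcodable α] [Primcodable β] [Primcodable γ] :
    Computable fun p : (α × β) × γ => p.1.1 := Computable.fst.comp Computable.fst

private theorem AT_f3 {α β γ δ : Type} [Primcodable α] [Primcodable β] [Primcodable γ]
    [Primcodable δ] : Computable fun p : ((α × β) × γ) × δ => p.1.1.1 := AT_f2.comp Computable.fst

private theorem AT_f4 {α β γ δ ε : Type} [Primcodable α] [Primcodable β] [Primcodable γ]
    [Primcodable δ] [Primcodable ε] :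
    Computable fun p : (((α × β) × γ) × δ) × ε => p.1.1.1.1 := AT_f3.comp Computable.fst

theorem arith_Node : Arith (fun p : List Sym × Tree × Str => Node p.1 p.2.1 p.2.2) := by
  have h0 : Arith (fun p : List Sym × Tree × Str => p.2.2 = rt p.2.1) :=
    Arith.eq_comp (Computable.snd.comp Computable.snd)
      (Computable.snd.comp (Computable.snd.comp (Computable.fst.comp Computable.snd)))
  have h1 : Arith (fun p : (((List Sym × Tree × Str) × Str) × Str) × Str =>
      ev (tid p.1.1.1.2.1) p.1.1.2 p.1.2 p.2 ∈ p.1.1.1.1) :=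
    Arith.mem_list (AT_ev (Computable.fst.comp (Computable.snd.comp
      (Computable.fst.comp (Computable.snd.comp AT_f3))))
      (Computable.snd.comp AT_f2) (Computable.snd.comp AT_f1) Computable.snd)
      (Computable.fst.comp AT_f3)
  have h2 : Arith (fun p : (((List Sym × Tree × Str) × Str) × Str) × Str =>
      p.1.1.1.2.2 = p.1.2 ∨ p.1.1.1.2.2 = p.2) :=
    Arith.or (Arith.eq_comp (Computable.snd.comp (Computable.snd.comp AT_f3))
      (Computable.snd.comp AT_f1))
      (Arith.eq_comp (Computable.snd.comp (Computable.snd.comp AT_f3)) Computable.snd)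
  exact h0.or (Arith.ex (Q := fun (p : List Sym × Tree × Str) (y0 : Str) =>
      ∃ u v, ev (tid p.2.1) y0 u v ∈ p.1 ∧ (p.2.2 = u ∨ p.2.2 = v))
    (Arith.ex (Q := fun (p : (List Sym × Tree × Str) × Str) (u : Str) =>
      ∃ v, ev (tid p.1.2.1) p.2 u v ∈ p.1.1 ∧ (p.1.2.2 = u ∨ p.1.2.2 = v))
    (Arith.ex (Q := fun (p : ((List Sym × Tree × Str) × Str) × Str) (v : Str) =>
      ev (tid p.1.1.2.1) p.1.2 p.2 v ∈ p.1.1.1 ∧ (p.1.1.2.2 = p.2 ∨ p.1.1.2.2 = v))
    (h1.and h2))))

theorem arith_NTop : Arith (fun p : List Sym × List Tree × Str => NTop p.1 p.2.1 p.2.2) := by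
  have h0 : Arith (fun p : (List Sym × List Tree × Str) × Tree =>
      p.1.2.1.head? = some p.2) :=
    Arith.eq_comp (Primrec.list_head?.to_comp.comp (Computable.fst.comp
      (Computable.snd.comp AT_f1))) (Computable.option_some.comp Computable.snd)
  have h1 : Arith (fun p : (List Sym × List Tree × Str) × Tree =>
      Node p.1.1 p.2 p.1.2.2) :=
    arith_Node.comp (f := fun p : (List Sym × List Tree × Str) × Tree => (p.1.1, p.2, p.1.2.2))
      ((Computable.fst.comp AT_f1).pair (Computable.snd.pair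
        (Computable.snd.comp (Computable.snd.comp AT_f1))))
  exact Arith.all (Q := fun (p : List Sym × List Tree × Str) (t : Tree) =>
    p.2.1.head? = some t → Node p.1 t p.2.2) (h0.imp h1)

theorem arith_NX : Arith (fun p : List Sym × List Tree × Str => NX p.1 p.2.1 p.2.2) := by
  have h0 : Arith (fun p : (List Sym × List Tree × Str) × Tree => p.2 ∈ p.1.2.1) :=
    Arith.mem_list Computable.snd (Computable.fst.comp (Computable.snd.comp AT_f1))
  have h1 : Arith (fun p : ((((List Sym × List Tree × Str) × Tree) × Str) × Str) × Str =>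
      ev (tid p.1.1.1.2) p.1.1.2 p.1.2 p.2 ∈ p.1.1.1.1.1) :=
    Arith.mem_list (AT_ev (Computable.fst.comp (Computable.snd.comp
      (Computable.snd.comp AT_f3)))
      (Computable.snd.comp AT_f2) (Computable.snd.comp AT_f1) Computable.snd)
      (Computable.fst.comp AT_f4)
  have hy : Computable (fun p : ((((List Sym × List Tree × Str) × Tree) × Str) × Str) × Str =>
      p.1.1.1.1.2.2) := Computable.snd.comp (Computable.snd.comp AT_f4)
  have h2 : Arith (fun p : ((((List Sym × List Tree × Str) × Tree) × Str) × Str) × Str =>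
      p.1.1.2 <+: p.1.1.1.1.2.2) :=
    Arith.isPre (Computable.snd.comp AT_f2) hy
  have h3 : Arith (fun p : ((((List Sym × List Tree × Str) × Tree) × Str) × Str) × Str =>
      p.1.2 <+: p.1.1.1.1.2.2 ∨ p.2 <+: p.1.1.1.1.2.2) :=
    Arith.or (Arith.isPre (Computable.snd.comp AT_f1) hy) (Arith.isPre Computable.snd hy)
  exact Arith.all (Q := fun (p : List Sym × List Tree × Str) (t : Tree) =>
      t ∈ p.2.1 → ∀ y0 u v, ev (tid t) y0 u v ∈ p.1 → y0 <+: p.2.2 →
        u <+: p.2.2 ∨ v <+: p.2.2)
    (h0.imp (Arith.all (Q := fun (p : (List Sym × List Tree × Str) × Tree) (y0 : Str) =>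
      ∀ u v, ev (tid p.2) y0 u v ∈ p.1.1 → y0 <+: p.1.2.2 → u <+: p.1.2.2 ∨ v <+: p.1.2.2)
    (Arith.all (Q := fun (p : ((List Sym × List Tree × Str) × Tree) × Str) (u : Str) =>
      ∀ v, ev (tid p.1.2) p.2 u v ∈ p.1.1.1 → p.2 <+: p.1.1.2.2 →
        u <+: p.1.1.2.2 ∨ v <+: p.1.1.2.2)
    (Arith.all (Q := fun (p : (((List Sym × List Tree × Str) × Tree) × Str) × Str)
      (v : Str) => ev (tid p.1.1.2) p.1.2 p.2 v ∈ p.1.1.1.1 → p.1.2 <+: p.1.1.1.2.2 →
        p.2 <+: p.1.1.1.2.2 ∨ v <+: p.1.1.1.2.2)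
    (h1.imp (h2.imp h3))))))

theorem arith_Short : Arith (fun p : List Sym × ℕ => Short p.1 p.2) := by
  have h1 : Arith (fun p : ((((List Sym × ℕ) × ℕ) × Str) × Str) × Str =>
      ev p.1.1.1.2 p.1.1.2 p.1.2 p.2 ∈ p.1.1.1.1.1) :=
    Arith.mem_list (AT_ev (Computable.snd.comp AT_f3)
      (Computable.snd.comp AT_f2) (Computable.snd.comp AT_f1) Computable.snd)
      (Computable.fst.comp AT_f4)
  have hn : Computable (fun p : ((((List Sym × ℕ) × ℕ) × Str) × Str) × Str =>
      p.1.1.1.1.2) := Computable.snd.comp AT_f4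
  have h2 : Arith (fun p : ((((List Sym × ℕ) × ℕ) × Str) × Str) × Str =>
      p.1.1.2.length ≤ p.1.1.1.1.2 ∧ p.1.2.length ≤ p.1.1.1.1.2 ∧
        p.2.length ≤ p.1.1.1.1.2) :=
    Arith.and (Arith.le_comp (Computable.list_length.comp (Computable.snd.comp AT_f2)) hn)
      (Arith.and (Arith.le_comp (Computable.list_length.comp (Computable.snd.comp AT_f1)) hn)
        (Arith.le_comp (Computable.list_length.comp Computable.snd) hn))
  exact Arith.all (Q := fun (p : List Sym × ℕ) (q : ℕ) => ∀ y u v, ev q y u v ∈ p.1 →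
      y.length ≤ p.2 ∧ u.length ≤ p.2 ∧ v.length ≤ p.2)
    (Arith.all (Q := fun (p : (List Sym × ℕ) × ℕ) (y : Str) => ∀ u v,
      ev p.2 y u v ∈ p.1.1 → y.length ≤ p.1.2 ∧ u.length ≤ p.1.2 ∧ v.length ≤ p.1.2)
    (Arith.all (Q := fun (p : ((List Sym × ℕ) × ℕ) × Str) (u : Str) => ∀ v,
      ev p.1.2 p.2 u v ∈ p.1.1.1 → p.2.length ≤ p.1.1.2 ∧ u.length ≤ p.1.1.2 ∧
        v.length ≤ p.1.1.2)
    (Arith.all (Q := fun (p : (((List Sym × ℕ) × ℕ) × Str) × Str) (v : Str) =>
      ev p.1.1.2 p.1.2 p.2 v ∈ p.1.1.1.1 → p.1.2.length ≤ p.1.1.1.2 ∧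
        p.2.length ≤ p.1.1.1.2 ∧ v.length ≤ p.1.1.1.2)
    (h1.imp h2))))

theorem arith_Split : Arith (fun p : ℕ × Str × Str => Split p.1 p.2.1 p.2.2) := by
  have h1 : Arith (fun p : ((ℕ × Str × Str) × ℕ) × Bool =>
      Phi p.1.1.1 p.1.1.2.1 p.1.2 = some p.2) :=
    Arith.eq_comp (Phi_computable.comp (f := fun p : ℕ × Str × ℕ => Phi p.1 p.2.1 p.2.2)
      (g := fun p : ((ℕ × Str × Str) × ℕ) × Bool => (p.1.1.1, p.1.1.2.1, p.1.2))
      ((Computable.fst.comp AT_f2).pair ((Computable.fst.comp (Computable.snd.comp AT_f2)).pair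
        (Computable.snd.comp AT_f1)))) (Computable.option_some.comp Computable.snd)
  have h2 : Arith (fun p : ((ℕ × Str × Str) × ℕ) × Bool =>
      Phi p.1.1.1 p.1.1.2.2 p.1.2 = some (!p.2)) :=
    Arith.eq_comp (Phi_computable.comp (f := fun p : ℕ × Str × ℕ => Phi p.1 p.2.1 p.2.2)
      (g := fun p : ((ℕ × Str × Str) × ℕ) × Bool => (p.1.1.1, p.1.1.2.2, p.1.2))
      ((Computable.fst.comp AT_f2).pair ((Computable.snd.comp (Computable.snd.comp AT_f2)).pair
        (Computable.snd.comp AT_f1))))
      (Computable.option_some.comp (comp_not Computable.snd))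
  exact Arith.ex (Q := fun (p : ℕ × Str × Str) (m : ℕ) => ∃ b, Phi p.1 p.2.1 m = some b ∧
      Phi p.1 p.2.2 m = some (!b))
    (Arith.ex (Q := fun (p : (ℕ × Str × Str) × ℕ) (b : Bool) =>
      Phi p.1.1 p.1.2.1 p.2 = some b ∧ Phi p.1.1 p.1.2.2 p.2 = some (!b)) (h1.and h2))

theorem arith_WF : Arith (fun p : List Sym × Tree × List Tree × Str × Str × Str =>
    WF p.1 p.2.1 p.2.2.1 p.2.2.2.1 p.2.2.2.2.1 p.2.2.2.2.2) := by
  have cβ : Computable (fun p : List Sym × Tree × List Tree × Str × Str × Str => p.1) :=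
    Computable.fst
  have ct : Computable (fun p : List Sym × Tree × List Tree × Str × Str × Str => p.2.1) :=
    Computable.fst.comp Computable.snd
  have cP : Computable (fun p : List Sym × Tree × List Tree × Str × Str × Str => p.2.2.1) :=
    Computable.fst.comp (Computable.snd.comp Computable.snd)
  have cy : Computable (fun p : List Sym × Tree × List Tree × Str × Str × Str => p.2.2.2.1) :=
    Computable.fst.comp (Computable.snd.comp (Computable.snd.comp Computable.snd))
  have cu : Computable (fun p : List Sym × Tree × List Tree × Str × Str × Str =>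
      p.2.2.2.2.1) :=
    Computable.fst.comp (Computable.snd.comp (Computable.snd.comp (Computable.snd.comp
      Computable.snd)))
  have cv : Computable (fun p : List Sym × Tree × List Tree × Str × Str × Str =>
      p.2.2.2.2.2) :=
    Computable.snd.comp (Computable.snd.comp (Computable.snd.comp (Computable.snd.comp
      Computable.snd)))
  have h1 := arith_Node.comp (f := fun p : List Sym × Tree × List Tree × Str × Str × Str =>
    (p.1, p.2.1, p.2.2.2.1)) (cβ.pair (ct.pair cy))
  have h2 : Arith (fun p : ((List Sym × Tree × List Tree × Str × Str × Str) × Str) × Str =>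
      ev (tid p.1.1.2.1) p.1.1.2.2.2.1 p.1.2 p.2 ∉ p.1.1.1) :=
    Arith.not (Arith.mem_list (AT_ev (Computable.fst.comp (Computable.snd.comp
      (ct.comp AT_f2))) (cy.comp AT_f2) (Computable.snd.comp AT_f1) Computable.snd)
      (cβ.comp AT_f2))
  have h3 : Arith (fun p : List Sym × Tree × List Tree × Str × Str × Str =>
      ∀ u' v', ev (tid p.2.1) p.2.2.2.1 u' v' ∉ p.1) :=
    Arith.all (Q := fun (p : List Sym × Tree × List Tree × Str × Str × Str) (u' : Str) =>
      ∀ v', ev (tid p.2.1) p.2.2.2.1 u' v' ∉ p.1)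
    (Arith.all (Q := fun (p : (List Sym × Tree × List Tree × Str × Str × Str) × Str)
      (v' : Str) => ev (tid p.1.2.1) p.1.2.2.2.1 p.2 v' ∉ p.1.1) h2)
  have h4 := Arith.isPre cy cu
  have h5 := Arith.not (Arith.eq_comp cy cu)
  have h6 := Arith.isPre cy cv
  have h7 := Arith.not (Arith.eq_comp cy cv)
  have h8 := arith_NTop.comp (f := fun p : List Sym × Tree × List Tree × Str × Str × Str =>
    (p.1, p.2.2.1, p.2.2.2.2.1)) (cβ.pair (cP.pair cu))
  have h9 := arith_NTop.comp (f := fun p : List Sym × Tree × List Tree × Str × Str × Str =>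
    (p.1, p.2.2.1, p.2.2.2.2.2)) (cβ.pair (cP.pair cv))
  have h10 := arith_Split.comp (f := fun p : List Sym × Tree × List Tree × Str × Str × Str =>
    (tf p.2.1, p.2.2.2.2.1, p.2.2.2.2.2)) ((Computable.fst.comp ct).pair (cu.pair cv))
  exact h1.and (h3.and (h4.and (h5.and (h6.and (h7.and (h8.and (h9.and h10)))))))

end Pool.Agent.KAP
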