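import Mathlib
import Pool.Agent.KAP.CA

/-!
KAP, module KS. The columns and the questions.
Proofs: (congr) by induction on the context: `Unk K (some it :: κ)` uses `K` only through `Unk K κ` and
`Allow K _ κ.length`, which uses `K n` for `n < κ.length`.  `Kseq_eq`: by induction on `n` (for
`m < n + 1` with `m = n`: `Kseq (n + 1) n = colOf (Kseq n) n = Kc n` by definition).  `Kc_spec`:
`Kc n = colOf (Kseq n) n`, `encodek`, and for `κ.length <= n` the congruence lemma with
`K = Kseq n`, `K' = Kc`.
-/

set_option autoImplicit false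

namespace Pool.Agent.KAP

open Encodable Pool.Agent.H19 Pool.Agent.H24P

private theorem Allow_congr {K K' : ℕ → ℕ → Bool} (AL : List Tree → List Sym → Str → Prop) {i : ℕ}
    (h : ∀ m < i, K m = K' m) (P : List Tree) (F : List ℕ) :
    Allow K AL i P F = Allow K' AL i P F := by
  funext β a
  rcases a with ⟨q, y, u, v⟩ | ⟨n, q, b⟩
  · rfl
  · show (n < i → b = K n q) = (n < i → b = K' n q)
    apply propext
    constructor
    · intro h1 h2
      rw [h1 h2, h n h2]
    · intro h1 h2
      rw [h1 h2, h n h2]

theorem Unk_congr {K K' : ℕ → ℕ → Bool} (κ : Ctx) (h : ∀ m < κ.length, K m = K' m) :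
    Unk K κ = Unk K' κ := by
  induction κ with
  | nil => rfl
  | cons o κ ih =>
    have h' : ∀ m < κ.length, K m = K' m := fun m hm =>
      h m (by rw [List.length_cons]; omega)
    have ih' := ih h'
    cases o with
    | none => exact ih'
    | some it =>
      funext β y
      show (Unk K κ β y ∧ ¬ Killed K (ALof (Unk K κ)) κ.length it β y) =
        (Unk K' κ β y ∧ ¬ Killed K' (ALof (Unk K' κ)) κ.length it β y)
      rw [ih']
      unfold Killed
      rw [Allow_congr (ALof (Unk K' κ)) h']

theorem al_congr {K K' : ℕ → ℕ → Bool} (κ : Ctx) (h : ∀ m < κ.length, K m = K' m) :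
    al K κ = al K' κ := by
  funext P β z
  unfold al
  rw [Unk_congr κ h]

theorem Kseq_eq {n m : ℕ} (h : m < n) : Kseq n m = Kc m := by
  induction n with
  | zero => exact absurd h (Nat.not_lt_zero m)
  | succ n ih =>
    show (if m = n then colOf (Kseq n) n else Kseq n m) = Kc m
    split_ifs with hm
    · subst hm
      rfl
    · exact ih (by omega)

theorem Kc_spec (n : ℕ) (κ : Ctx) (P : List Tree) (β : List Sym) (z : Str) :
    Kc n (qc κ P β z) = true ↔ κ.length ≤ n ∧ al Kc κ P β z := by
  unfold Kc colOf qc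
  rw [encodek]
  simp only [decide_eq_true_eq]
  constructor
  · rintro ⟨h1, h2⟩
    rw [al_congr κ fun m hm => Kseq_eq (n := n) (m := m) (by omega)] at h2
    exact ⟨h1, h2⟩
  · rintro ⟨h1, h2⟩
    refine ⟨h1, ?_⟩
    rw [al_congr κ fun m hm => Kseq_eq (n := n) (m := m) (by omega)]
    exact h2

theorem Kc_zs (n m : ℕ) : Kc n (encode (Sum.inl m : Qn)) = Zs n m := by
  unfold Kc colOf
  rw [encodek]

end Pool.Agent.KAP
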