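import Mathlib
import Pool.Agent.KAP.AT
import Pool.Agent.KAP.KS

/-!
KAP, module AV. Being unkilled is arithmetical.
Proof of `arith_unk`: assume that `K m` is arithmetical for `m < n`; by induction on `i ≤ n` the
relation `p.1.length ≤ i ∧ Unk K p.1 p.2.1 p.2.2` is arithmetical.  For `i = 0` the context is `[]`.
Step: `κ' = []`, or `κ' = none :: κ`, or `κ' = some it :: κ` with `κ.length ≤ i` (quantify over `κ`,
`it`); `Unk K κ β y` with the guard `κ.length ≤ i` is arithmetical by induction, hence so are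
`κ.length ≤ i ∧ ALof (Unk K κ) P β z` (`arith_NX`), then `κ.length ≤ i ∧ Allow ..` (by cases on the
symbol, `Arith.sum`; for column symbols: the relation `m < i + 1 ∧ b = K m q` is a finite union of
arithmetical relations, and `m < κ.length` is an additional condition; `arith_WF`), then `Ext`
(quantify over `γ1 a γ2` with `γ = γ1 ++ a :: γ2`), then `Killed` (`arith_Short`, `arith_NX`,
`Psi_computable`).  It is convenient to prove lemmas: `arith_cols` for the relation on column symbols,
`arith_killed` for `κ.length ≤ i ∧ Killed K (ALof (Unk K κ)) κ.length it β y`.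
-/

set_option autoImplicit false
set_option synthInstance.maxSize 2000

namespace Pool.Agent.KAP

open Encodable Pool.Agent.H19 Pool.Agent.H24P

private theorem av_al {K : ℕ → ℕ → Bool} {i : ℕ}
    (h : Arith (fun p : Ctx × List Sym × Str => p.1.length ≤ i ∧ Unk K p.1 p.2.1 p.2.2)) :
    Arith (fun p : Ctx × List Tree × List Sym × Str =>
      p.1.length ≤ i ∧ ALof (Unk K p.1) p.2.1 p.2.2.1 p.2.2.2) := by
  have hlen : Arith (fun p : Ctx × List Tree × List Sym × Str => p.1.length ≤ i) :=
    Arith.le_comp (Computable.list_length.comp Computable.fst) (Computable.const i)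
  have h1 : Arith (fun q : ((Ctx × List Tree × List Sym × Str) × ℕ) × Str =>
      q.1.2 ≤ q.2.length ∧ q.1.1.2.2.2 <+: q.2 ∧ NX q.1.1.2.2.1 q.1.1.2.1 q.2 ∧
        (q.1.1.1.length ≤ i ∧ Unk K q.1.1.1 q.1.1.2.2.1 q.2)) := by
    refine Arith.and (Arith.le_comp ?_ ?_) (Arith.and (Arith.isPre ?_ ?_) (Arith.and
      (arith_NX.comp (f := fun q : ((Ctx × List Tree × List Sym × Str) × ℕ) × Str =>
        (q.1.1.2.2.1, q.1.1.2.1, q.2)) ?_)
      (h.comp (f := fun q : ((Ctx × List Tree × List Sym × Str) × ℕ) × Str =>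
        (q.1.1.1, q.1.1.2.2.1, q.2)) ?_)))
    all_goals (repeat' with_reducible first
      | exact Computable.id
      | exact Computable.fst
      | exact Computable.snd
      | exact Computable.const _
      | refine Computable.fst.comp ?_
      | refine Computable.snd.comp ?_
      | refine Computable.pair ?_ ?_
      | refine Computable.list_length.comp ?_
      | refine Computable.list_append.comp ?_ ?_
      | refine Computable.list_cons.comp ?_ ?_
      | refine Computable.sumInl.comp ?_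
      | refine Computable.sumInr.comp ?_
      | refine Computable.option_some.comp ?_
      | refine comp_not ?_
      | refine Computable.list_getElem?.comp ?_ ?_)
  have h2 := Arith.all (Q := fun (p : Ctx × List Tree × List Sym × Str) (n : ℕ) => ∃ y : Str,
    n ≤ y.length ∧ p.2.2.2 <+: y ∧ NX p.2.2.1 p.2.1 y ∧
        (p.1.length ≤ i ∧ Unk K p.1 p.2.2.1 y)) (Arith.ex
      (Q := fun (r : (Ctx × List Tree × List Sym × Str) × ℕ) (y : Str) =>
        r.2 ≤ y.length ∧ r.1.2.2.2 <+: y ∧ NX r.1.2.2.1 r.1.2.1 y ∧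
        (r.1.1.length ≤ i ∧ Unk K r.1.1 r.1.2.2.1 y)) h1)
  refine (hlen.and h2).congr fun p => ?_
  constructor
  · rintro ⟨h3, h4⟩
    refine ⟨h3, fun n => ?_⟩
    obtain ⟨y, h5, h6, h7, -, h8⟩ := h4 n
    exact ⟨y, h5, h6, h7, h8⟩
  · rintro ⟨h3, h4⟩
    refine ⟨h3, fun n => ?_⟩
    obtain ⟨y, h5, h6, h7, h8⟩ := h4 n
    exact ⟨y, h5, h6, h7, h3, h8⟩

private theorem av_cols {K : ℕ → ℕ → Bool} {n : ℕ}
    (hK : ∀ m < n, Arith (fun q => K m q = true)) :
    ∀ j ≤ n, Arith (fun p : ℕ × ℕ × Bool => p.1 < j ∧ p.2.2 = K p.1 p.2.1) := by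
  intro j
  induction j with
  | zero =>
    intro _
    exact (Arith.const False).congr fun p => by simp
  | succ j ih =>
    intro hj
    have h1 := ih (by omega)
    have h2 : Arith (fun p : ℕ × ℕ × Bool => K j p.2.1 = true ↔ p.2.2 = true) := by
      refine Arith.iff ((hK j (by omega)).comp (f := fun p : ℕ × ℕ × Bool => p.2.1) ?_)
        (Arith.of_comp ?_)
      all_goals (repeat' with_reducible first
      | exact Computable.id
      | exact Computable.fst
      | exact Computable.snd
      | exact Computable.const _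
      | refine Computable.fst.comp ?_
      | refine Computable.snd.comp ?_
      | refine Computable.pair ?_ ?_
      | refine Computable.list_length.comp ?_
      | refine Computable.list_append.comp ?_ ?_
      | refine Computable.list_cons.comp ?_ ?_
      | refine Computable.sumInl.comp ?_
      | refine Computable.sumInr.comp ?_
      | refine Computable.option_some.comp ?_
      | refine comp_not ?_
      | refine Computable.list_getElem?.comp ?_ ?_)
    have h3 : Arith (fun p : ℕ × ℕ × Bool => p.1 = j) := by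
      refine Arith.eq_comp ?_ ?_
      all_goals (repeat' with_reducible first
      | exact Computable.id
      | exact Computable.fst
      | exact Computable.snd
      | exact Computable.const _
      | refine Computable.fst.comp ?_
      | refine Computable.snd.comp ?_
      | refine Computable.pair ?_ ?_
      | refine Computable.list_length.comp ?_
      | refine Computable.list_append.comp ?_ ?_
      | refine Computable.list_cons.comp ?_ ?_
      | refine Computable.sumInl.comp ?_
      | refine Computable.sumInr.comp ?_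
      | refine Computable.option_some.comp ?_
      | refine comp_not ?_
      | refine Computable.list_getElem?.comp ?_ ?_)
    refine (h1.or (h3.and h2)).congr fun p => ?_
    obtain ⟨m, q, b⟩ := p
    simp only
    constructor
    · rintro (⟨h4, h5⟩ | ⟨h4, h5⟩)
      · exact ⟨by omega, h5⟩
      · refine ⟨by omega, ?_⟩
        rw [h4]
        cases b <;> cases hk : K j q <;> simp_all
    · rintro ⟨h4, h5⟩
      by_cases h6 : m < j
      · exact Or.inl ⟨h6, h5⟩
      · have h7 : m = j := by omega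
        refine Or.inr ⟨h7, ?_⟩
        rw [h5, h7]

private theorem av_allow {K : ℕ → ℕ → Bool} {n i : ℕ}
    (hK : ∀ m < n, Arith (fun q => K m q = true)) (hi : i ≤ n)
    (h : Arith (fun p : Ctx × List Sym × Str => p.1.length ≤ i ∧ Unk K p.1 p.2.1 p.2.2)) :
    Arith (fun p : (Ctx × List Tree × List ℕ) × List Sym × Sym =>
      p.1.1.length ≤ i ∧ Allow K (ALof (Unk K p.1.1)) p.1.1.length p.1.2.1 p.1.2.2 p.2.1 p.2.2) := by
  have hal := av_al h
  have hcols := av_cols hK i hi
  have hlen : Arith (fun p : (Ctx × List Tree × List ℕ) × List Sym × Sym => p.1.1.length ≤ i) := by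
    refine Arith.le_comp ?_ ?_
    all_goals (repeat' with_reducible first
      | exact Computable.id
      | exact Computable.fst
      | exact Computable.snd
      | exact Computable.const _
      | refine Computable.fst.comp ?_
      | refine Computable.snd.comp ?_
      | refine Computable.pair ?_ ?_
      | refine Computable.list_length.comp ?_
      | refine Computable.list_append.comp ?_ ?_
      | refine Computable.list_cons.comp ?_ ?_
      | refine Computable.sumInl.comp ?_
      | refine Computable.sumInr.comp ?_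
      | refine Computable.option_some.comp ?_
      | refine comp_not ?_
      | refine Computable.list_getElem?.comp ?_ ?_)
  -- events
  have h1 : Arith (fun q : (((((Ctx × List Tree × List ℕ) × List Sym × Sym) ×
      (ℕ × Str × Str × Str)) × List Tree) × Tree) × List Tree =>
      q.1.1.1.1.1.2.1 = q.1.1.2 ++ q.1.2 :: q.2 → q.1.2.2.1 = q.1.1.1.2.1 →
        WF q.1.1.1.1.2.1 q.1.2 q.2 q.1.1.1.2.2.1 q.1.1.1.2.2.2.1 q.1.1.1.2.2.2.2 ∧
        (q.1.1.1.1.1.1.length ≤ i ∧
          ALof (Unk K q.1.1.1.1.1.1) q.2 q.1.1.1.1.2.1 q.1.1.1.2.2.2.1) ∧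
        (q.1.1.1.1.1.1.length ≤ i ∧
          ALof (Unk K q.1.1.1.1.1.1) q.2 q.1.1.1.1.2.1 q.1.1.1.2.2.2.2)) := by
    refine Arith.imp (Arith.eq_comp ?_ ?_) (Arith.imp (Arith.eq_comp ?_ ?_) (Arith.and
      (arith_WF.comp (f := fun q : (((((Ctx × List Tree × List ℕ) × List Sym × Sym) ×
      (ℕ × Str × Str × Str)) × List Tree) × Tree) × List Tree =>
        (q.1.1.1.1.2.1, q.1.2, q.2, q.1.1.1.2.2.1, q.1.1.1.2.2.2.1, q.1.1.1.2.2.2.2)) ?_)
      (Arith.and (hal.comp (f := fun q : (((((Ctx × List Tree × List ℕ) × List Sym × Sym) ×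
      (ℕ × Str × Str × Str)) × List Tree) × Tree) × List Tree =>
        (q.1.1.1.1.1.1, q.2, q.1.1.1.1.2.1, q.1.1.1.2.2.2.1)) ?_)
      (hal.comp (f := fun q : (((((Ctx × List Tree × List ℕ) × List Sym × Sym) ×
      (ℕ × Str × Str × Str)) × List Tree) × Tree) × List Tree =>
        (q.1.1.1.1.1.1, q.2, q.1.1.1.1.2.1, q.1.1.1.2.2.2.2)) ?_))))
    all_goals (repeat' with_reducible first
      | exact Computable.id
      | exact Computable.fst
      | exact Computable.snd
      | exact Computable.const _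
      | refine Computable.fst.comp ?_
      | refine Computable.snd.comp ?_
      | refine Computable.pair ?_ ?_
      | refine Computable.list_length.comp ?_
      | refine Computable.list_append.comp ?_ ?_
      | refine Computable.list_cons.comp ?_ ?_
      | refine Computable.sumInl.comp ?_
      | refine Computable.sumInr.comp ?_
      | refine Computable.option_some.comp ?_
      | refine comp_not ?_
      | refine Computable.list_getElem?.comp ?_ ?_)
  have h2 := Arith.all (Q := fun (r : (((Ctx × List Tree × List ℕ) × List Sym × Sym) ×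
      (ℕ × Str × Str × Str))) (P1 : List Tree) => ∀ (t : Tree) (P2 : List Tree),
      r.1.1.2.1 = P1 ++ t :: P2 → t.2.1 = r.2.1 →
        WF r.1.2.1 t P2 r.2.2.1 r.2.2.2.1 r.2.2.2.2 ∧
        (r.1.1.1.length ≤ i ∧ ALof (Unk K r.1.1.1) P2 r.1.2.1 r.2.2.2.1) ∧
        (r.1.1.1.length ≤ i ∧ ALof (Unk K r.1.1.1) P2 r.1.2.1 r.2.2.2.2))
      (Arith.all (Q := fun (r : (((Ctx × List Tree × List ℕ) × List Sym × Sym) ×
      (ℕ × Str × Str × Str)) × List Tree) (t : Tree) => ∀ (P2 : List Tree),
      r.1.1.1.2.1 = r.2 ++ t :: P2 → t.2.1 = r.1.2.1 →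
        WF r.1.1.2.1 t P2 r.1.2.2.1 r.1.2.2.2.1 r.1.2.2.2.2 ∧
        (r.1.1.1.1.length ≤ i ∧ ALof (Unk K r.1.1.1.1) P2 r.1.1.2.1 r.1.2.2.2.1) ∧
        (r.1.1.1.1.length ≤ i ∧ ALof (Unk K r.1.1.1.1) P2 r.1.1.2.1 r.1.2.2.2.2))
      (Arith.all (Q := fun (r : ((((Ctx × List Tree × List ℕ) × List Sym × Sym) ×
      (ℕ × Str × Str × Str)) × List Tree) × Tree) (P2 : List Tree) =>
      r.1.1.1.1.2.1 = r.1.2 ++ r.2 :: P2 → r.2.2.1 = r.1.1.2.1 →
        WF r.1.1.1.2.1 r.2 P2 r.1.1.2.2.1 r.1.1.2.2.2.1 r.1.1.2.2.2.2 ∧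
        (r.1.1.1.1.1.length ≤ i ∧ ALof (Unk K r.1.1.1.1.1) P2 r.1.1.1.2.1 r.1.1.2.2.2.1) ∧
        (r.1.1.1.1.1.length ≤ i ∧ ALof (Unk K r.1.1.1.1.1) P2 r.1.1.1.2.1 r.1.1.2.2.2.2)) h1))
  have h3 : Arith (fun r : (((Ctx × List Tree × List ℕ) × List Sym × Sym) ×
      (ℕ × Str × Str × Str)) => r.1.2.2 = Sum.inl r.2 ∧ ¬ (r.2.1 ∈ r.1.1.2.2) ∧
      ∀ (P1 : List Tree) (t : Tree) (P2 : List Tree),
      r.1.1.2.1 = P1 ++ t :: P2 → t.2.1 = r.2.1 →
        WF r.1.2.1 t P2 r.2.2.1 r.2.2.2.1 r.2.2.2.2 ∧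
        (r.1.1.1.length ≤ i ∧ ALof (Unk K r.1.1.1) P2 r.1.2.1 r.2.2.2.1) ∧
        (r.1.1.1.length ≤ i ∧ ALof (Unk K r.1.1.1) P2 r.1.2.1 r.2.2.2.2)) := by
    refine Arith.and (Arith.eq_comp ?_ ?_) (Arith.and (Arith.not (Arith.mem_list ?_ ?_)) h2)
    all_goals (repeat' with_reducible first
      | exact Computable.id
      | exact Computable.fst
      | exact Computable.snd
      | exact Computable.const _
      | refine Computable.fst.comp ?_
      | refine Computable.snd.comp ?_
      | refine Computable.pair ?_ ?_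
      | refine Computable.list_length.comp ?_
      | refine Computable.list_append.comp ?_ ?_
      | refine Computable.list_cons.comp ?_ ?_
      | refine Computable.sumInl.comp ?_
      | refine Computable.sumInr.comp ?_
      | refine Computable.option_some.comp ?_
      | refine comp_not ?_
      | refine Computable.list_getElem?.comp ?_ ?_)
  have h4 := Arith.ex (Q := fun (r : ((Ctx × List Tree × List ℕ) × List Sym × Sym))
      (e : ℕ × Str × Str × Str) => r.2.2 = Sum.inl e ∧ ¬ (e.1 ∈ r.1.2.2) ∧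
      ∀ (P1 : List Tree) (t : Tree) (P2 : List Tree),
      r.1.2.1 = P1 ++ t :: P2 → t.2.1 = e.1 →
        WF r.2.1 t P2 e.2.1 e.2.2.1 e.2.2.2 ∧
        (r.1.1.length ≤ i ∧ ALof (Unk K r.1.1) P2 r.2.1 e.2.2.1) ∧
        (r.1.1.length ≤ i ∧ ALof (Unk K r.1.1) P2 r.2.1 e.2.2.2)) h3
  -- column symbols
  have h5 : Arith (fun r : (((Ctx × List Tree × List ℕ) × List Sym × Sym) × (ℕ × ℕ × Bool)) =>
      r.1.2.2 = Sum.inr r.2 ∧ (r.2.1 < r.1.1.1.length → (r.2.1 < i ∧ r.2.2.2 = K r.2.1 r.2.2.1))) := by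
    refine Arith.and (Arith.eq_comp ?_ ?_) (Arith.imp (Arith.lt_comp ?_ ?_)
      (hcols.comp (f := fun r : (((Ctx × List Tree × List ℕ) × List Sym × Sym) × (ℕ × ℕ × Bool)) =>
        r.2) ?_))
    all_goals (repeat' with_reducible first
      | exact Computable.id
      | exact Computable.fst
      | exact Computable.snd
      | exact Computable.const _
      | refine Computable.fst.comp ?_
      | refine Computable.snd.comp ?_
      | refine Computable.pair ?_ ?_
      | refine Computable.list_length.comp ?_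
      | refine Computable.list_append.comp ?_ ?_
      | refine Computable.list_cons.comp ?_ ?_
      | refine Computable.sumInl.comp ?_
      | refine Computable.sumInr.comp ?_
      | refine Computable.option_some.comp ?_
      | refine comp_not ?_
      | refine Computable.list_getElem?.comp ?_ ?_)
  have h6 := Arith.ex (Q := fun (r : ((Ctx × List Tree × List ℕ) × List Sym × Sym))
      (c : ℕ × ℕ × Bool) => r.2.2 = Sum.inr c ∧ (c.1 < r.1.1.length →
        (c.1 < i ∧ c.2.2 = K c.1 c.2.1))) h5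
  refine (hlen.and (h4.or h6)).congr fun p => ?_
  obtain ⟨⟨κ, P, F⟩, β, a⟩ := p
  simp only
  constructor
  · rintro ⟨h7, h8⟩
    refine ⟨h7, ?_⟩
    rcases h8 with ⟨⟨q, y, u, v⟩, rfl, h9, h10⟩ | ⟨⟨m, q, b⟩, rfl, h9⟩
    · refine ⟨h9, fun P1 t P2 hP ht => ?_⟩
      obtain ⟨h11, ⟨-, h12⟩, ⟨-, h13⟩⟩ := h10 P1 t P2 hP ht
      exact ⟨h11, h12, h13⟩
    · intro hm
      exact (h9 hm).2
  · rintro ⟨h7, h8⟩
    refine ⟨h7, ?_⟩
    rcases a with ⟨q, y, u, v⟩ | ⟨m, q, b⟩
    · left
      obtain ⟨h9, h10⟩ := h8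
      refine ⟨⟨q, y, u, v⟩, rfl, h9, fun P1 t P2 hP ht => ?_⟩
      obtain ⟨h11, h12, h13⟩ := h10 P1 t P2 hP ht
      exact ⟨h11, ⟨h7, h12⟩, ⟨h7, h13⟩⟩
    · right
      refine ⟨⟨m, q, b⟩, rfl, fun hm => ?_⟩
      exact ⟨lt_of_lt_of_le hm h7, h8 hm⟩

private theorem av_ext {K : ℕ → ℕ → Bool} {n i : ℕ}
    (hK : ∀ m < n, Arith (fun q => K m q = true)) (hi : i ≤ n)
    (h : Arith (fun p : Ctx × List Sym × Str => p.1.length ≤ i ∧ Unk K p.1 p.2.1 p.2.2)) :
    Arith (fun p : (Ctx × List Tree × List ℕ) × List Sym × List Sym =>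
      p.1.1.length ≤ i ∧
        Ext (Allow K (ALof (Unk K p.1.1)) p.1.1.length p.1.2.1 p.1.2.2) p.2.1 p.2.2) := by
  have hallow := av_allow hK hi h
  have hlen : Arith (fun p : (Ctx × List Tree × List ℕ) × List Sym × List Sym =>
      p.1.1.length ≤ i) := by
    refine Arith.le_comp ?_ ?_
    all_goals (repeat' with_reducible first
      | exact Computable.id
      | exact Computable.fst
      | exact Computable.snd
      | exact Computable.const _
      | refine Computable.fst.comp ?_
      | refine Computable.snd.comp ?_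
      | refine Computable.pair ?_ ?_
      | refine Computable.list_length.comp ?_
      | refine Computable.list_append.comp ?_ ?_
      | refine Computable.list_cons.comp ?_ ?_
      | refine Computable.sumInl.comp ?_
      | refine Computable.sumInr.comp ?_
      | refine Computable.option_some.comp ?_
      | refine comp_not ?_
      | refine Computable.list_getElem?.comp ?_ ?_)
  have h1 : Arith (fun q : ((((Ctx × List Tree × List ℕ) × List Sym × List Sym) × List Sym) ×
      Sym) × List Sym => q.1.1.1.2.2 = q.1.1.2 ++ q.1.2 :: q.2 →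
        (q.1.1.1.1.1.length ≤ i ∧ Allow K (ALof (Unk K q.1.1.1.1.1)) q.1.1.1.1.1.length
          q.1.1.1.1.2.1 q.1.1.1.1.2.2 (q.1.1.1.2.1 ++ q.1.1.2) q.1.2)) := by
    refine Arith.imp (Arith.eq_comp ?_ ?_) (hallow.comp (f := fun q : ((((Ctx × List Tree ×
      List ℕ) × List Sym × List Sym) × List Sym) × Sym) × List Sym =>
        (q.1.1.1.1, q.1.1.1.2.1 ++ q.1.1.2, q.1.2)) ?_)
    all_goals (repeat' with_reducible first
      | exact Computable.id
      | exact Computable.fst
      | exact Computable.snd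
      | exact Computable.const _
      | refine Computable.fst.comp ?_
      | refine Computable.snd.comp ?_
      | refine Computable.pair ?_ ?_
      | refine Computable.list_length.comp ?_
      | refine Computable.list_append.comp ?_ ?_
      | refine Computable.list_cons.comp ?_ ?_
      | refine Computable.sumInl.comp ?_
      | refine Computable.sumInr.comp ?_
      | refine Computable.option_some.comp ?_
      | refine comp_not ?_
      | refine Computable.list_getElem?.comp ?_ ?_)
  have h2 := Arith.all (Q := fun (r : (Ctx × List Tree × List ℕ) × List Sym × List Sym)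
      (γ1 : List Sym) => ∀ (a : Sym) (γ2 : List Sym), r.2.2 = γ1 ++ a :: γ2 →
        (r.1.1.length ≤ i ∧ Allow K (ALof (Unk K r.1.1)) r.1.1.length
          r.1.2.1 r.1.2.2 (r.2.1 ++ γ1) a))
    (Arith.all (Q := fun (r : ((Ctx × List Tree × List ℕ) × List Sym × List Sym) × List Sym)
      (a : Sym) => ∀ (γ2 : List Sym), r.1.2.2 = r.2 ++ a :: γ2 →
        (r.1.1.1.length ≤ i ∧ Allow K (ALof (Unk K r.1.1.1)) r.1.1.1.length
          r.1.1.2.1 r.1.1.2.2 (r.1.2.1 ++ r.2) a))
    (Arith.all (Q := fun (r : (((Ctx × List Tree × List ℕ) × List Sym × List Sym) × List Sym) ×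
      Sym) (γ2 : List Sym) => r.1.1.2.2 = r.1.2 ++ r.2 :: γ2 →
        (r.1.1.1.1.length ≤ i ∧ Allow K (ALof (Unk K r.1.1.1.1)) r.1.1.1.1.length
          r.1.1.1.2.1 r.1.1.1.2.2 (r.1.1.2.1 ++ r.1.2) r.2)) h1))
  refine (hlen.and h2).congr fun p => ?_
  constructor
  · rintro ⟨h3, h4⟩
    exact ⟨h3, fun γ1 a γ2 hγ => (h4 γ1 a γ2 hγ).2⟩
  · rintro ⟨h3, h4⟩
    exact ⟨h3, fun γ1 a γ2 hγ => ⟨h3, h4 γ1 a γ2 hγ⟩⟩

private theorem av_killed {K : ℕ → ℕ → Bool} {n i : ℕ}
    (hK : ∀ m < n, Arith (fun q => K m q = true)) (hi : i ≤ n)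
    (h : Arith (fun p : Ctx × List Sym × Str => p.1.length ≤ i ∧ Unk K p.1 p.2.1 p.2.2)) :
    Arith (fun p : (Ctx × Item) × List Sym × Str =>
      p.1.1.length ≤ i ∧
        Killed K (ALof (Unk K p.1.1)) p.1.1.length p.1.2 p.2.1 p.2.2) := by
  have hext := av_ext hK hi h
  have h1 : Arith (fun q : ((((Ctx × Item) × List Sym × Str) × List Sym) × ℕ) × Bool =>
      (q.1.1.1.1.1.length ≤ i ∧ Ext (Allow K (ALof (Unk K q.1.1.1.1.1)) q.1.1.1.1.1.length
        q.1.1.1.1.2.1 q.1.1.1.1.2.2.2) q.1.1.1.2.1 q.1.1.2) ∧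
      Short (q.1.1.1.2.1 ++ q.1.1.2) q.1.1.1.2.2.length ∧
      NX q.1.1.2 q.1.1.1.1.2.1 q.1.1.1.2.2 ∧
      NX q.1.1.1.2.1 q.1.1.1.1.2.2.1 q.1.1.1.2.2 ∧
      Psi q.1.1.1.1.1.length (q.1.1.1.2.1 ++ q.1.1.2) q.1.2 = some q.2 ∧
      q.1.1.1.2.2[q.1.2]? = some (!q.2)) := by
    refine Arith.and (hext.comp (f := fun q : ((((Ctx × Item) × List Sym × Str) × List Sym) ×
        ℕ) × Bool => ((q.1.1.1.1.1, q.1.1.1.1.2.1, q.1.1.1.1.2.2.2), q.1.1.1.2.1, q.1.1.2)) ?_)
      (Arith.and (arith_Short.comp (f := fun q : ((((Ctx × Item) × List Sym × Str) ×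
        List Sym) × ℕ) × Bool => (q.1.1.1.2.1 ++ q.1.1.2, q.1.1.1.2.2.length)) ?_)
      (Arith.and (arith_NX.comp (f := fun q : ((((Ctx × Item) × List Sym × Str) ×
        List Sym) × ℕ) × Bool => (q.1.1.2, q.1.1.1.1.2.1, q.1.1.1.2.2)) ?_)
      (Arith.and (arith_NX.comp (f := fun q : ((((Ctx × Item) × List Sym × Str) ×
        List Sym) × ℕ) × Bool => (q.1.1.1.2.1, q.1.1.1.1.2.2.1, q.1.1.1.2.2)) ?_)
      (Arith.and (Arith.eq_comp (Psi_computable.comp (g := fun q : ((((Ctx × Item) ×
        List Sym × Str) × List Sym) × ℕ) × Bool =>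
          (q.1.1.1.1.1.length, q.1.1.1.2.1 ++ q.1.1.2, q.1.2)) ?_) ?_)
      (Arith.eq_comp ?_ ?_)))))
    all_goals (repeat' with_reducible first
      | exact Computable.id
      | exact Computable.fst
      | exact Computable.snd
      | exact Computable.const _
      | refine Computable.fst.comp ?_
      | refine Computable.snd.comp ?_
      | refine Computable.pair ?_ ?_
      | refine Computable.list_length.comp ?_
      | refine Computable.list_append.comp ?_ ?_
      | refine Computable.list_cons.comp ?_ ?_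
      | refine Computable.sumInl.comp ?_
      | refine Computable.sumInr.comp ?_
      | refine Computable.option_some.comp ?_
      | refine comp_not ?_
      | refine Computable.list_getElem?.comp ?_ ?_)
  have h2 := Arith.ex (Q := fun (r : (Ctx × Item) × List Sym × Str) (γ : List Sym) =>
      ∃ (m : ℕ) (b : Bool),
      (r.1.1.length ≤ i ∧ Ext (Allow K (ALof (Unk K r.1.1)) r.1.1.length
        r.1.2.1 r.1.2.2.2) r.2.1 γ) ∧
      Short (r.2.1 ++ γ) r.2.2.length ∧ NX γ r.1.2.1 r.2.2 ∧
      NX r.2.1 r.1.2.2.1 r.2.2 ∧ Psi r.1.1.length (r.2.1 ++ γ) m = some b ∧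
      r.2.2[m]? = some (!b))
    (Arith.ex (Q := fun (r : ((Ctx × Item) × List Sym × Str) × List Sym) (m : ℕ) => ∃ (b : Bool),
      (r.1.1.1.length ≤ i ∧ Ext (Allow K (ALof (Unk K r.1.1.1)) r.1.1.1.length
        r.1.1.2.1 r.1.1.2.2.2) r.1.2.1 r.2) ∧
      Short (r.1.2.1 ++ r.2) r.1.2.2.length ∧ NX r.2 r.1.1.2.1 r.1.2.2 ∧
      NX r.1.2.1 r.1.1.2.2.1 r.1.2.2 ∧ Psi r.1.1.1.length (r.1.2.1 ++ r.2) m = some b ∧
      r.1.2.2[m]? = some (!b))
    (Arith.ex (Q := fun (r : (((Ctx × Item) × List Sym × Str) × List Sym) × ℕ) (b : Bool) =>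
      (r.1.1.1.1.length ≤ i ∧ Ext (Allow K (ALof (Unk K r.1.1.1.1)) r.1.1.1.1.length
        r.1.1.1.2.1 r.1.1.1.2.2.2) r.1.1.2.1 r.1.2) ∧
      Short (r.1.1.2.1 ++ r.1.2) r.1.1.2.2.length ∧ NX r.1.2 r.1.1.1.2.1 r.1.1.2.2 ∧
      NX r.1.1.2.1 r.1.1.1.2.2.1 r.1.1.2.2 ∧
      Psi r.1.1.1.1.length (r.1.1.2.1 ++ r.1.2) r.2 = some b ∧
      r.1.1.2.2[r.2]? = some (!b)) h1))
  refine h2.congr fun p => ?_
  constructor
  · rintro ⟨γ, m, b, ⟨h3, h4⟩, h5, h6, h7, h8, h9⟩
    exact ⟨h3, γ, m, b, h4, h5, h6, h7, h8, h9⟩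
  · rintro ⟨h3, γ, m, b, h4, h5, h6, h7, h8, h9⟩
    exact ⟨γ, m, b, ⟨h3, h4⟩, h5, h6, h7, h8, h9⟩

private theorem av_step {K : ℕ → ℕ → Bool} {n i : ℕ}
    (hK : ∀ m < n, Arith (fun q => K m q = true)) (hi : i ≤ n)
    (h : Arith (fun p : Ctx × List Sym × Str => p.1.length ≤ i ∧ Unk K p.1 p.2.1 p.2.2)) :
    Arith (fun p : Ctx × List Sym × Str => p.1.length ≤ i + 1 ∧ Unk K p.1 p.2.1 p.2.2) := by
  have hk := av_killed hK hi h
  have h1 : Arith (fun p : Ctx × List Sym × Str => p.1 = []) := by
    refine Arith.eq_comp ?_ ?_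
    all_goals (repeat' with_reducible first
      | exact Computable.id
      | exact Computable.fst
      | exact Computable.snd
      | exact Computable.const _
      | refine Computable.fst.comp ?_
      | refine Computable.snd.comp ?_
      | refine Computable.pair ?_ ?_
      | refine Computable.list_length.comp ?_
      | refine Computable.list_append.comp ?_ ?_
      | refine Computable.list_cons.comp ?_ ?_
      | refine Computable.sumInl.comp ?_
      | refine Computable.sumInr.comp ?_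
      | refine Computable.option_some.comp ?_
      | refine comp_not ?_
      | refine Computable.list_getElem?.comp ?_ ?_)
  have h2 : Arith (fun q : (Ctx × List Sym × Str) × Ctx => q.1.1 = none :: q.2 ∧
      (q.2.length ≤ i ∧ Unk K q.2 q.1.2.1 q.1.2.2)) := by
    refine Arith.and (Arith.eq_comp ?_ ?_) (h.comp (f := fun q : (Ctx × List Sym × Str) × Ctx =>
      (q.2, q.1.2.1, q.1.2.2)) ?_)
    all_goals (repeat' with_reducible first
      | exact Computable.id
      | exact Computable.fst
      | exact Computable.snd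
      | exact Computable.const _
      | refine Computable.fst.comp ?_
      | refine Computable.snd.comp ?_
      | refine Computable.pair ?_ ?_
      | refine Computable.list_length.comp ?_
      | refine Computable.list_append.comp ?_ ?_
      | refine Computable.list_cons.comp ?_ ?_
      | refine Computable.sumInl.comp ?_
      | refine Computable.sumInr.comp ?_
      | refine Computable.option_some.comp ?_
      | refine comp_not ?_
      | refine Computable.list_getElem?.comp ?_ ?_)
  have h3 := Arith.ex (Q := fun (p : Ctx × List Sym × Str) (κ : Ctx) => p.1 = none :: κ ∧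
      (κ.length ≤ i ∧ Unk K κ p.2.1 p.2.2)) h2
  have h4 : Arith (fun q : ((Ctx × List Sym × Str) × Ctx) × Item => q.1.1.1 = some q.2 :: q.1.2 ∧
      (q.1.2.length ≤ i ∧ Unk K q.1.2 q.1.1.2.1 q.1.1.2.2) ∧
      ¬ (q.1.2.length ≤ i ∧
        Killed K (ALof (Unk K q.1.2)) q.1.2.length q.2 q.1.1.2.1 q.1.1.2.2)) := by
    refine Arith.and (Arith.eq_comp ?_ ?_) (Arith.and
      (h.comp (f := fun q : ((Ctx × List Sym × Str) × Ctx) × Item =>
        (q.1.2, q.1.1.2.1, q.1.1.2.2)) ?_)
      (Arith.not (hk.comp (f := fun q : ((Ctx × List Sym × Str) × Ctx) × Item =>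
        ((q.1.2, q.2), q.1.1.2.1, q.1.1.2.2)) ?_)))
    all_goals (repeat' with_reducible first
      | exact Computable.id
      | exact Computable.fst
      | exact Computable.snd
      | exact Computable.const _
      | refine Computable.fst.comp ?_
      | refine Computable.snd.comp ?_
      | refine Computable.pair ?_ ?_
      | refine Computable.list_length.comp ?_
      | refine Computable.list_append.comp ?_ ?_
      | refine Computable.list_cons.comp ?_ ?_
      | refine Computable.sumInl.comp ?_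
      | refine Computable.sumInr.comp ?_
      | refine Computable.option_some.comp ?_
      | refine comp_not ?_
      | refine Computable.list_getElem?.comp ?_ ?_)
  have h5 := Arith.ex (Q := fun (p : Ctx × List Sym × Str) (κ : Ctx) => ∃ it : Item,
      p.1 = some it :: κ ∧ (κ.length ≤ i ∧ Unk K κ p.2.1 p.2.2) ∧
      ¬ (κ.length ≤ i ∧ Killed K (ALof (Unk K κ)) κ.length it p.2.1 p.2.2))
    (Arith.ex (Q := fun (q : (Ctx × List Sym × Str) × Ctx) (it : Item) =>
      q.1.1 = some it :: q.2 ∧ (q.2.length ≤ i ∧ Unk K q.2 q.1.2.1 q.1.2.2) ∧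
      ¬ (q.2.length ≤ i ∧ Killed K (ALof (Unk K q.2)) q.2.length it q.1.2.1 q.1.2.2)) h4)
  refine (h1.or (h3.or h5)).congr fun p => ?_
  obtain ⟨κ, β, y⟩ := p
  simp only
  constructor
  · rintro (rfl | ⟨κ', rfl, h6, h7⟩ | ⟨κ', it, rfl, ⟨h6, h7⟩, h8⟩)
    · exact ⟨Nat.zero_le _, trivial⟩
    · exact ⟨Nat.succ_le_succ h6, h7⟩
    · exact ⟨Nat.succ_le_succ h6, h7, fun h9 => h8 ⟨h6, h9⟩⟩
  · rintro ⟨h6, h7⟩
    rcases κ with _ | ⟨_ | it, κ'⟩
    · exact Or.inl rfl
    · exact Or.inr (Or.inl ⟨κ', rfl, Nat.le_of_succ_le_succ h6, h7⟩)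
    · exact Or.inr (Or.inr ⟨κ', it, rfl, ⟨Nat.le_of_succ_le_succ h6, h7.1⟩,
        fun h9 => h7.2 h9.2⟩)

theorem arith_unk {K : ℕ → ℕ → Bool} {n : ℕ} (hK : ∀ m < n, Arith (fun q => K m q = true)) :
    ∀ i ≤ n, Arith (fun p : Ctx × List Sym × Str => p.1.length ≤ i ∧ Unk K p.1 p.2.1 p.2.2) := by
  intro i
  induction i with
  | zero =>
    intro _
    have h1 : Arith (fun p : Ctx × List Sym × Str => p.1 = []) := by
      refine Arith.eq_comp ?_ ?_
      all_goals (repeat' with_reducible first
      | exact Computable.id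
      | exact Computable.fst
      | exact Computable.snd
      | exact Computable.const _
      | refine Computable.fst.comp ?_
      | refine Computable.snd.comp ?_
      | refine Computable.pair ?_ ?_
      | refine Computable.list_length.comp ?_
      | refine Computable.list_append.comp ?_ ?_
      | refine Computable.list_cons.comp ?_ ?_
      | refine Computable.sumInl.comp ?_
      | refine Computable.sumInr.comp ?_
      | refine Computable.option_some.comp ?_
      | refine comp_not ?_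
      | refine Computable.list_getElem?.comp ?_ ?_)
    refine h1.congr fun p => ?_
    obtain ⟨κ, β, y⟩ := p
    simp only
    constructor
    · rintro rfl
      exact ⟨le_rfl, trivial⟩
    · rintro ⟨h2, -⟩
      exact List.length_eq_zero_iff.1 (Nat.le_zero.1 h2)
  | succ i ih =>
    intro hi
    exact av_step hK (by omega) (ih (by omega))

end Pool.Agent.KAP
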