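import Mathlib
import Pool.Agent.KAP.AV

/-!
KAP, module AU. The columns are arithmetical.
Proof by strong induction on `n`: `Kc n q = true` iff there is `m` with `q = encode (Sum.inl m : Qn)`
and `Zs n m = true`, or there are `κ P β z` with `q = qc κ P β z`, `κ.length ≤ n ∧ al Kc κ P β z`, by
`Kc_spec`, `Kc_zs` (and if `q` is not the code of a question, `Kc n q = false`).  Here
`al Kc κ P β z = ALof (Unk Kc κ) P β z` is arithmetical under the guard `κ.length ≤ n` by `arith_unk`
with `i = n`, `arith_NX`, and quantifiers.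
-/

set_option autoImplicit false

namespace Pool.Agent.KAP

open Encodable Pool.Agent.H19 Pool.Agent.H24P

private theorem AU_al (n : ℕ) (hK : ∀ m < n, Arith (fun q => Kc m q = true)) :
    Arith (fun p : Ctx × List Tree × List Sym × Str =>
      p.1.length ≤ n ∧ al Kc p.1 p.2.1 p.2.2.1 p.2.2.2) := by
  have h1 := arith_unk hK n le_rfl
  have h2 : Arith (fun p : Ctx × List Tree × List Sym × Str => p.1.length ≤ n ∧
      ∀ k : ℕ, ∃ y : Str, k ≤ y.length ∧ p.2.2.2 <+: y ∧ NX p.2.2.1 p.2.1 y ∧
        (p.1.length ≤ n ∧ Unk Kc p.1 p.2.2.1 y)) := by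
    refine Arith.and (Arith.le_comp (Computable.list_length.comp Computable.fst)
      (Computable.const n)) ?_
    refine Arith.all (Q := fun (p : Ctx × List Tree × List Sym × Str) (k : ℕ) =>
      ∃ y : Str, k ≤ y.length ∧ p.2.2.2 <+: y ∧ NX p.2.2.1 p.2.1 y ∧
        (p.1.length ≤ n ∧ Unk Kc p.1 p.2.2.1 y)) ?_
    refine Arith.ex (Q := fun (x : (Ctx × List Tree × List Sym × Str) × ℕ) (y : Str) =>
      x.2 ≤ y.length ∧ x.1.2.2.2 <+: y ∧ NX x.1.2.2.1 x.1.2.1 y ∧
        (x.1.1.length ≤ n ∧ Unk Kc x.1.1 x.1.2.2.1 y)) ?_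
    have hp : Computable (fun z : ((Ctx × List Tree × List Sym × Str) × ℕ) × Str => z.1.1) :=
      Computable.fst.comp Computable.fst
    have hP := Computable.fst.comp (Computable.snd.comp hp)
    have hB := Computable.fst.comp (Computable.snd.comp (Computable.snd.comp hp))
    have hZ := Computable.snd.comp (Computable.snd.comp (Computable.snd.comp hp))
    refine Arith.and (Arith.le_comp (Computable.snd.comp Computable.fst)
      (Computable.list_length.comp Computable.snd)) ?_
    refine Arith.and (Arith.isPre hZ Computable.snd) ?_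
    refine Arith.and ?_ ?_
    · exact arith_NX.comp (hB.pair (hP.pair Computable.snd))
    · exact h1.comp ((Computable.fst.comp hp).pair (hB.pair Computable.snd))
  refine h2.congr fun p => ?_
  constructor
  · rintro ⟨h3, h4⟩
    refine ⟨h3, fun k => ?_⟩
    obtain ⟨y, h5, h6, h7, -, h8⟩ := h4 k
    exact ⟨y, h5, h6, h7, h8⟩
  · rintro ⟨h3, h4⟩
    refine ⟨h3, fun k => ?_⟩
    obtain ⟨y, h5, h6, h7, h8⟩ := h4 k
    exact ⟨y, h5, h6, h7, h3, h8⟩

private theorem AU_enc {α : Type} [Primcodable α] {f : α → Qn} {g : α → ℕ}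
    (hf : Computable f) (hg : Computable g) :
    Arith (fun a => (decode (g a) : Option Qn) = some (f a)) := by
  classical
  exact Arith.eq_comp (Computable.decode.comp hg) (Computable.option_some.comp hf)

private theorem AU_dec (n : ℕ) {q : ℕ} {x : Qn} (h : (decode q : Option Qn) = some x) :
    Kc n q = Kc n (encode x) := by
  unfold Kc colOf
  rw [h, encodek]

theorem arith_Kc (n : ℕ) : Arith (fun q => Kc n q = true) := by
  induction n using Nat.strong_induction_on with
  | _ n ih =>
    have h1 := AU_al n ih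
    have h2 : Arith (fun q : ℕ =>
        (∃ m : ℕ, (decode q : Option Qn) = some (Sum.inl m) ∧ Zs n m = true) ∨
        ∃ p : Ctx × List Tree × List Sym × Str, (decode q : Option Qn) = some (Sum.inr p) ∧
          (p.1.length ≤ n ∧ al Kc p.1 p.2.1 p.2.2.1 p.2.2.2)) := by
      refine Arith.or (Arith.ex (Q := fun (q : ℕ) (m : ℕ) =>
        (decode q : Option Qn) = some (Sum.inl m) ∧ Zs n m = true) ?_)
        (Arith.ex (Q := fun (q : ℕ) (p : Ctx × List Tree × List Sym × Str) =>
          (decode q : Option Qn) = some (Sum.inr p) ∧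
          (p.1.length ≤ n ∧ al Kc p.1 p.2.1 p.2.2.1 p.2.2.2)) ?_)
      · refine Arith.and ?_ ((Arith.zs n).comp Computable.snd)
        exact AU_enc (Computable.sumInl.comp Computable.snd) Computable.fst
      · refine Arith.and ?_ (h1.comp Computable.snd)
        exact AU_enc (Computable.sumInr.comp Computable.snd) Computable.fst
    refine h2.congr fun q => ?_
    constructor
    · rintro (⟨m, hq, hm⟩ | ⟨⟨κ, P, β, z⟩, hq, hp⟩)
      · rw [AU_dec n hq, Kc_zs]
        exact hm
      · rw [AU_dec n hq]
        exact (Kc_spec n κ P β z).2 hp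
    · intro hq
      cases hd : (decode q : Option Qn) with
      | none =>
        unfold Kc colOf at hq
        rw [hd] at hq
        exact absurd hq (by simp)
      | some x =>
        rw [AU_dec n hd] at hq
        rcases x with m | ⟨κ, P, β, z⟩
        · rw [Kc_zs] at hq
          exact Or.inl ⟨m, rfl, hq⟩
        · exact Or.inr ⟨(κ, P, β, z), rfl, (Kc_spec n κ P β z).1 hq⟩

end Pool.Agent.KAP
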