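import Mathlib
import Pool.Agent.KAP.AM
import Pool.Agent.KAP.KS

/-!
KAP, module AX. The approximate check of steps.
Proofs: `AllowX_mono` as `Allow_mono` (a suffix of `κs` is a suffix of `κ`).  `Allow_of_AllowX`: use the
suffix `κ` of itself and `Kc_spec`.  `AllowX_of_Allow`: for a suffix `κ'` of `κ`, `al Kc κ P2 β u`
implies `al Kc κ' P2 β u` (`al_suffix`), so `Kc κ'.length (qc ..) = true` by `Kc_spec`.
`Ready_suffix`: induction.
-/

set_option autoImplicit false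

namespace Pool.Agent.KAP

open Encodable Pool.Agent.H19 Pool.Agent.H24P

theorem AllowX_mono {X : ℕ → ℕ → ℕ → Bool} {t : ℕ} {κ κs : Ctx} {P P' : List Tree}
    {F F' : List ℕ} {β : List Sym} {a : Sym} (hs : κs <:+ κ) (hle : LeE P F P' F')
    (h : AllowX X t κ P' F' β a) : AllowX X t κs P F β a := by
  rcases a with ⟨q, y, u, v⟩ | ⟨n, q, b⟩
  · obtain ⟨h1, h2⟩ := h
    refine ⟨fun hq => h1 (hle.1 hq), fun P1 t' P2 hP ht => ?_⟩
    rcases hle.2 P1 t' P2 hP with h3 | ⟨P1', h3⟩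
    · rw [ht] at h3
      exact absurd h3 h1
    · obtain ⟨h4, h5⟩ := h2 P1' t' P2 h3 ht
      exact ⟨h4, fun κ' hκ' => h5 κ' (hκ'.trans hs)⟩
  · intro hn
    exact h (lt_of_lt_of_le hn hs.length_le)

theorem Allow_of_AllowX {X : ℕ → ℕ → ℕ → Bool} {t : ℕ} {κ : Ctx} {P : List Tree}
    {F : List ℕ} {β : List Sym} {a : Sym} (hX : ∀ n ≤ κ.length, ∀ q, X n t q = Kc n q)
    (h : AllowX X t κ P F β a) : Allow Kc (al Kc κ) κ.length P F β a := by
  rcases a with ⟨q, y, u, v⟩ | ⟨n, q, b⟩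
  · obtain ⟨h1, h2⟩ := h
    refine ⟨h1, fun P1 t' P2 hP ht => ?_⟩
    obtain ⟨h4, h5⟩ := h2 P1 t' P2 hP ht
    obtain ⟨h6, h7⟩ := h5 κ (List.suffix_refl _)
    rw [hX _ le_rfl] at h6 h7
    exact ⟨h4, ((Kc_spec _ _ _ _ _).1 h6).2, ((Kc_spec _ _ _ _ _).1 h7).2⟩
  · intro hn
    have h1 : b = X n t q := h hn
    rw [h1]
    exact hX n hn.le q

theorem AllowX_of_Allow {X : ℕ → ℕ → ℕ → Bool} {t : ℕ} {κ : Ctx} {P : List Tree}
    {F : List ℕ} {β : List Sym} {a : Sym} (hX : ∀ n ≤ κ.length, ∀ q, X n t q = Kc n q)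
    (h : Allow Kc (al Kc κ) κ.length P F β a) : AllowX X t κ P F β a := by
  rcases a with ⟨q, y, u, v⟩ | ⟨n, q, b⟩
  · obtain ⟨h1, h2⟩ := h
    refine ⟨h1, fun P1 t' P2 hP ht => ?_⟩
    obtain ⟨h4, h5, h6⟩ := h2 P1 t' P2 hP ht
    refine ⟨h4, fun κ' hκ' => ?_⟩
    rw [hX _ hκ'.length_le, hX _ hκ'.length_le]
    exact ⟨(Kc_spec _ _ _ _ _).2 ⟨le_rfl, al_suffix hκ' h5⟩,
      (Kc_spec _ _ _ _ _).2 ⟨le_rfl, al_suffix hκ' h6⟩⟩
  · intro hn
    have h1 : b = Kc n q := h hn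
    rw [h1]
    exact (hX n hn.le q).symm

theorem Ready_suffix {X : ℕ → ℕ → ℕ → Bool} {A : ℕ → Bool} {t : ℕ} {β : List Sym}
    {κ κ' : List Agt} (hs : κ <:+ κ') (h : Ready X A t β κ') : Ready X A t β κ := by
  induction κ' with
  | nil =>
    rw [List.suffix_nil] at hs
    rw [hs]
    exact h
  | cons a κ' ih =>
    rcases List.suffix_cons_iff.1 hs with h1 | h1
    · rw [h1]
      exact h
    · apply ih h1
      rcases a with _ | ⟨L, R, z⟩
      · exact h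
      · exact h.1

theorem ctx_length (κ : List Agt) : (ctx κ).length = κ.length := by
  simp [ctx]

theorem ctx_suffix {κ κ' : List Agt} (h : κ <:+ κ') : ctx κ <:+ ctx κ' := by
  obtain ⟨Y, rfl⟩ := h
  exact ⟨ctx Y, by simp [ctx]⟩

end Pool.Agent.KAP
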