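import Mathlib
import Pool.Agent.KAP.CA

/-!
KAP, module BR. Turing reducibility of functions and of their graphs.
Proofs: `ar_iff` is the statement for characteristic functions, `gr f` for `f : ℕ → ℕ` is the
characteristic function of the graph (`encode` on `ℕ` is the identity).  It suffices that
`PFun.lift f` and `chi (gr f)` are Turing equivalent: `gr f p = true` iff `f p.unpair.1 = p.unpair.2`
(composition, `Nat.RecursiveIn`), and `f n` is the least `k` with `gr f (Nat.pair n k) = true`
(`Nat.RecursiveIn.rfind`), see `TotRec` in Pool/Agent/H19/Reduce.lean for closure properties.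
`chi_lift`: by definition.
-/

set_option autoImplicit false

namespace Pool.Agent.KAP

open Encodable Pool.Agent.H19 Pool.Agent.H24P

private theorem br_eq : Computable (fun p : ℕ => if p.unpair.1 = p.unpair.2 then 1 else 0) := by
  have h := comp_ite (c := fun p : ℕ => decide (p.unpair.1 = p.unpair.2))
    (f := fun _ => (1 : ℕ)) (g := fun _ => (0 : ℕ))
    (comp_decEq (Computable.fst.comp Computable.unpair) (Computable.snd.comp Computable.unpair))
    (Computable.const 1) (Computable.const 0)
  refine h.of_eq fun p => ?_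
  by_cases h1 : p.unpair.1 = p.unpair.2 <;> simp [h1]

theorem red_gr (f : ℕ → ℕ) : TuringReducible (PFun.lift f) (chi (gr f)) := by
  have hsub : Computable (fun b : ℕ => 1 - b) := by
    have h1 : Primrec (fun b : ℕ => 1 - b) :=
      Primrec.nat_sub.comp (Primrec.const 1) Primrec.id
    exact h1.to_comp
  have hh : TotRec (gr f) (fun p => (fun b => 1 - b) (if gr f p then 1 else 0)) :=
    TotRec.comp_computable hsub (TotRec.oracle (gr f))
  obtain ⟨g, hg, hg0⟩ := TotRec.find hh (by
    intro a
    refine ⟨f a, ?_⟩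
    simp [gr])
  have hfg : ∀ a, f a = g a := by
    intro a
    have h1 := hg0 a
    by_contra hne
    simp [gr, hne] at h1
  refine RecursiveIn.iff_nat.2 ((hg : Nat.RecursiveIn _ _).of_eq fun n => ?_)
  rw [← hfg n]
  rfl

theorem gr_red (f : ℕ → ℕ) : TuringReducible (chi (gr f)) (PFun.lift f) := by
  have h1 : Nat.RecursiveIn {PFun.lift f} (fun p => Part.some (f p.unpair.1)) :=
    (Nat.RecursiveIn.comp (Nat.RecursiveIn.oracle _ (Set.mem_singleton _))
      Nat.RecursiveIn.left).of_eq fun p =>
        Part.bind_some p.unpair.1 (fun n => Part.some (f n))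
  have h2 : Nat.RecursiveIn {PFun.lift f}
      (fun p => Part.some (Nat.pair (f p.unpair.1) p.unpair.2)) :=
    (Nat.RecursiveIn.pair h1 Nat.RecursiveIn.right).of_eq fun p => by simp [Seq.seq]
  have h3 : Nat.RecursiveIn {PFun.lift f}
      (fun p => Part.some (if p.unpair.1 = p.unpair.2 then 1 else 0)) :=
    Nat.Partrec.recursiveIn (Partrec.nat_iff.1 br_eq.partrec)
  refine RecursiveIn.iff_nat.2 ((Nat.RecursiveIn.comp h3 h2).of_eq fun p => ?_)
  simp [chi, gr]

theorem lift_red_iff (f g : ℕ → ℕ) :
    TuringReducible (PFun.lift f) (PFun.lift g) ↔ Ar (gr g) (gr f) := by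
  rw [← ar_iff]
  constructor
  · intro h
    exact ((gr_red f).trans h).trans (red_gr g)
  · intro h
    exact ((red_gr f).trans h).trans (gr_red g)

theorem chi_lift (Z : ℕ → Bool) : PFun.lift (fun n => if Z n then (1 : ℕ) else 0) = chi Z := by
  rfl

theorem ar_gr_chi (Z : ℕ → Bool) : Ar Z (gr (fun n => if Z n then (1 : ℕ) else 0)) := by
  rw [← ar_iff, ← chi_lift Z]
  exact gr_red _

theorem ar_of_gr_chi (Z : ℕ → Bool) : Ar (gr (fun n => if Z n then (1 : ℕ) else 0)) Z := by
  rw [← ar_iff, ← chi_lift Z]
  exact red_gr _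

end Pool.Agent.KAP
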