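import Mathlib
import Pool.Agent.KAP.AM

/-!
KAP, module TT. Well formed trees stay well formed.
Proof of the event case.  Let `P = P1 ++ t :: P2`.  If `tid t ≠ q`, the events on `t` and its nodes are the
same in `β ++ [ev q y u v]`, and `NTop` is monotone.  If `tid t = q`: `root`: monotone.  `memb`: old
events by monotonicity, the new one by `WF`.  `uniq`: no old event starts at `y`.  `inner`: let
`y1 <+: y2`, `y1 ≠ y2` be nodes in the new string.  The new nodes are `u`, `v`; recall `y <+: u`,
`y ≠ u`, the same for `v`; `u` and `v` are incomparable (if `u <+: v` or `v <+: u`, then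
`Split (tf t) u v` contradicts `Phi_mono`).  (i) both old: `TI.inner`.  (ii) `y1` old,
`y2 ∈ {u, v}`: `y1`, `y` are both initial segments of `y2`, so comparable
(`List.prefix_or_prefix_of_prefix`); `y1 = y`: the new event; `y1` strictly shorter than `y`: `TI.inner`
for `y1, y`, and `y <+: y2`; `y` strictly shorter than `y1`: `TI.inner` for `y, y1` gives an event at
`y` in `β`, against `WF`.  (iii) `y1 ∈ {u, v}`, `y2` old: `TI.inner` for `y, y2` contradicts `WF`.
(iv) both new: `y1 = y2` or incomparable.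
-/

set_option autoImplicit false

namespace Pool.Agent.KAP

open Encodable Pool.Agent.H19 Pool.Agent.H24P

private theorem TT_mem_snoc {β : List Sym} {q i : ℕ} {y u v y0 a b : Str}
    (h : ev i y0 a b ∈ β ++ [ev q y u v]) :
    ev i y0 a b ∈ β ∨ (i = q ∧ y0 = y ∧ a = u ∧ b = v) := by
  rcases List.mem_append.1 h with h | h
  · exact Or.inl h
  · right
    have h1 : ev i y0 a b = ev q y u v := by simpa using h
    have h2 : (i, y0, a, b) = (q, y, u, v) := Sum.inl.inj h1
    simp only [Prod.mk.injEq] at h2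
    exact h2

private theorem TT_node_snoc {β : List Sym} {t : Tree} {q : ℕ} {y u v x : Str}
    (h : Node (β ++ [ev q y u v]) t x) :
    Node β t x ∨ (tid t = q ∧ (x = u ∨ x = v)) := by
  rcases h with h | ⟨y0, a, b, h1, h2⟩
  · exact Or.inl (Or.inl h)
  · rcases TT_mem_snoc h1 with h3 | ⟨h3, h4, h5, h6⟩
    · exact Or.inl (Or.inr ⟨y0, a, b, h3, h2⟩)
    · right
      refine ⟨h3, ?_⟩
      rw [← h5, ← h6]
      exact h2

private theorem TT_incomp {e : ℕ} {u v : Str} (h : Split e u v) : ¬ u <+: v ∧ ¬ v <+: u := by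
  obtain ⟨m, b, h1, h2⟩ := h
  constructor
  · intro h3
    have h4 := Phi_mono h3 h1
    rw [h2] at h4
    cases b <;> simp at h4
  · intro h3
    have h4 := Phi_mono h3 h2
    rw [h1] at h4
    cases b <;> simp at h4

private theorem TT_len {a b : Str} (h : a <+: b) (hne : a ≠ b) : a.length < b.length := by
  rcases lt_or_eq_of_le h.length_le with h1 | h1
  · exact h1
  · exact absurd (h.eq_of_length h1) hne

/-- No old node is an extension of a new node. -/
private theorem TT_no_ext {β : List Sym} {t : Tree} {P2 : List Tree} {y x1 x2 : Str}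
    (hT : TI β t P2) (hN : Node β t y) (hfree : ∀ u' v', ev (tid t) y u' v' ∉ β)
    (h1 : y <+: x1) (hne : y ≠ x1) (h2 : Node β t x2) (h12 : x1 <+: x2) : False := by
  have h3 : y <+: x2 := h1.trans h12
  have h4 : y ≠ x2 := by
    intro h5
    have h6 := TT_len h1 hne
    have h7 := h12.length_le
    rw [h5] at h6
    omega
  obtain ⟨u', v', h5, -⟩ := hT.inner y x2 hN h2 h3 h4
  exact hfree u' v' h5

/-- The case of an old node below a new one. -/
private theorem TT_old_new {β : List Sym} {t : Tree} {P2 : List Tree} {y u v x1 x2 : Str}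
    (hT : TI β t P2) (hN : Node β t y) (hfree : ∀ u' v', ev (tid t) y u' v' ∉ β)
    (hx : x2 = u ∨ x2 = v) (h1 : y <+: x2) (h2 : Node β t x1)
    (h12 : x1 <+: x2) :
    ∃ a b, ev (tid t) x1 a b ∈ β ++ [ev (tid t) y u v] ∧ (a <+: x2 ∨ b <+: x2) := by
  rcases List.prefix_or_prefix_of_prefix h12 h1 with h3 | h3
  · by_cases h4 : x1 = y
    · rw [h4]
      refine ⟨u, v, by simp, ?_⟩
      rcases hx with h5 | h5
      · exact Or.inl (by rw [h5])
      · exact Or.inr (by rw [h5])
    · obtain ⟨a, b, h5, h6⟩ := hT.inner x1 y h2 hN h3 h4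
      refine ⟨a, b, List.mem_append.2 (Or.inl h5), ?_⟩
      rcases h6 with h6 | h6
      · exact Or.inl (h6.trans h1)
      · exact Or.inr (h6.trans h1)
  · by_cases h4 : y = x1
    · rw [← h4]
      refine ⟨u, v, by simp, ?_⟩
      rcases hx with h5 | h5
      · exact Or.inl (by rw [h5])
      · exact Or.inr (by rw [h5])
    · obtain ⟨a, b, h5, -⟩ := hT.inner y x1 hN h2 h3 h4
      exact absurd h5 (hfree a b)

theorem TInv_step_ev {β : List Sym} {P : List Tree} {q : ℕ} {y u v : Str} (hP : TInv β P)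
    (h : ∀ P1 t P2, P = P1 ++ t :: P2 → tid t = q → WF β t P2 y u v) :
    TInv (β ++ [ev q y u v]) P := by
  intro P1 t P2 hPe
  have hT : TI β t P2 := hP P1 t P2 hPe
  by_cases hq : tid t = q
  · obtain ⟨hN, hfree, hyu, hneu, hyv, hnev, htu, htv, hs⟩ := h P1 t P2 hPe hq
    subst hq
    refine ⟨NTop_mono hT.root, ?_, ?_, ?_⟩
    · intro y0 a b hm
      rcases TT_mem_snoc hm with h1 | ⟨-, h2, h3, h4⟩
      · obtain ⟨g1, g2, g3, g4⟩ := hT.memb y0 a b h1
        exact ⟨Node_mono g1, NTop_mono g2, NTop_mono g3, g4⟩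
      · rw [h2, h3, h4]
        exact ⟨Node_mono hN, NTop_mono htu, NTop_mono htv, hyu, hneu, hyv, hnev, hs⟩
    · intro x1 x2 h1 h2 h12 hne
      rcases TT_node_snoc h1 with h1 | ⟨-, h1⟩
      · rcases TT_node_snoc h2 with h2 | ⟨-, h2⟩
        · obtain ⟨a, b, h3, h4⟩ := hT.inner x1 x2 h1 h2 h12 hne
          exact ⟨a, b, List.mem_append.2 (Or.inl h3), h4⟩
        · have hyx : y <+: x2 := by
            rcases h2 with h2 | h2
            · rw [h2]; exact hyu
            · rw [h2]; exact hyv
          exact TT_old_new hT hN hfree h2 hyx h1 h12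
      · have hyx : y <+: x1 := by
          rcases h1 with h1 | h1
          · rw [h1]; exact hyu
          · rw [h1]; exact hyv
        have hyne : y ≠ x1 := by
          rcases h1 with h1 | h1
          · rw [h1]; exact hneu
          · rw [h1]; exact hnev
        rcases TT_node_snoc h2 with h2 | ⟨-, h2⟩
        · exact (TT_no_ext hT hN hfree hyx hyne h2 h12).elim
        · obtain ⟨i1, i2⟩ := TT_incomp hs
          rcases h1 with h1 | h1 <;> rcases h2 with h2 | h2
          · exact absurd (h1.trans h2.symm) hne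
          · rw [h1, h2] at h12
            exact absurd h12 i1
          · rw [h1, h2] at h12
            exact absurd h12 i2
          · exact absurd (h1.trans h2.symm) hne
    · intro y0 u1 v1 u2 v2 h1 h2
      rcases TT_mem_snoc h1 with h1 | ⟨-, h1, h1a, h1b⟩ <;>
        rcases TT_mem_snoc h2 with h2 | ⟨-, h2, h2a, h2b⟩
      · exact hT.uniq y0 u1 v1 u2 v2 h1 h2
      · rw [h2] at h1
        exact absurd h1 (hfree u1 v1)
      · rw [h1] at h2
        exact absurd h2 (hfree u2 v2)
      · rw [h1a, h1b, h2a, h2b]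
        exact ⟨rfl, rfl⟩
  · have hev : ∀ {y0 a b : Str}, ev (tid t) y0 a b ∈ β ++ [ev q y u v] →
        ev (tid t) y0 a b ∈ β := by
      intro y0 a b hm
      rcases TT_mem_snoc hm with h1 | ⟨h1, -⟩
      · exact h1
      · exact absurd h1 hq
    have hnd : ∀ {x : Str}, Node (β ++ [ev q y u v]) t x → Node β t x := by
      intro x hx
      rcases TT_node_snoc hx with h1 | ⟨h1, -⟩
      · exact h1
      · exact absurd h1 hq
    refine ⟨NTop_mono hT.root, ?_, ?_, ?_⟩
    · intro y0 a b hm
      obtain ⟨g1, g2, g3, g4⟩ := hT.memb y0 a b (hev hm)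
      exact ⟨Node_mono g1, NTop_mono g2, NTop_mono g3, g4⟩
    · intro x1 x2 h1 h2 h12 hne
      obtain ⟨a, b, h3, h4⟩ := hT.inner x1 x2 (hnd h1) (hnd h2) h12 hne
      exact ⟨a, b, List.mem_append.2 (Or.inl h3), h4⟩
    · intro y0 u1 v1 u2 v2 h1 h2
      exact hT.uniq y0 u1 v1 u2 v2 (hev h1) (hev h2)

end Pool.Agent.KAP
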