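import Mathlib
import Pool.Agent.KAP.TT

/-!
KAP, module TS. Well formed trees: small lemmas.
Proofs: `TInv_step_col`: nothing changes for the events.  `TInv_fresh`: the new tree has no events, so its
only node is the root.  `TInv_suffix`: decompositions of `P` give decompositions of `P'`.
`node_down`: by induction on `P`: for `P = t0 :: P'`, `z` is a node of `t0`; if `t = t0`, done; otherwise
`NTop β P' z` by `TI.root` or `TI.memb` for `t0`, and induction.
-/

set_option autoImplicit false

namespace Pool.Agent.KAP

open Encodable Pool.Agent.H19 Pool.Agent.H24P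

theorem TInv_step_col {β : List Sym} {P : List Tree} {n q : ℕ} {b : Bool} (hP : TInv β P) :
    TInv (β ++ [col n q b]) P := by
  have key : ∀ i y u v, ev i y u v ∈ β ++ [col n q b] ↔ ev i y u v ∈ β := by
    intro i y u v
    rw [List.mem_append, List.mem_singleton]
    constructor
    · rintro (h | h)
      · exact h
      · exact absurd h (by simp)
    · exact Or.inl
  have hN : ∀ t y, Node (β ++ [col n q b]) t y ↔ Node β t y := by
    intro t y
    unfold Node
    simp only [key]
  have hT : ∀ P y, NTop (β ++ [col n q b]) P y ↔ NTop β P y := by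
    intro P y
    unfold NTop
    simp only [hN]
  intro P1 t P2 hP12
  have h := hP P1 t P2 hP12
  refine ⟨?_, ?_, ?_, ?_⟩
  · rw [hT]
    exact h.root
  · intro y u v hev
    rw [key] at hev
    rw [hN, hT, hT]
    exact h.memb y u v hev
  · intro y y' hy hy' hpre hne
    rw [hN] at hy hy'
    obtain ⟨u, v, hev, huv⟩ := h.inner y y' hy hy' hpre hne
    exact ⟨u, v, (key _ _ _ _).2 hev, huv⟩
  · intro y u v u' v' h1 h2
    rw [key] at h1 h2
    exact h.uniq y u v u' v' h1 h2

theorem TInv_step {K : ℕ → ℕ → Bool} {AL : List Tree → List Sym → Str → Prop} {i : ℕ}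
    {β : List Sym} {P : List Tree} {F : List ℕ} {a : Sym} (hP : TInv β P)
    (ha : Allow K AL i P F β a) : TInv (β ++ [a]) P := by
  cases a with
  | inl a => exact TInv_step_ev hP fun P1 t P2 h1 h2 => (ha.2 P1 t P2 h1 h2).1
  | inr a => exact TInv_step_col hP

theorem TInv_fresh {β : List Sym} {P : List Tree} {e i : ℕ} {y0 : Str} (hP : TInv β P)
    (hf : ∀ q y u v, ev q y u v ∈ β → q ≠ i) (hy : NTop β P y0) :
    TInv β ((e, i, y0) :: P) := by
  intro P1 t P2 hP12
  cases P1 with
  | nil =>
    simp only [List.nil_append, List.cons.injEq] at hP12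
    obtain ⟨rfl, rfl⟩ := hP12
    have hno : ∀ y u v, ev i y u v ∉ β := fun y u v h => hf i y u v h rfl
    have hnode : ∀ y, Node β (e, i, y0) y → y = y0 := by
      intro y hy
      rcases hy with hy | ⟨y1, u, v, hev, -⟩
      · exact hy
      · exact absurd hev (hno _ _ _)
    refine ⟨hy, ?_, ?_, ?_⟩
    · intro y u v hev
      exact absurd hev (hno _ _ _)
    · intro y y' h1 h2 _ hne
      exact absurd ((hnode y h1).trans (hnode y' h2).symm) hne
    · intro y u v u' v' hev _
      exact absurd hev (hno _ _ _)
  | cons t0 P1 =>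
    simp only [List.cons_append, List.cons.injEq] at hP12
    exact hP P1 t P2 hP12.2

theorem TInv_suffix {β : List Sym} {P P' : List Tree} (h : P <:+ P') (hP : TInv β P') :
    TInv β P := by
  obtain ⟨P0, rfl⟩ := h
  intro P1 t P2 hP12
  exact hP (P0 ++ P1) t P2 (by rw [hP12, List.append_assoc])

/-- Nodes of the first tree are nodes of all trees in the list. -/
theorem node_down {β : List Sym} {P : List Tree} {z : Str} (hP : TInv β P) (hz : NTop β P z)
    {t : Tree} (ht : t ∈ P) : Node β t z := by
  induction P with
  | nil => exact absurd ht List.not_mem_nil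
  | cons t0 P' ih =>
    have h0 : Node β t0 z := hz t0 rfl
    rcases List.mem_cons.1 ht with rfl | ht
    · exact h0
    · have hT := hP [] t0 P' rfl
      refine ih (TInv_suffix (List.suffix_cons t0 P') hP) ?_ ht
      rcases h0 with h0 | ⟨y0, u, v, hev, h0 | h0⟩
      · rw [h0]
        exact hT.root
      · rw [h0]
        exact (hT.memb y0 u v hev).2.1
      · rw [h0]
        exact (hT.memb y0 u v hev).2.2.1

end Pool.Agent.KAP
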