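import Mathlib
import Pool.Agent.KAP.AM

/-!
KAP, module US. Allowed steps do not kill.
Proof by induction on `κ` (generalizing nothing else).  `[]`: trivial.  `none :: κ`: `Allow_mono` for the
suffix `κ` with `LeE_refl`, and the induction hypothesis.  `some it :: κ`: the first component as
before.  Second component: suppose `Killed K (al K κ) κ.length it (β ++ [a]) y` with witnesses
`γ m b`.  Then `a :: γ`, `m`, `b` witness `Killed K (al K κ) κ.length it β y`: `Ext_cons`, where
`Allow K (al K κ) κ.length it.1 it.2.2 β a` comes from `Allow_mono` and `LeE_of_LeI (hI it _)`;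
`β ++ [a] ++ γ = β ++ (a :: γ)`; `NX (a :: γ) it.1 y`: events in `γ` are fine; if
`a = ev (tid t) y0 u v` with `t ∈ it.1`, `y0 <+: y`, write `it.1 = P1 ++ t :: P2`
(`List.append_of_mem`); by `hI it` either `tid t ∈ F'`, which contradicts `h : Allow ..` (which says
`tid t ∉ F'`), or `t ∈ it.2.1`, and then `NX (β ++ [a]) it.2.1 y` gives `u <+: y ∨ v <+: y`;
`NX β it.2.1 y` follows from `NX (β ++ [a]) it.2.1 y`.  (`ALof (Unk K κ)` is `al K κ` by `rfl`.)
-/

set_option autoImplicit false

namespace Pool.Agent.KAP

open Encodable Pool.Agent.H19 Pool.Agent.H24P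

theorem unk_step {K : ℕ → ℕ → Bool} {κ : Ctx} {P' : List Tree} {F' : List ℕ} {β : List Sym}
    {a : Sym} {y : Str} (hI : ∀ it, some it ∈ κ → LeI it P' F')
    (h : Allow K (al K κ) κ.length P' F' β a) (hy : Unk K κ β y) : Unk K κ (β ++ [a]) y := by
  induction κ with
  | nil => trivial
  | cons o κ ih =>
    have h' : Allow K (al K κ) κ.length P' F' β a :=
      Allow_mono (List.suffix_cons o κ) (LeE_refl P' F') h
    have ih' := ih (fun it hit => hI it (List.mem_cons_of_mem _ hit)) h'
    cases o with
    | none => exact ih' hy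
    | some it =>
      obtain ⟨hy1, hy2⟩ := hy
      refine ⟨ih' hy1, ?_⟩
      rintro ⟨γ, m, b, h1, h2, h3, h4, h5, h6⟩
      apply hy2
      have hit : LeI it P' F' := hI it (List.mem_cons_self)
      have happ : β ++ [a] ++ γ = β ++ (a :: γ) := by simp
      rw [happ] at h2 h5
      refine ⟨a :: γ, m, b, ?_, h2, ?_, ?_, h5, h6⟩
      · exact Ext_cons.2 ⟨Allow_mono (List.suffix_refl κ) (LeE_of_LeI hit) h', h1⟩
      · intro t ht y0 u v hev hpre
        rcases List.mem_cons.1 hev with hev | hev
        · obtain ⟨P1, P2, hP⟩ := List.append_of_mem ht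
          rcases hit.2 P1 t P2 hP with hF | ⟨hQ, -⟩
          · rw [← hev] at h'
            exact absurd hF h'.1
          · exact h4 t hQ y0 u v (by rw [hev]; simp) hpre
        · exact h3 t ht y0 u v hev hpre
      · intro t ht y0 u v hev hpre
        exact h4 t ht y0 u v (List.mem_append_left _ hev) hpre

end Pool.Agent.KAP
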