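import Mathlib
import Pool.Agent.KAP.US
import Pool.Agent.KAP.TS

/-!
KAP, module IA. A new node of the next tree is alive.
Proof.  Write `a = ev (tid t') y w z`, `β' = β ++ [a]`, `κ1 = some (P0 ++ t' :: Q, Q, F) :: κ`.  From `ha`
with the decomposition `P0 ++ t' :: Q`: `WF β t' Q y w z` and `al K κ1 Q β z`.  Second part of the
conclusion: `z` is a node of `t'` by the new event.  First part: let `n` be given and take `y'` from
`al K κ1 Q β z`: `z <+: y'`, `NX β Q y'`, `Unk K κ1 β y'`.
`NX β' (t' :: Q) y'`: let `t'' ∈ t' :: Q`, `ev (tid t'') y0 u' v' ∈ β'`, `y0 <+: y'`.  If it is `a`,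
then `v' = z <+: y'`.  If it is in `β` and `t'' ∈ Q`: `NX β Q y'`.  If it is in `β` and `t'' = t'`:
`y0`, `y` are initial segments of `y'` (`y <+: z`), so comparable; `y <+: y0`, `y ≠ y0`: `TI.inner`
for `y, y0` contradicts `WF`; `y = y0`: contradicts `WF`; `y0 <+: y`, `y0 ≠ y`: `TI.inner` for
`y0, y` and `TI.uniq` give `u' <+: y` or `v' <+: y`.
`Unk` for the new context is `Unk K κ β' y'` (`unk_step` with `Allow_mono` for the suffix `κ` of `κ1`)
and `¬ Killed K (al K κ) κ.length (P0 ++ t' :: Q, t' :: Q, F) β' y'`: if `γ m b` witness `Killed`,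
then `a :: γ`, `m`, `b` witness `Killed K (al K κ) κ.length (P0 ++ t' :: Q, Q, F) β y'`: `Ext_cons`
with `Allow_mono`; the event `a` is not excluding because `z <+: y'`; `NX β Q y'`.
-/

set_option autoImplicit false

namespace Pool.Agent.KAP

open Encodable Pool.Agent.H19 Pool.Agent.H24P

theorem imp_alive {K : ℕ → ℕ → Bool} {κ : Ctx} {P0 Q : List Tree} {F : List ℕ} {t' : Tree}
    {β : List Sym} {y w z : Str} (hT : TInv β (P0 ++ t' :: Q))
    (hI : ∀ it, some it ∈ κ → LeI it (P0 ++ t' :: Q) F)
    (ha : Allow K (al K (some (P0 ++ t' :: Q, Q, F) :: κ)) (κ.length + 1) (P0 ++ t' :: Q) F β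
      (ev (tid t') y w z)) :
    al K (some (P0 ++ t' :: Q, t' :: Q, F) :: κ) (t' :: Q) (β ++ [ev (tid t') y w z]) z ∧
      NTop (β ++ [ev (tid t') y w z]) (t' :: Q) z := by
  obtain ⟨hWF, -, hz⟩ := ha.2 P0 t' Q rfl rfl
  obtain ⟨hny, hno, -, -, hyz, -, -, -, -⟩ := hWF
  have hTI := hT P0 t' Q rfl
  refine ⟨?_, ?_⟩
  · intro n
    obtain ⟨y', hn, hzy, hNX, hU1, hU2⟩ := hz n
    have hyy : y <+: y' := hyz.trans hzy
    have hnx : NX (β ++ [ev (tid t') y w z]) (t' :: Q) y' := by
      intro t'' ht y0 u v hmem hpre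
      rcases List.mem_append.1 hmem with hm | hm
      · rcases List.mem_cons.1 ht with h0 | h0
        · subst h0
          rcases List.prefix_or_prefix_of_prefix hpre hyy with h1 | h1
          · by_cases he : y0 = y
            · subst he
              exact absurd hm (hno u v)
            · obtain ⟨u1, v1, hm1, h2⟩ := hTI.inner y0 y (hTI.memb y0 u v hm).1 hny h1 he
              obtain ⟨e1, e2⟩ := hTI.uniq y0 u1 v1 u v hm1 hm
              subst e1; subst e2
              rcases h2 with h2 | h2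
              · exact Or.inl (h2.trans hyy)
              · exact Or.inr (h2.trans hyy)
          · by_cases he : y = y0
            · subst he
              exact absurd hm (hno u v)
            · obtain ⟨u1, v1, hm1, -⟩ := hTI.inner y y0 hny (hTI.memb y0 u v hm).1 h1 he
              exact absurd hm1 (hno u1 v1)
        · exact hNX t'' h0 y0 u v hm hpre
      · have h1 := List.mem_singleton.1 hm
        simp only [ev, Sum.inl.injEq, Prod.mk.injEq] at h1
        obtain ⟨-, -, -, h4⟩ := h1
        subst h4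
        exact Or.inr hzy
    have hallow : Allow K (al K κ) κ.length (P0 ++ t' :: Q) F β (ev (tid t') y w z) :=
      Allow_mono (κ := some (P0 ++ t' :: Q, Q, F) :: κ) (List.suffix_cons _ _) (LeE_refl _ _) ha
    refine ⟨y', hn, hzy, hnx, unk_step hI hallow hU1, ?_⟩
    rintro ⟨γ, m, b, h1, h2, h3, -, h5, h6⟩
    apply hU2
    have happ : β ++ (ev (tid t') y w z) :: γ = β ++ [ev (tid t') y w z] ++ γ := by simp
    refine ⟨ev (tid t') y w z :: γ, m, b, Ext_cons.2 ⟨hallow, h1⟩, ?_, ?_, hNX, ?_, h6⟩
    · rw [happ]; exact h2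
    · intro t'' ht y0 u v hmem hpre
      rcases List.mem_cons.1 hmem with h0 | h0
      · simp only [ev, Sum.inl.injEq, Prod.mk.injEq] at h0
        obtain ⟨-, -, -, h4⟩ := h0
        subst h4
        exact Or.inr hzy
      · exact h3 t'' ht y0 u v h0 hpre
    · rw [happ]; exact h5
  · intro t ht
    simp only [List.head?_cons, Option.some.injEq] at ht
    subst ht
    exact Or.inr ⟨y, w, z, by simp, Or.inr rfl⟩

end Pool.Agent.KAP
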