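import Mathlib
import Pool.Agent.KAP.AM

/-!
KAP, module VC. Vectors.
Proofs: lists; `Prot`, `Forb`, `ids` commute with `++`; `Forb V ⊆ ids V` and `tid t ∈ ids V` for
`t ∈ Prot V`; `ids` of a reverse has the same members.  `LeE_vout`: `Wv L R = R.reverse ++ L`; if
`R = []` this is `LeE_refl`.  If `R ≠ []`, `Prot (Wv L R) = Prot R.reverse ++ Prot L`,
`Prot (vout L R) = Prot L`, `Forb (vout L R) = ids R ++ Forb L`; a tree `t` with
`Prot (Wv L R) = P1 ++ t :: P2` is in `Prot R.reverse` (then `tid t ∈ ids R`), or `t :: P2 <:+ Prot L`.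
`LeI_item`: the same with the information that `t ∈ Prot L` in the second case.  `LeI_chain`: by
induction on `ags`; for `some (L, R, z) :: κ` with `Wv L R = Sum.inl tn :: Vof κ`: the new item by
`LeI_item`; the older ones by induction, `LeI_trans` with `LeE_inl` and `LeE_vout`.  `LeE_chain`: the
same for vectors instead of items.  (The hypothesis `hc` passes to suffixes.)
-/

set_option autoImplicit false

namespace Pool.Agent.KAP

open Encodable Pool.Agent.H19 Pool.Agent.H24P

theorem Prot_append (V V' : List Coord) : Prot (V ++ V') = Prot V ++ Prot V' := by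
  induction V with
  | nil => rfl
  | cons c V ih =>
    cases c with
    | inl t => simp only [List.cons_append, Prot, ih]
    | inr l => simp only [List.cons_append, Prot, ih]

theorem Forb_append (V V' : List Coord) : Forb (V ++ V') = Forb V ++ Forb V' := by
  induction V with
  | nil => rfl
  | cons c V ih =>
    cases c with
    | inl t => simp only [List.cons_append, Forb, ih]
    | inr l => simp only [List.cons_append, Forb, ih, List.append_assoc]

theorem ids_append (V V' : List Coord) : ids (V ++ V') = ids V ++ ids V' := by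
  induction V with
  | nil => rfl
  | cons c V ih =>
    cases c with
    | inl t => simp only [List.cons_append, ids, ih]
    | inr l => simp only [List.cons_append, ids, ih, List.append_assoc]

theorem Forb_subset_ids (V : List Coord) : Forb V ⊆ ids V := by
  induction V with
  | nil => exact fun _ h => h
  | cons c V ih =>
    cases c with
    | inl t =>
      intro x hx
      exact List.mem_cons_of_mem _ (ih hx)
    | inr l =>
      intro x hx
      simp only [Forb, ids, List.mem_append] at hx ⊢
      exact hx.imp id fun h => ih h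

theorem mem_Prot {V : List Coord} {t : Tree} : t ∈ Prot V ↔ Sum.inl t ∈ V := by
  induction V with
  | nil => simp [Prot]
  | cons c V ih =>
    cases c with
    | inl t' => simp [Prot, ih]
    | inr l => simp [Prot, ih]

theorem VC_mem_ids {V : List Coord} {x : ℕ} :
    x ∈ ids V ↔ (∃ t, Sum.inl t ∈ V ∧ tid t = x) ∨ ∃ l, Sum.inr l ∈ V ∧ x ∈ l := by
  induction V with
  | nil => simp [ids]
  | cons c V ih =>
    cases c with
    | inl t' =>
      simp only [ids, List.mem_cons, ih]
      constructor
      · rintro (h | ⟨t, h1, h2⟩ | ⟨l, h1, h2⟩)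
        · exact Or.inl ⟨t', Or.inl rfl, h.symm⟩
        · exact Or.inl ⟨t, Or.inr h1, h2⟩
        · exact Or.inr ⟨l, Or.inr h1, h2⟩
      · rintro (⟨t, h1 | h1, h2⟩ | ⟨l, h1 | h1, h2⟩)
        · obtain rfl := Sum.inl.inj h1
          exact Or.inl h2.symm
        · exact Or.inr (Or.inl ⟨t, h1, h2⟩)
        · exact absurd h1 (by simp)
        · exact Or.inr (Or.inr ⟨l, h1, h2⟩)
    | inr l' =>
      simp only [ids, List.mem_append, List.mem_cons, ih]
      constructor
      · rintro (h | ⟨t, h1, h2⟩ | ⟨l, h1, h2⟩)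
        · exact Or.inr ⟨l', Or.inl rfl, h⟩
        · exact Or.inl ⟨t, Or.inr h1, h2⟩
        · exact Or.inr ⟨l, Or.inr h1, h2⟩
      · rintro (⟨t, h1 | h1, h2⟩ | ⟨l, h1 | h1, h2⟩)
        · exact absurd h1 (by simp)
        · exact Or.inr (Or.inl ⟨t, h1, h2⟩)
        · obtain rfl := Sum.inr.inj h1
          exact Or.inl h2
        · exact Or.inr (Or.inr ⟨l, h1, h2⟩)

theorem tid_mem_ids {V : List Coord} {t : Tree} (h : t ∈ Prot V) : tid t ∈ ids V :=
  VC_mem_ids.2 (Or.inl ⟨t, mem_Prot.1 h, rfl⟩)

theorem VC_mem_ids_reverse {V : List Coord} {x : ℕ} : x ∈ ids V.reverse ↔ x ∈ ids V := by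
  rw [VC_mem_ids, VC_mem_ids]
  simp only [List.mem_reverse]

theorem VC_split {P Q P1 : List Tree} {t : Tree} {P2 : List Tree}
    (h : P ++ Q = P1 ++ t :: P2) : t ∈ P ∨ ∃ P1', Q = P1' ++ t :: P2 := by
  rw [List.append_eq_append_iff] at h
  rcases h with ⟨e, _, h2⟩ | ⟨e, h1, h2⟩
  · exact Or.inr ⟨e, h2⟩
  · cases e with
    | nil => exact Or.inr ⟨[], by simpa using h2.symm⟩
    | cons t' e =>
      left
      rw [List.cons_append] at h2
      obtain ⟨rfl, _⟩ := List.cons.inj h2
      rw [h1]
      simp

theorem LeE_inl (tn : Tree) (V : List Coord) :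
    LeE (Prot V) (Forb V) (Prot (Sum.inl tn :: V)) (Forb (Sum.inl tn :: V)) := by
  refine ⟨fun _ h => h, fun P1 t P2 h => Or.inr ⟨tn :: P1, ?_⟩⟩
  simp only [Prot, h, List.cons_append]

theorem Prot_vout (L R : List Coord) : Prot (vout L R) = Prot L := by
  unfold vout
  split_ifs
  · rfl
  · rfl

theorem VC_forb (L R : List Coord) : Forb (Wv L R) ⊆ Forb (vout L R) := by
  intro x hx
  unfold Wv at hx
  rw [Forb_append, List.mem_append] at hx
  unfold vout
  split_ifs with hR
  · subst hR
    rcases hx with hx | hx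
    · simp [Forb] at hx
    · exact hx
  · simp only [Forb, List.mem_append]
    rcases hx with hx | hx
    · exact Or.inl (VC_mem_ids_reverse.1 (Forb_subset_ids _ hx))
    · exact Or.inr hx

theorem LeI_item (L R : List Coord) :
    LeI (Prot (Wv L R), Prot L, Forb (Wv L R)) (Prot (vout L R)) (Forb (vout L R)) := by
  refine ⟨VC_forb L R, fun P1 t P2 h => ?_⟩
  rw [Prot_vout]
  have h1 : Prot R.reverse ++ Prot L = P1 ++ t :: P2 := by
    rw [← Prot_append]
    exact h
  rcases VC_split h1 with h2 | ⟨P1', h2⟩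
  · left
    have h3 : tid t ∈ ids R := VC_mem_ids_reverse.1 (tid_mem_ids h2)
    unfold vout
    split_ifs with hR
    · subst hR
      simp [Prot] at h2
    · simp only [Forb, List.mem_append]
      exact Or.inl h3
  · right
    refine ⟨?_, P1', h2⟩
    show t ∈ Prot L
    rw [h2]
    simp

theorem LeE_vout (L R : List Coord) :
    LeE (Prot (Wv L R)) (Forb (Wv L R)) (Prot (vout L R)) (Forb (vout L R)) := by
  obtain ⟨h1, h2⟩ := LeI_item L R
  exact ⟨h1, fun P1 t P2 h => (h2 P1 t P2 h).imp id fun h3 => h3.2⟩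

theorem VC_step {L R : List Coord} {tn : Tree} {V : List Coord} (h : Wv L R = Sum.inl tn :: V) :
    LeE (Prot V) (Forb V) (Prot (vout L R)) (Forb (vout L R)) := by
  have h1 := LeE_inl tn V
  rw [← h] at h1
  exact LeE_trans h1 (LeE_vout L R)

theorem LeI_chain {ags : List Agt}
    (hc : ∀ L R z κ, some (L, R, z) :: κ <:+ ags → ∃ tn, Wv L R = Sum.inl tn :: Vof κ) :
    ∀ it, some it ∈ ctx ags → LeI it (Prot (Vof ags)) (Forb (Vof ags)) := by
  induction ags with
  | nil =>
    intro it h
    simp [ctx] at h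
  | cons a κ ih =>
    have hc' : ∀ L R z κ', some (L, R, z) :: κ' <:+ κ → ∃ tn, Wv L R = Sum.inl tn :: Vof κ' :=
      fun L R z κ' h => hc L R z κ' (h.trans (List.suffix_cons a κ))
    intro it h
    cases a with
    | none =>
      have h1 : some it ∈ ctx κ := by
        simpa [ctx, itemOf] using h
      exact ih hc' it h1
    | some a =>
      obtain ⟨L, R, z⟩ := a
      have h1 : some it = some (Prot (Wv L R), Prot L, Forb (Wv L R)) ∨ some it ∈ ctx κ := by
        have h2 : ctx (some (L, R, z) :: κ) =
            some (Prot (Wv L R), Prot L, Forb (Wv L R)) :: ctx κ := rfl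
        rw [h2, List.mem_cons] at h
        exact h
      rcases h1 with h1 | h1
      · obtain rfl := Option.some.inj h1
        exact LeI_item L R
      · obtain ⟨tn, htn⟩ := hc L R z κ List.suffix_rfl
        exact LeI_trans (ih hc' it h1) (VC_step htn)

theorem LeE_chain {ags κ : List Agt} (hκ : κ <:+ ags)
    (hc : ∀ L R z κ, some (L, R, z) :: κ <:+ ags → ∃ tn, Wv L R = Sum.inl tn :: Vof κ) :
    LeE (Prot (Vof κ)) (Forb (Vof κ)) (Prot (Vof ags)) (Forb (Vof ags)) := by
  induction ags with
  | nil =>
    rw [List.suffix_nil] at hκ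
    subst hκ
    exact LeE_refl _ _
  | cons a ags ih =>
    rw [List.suffix_cons_iff] at hκ
    rcases hκ with rfl | hκ
    · exact LeE_refl _ _
    · have hc' : ∀ L R z κ', some (L, R, z) :: κ' <:+ ags →
          ∃ tn, Wv L R = Sum.inl tn :: Vof κ' :=
        fun L R z κ' h => hc L R z κ' (h.trans (List.suffix_cons a ags))
      cases a with
      | none => exact ih hκ hc'
      | some a =>
        obtain ⟨L, R, z⟩ := a
        obtain ⟨tn, htn⟩ := hc L R z ags List.suffix_rfl
        exact LeE_trans (ih hκ hc') (VC_step htn)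

theorem Inv.chain {A : ℕ → Bool} {s : State} (h : Inv A s) {ags : List Agt}
    (hs : ags <:+ s.2) :
    ∀ L R z κ, some (L, R, z) :: κ <:+ ags → ∃ tn, Wv L R = Sum.inl tn :: Vof κ :=
  fun _ _ _ _ hk => (h _ (hk.trans hs)).1

end Pool.Agent.KAP
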