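import Mathlib
import Pool.Agent.KAP.VC
import Pool.Agent.KAP.AX

/-!
KAP, module UP. Actions of upper agents, seen from below.
Proof by cases on the action; `κ <:+ s.2` and `κ <:+ s'.2`.
* `new`: `γ = cols X t ags.length`; every symbol is `col n q (X n t q)`, so `AllowX` holds and there are
no events; `Ready_suffix`.
* All other actions act on an agent `ag :: κ0 <:+ s.2`, with `s'.2 = ag' :: κ0` and `ag' ≠ ag`
(`sat`: `none ≠ some _`; `rst`, `fak`: the fake changes from `some` to `none` or back; `imp`, `skp`: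
`L` gets longer).  Hence `κ <:+ κ0`: otherwise `κ = ag' :: κ0` (`List.suffix_cons_iff`), and the suffix
of `s.2` of length `κ0.length + 1` is `ag :: κ0`.  `Ready X A t s.1 κ` by `Ready_suffix`.
For `rst`, `fak`, `skp`: `γ = []`.  For `sat`, `imp` the agent has vector `Wv L R` with
`Wv L R = Sum.inl tn :: Vof κ0` (`Inv.chain`), so by `LeE_chain`, `LeE_inl`, `LeE_trans`:
`LeE (Prot (Vof κ)) (Forb (Vof κ)) (Prot (Wv L R)) (Forb (Wv L R))`, and `AllowX_mono`, with
`ctx κ <:+ ctx κ0` (for `imp` also `ctx κ0 <:+ ctx (ag :: κ0)`), gives the third statement.  Fourth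
statement: `nxa_mono`.  For `imp`: `NXA A [ev (tid t') y w z] _` holds as `On A w`.
`nxa_mono`: for `t ∈ P = P1 ++ t :: P2`, by `LeE` either `t ∈ P'`, or `tid t ∈ F'`, and then `γ`
contains no event with identifier `tid t` by `AllowX`.
-/

set_option autoImplicit false

namespace Pool.Agent.KAP

open Encodable Pool.Agent.H19 Pool.Agent.H24P

theorem nxa_mono {X : ℕ → ℕ → ℕ → Bool} {t : ℕ} {κ : Ctx} {A : ℕ → Bool}
    {P P' : List Tree} {F F' : List ℕ} {β γ : List Sym} (hle : LeE P F P' F')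
    (hγ : Ext (AllowX X t κ P' F') β γ) (h : NXA A γ P') : NXA A γ P := by
  intro t0 ht y u v hev hy
  obtain ⟨P1, P2, hP⟩ := List.append_of_mem ht
  rcases hle.2 P1 t0 P2 hP with h1 | ⟨P1', h1⟩
  · obtain ⟨γ1, γ2, hγ'⟩ := List.append_of_mem hev
    have h2 := hγ γ1 _ γ2 hγ'
    exact absurd h1 h2.1
  · refine h t0 ?_ y u v hev hy
    rw [h1]
    simp

private theorem up_suf {ag ag' : Agt} {Y κ0 κ : List Agt} (hne : ag' ≠ ag)
    (h1 : κ <:+ Y ++ ag :: κ0) (h2 : κ <:+ ag' :: κ0) : κ <:+ κ0 := by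
  rcases List.suffix_cons_iff.1 h2 with h3 | h3
  · exfalso
    have h4 : ag :: κ0 <:+ Y ++ ag :: κ0 := List.suffix_append _ _
    rw [h3] at h1
    have h5 : ag' :: κ0 <:+ ag :: κ0 := List.suffix_of_suffix_length_le h1 h4 (by simp)
    have h6 := h5.eq_of_length (by simp)
    exact hne (List.cons.inj h6).1
  · exact h3

private theorem up_le {A : ℕ → Bool} {β : List Sym} {Y κ0 κ : List Agt} {L R : List Coord}
    {z : Option Str} (hI : Inv A (β, Y ++ some (L, R, z) :: κ0)) (hκ : κ <:+ κ0) :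
    LeE (Prot (Vof κ)) (Forb (Vof κ)) (Prot (Wv L R)) (Forb (Wv L R)) := by
  have hsuf : some (L, R, z) :: κ0 <:+ Y ++ some (L, R, z) :: κ0 := List.suffix_append _ _
  obtain ⟨tn, hW⟩ := Inv.chain hI (ags := some (L, R, z) :: κ0) hsuf L R z κ0
    (List.suffix_refl _)
  have h1 : κ0 <:+ Y ++ some (L, R, z) :: κ0 := (List.suffix_cons _ _).trans hsuf
  have h2 := LeE_chain hκ (Inv.chain hI (ags := κ0) h1)
  have h3 := LeE_trans h2 (LeE_inl tn (Vof κ0))
  rwa [← hW] at h3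

private theorem up_nil {X : ℕ → ℕ → ℕ → Bool} {A : ℕ → Bool} {t : ℕ} {β : List Sym}
    {κ0 κ : List Agt} (hr : Ready X A t β κ0) (hκ : κ <:+ κ0) :
    ∃ γ, β = β ++ γ ∧ Ready X A t β κ ∧
      Ext (AllowX X t (ctx κ) (Prot (Vof κ)) (Forb (Vof κ))) β γ ∧
      NXA A γ (Prot (Vof κ)) := by
  refine ⟨[], by simp, Ready_suffix hκ hr, Ext_nil _, ?_⟩
  intro t0 _ y u v hev
  simp at hev

private theorem up_cols {X : ℕ → ℕ → ℕ → Bool} {t r : ℕ} {a : Sym} (h : a ∈ cols X t r) :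
    ∃ n q, a = col n q (X n t q) := by
  unfold cols at h
  rw [List.mem_flatMap] at h
  obtain ⟨n, _, h⟩ := h
  rw [List.mem_map] at h
  obtain ⟨q, _, h⟩ := h
  exact ⟨n, q, h.symm⟩

theorem Stp.upper {X : ℕ → ℕ → ℕ → Bool} {A : ℕ → Bool} {t : ℕ} {s s' : State} {a : Act}
    (h : Stp X A t s a s') (hI : Inv A s) {κ : List Agt} (h1 : κ <:+ s.2) (h2 : κ <:+ s'.2) :
    ∃ γ, s'.1 = s.1 ++ γ ∧ Ready X A t s.1 κ ∧
      Ext (AllowX X t (ctx κ) (Prot (Vof κ)) (Forb (Vof κ))) s.1 γ ∧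
      NXA A γ (Prot (Vof κ)) := by
  cases h with
  | new β ags i y0 hr hf hi hy hA =>
    refine ⟨cols X t ags.length, rfl, Ready_suffix h1 hr, ?_, ?_⟩
    · intro γ1 a γ2 hγ
      obtain ⟨n, q, ha⟩ := up_cols (X := X) (t := t) (r := ags.length) (a := a)
        (by rw [hγ]; simp)
      rw [ha]
      exact fun _ => rfl
    · intro t0 _ y u v hev
      obtain ⟨n, q, ha⟩ := up_cols hev
      simp at ha
  | sat β Y L R z κ0 γ m b hr hγ hA hm hb =>
    have hκ : κ <:+ κ0 := up_suf (by simp) h1 h2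
    have hle := up_le hI hκ
    exact ⟨γ, rfl, Ready_suffix hκ hr,
      Ext_mono (fun β a => AllowX_mono (ctx_suffix hκ) hle) hγ, nxa_mono hle hγ hA⟩
  | rst β Y L R z κ0 n hr hz hn =>
    have hκ : κ <:+ κ0 := up_suf (by simp) h1 h2
    exact up_nil hr hκ
  | imp β Y L t' R z0 κ0 y w z hr ha hw hz =>
    have hκ : κ <:+ κ0 := up_suf (by
      intro he
      have h3 := congrArg (fun x : Agt => x.elim 0 (fun y => y.1.length)) he
      simp at h3) h1 h2
    have hle := up_le hI hκ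
    refine ⟨[ev (tid t') y w z], rfl, Ready_suffix hκ hr, ?_, ?_⟩
    · refine Ext_cons.2 ⟨AllowX_mono (ctx_suffix (hκ.trans (List.suffix_cons _ _))) hle ha,
        Ext_nil _⟩
    · intro t0 _ y1 u v hev _
      left
      rw [List.mem_singleton] at hev
      have h3 := Sum.inl.inj hev
      simp only [Prod.mk.injEq] at h3
      rw [h3.2.2.1]
      exact hw
  | fak β Y R κ0 z hr hz hX =>
    have hκ : κ <:+ κ0 := up_suf (by simp) h1 h2
    exact up_nil hr hκ
  | skp β Y L l R z κ0 hr =>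
    have hκ : κ <:+ κ0 := up_suf (by
      intro he
      have h3 := congrArg (fun x : Agt => x.elim 0 (fun y => y.1.length)) he
      simp at h3) h1 h2
    exact up_nil hr hκ

end Pool.Agent.KAP
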