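import Mathlib
import Pool.Agent.KAP.UP
import Pool.Agent.KAP.TS

/-!
KAP, module GV. Good vectors.
Proofs.  `GoodV_step`: `TInv` by induction along `γ` with `TInv_step_ev`/`TInv_step_col` (`AllowX`
contains the condition `WF`); `NXA A (β ++ γ) P` from both parts.  `GoodV_vout`: `vout L R` is `L` or
`Sum.inr (ids R) :: L`; `ids (vout L R)` is a permutation of `ids (Wv L R)` (both are permutations of
`ids R ++ ids L`), `Prot (vout L R) = Prot L` is a suffix of `Prot (Wv L R)`; `idx`: a decomposition of
`vout L R` at a tree is a decomposition of `L`, hence one of `Wv L R` with the same `V2`.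
`GoodV_new`: `TInv_fresh`; `NXA`: no events on the new tree; `idx`: the new tree has functional index
`V.length`.  `GoodV_Vof`: by induction on `ags`: `[]` clear; `none :: κ`; `some (L, R, z) :: κ`: the
invariant and `GoodV_vout`.
-/

set_option autoImplicit false

namespace Pool.Agent.KAP

open Encodable Pool.Agent.H19 Pool.Agent.H24P

theorem GoodV_nil (A : ℕ → Bool) (β : List Sym) : GoodV A β [] where
  nod := by simp [ids]
  tin := by
    intro P1 t P2 h
    simp [Prot] at h
  nxa := by
    intro t ht
    simp [Prot] at ht
  root := by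
    intro t ht
    simp [Prot] at ht
  idx := by
    intro V1 t V2 h
    simp at h

private theorem tinv_ext {X : ℕ → ℕ → ℕ → Bool} {t : ℕ} {κ : Ctx} {P : List Tree}
    {F : List ℕ} : ∀ (γ β : List Sym), TInv β P → Ext (AllowX X t κ P F) β γ →
      TInv (β ++ γ) P
  | [], β, h, _ => by simpa using h
  | a :: γ, β, h, hγ => by
    have h1 := (Ext_cons.1 hγ)
    have h2 : TInv (β ++ [a]) P := by
      cases a with
      | inl a =>
        obtain ⟨q, y, u, v⟩ := a
        exact TInv_step_ev h fun P1 t P2 h3 h4 => (h1.1.2 P1 t P2 h3 h4).1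
      | inr a =>
        obtain ⟨n, q, b⟩ := a
        exact TInv_step_col h
    have h3 := tinv_ext γ (β ++ [a]) h2 h1.2
    simpa using h3

theorem GoodV_step {X : ℕ → ℕ → ℕ → Bool} {t : ℕ} {κ : Ctx} {A : ℕ → Bool}
    {β γ : List Sym} {V : List Coord} (h : GoodV A β V)
    (hγ : Ext (AllowX X t κ (Prot V) (Forb V)) β γ) (hA : NXA A γ (Prot V)) :
    GoodV A (β ++ γ) V where
  nod := h.nod
  tin := tinv_ext γ β h.tin hγ
  nxa := by
    intro t ht y u v he hy
    rcases List.mem_append.1 he with he | he
    · exact h.nxa t ht y u v he hy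
    · exact hA t ht y u v he hy
  root := h.root
  idx := h.idx

private theorem ids_reverse_perm : ∀ R : List Coord, (ids R.reverse).Perm (ids R)
  | [] => by simp
  | c :: R => by
    have h1 : ids (c :: R).reverse = ids R.reverse ++ ids [c] := by
      rw [List.reverse_cons, ids_append]
    have h2 : ids (c :: R) = ids [c] ++ ids R := by
      rw [← ids_append]
      rfl
    rw [h1, h2]
    exact (List.perm_append_comm).trans (List.Perm.append_left _ (ids_reverse_perm R))

theorem GoodV_vout {A : ℕ → Bool} {β : List Sym} {L R : List Coord}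
    (h : GoodV A β (Wv L R)) : GoodV A β (vout L R) := by
  have hP : Prot L <:+ Prot (Wv L R) := by
    unfold Wv
    rw [Prot_append]
    exact List.suffix_append _ _
  refine ⟨?_, ?_, ?_, ?_, ?_⟩
  · by_cases hR : R = []
    · subst hR
      simpa [vout, Wv] using h.nod
    · have h1 := h.nod
      unfold Wv at h1
      rw [ids_append] at h1
      have h2 : ids (vout L R) = ids R ++ ids L := by
        simp [vout, hR, ids]
      rw [h2]
      exact ((List.Perm.append_right (ids L) (ids_reverse_perm R)).nodup_iff).1 h1
  · rw [Prot_vout]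
    exact TInv_suffix hP h.tin
  · rw [Prot_vout]
    intro t ht
    exact h.nxa t (hP.subset ht)
  · rw [Prot_vout]
    intro t ht
    exact h.root t (hP.subset ht)
  · intro V1 t V2 hV
    by_cases hR : R = []
    · subst hR
      have h1 : vout L [] = L := by simp [vout]
      rw [h1] at hV
      exact h.idx V1 t V2 (by simpa [Wv] using hV)
    · have h1 : vout L R = Sum.inr (ids R) :: L := by simp [vout, hR]
      rw [h1] at hV
      cases V1 with
      | nil => simp at hV
      | cons c V1 =>
        simp only [List.cons_append, List.cons.injEq] at hV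
        refine h.idx (R.reverse ++ V1) t V2 ?_
        unfold Wv
        rw [hV.2, List.append_assoc]

theorem GoodV_new {A : ℕ → Bool} {β : List Sym} {V : List Coord} {i : ℕ} {y0 : Str}
    (h : GoodV A β V) (hf : ∀ q y u v, ev q y u v ∈ β → q ≠ i) (hi : i ∉ ids V)
    (hy : NTop β (Prot V) y0) (hA : On A y0) :
    GoodV A β (Sum.inl (V.length, i, y0) :: V) where
  nod := by
    show ((i : ℕ) :: ids V).Nodup
    exact List.nodup_cons.2 ⟨hi, h.nod⟩
  tin := TInv_fresh h.tin hf hy
  nxa := by
    intro t ht y u v he hAy
    have ht' : t ∈ ((V.length, i, y0) : Tree) :: Prot V := ht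
    rcases List.mem_cons.1 ht' with rfl | ht'
    · exact absurd rfl (hf _ y u v he)
    · exact h.nxa t ht' y u v he hAy
  root := by
    intro t ht
    have ht' : t ∈ ((V.length, i, y0) : Tree) :: Prot V := ht
    rcases List.mem_cons.1 ht' with rfl | ht'
    · exact hA
    · exact h.root t ht'
  idx := by
    intro V1 t V2 hV
    cases V1 with
    | nil =>
      simp only [List.nil_append, List.cons.injEq, Sum.inl.injEq] at hV
      obtain ⟨h1, h2⟩ := hV
      rw [← h1, ← h2]
    | cons c V1 =>
      simp only [List.cons_append, List.cons.injEq] at hV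
      exact h.idx V1 t V2 hV.2

theorem GoodV_Vof {A : ℕ → Bool} {β : List Sym} {ags : List Agt}
    (h : ∀ κ, κ <:+ ags → GoodSt A β κ) : GoodV A β (Vof ags) := by
  induction ags with
  | nil => exact GoodV_nil A β
  | cons ag κ ih =>
    have ih' := ih fun κ' hκ => h κ' (hκ.trans (List.suffix_cons _ _))
    rcases ag with _ | ⟨L, R, z⟩
    · exact ih'
    · have h1 := h _ (List.suffix_refl _)
      exact GoodV_vout h1.2.1

end Pool.Agent.KAP
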