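import Mathlib
import Pool.Agent.KAP.GV

/-!
KAP, module IN. Invariants are preserved.
Proofs.  `GoodSt_upper`: `κ = []`, clear; `none :: κ`: `Psi_mono`; `some (L, R, z) :: κ`: here
`Vof (some (L, R, z) :: κ) = vout L R`; by `AllowX_mono` with `LeE_vout` and by `nxa_mono` the
hypotheses hold for `Wv L R`, so `GoodV_step`; `NTop_mono`.
`Inv_step`: let `κ <:+ s'.2`.  If `κ <:+ s.2` as well, use `Stp.upper` and `GoodSt_upper`.  In all
cases `s'.2 = ag' :: κ0` with `κ0 <:+ s.2`, so otherwise `κ = s'.2` (`List.suffix_cons_iff`).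
`new`: `Wv [] (V.reverse ++ [x]) = x :: V`, `GoodV_new`, `GoodV_Vof`, then `GoodV_step` for `cols`
(no events).  `sat`: clear.  `rst`: `Wv [] (L.reverse ++ R) = Wv L R`.  `imp`:
`Wv (Sum.inl t' :: L) R = Wv L (Sum.inl t' :: R)`, `GoodV_step` for `γ = [ev ..]`; `z` is a node of
`t'` in the new string.  `fak`: clear.  `skp`: `Wv (Sum.inr l :: L) R = Wv L (Sum.inr l :: R)`,
`Prot (Sum.inr l :: L) = Prot L`.
-/

set_option autoImplicit false

namespace Pool.Agent.KAP

open Encodable Pool.Agent.H19 Pool.Agent.H24P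

theorem GoodSt_upper {X : ℕ → ℕ → ℕ → Bool} {t : ℕ} {A : ℕ → Bool} {β γ : List Sym}
    {κ : List Agt} (h : GoodSt A β κ)
    (hγ : Ext (AllowX X t (ctx κ) (Prot (Vof κ)) (Forb (Vof κ))) β γ)
    (hA : NXA A γ (Prot (Vof κ))) : GoodSt A (β ++ γ) κ := by
  match κ, h with
  | [], _ => trivial
  | none :: κ, ⟨m, b, h1, h2⟩ => exact ⟨m, b, Psi_mono (List.prefix_append _ _) h1, h2⟩
  | some (L, R, z) :: κ, ⟨h1, h2, h3, h4⟩ =>
    have hle := LeE_vout L R
    refine ⟨h1, ?_, h3, fun z' hz' => ⟨(h4 z' hz').1, NTop_mono (h4 z' hz').2⟩⟩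
    exact GoodV_step h2
      (Ext_mono (fun β a => AllowX_mono (List.suffix_refl _) hle) hγ) (nxa_mono hle hγ hA)

private theorem in_cols {X : ℕ → ℕ → ℕ → Bool} {t r : ℕ} {a : Sym} (h : a ∈ cols X t r) :
    ∃ n q, a = col n q (X n t q) := by
  unfold cols at h
  rw [List.mem_flatMap] at h
  obtain ⟨n, _, h⟩ := h
  rw [List.mem_map] at h
  obtain ⟨q, _, h⟩ := h
  exact ⟨n, q, h.symm⟩

theorem Inv_step {X : ℕ → ℕ → ℕ → Bool} {A : ℕ → Bool} {t : ℕ} {s s' : State} {a : Act}
    (h : Stp X A t s a s') (hI : Inv A s) : Inv A s' := by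
  intro κ hκ
  by_cases hs : κ <:+ s.2
  · obtain ⟨γ, h1, _, h3, h4⟩ := h.upper hI hs hκ
    rw [h1]
    exact GoodSt_upper (hI κ hs) h3 h4
  · cases h with
    | new β ags i y0 hr hf hi hy hA =>
      rcases List.suffix_cons_iff.1 hκ with h3 | h3
      · rw [h3]
        have hW : Wv [] ((Vof ags).reverse ++ [Sum.inl ((Vof ags).length, i, y0)]) =
            Sum.inl ((Vof ags).length, i, y0) :: Vof ags := by
          simp [Wv]
        refine ⟨⟨_, hW⟩, ?_, fun _ => rfl, fun z' hz' => by simp at hz'⟩
        rw [hW]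
        have hV : GoodV A β (Vof ags) := GoodV_Vof (fun κ' hκ' => hI κ' hκ')
        refine GoodV_step (X := X) (t := t) (κ := []) (GoodV_new hV hf hi hy hA) ?_ ?_
        · intro γ1 a γ2 hγ
          obtain ⟨n, q, ha⟩ := in_cols (X := X) (t := t) (r := ags.length) (a := a)
            (by rw [hγ]; simp)
          rw [ha]
          exact fun _ => rfl
        · intro t0 _ y u v hev
          obtain ⟨n, q, ha⟩ := in_cols hev
          simp at ha
      · exact absurd h3 hs
    | sat β Y L R z κ0 γ m b hr hγ hA hm hb =>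
      rcases List.suffix_cons_iff.1 hκ with h3 | h3
      · rw [h3]
        exact ⟨m, b, hm, hb⟩
      · exact absurd (h3.trans ((List.suffix_cons _ _).trans (List.suffix_append _ _))) hs
    | rst β Y L R z κ0 n hr hz hn =>
      rcases List.suffix_cons_iff.1 hκ with h3 | h3
      · rw [h3]
        obtain ⟨g1, g2, _, _⟩ := hI (some (L, R, some z) :: κ0) (List.suffix_append _ _)
        have hW : Wv [] (L.reverse ++ R) = Wv L R := by
          simp [Wv]
        refine ⟨?_, ?_, fun _ => rfl, fun z' hz' => by simp at hz'⟩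
        · rw [hW]; exact g1
        · rw [hW]; exact g2
      · exact absurd (h3.trans ((List.suffix_cons _ _).trans (List.suffix_append _ _))) hs
    | imp β Y L t' R z0 κ0 y w z hr ha hw hz =>
      rcases List.suffix_cons_iff.1 hκ with h3 | h3
      · rw [h3]
        obtain ⟨g1, g2, _, _⟩ := hI (some (L, Sum.inl t' :: R, some z0) :: κ0)
          (List.suffix_append _ _)
        have hW : Wv (Sum.inl t' :: L) R = Wv L (Sum.inl t' :: R) := by
          simp [Wv]
        refine ⟨?_, ?_, fun hn => by simp at hn, ?_⟩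
        · rw [hW]; exact g1
        · rw [hW]
          refine GoodV_step g2 (Ext_cons.2 ⟨ha, Ext_nil _⟩) ?_
          intro t0 _ y1 u v hev _
          left
          rw [List.mem_singleton] at hev
          have h4 := Sum.inl.inj hev
          simp only [Prod.mk.injEq] at h4
          rw [h4.2.2.1]
          exact hw
        · intro z' hz'
          rw [Option.some.injEq] at hz'
          rw [← hz']
          refine ⟨hz, ?_⟩
          intro t1 ht1
          have ht2 : t1 = t' := by
            simp only [Prot, List.head?_cons, Option.some.injEq] at ht1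
            exact ht1.symm
          rw [ht2]
          exact Or.inr ⟨y, w, z, by simp, Or.inr rfl⟩
      · exact absurd (h3.trans ((List.suffix_cons _ _).trans (List.suffix_append _ _))) hs
    | fak β Y R κ0 z hr hz hX =>
      rcases List.suffix_cons_iff.1 hκ with h3 | h3
      · rw [h3]
        obtain ⟨g1, g2, _, _⟩ := hI (some ([], R, none) :: κ0) (List.suffix_append _ _)
        refine ⟨g1, g2, fun hn => by simp at hn, ?_⟩
        intro z' hz'
        rw [Option.some.injEq] at hz'
        rw [← hz']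
        refine ⟨hz, ?_⟩
        intro t1 ht1
        simp [Prot] at ht1
      · exact absurd (h3.trans ((List.suffix_cons _ _).trans (List.suffix_append _ _))) hs
    | skp β Y L l R z κ0 hr =>
      rcases List.suffix_cons_iff.1 hκ with h3 | h3
      · rw [h3]
        obtain ⟨g1, g2, _, g4⟩ := hI (some (L, Sum.inr l :: R, some z) :: κ0)
          (List.suffix_append _ _)
        have hW : Wv (Sum.inr l :: L) R = Wv L (Sum.inr l :: R) := by
          simp [Wv]
        refine ⟨?_, ?_, fun hn => by simp at hn, ?_⟩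
        · rw [hW]; exact g1
        · rw [hW]; exact g2
        · exact g4
      · exact absurd (h3.trans ((List.suffix_cons _ _).trans (List.suffix_append _ _))) hs

theorem run_inv {X : ℕ → ℕ → ℕ → Bool} {A : ℕ → Bool} {s : ℕ → State} (h : Run X A s) (t : ℕ) :
    Inv A (s t) := by
  induction t with
  | zero =>
    rw [h.init]
    intro κ hκ
    have : κ = [] := List.suffix_nil.1 hκ
    subst this
    trivial
  | succ t ih =>
    rcases h.seq t with h1 | ⟨a, h1⟩
    · rwa [h1]
    · exact Inv_step h1 ih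

end Pool.Agent.KAP
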