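import Mathlib
import Pool.Agent.KAP.IN
import Pool.Agent.KAP.IA

/-!
KAP, module MI. The new fake after an improvement is alive.
Proof: `Prot (Wv L (Sum.inl t' :: R)) = Prot R.reverse ++ t' :: Prot L` (`Prot_append`), and
`Wv (Sum.inl t' :: L) R = Wv L (Sum.inl t' :: R)`, so with `P0 = Prot R.reverse`, `Q = Prot L`,
`F = Forb (Wv ..)` this is `imp_alive`: `ha` by `Allow_of_AllowX` (the context has length
`κ.length + 1`), `TInv` from `GoodSt`; `hI` by `LeI_chain` for `κ` and `LeI_trans` with `LeE_inl`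
(`Wv L (Sum.inl t' :: R) = Sum.inl tn :: Vof κ`).
-/

set_option autoImplicit false

namespace Pool.Agent.KAP

open Encodable Pool.Agent.H19 Pool.Agent.H24P

theorem imp_fake_alive {X : ℕ → ℕ → ℕ → Bool} {A : ℕ → Bool} {t : ℕ} {β : List Sym}
    {L R : List Coord} {t' : Tree} {z0 y w z : Str} {κ : List Agt}
    (hI : ∀ κ', κ' <:+ some (L, Sum.inl t' :: R, some z0) :: κ → GoodSt A β κ')
    (hX : ∀ n ≤ κ.length + 1, ∀ q, X n t q = Kc n q)
    (ha : AllowX X t (ctx (some (L, Sum.inl t' :: R, some z0) :: κ))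
      (Prot (Wv L (Sum.inl t' :: R))) (Forb (Wv L (Sum.inl t' :: R))) β (ev (tid t') y w z)) :
    al Kc (ctx (some (Sum.inl t' :: L, R, some z) :: κ)) (Prot (Sum.inl t' :: L))
      (β ++ [ev (tid t') y w z]) z := by
  have hsuf : κ <:+ some (L, Sum.inl t' :: R, some z0) :: κ := List.suffix_cons _ _
  obtain ⟨⟨tn, htn⟩, hV, -⟩ := hI _ (List.suffix_refl _)
  have hW : Wv (Sum.inl t' :: L) R = Wv L (Sum.inl t' :: R) := by
    simp [Wv]
  have hP : Prot (Wv L (Sum.inl t' :: R)) = Prot R.reverse ++ t' :: Prot L := by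
    rw [← hW, Wv, Prot_append]
    rfl
  have hc : ∀ L' R' z' κ', some (L', R', z') :: κ' <:+ κ →
      ∃ tn, Wv L' R' = Sum.inl tn :: Vof κ' := fun L' R' z' κ' hk =>
    (hI _ (hk.trans hsuf)).1
  have hLe : LeE (Prot (Vof κ)) (Forb (Vof κ)) (Prot (Wv L (Sum.inl t' :: R)))
      (Forb (Wv L (Sum.inl t' :: R))) := by
    rw [htn]
    exact LeE_inl tn (Vof κ)
  have hctx0 : ctx (some (L, Sum.inl t' :: R, some z0) :: κ) =
      some (Prot R.reverse ++ t' :: Prot L, Prot L, Forb (Wv L (Sum.inl t' :: R))) :: ctx κ := by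
    rw [← hP]
    rfl
  have hctx1 : ctx (some (Sum.inl t' :: L, R, some z) :: κ) =
      some (Prot R.reverse ++ t' :: Prot L, t' :: Prot L, Forb (Wv L (Sum.inl t' :: R))) ::
        ctx κ := by
    rw [← hP, ← hW]
    rfl
  have ha' := Allow_of_AllowX (κ := ctx (some (L, Sum.inl t' :: R, some z0) :: κ))
    (by rw [ctx_length]; exact hX) ha
  rw [hctx0, hP] at ha'
  rw [hctx1]
  refine (imp_alive (P0 := Prot R.reverse) (Q := Prot L) (F := Forb (Wv L (Sum.inl t' :: R)))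
    (κ := ctx κ) ?_ ?_ ha').1
  · rw [← hP]
    exact hV.tin
  · intro it hit
    rw [← hP]
    exact LeI_trans (LeI_chain hc it hit) hLe

end Pool.Agent.KAP
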