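import Mathlib
import Pool.Agent.KAP.US
import Pool.Agent.KAP.TS

/-!
KAP, module PE. Persistence of being alive.
Proof.  Let `n` be given.  Column symbol: take `y` from `h`; `NX (β ++ [col ..]) P y` is clear and
`Unk` persists by `unk_step`.  Event `a = ev q y1 u v`.  Take `y` from `h` for `n`.
(A) If there is no `t ∈ P` with `tid t = q` and `y1 <+: y`, then `NX (β ++ [a]) P y`, and `y` works.
(B) Otherwise `P = P1 ++ t :: P2`, `tid t = q`, `y1 <+: y`; as `P <:+ P'`, `P' = P1' ++ t :: P2`, so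
by `ha`: `WF β t P2 y1 u v`, `al K κ P2 β u`.
Claim `z <+: y1`: both are initial segments of `y`; if `y1 <+: z`, `y1 ≠ z`, then `Node β t z` by
`node_down` (for `P`, `TInv_suffix`), so `TI.inner` for `y1, z` gives an event at `y1` in `β`, against
`WF`.
Take `y'` from `al K κ P2 β u`: `n ≤ |y'|`, `u <+: y'`, `NX β P2 y'`, `Unk K κ β y'`.  Then
`z <+: y1 <+: u <+: y'`, and `Unk K κ (β ++ [a]) y'` by `unk_step`.  `NX (β ++ [a]) P y'`: let
`t' ∈ P`, `ev (tid t') y0 u' v' ∈ β ++ [a]`, `y0 <+: y'`.  If it is the last symbol `a`, then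
`u' = u <+: y'`.  If it is in `β`: if `t' ∈ P2`, use `NX β P2 y'`.  If `t' ∈ P1` or `t' = t`: by
`TI.memb` for `t'` and `node_down` (applied to a suffix of `P` starting with `t'`: a node of `t'` is a
node of every tree behind it) `y0`, `u'`, `v'` are nodes of `t`.  `y0`, `y1` are initial segments of
`y'`, so comparable.  (i) `y0 <+: y1`, `y0 ≠ y1`: as `y0 <+: y1 <+: y` and `NX β P y`, `u' <+: y` or
`v' <+: y`; say `u'` (the same for `v'`).  `u'`, `y1` are comparable; if `y1 <+: u'` and `y1 ≠ u'`,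
`TI.inner` for `t`, `y1, u'` contradicts `WF`; so `u' <+: y1 <+: y'`.  (ii) `y1 <+: y0`: if
`y1 ≠ y0`, `TI.inner` for `y1, y0` contradicts `WF`; if `y1 = y0`, then `y1 <+: u'`, `y1 ≠ u'` by
`TI.memb`, and `TI.inner` for `y1, u'` contradicts `WF`.
-/

set_option autoImplicit false

namespace Pool.Agent.KAP

open Encodable Pool.Agent.H19 Pool.Agent.H24P

theorem PE_nx_snoc {P : List Tree} {β : List Sym} {q : ℕ} {y1 u v y : Str}
    (h : NX β P y) (h1 : ∀ t ∈ P, tid t = q → y1 <+: y → u <+: y ∨ v <+: y) :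
    NX (β ++ [ev q y1 u v]) P y := by
  intro t ht y0 u' v' hm hy
  rw [List.mem_append, List.mem_singleton] at hm
  rcases hm with hm | hm
  · exact h t ht y0 u' v' hm hy
  · have h2 := Sum.inl.inj hm
    simp only [Prod.mk.injEq] at h2
    obtain ⟨h3, rfl, rfl, rfl⟩ := h2
    exact h1 t ht h3 hy

theorem persist {K : ℕ → ℕ → Bool} {κ : Ctx} {P P' : List Tree} {F' : List ℕ} {β : List Sym}
    {a : Sym} {z : Str} (hT : TInv β P') (hP : P <:+ P')
    (hI : ∀ it, some it ∈ κ → LeI it P' F') (ha : Allow K (al K κ) κ.length P' F' β a)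
    (hz : NTop β P z) (h : al K κ P β z) : al K κ P (β ++ [a]) z := by
  intro n
  obtain ⟨y, hy1, hy2, hy3, hy4⟩ := h n
  rcases a with ⟨q, y1, u, v⟩ | ⟨n', q, b⟩
  swap
  · refine ⟨y, hy1, hy2, ?_, unk_step hI ha hy4⟩
    intro t ht y0 u' v' hm hy
    rw [List.mem_append, List.mem_singleton] at hm
    rcases hm with hm | hm
    · exact hy3 t ht y0 u' v' hm hy
    · exact absurd hm (by simp)
  by_cases hB : ∃ t ∈ P, tid t = q ∧ y1 <+: y
  swap
  · refine ⟨y, hy1, hy2, PE_nx_snoc hy3 ?_, unk_step hI ha hy4⟩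
    intro t ht h1 h2
    exact absurd ⟨t, ht, h1, h2⟩ hB
  obtain ⟨t, ht, htq, hy1y⟩ := hB
  obtain ⟨P1, P2, rfl⟩ := List.append_of_mem ht
  have hTP : TInv β (P1 ++ t :: P2) := TInv_suffix hP hT
  obtain ⟨S, hS⟩ := hP
  obtain ⟨hWF, hu, _⟩ := ha.2 (S ++ P1) t P2 (by rw [← hS, List.append_assoc]) htq
  obtain ⟨w1, w2, w3, w4, w5, w6, w7, w8, w9⟩ := hWF
  have hTI : TI β t P2 := hTP P1 t P2 rfl
  have hno : ∀ w, Node β t w → y1 <+: w → y1 = w := by
    intro w hw h1
    by_contra h2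
    obtain ⟨u', v', h3, _⟩ := hTI.inner y1 w w1 hw h1 h2
    exact w2 u' v' h3
  have hzy : z <+: y1 := by
    rcases List.prefix_or_prefix_of_prefix hy2 hy1y with h1 | h1
    · exact h1
    · rw [hno z (node_down hTP hz ht) h1]
  obtain ⟨y', h1, h2, h3, h4⟩ := hu n
  have hy1y' : y1 <+: y' := w3.trans h2
  refine ⟨y', h1, hzy.trans hy1y', PE_nx_snoc ?_ (fun _ _ _ _ => Or.inl h2), unk_step hI ha h4⟩
  intro t' ht' y0 u' v' hm hy
  have key : ∀ P2' : List Tree, (∃ P1', P1 ++ t :: P2 = P1' ++ t' :: P2') → t ∈ t' :: P2' →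
      u' <+: y' ∨ v' <+: y' := by
    rintro P2' ⟨P1', hP1'⟩ htt
    have hTI' : TI β t' P2' := hTP P1' t' P2' hP1'
    have hTs : TInv β (t' :: P2') := TInv_suffix ⟨P1', hP1'.symm⟩ hTP
    obtain ⟨m1, m2, m3, m4, m5, m6, m7, _⟩ := hTI'.memb y0 u' v' hm
    have hnode : ∀ w, Node β t' w → Node β t w := by
      intro w hw
      refine node_down hTs (fun t'' h5 => ?_) htt
      simp only [List.head?_cons, Option.some.injEq] at h5
      rw [← h5]
      exact hw
    have n0 : Node β t y0 := hnode y0 m1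
    have nu : Node β t u' := hnode u' (Or.inr ⟨y0, u', v', hm, Or.inl rfl⟩)
    have nv : Node β t v' := hnode v' (Or.inr ⟨y0, u', v', hm, Or.inr rfl⟩)
    by_cases h5 : y1 <+: y0
    · have h6 := hno y0 n0 h5
      rw [← h6] at m4 m5
      exact absurd (hno u' nu m4) m5
    · have h6 : y0 <+: y1 := (List.prefix_or_prefix_of_prefix hy hy1y').resolve_right h5
      have h7 : t' ∈ P1 ++ t :: P2 := ht'
      have hside : ∀ w, Node β t w → w <+: y → w <+: y' := by
        intro w hw h8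
        rcases List.prefix_or_prefix_of_prefix h8 hy1y with h9 | h9
        · exact h9.trans hy1y'
        · rw [← hno w hw h9]
          exact hy1y'
      rcases hy3 t' h7 y0 u' v' hm (h6.trans hy1y) with h8 | h8
      · exact Or.inl (hside u' nu h8)
      · exact Or.inr (hside v' nv h8)
  rw [List.mem_append, List.mem_cons] at ht'
  rcases ht' with ht' | rfl | ht'
  · obtain ⟨A1, A2, rfl⟩ := List.append_of_mem ht'
    refine key (A2 ++ t :: P2) ⟨A1, by simp⟩ (by simp)
  · exact key P2 ⟨P1, rfl⟩ (by simp)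
  · exact h3 t' ht' y0 u' v' hm hy

end Pool.Agent.KAP
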