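import Mathlib
import Pool.Agent.KAP.PE

/-!
KAP, module PX. Persistence along an extension.
Proof by induction on `γ` (generalizing `β`), with `Ext_cons`, `persist`, `TInv_step` and `NTop_mono`.
-/

set_option autoImplicit false

namespace Pool.Agent.KAP

open Encodable Pool.Agent.H19 Pool.Agent.H24P

theorem persist_ext {K : ℕ → ℕ → Bool} {κ : Ctx} {P P' : List Tree} {F' : List ℕ}
    {γ : List Sym} {z : Str} (hP : P <:+ P') (hI : ∀ it, some it ∈ κ → LeI it P' F')
    {β : List Sym} (hT : TInv β P') (hγ : Ext (Allow K (al K κ) κ.length P' F') β γ)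
    (hz : NTop β P z) (h : al K κ P β z) : al K κ P (β ++ γ) z ∧ TInv (β ++ γ) P' := by
  induction γ generalizing β with
  | nil =>
    rw [List.append_nil]
    exact ⟨h, hT⟩
  | cons a γ ih =>
    rw [Ext_cons] at hγ
    have h1 := ih (β := β ++ [a]) (TInv_step hT hγ.1) hγ.2 (NTop_mono hz)
      (persist hT hP hI hγ.1 hz h)
    rw [List.append_assoc, List.singleton_append] at h1
    exact h1

end Pool.Agent.KAP
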