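import Mathlib
import Pool.Agent.KAP.IN
import Pool.Agent.KAP.PX

/-!
KAP, module MU. Fakes stay alive.
Proof of `alive_upper`: `Ext_mono` and `Allow_of_AllowX` (the context has length `κ.length + 1`),
`LeI_chain` for the stack `some (L, R, some z) :: κ` (its hypothesis from `hI`), and `persist_ext` with
`P = Prot L = Prot (vout L R) = P'` (`Prot_vout`); `TInv β (Prot (vout L R))` from `GoodV_vout`;
`NTop β (Prot L) z` is part of `GoodSt`.
-/

set_option autoImplicit false

namespace Pool.Agent.KAP

open Encodable Pool.Agent.H19 Pool.Agent.H24P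

open Classical in
/-- The measure of an agent. -/
noncomputable def mu (β : List Sym) (κ : List Agt) : Agt → ℕ
  | none => 0
  | some (_, R, none) => R.length + 2
  | some (L, R, some z) =>
    if al Kc (ctx (some (L, R, some z) :: κ)) (Prot L) β z then R.length + 1
    else R.length + (L.length + R.length) + 3

theorem alive_upper {X : ℕ → ℕ → ℕ → Bool} {A : ℕ → Bool} {t : ℕ} {β γ : List Sym}
    {L R : List Coord} {z : Str} {κ : List Agt}
    (hI : ∀ κ', κ' <:+ some (L, R, some z) :: κ → GoodSt A β κ')
    (hX : ∀ n ≤ κ.length + 1, ∀ q, X n t q = Kc n q)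
    (hγ : Ext (AllowX X t (ctx (some (L, R, some z) :: κ)) (Prot (vout L R))
      (Forb (vout L R))) β γ)
    (h : al Kc (ctx (some (L, R, some z) :: κ)) (Prot L) β z) :
    al Kc (ctx (some (L, R, some z) :: κ)) (Prot L) (β ++ γ) z := by
  have hlen : (ctx (some (L, R, some z) :: κ)).length = κ.length + 1 := by
    rw [ctx_length, List.length_cons]
  have hγ' : Ext (Allow Kc (al Kc (ctx (some (L, R, some z) :: κ)))
      (ctx (some (L, R, some z) :: κ)).length (Prot (vout L R)) (Forb (vout L R))) β γ :=
    Ext_mono (fun β' a ha => Allow_of_AllowX (by rw [hlen]; exact hX) ha) hγ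
  have hG := hI _ List.suffix_rfl
  have hLe : ∀ it, some it ∈ ctx (some (L, R, some z) :: κ) →
      LeI it (Prot (vout L R)) (Forb (vout L R)) :=
    LeI_chain (ags := some (L, R, some z) :: κ) (fun L' R' z' κ' hk => (hI _ hk).1)
  have hP : Prot L <:+ Prot (vout L R) := by
    rw [Prot_vout]
  have hT : TInv β (Prot (vout L R)) := (GoodV_vout hG.2.1).tin
  exact (persist_ext hP hLe hT hγ' (hG.2.2.2 z rfl).2 h).1

end Pool.Agent.KAP
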