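import Mathlib
import Pool.Agent.KAP.IN

/-!
KAP, module MZ. An alive fake is not reset.
Proof: let `N` be such that `Short β m` for `m ≥ N` (`exists_short`); take `y` for `max N (n + 1)` from
`h`: `z <+: y`, `NX β (Prot L) y`, `Unk Kc (ctx (some (L, R, some z) :: κ)) β y`.  Then `γ = []`, `n`,
`b = A n` witness `Killed Kc _ (ctx κ).length (Prot (Wv L R), Prot L, Forb (Wv L R)) β y`
(`(ctx κ).length = κ.length`, `y[n]? = z[n]? = some (!(A n))`); a contradiction with `Unk`.
-/

set_option autoImplicit false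

namespace Pool.Agent.KAP

open Encodable Pool.Agent.H19 Pool.Agent.H24P

theorem alive_no_rst {A : ℕ → Bool} {β : List Sym} {L R : List Coord} {z : Str}
    {κ : List Agt} {n : ℕ} (h : al Kc (ctx (some (L, R, some z) :: κ)) (Prot L) β z)
    (hz : z[n]? = some (!(A n))) (hn : Psi κ.length β n = some (A n)) : False := by
  obtain ⟨N, hN⟩ := exists_short β
  obtain ⟨y, h1, h2, h3, h4⟩ := h (max N (n + 1))
  have h5 : ¬ Killed Kc (ALof (Unk Kc (ctx κ))) (ctx κ).length
      (Prot (Wv L R), Prot L, Forb (Wv L R)) β y := h4.2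
  apply h5
  have hl : (ctx κ).length = κ.length := by simp [ctx]
  refine ⟨[], n, A n, Ext_nil β, ?_, ?_, h3, ?_, ?_⟩
  · rw [List.append_nil]
    exact hN _ (le_trans (le_max_left _ _) h1)
  · intro t _ y0 u v h6
    exact absurd h6 (by simp)
  · rw [List.append_nil, hl]
    exact hn
  · obtain ⟨s, rfl⟩ := h2
    have hlt : n < z.length := (List.getElem?_eq_some_iff.1 hz).1
    rw [List.getElem?_append_left hlt]
    exact hz

end Pool.Agent.KAP
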