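import Mathlib
import Pool.Agent.KAP.MU
import Pool.Agent.KAP.MZ
import Pool.Agent.KAP.MI

/-!
KAP, module MS. The measure of an agent decreases.
Proof: if `ag' = ag`: `Stp.upper` applies to `ag :: κ`, and by `alive_upper` (for `ag = some (L, R,
some z)`, `Vof (ag :: κ) = vout L R`) the value of `mu` can only drop.  If `ag' ≠ ag`: then the action is
at level `κ.length`: `new` is impossible (both `ag :: κ`, `ag' :: κ` would be suffixes of the new stack
of the same length, so equal), and for the others `s.2 = Y ++ ag0 :: κ0`, `s'.2 = ag0' :: κ0`: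
`κ0.length > κ.length` would give `ag' :: κ <:+ κ0` and so `ag' = ag`; `κ0.length < κ.length` is
impossible; so `κ0 = κ`, `ag0 = ag`, `ag0' = ag'`.  `sat`: `mu` of `none` is `0`, of `some _` positive.
`rst`: not alive by `alive_no_rst`, so `R + (L + R) + 3` becomes `(L + R) + 2`.  `imp`: the new fake is
alive by `imp_fake_alive`, so `mu` is `R + 1`, before it was at least `(R + 1) + 1`.  `fak`: alive by
`Kc_spec`, from `R + 2` to `R + 1`.  `skp`: the item and `Prot L` do not change, so the new pair is
alive iff the old one is, and `mu` drops by one.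
-/

set_option autoImplicit false

namespace Pool.Agent.KAP

open Encodable Pool.Agent.H19 Pool.Agent.H24P

private theorem MS_eq {ag ag' : Agt} {κ l : List Agt} (h1 : ag :: κ <:+ l)
    (h2 : ag' :: κ <:+ l) : ag = ag' := by
  have h3 : ag :: κ <:+ ag' :: κ :=
    List.suffix_of_suffix_length_le h1 h2 (by simp)
  have h4 : ag :: κ = ag' :: κ := h3.eq_of_length (by simp)
  exact (List.cons.inj h4).1

private theorem MS_cases {ag ag' ag0 ag0' : Agt} {κ κ0 Y : List Agt}
    (h1 : ag :: κ <:+ Y ++ ag0 :: κ0) (h2 : ag' :: κ <:+ ag0' :: κ0) (hne : ag' ≠ ag) :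
    κ = κ0 ∧ ag = ag0 ∧ ag' = ag0' := by
  rcases List.suffix_cons_iff.1 h2 with h3 | h3
  · obtain ⟨rfl, rfl⟩ := List.cons.inj h3
    exact ⟨rfl, MS_eq h1 (List.suffix_append Y (ag0 :: κ)), rfl⟩
  · have h4 : ag' :: κ <:+ Y ++ ag0 :: κ0 :=
      (h3.trans (List.suffix_cons ag0 κ0)).trans (List.suffix_append Y (ag0 :: κ0))
    exact absurd (MS_eq h4 h1) hne

private theorem MS_pos (β : List Sym) (κ : List Agt) (L R : List Coord) (z : Option Str) :
    0 < mu β κ (some (L, R, z)) := by
  cases z with
  | none => rw [mu]; omega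
  | some z =>
    rw [mu]
    split_ifs
    · omega
    · omega

private theorem MS_alive {β : List Sym} {κ : List Agt} {L R : List Coord} {z : Str}
    (h : al Kc (ctx (some (L, R, some z) :: κ)) (Prot L) β z) :
    mu β κ (some (L, R, some z)) = R.length + 1 := by
  rw [mu, if_pos h]

private theorem MS_dead {β : List Sym} {κ : List Agt} {L R : List Coord} {z : Str}
    (h : ¬ al Kc (ctx (some (L, R, some z) :: κ)) (Prot L) β z) :
    mu β κ (some (L, R, some z)) = R.length + (L.length + R.length) + 3 := by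
  rw [mu, if_neg h]

private theorem MS_ge (β : List Sym) (κ : List Agt) (L R : List Coord) (z : Str) :
    R.length + 1 ≤ mu β κ (some (L, R, some z)) := by
  by_cases h : al Kc (ctx (some (L, R, some z) :: κ)) (Prot L) β z
  · rw [MS_alive h]
  · rw [MS_dead h]
    omega

theorem mu_step {X : ℕ → ℕ → ℕ → Bool} {A : ℕ → Bool} {t : ℕ} {s s' : State} {a : Act}
    (h : Stp X A t s a s') (hI : Inv A s) {κ : List Agt} {ag ag' : Agt}
    (hX : ∀ n ≤ κ.length + 1, ∀ q, X n t q = Kc n q) (h1 : ag :: κ <:+ s.2)
    (h2 : ag' :: κ <:+ s'.2) :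
    (ag' = ag ∧ mu s'.1 κ ag' ≤ mu s.1 κ ag) ∨ mu s'.1 κ ag' < mu s.1 κ ag := by
  by_cases hne : ag' = ag
  · subst hne
    refine Or.inl ⟨rfl, ?_⟩
    obtain ⟨γ, e1, -, e2, -⟩ := Stp.upper h hI h1 h2
    rcases ag' with _ | ⟨L, R, _ | z⟩
    · rw [mu, mu]
    · rw [mu, mu]
    · rw [mu, mu]
      by_cases hal : al Kc (ctx (some (L, R, some z) :: κ)) (Prot L) s.1 z
      · have h3 : al Kc (ctx (some (L, R, some z) :: κ)) (Prot L) (s.1 ++ γ) z :=
          alive_upper (fun κ' hk => hI κ' (hk.trans h1)) hX e2 hal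
        rw [e1, if_pos h3, if_pos hal]
      · rw [if_neg hal]
        split_ifs
        · omega
        · exact le_rfl
  · right
    cases h with
    | new β ags i y0 hr hf hi hy hA =>
      exact absurd (MS_eq h2 (h1.trans (List.suffix_cons _ _))) hne
    | sat β Y L R z κ0 γ m b hr hγ hA hm hb =>
      obtain ⟨rfl, rfl, rfl⟩ := MS_cases h1 h2 hne
      exact MS_pos _ _ _ _ _
    | rst β Y L R z κ0 n hr hz hn =>
      obtain ⟨rfl, rfl, rfl⟩ := MS_cases h1 h2 hne
      have hal : ¬ al Kc (ctx (some (L, R, some z) :: κ)) (Prot L) β z := fun hh =>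
        alive_no_rst hh hz hn
      refine lt_of_lt_of_eq ?_ (MS_dead hal).symm
      show (L.reverse ++ R).length + 2 < _
      rw [List.length_append, List.length_reverse]
      omega
    | imp β Y L t' R z0 κ0 y w z hr ha hw hz =>
      obtain ⟨rfl, rfl, rfl⟩ := MS_cases h1 h2 hne
      have hal := imp_fake_alive (A := A) (fun κ' hk => hI κ' (hk.trans h1)) hX ha
      refine lt_of_eq_of_lt (MS_alive hal) (lt_of_lt_of_le ?_ (MS_ge _ _ _ _ _))
      rw [List.length_cons]
      omega
    | fak β Y R κ0 z hr hz hX' =>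
      obtain ⟨rfl, rfl, rfl⟩ := MS_cases h1 h2 hne
      rw [hX _ le_rfl] at hX'
      have hal : al Kc (ctx (some ([], R, some z) :: κ)) (Prot []) β z :=
        ((Kc_spec _ _ _ _ _).1 hX').2
      refine lt_of_eq_of_lt (MS_alive hal) ?_
      show R.length + 1 < R.length + 2
      omega
    | skp β Y L l R z κ0 hr =>
      obtain ⟨rfl, rfl, rfl⟩ := MS_cases h1 h2 hne
      have hW : Wv (Sum.inr l :: L) R = Wv L (Sum.inr l :: R) := by
        simp [Wv]
      have hctx : ctx (some (Sum.inr l :: L, R, some z) :: κ) =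
          ctx (some (L, Sum.inr l :: R, some z) :: κ) := by
        show some (Prot (Wv (Sum.inr l :: L) R), Prot (Sum.inr l :: L),
          Forb (Wv (Sum.inr l :: L) R)) :: ctx κ = _
        rw [hW]
        rfl
      by_cases hal : al Kc (ctx (some (L, Sum.inr l :: R, some z) :: κ)) (Prot L) β z
      · have hal' : al Kc (ctx (some (Sum.inr l :: L, R, some z) :: κ))
            (Prot (Sum.inr l :: L)) β z := by
          rw [hctx]
          exact hal
        refine lt_of_eq_of_lt (MS_alive hal') (lt_of_lt_of_eq ?_ (MS_alive hal).symm)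
        rw [List.length_cons]
        omega
      · have hal' : ¬ al Kc (ctx (some (Sum.inr l :: L, R, some z) :: κ))
            (Prot (Sum.inr l :: L)) β z := by
          rw [hctx]
          exact hal
        refine lt_of_eq_of_lt (MS_dead hal') (lt_of_lt_of_eq ?_ (MS_dead hal).symm)
        rw [List.length_cons, List.length_cons]
        omega

end Pool.Agent.KAP
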