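import Mathlib
import Pool.Agent.KAP.IN

/-!
KAP, module SD. The stack grows above a stable part.
Proofs.  `stp_len`: by cases; `new`: `s'.2 = _ :: s.2`; otherwise `s'.2 = ag' :: κ0`, `κ <:+ κ0` as in
`Stp.upper`.  `grow`: if some `t ≥ t0` has `s (t + 1) ≠ s t`, then by `Run.seq` there is an action at `t`,
and by `stp_len` the stack at `t + 1` is longer than `κ`.  If `s t = s t0` for all `t ≥ t0` and the stack
at `t0` is longer than `κ` we are done as well.  If it is `κ`, the action `new` with `i` larger than
all identifiers in `(s t0).1` and in `ids (Vof κ)`, and with `y0 = []` if `Prot (Vof κ) = []` and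
`y0 = rt t` if `Prot (Vof κ) = t :: _` (`On A (rt t)` by `GoodV_Vof`), is possible at all times
`t ≥ t0`, so by `Run.fair` it is carried out, and the state changes: contradiction.  Once the stack is
longer than `κ` it stays longer: `stp_len` or no change.  A list with suffix `κ` and longer than `κ`
has a suffix `ag :: κ`.
-/

set_option autoImplicit false

namespace Pool.Agent.KAP

open Encodable Pool.Agent.H19 Pool.Agent.H24P

/-- The lower part `κ` of the stack is stable and ready from time `t0` on. -/
def Stab (X : ℕ → ℕ → ℕ → Bool) (A : ℕ → Bool) (s : ℕ → State) (κ : List Agt) (t0 : ℕ) : Prop :=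
  ∀ t, t0 ≤ t → κ <:+ (s t).2 ∧ Ready X A t (s t).1 κ

private theorem sd_len {ag ag' : Agt} {Y κ0 κ : List Agt} (hne : ag' ≠ ag)
    (h1 : κ <:+ Y ++ ag :: κ0) (h2 : κ <:+ ag' :: κ0) : κ.length < (ag' :: κ0).length := by
  rcases List.suffix_cons_iff.1 h2 with h3 | h3
  · exfalso
    have h4 : ag :: κ0 <:+ Y ++ ag :: κ0 := List.suffix_append _ _
    rw [h3] at h1
    have h5 : ag' :: κ0 <:+ ag :: κ0 := List.suffix_of_suffix_length_le h1 h4 (by simp)
    have h6 := h5.eq_of_length (by simp)
    exact hne (List.cons.inj h6).1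
  · have := h3.length_le
    rw [List.length_cons]
    omega

theorem stp_len {X : ℕ → ℕ → ℕ → Bool} {A : ℕ → Bool} {t : ℕ} {s s' : State} {a : Act}
    (h : Stp X A t s a s') {κ : List Agt} (h1 : κ <:+ s.2) (h2 : κ <:+ s'.2) :
    κ.length < s'.2.length := by
  cases h with
  | new β ags i y0 hr hf hi hy hA =>
    have := h1.length_le
    simp only [List.length_cons] at this ⊢
    omega
  | sat β Y L R z κ0 γ m b hr hγ hA hm hb => exact sd_len (by simp) h1 h2
  | rst β Y L R z κ0 n hr hz hn => exact sd_len (by simp) h1 h2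
  | imp β Y L t' R z0 κ0 y w z hr ha hw hz =>
    exact sd_len (by
      intro he
      have h3 := congrArg (fun x : Agt => x.elim 0 (fun y => y.1.length)) he
      simp at h3) h1 h2
  | fak β Y R κ0 z hr hz hX => exact sd_len (by simp) h1 h2
  | skp β Y L l R z κ0 hr =>
    exact sd_len (by
      intro he
      have h3 := congrArg (fun x : Agt => x.elim 0 (fun y => y.1.length)) he
      simp at h3) h1 h2

private theorem sd_bound (l : List ℕ) : ∃ n, ∀ i ∈ l, i < n := by
  induction l with
  | nil => exact ⟨0, by simp⟩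
  | cons a l ih =>
    obtain ⟨n, hn⟩ := ih
    refine ⟨max n (a + 1), fun i hi => ?_⟩
    rcases List.mem_cons.1 hi with h | h
    · omega
    · have := hn i h
      omega

private theorem sd_fresh (β : List Sym) : ∃ n, ∀ q y u v, ev q y u v ∈ β → q < n := by
  obtain ⟨n, hn⟩ := sd_bound (β.map (fun a => a.elim (fun x => x.1) (fun _ => 0)))
  refine ⟨n, fun q y u v h => hn q ?_⟩
  rw [List.mem_map]
  exact ⟨_, h, rfl⟩

theorem grow {X : ℕ → ℕ → ℕ → Bool} {A : ℕ → Bool} {s : ℕ → State} (h : Run X A s)
    {κ : List Agt} {t0 : ℕ} (hs : Stab X A s κ t0) :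
    ∃ t1, t0 ≤ t1 ∧ ∀ t, t1 ≤ t → ∃ ag, ag :: κ <:+ (s t).2 := by
  have claim : ∃ t1, t0 ≤ t1 ∧ κ.length < (s t1).2.length := by
    by_contra hcon
    push Not at hcon
    have e1 : ∀ t, t0 ≤ t → (s t).2 = κ := by
      intro t ht
      have h1 := (hs t ht).1
      exact (h1.eq_of_length_le (hcon t ht)).symm
    have e2 : ∀ t, t0 ≤ t → s (t + 1) = s t := by
      intro t ht
      rcases h.seq t with h1 | ⟨a, h1⟩
      · exact h1
      · have h2 := stp_len h1 (hs t ht).1 (hs (t + 1) (by omega)).1
        have h3 := hcon (t + 1) (by omega)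
        omega
    have e3 : ∀ t, t0 ≤ t → s t = s t0 := by
      intro t ht
      induction t, ht using Nat.le_induction with
      | base => rfl
      | succ t ht ih => rw [e2 t ht, ih]
    obtain ⟨n1, hn1⟩ := sd_fresh (s t0).1
    obtain ⟨n2, hn2⟩ := sd_bound (ids (Vof κ))
    have hy : ∃ y0, NTop (s t0).1 (Prot (Vof κ)) y0 ∧ On A y0 := by
      cases hP : Prot (Vof κ) with
      | nil =>
        refine ⟨[], ?_, ?_⟩
        · intro t ht
          simp at ht
        · simp [On, pre]
      | cons t P =>
        refine ⟨rt t, ?_, ?_⟩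
        · intro t' ht'
          simp only [List.head?_cons, Option.some.injEq] at ht'
          rw [← ht']
          exact Or.inl rfl
        · have hI := run_inv h t0
          have hG : GoodV A (s t0).1 (Vof κ) :=
            GoodV_Vof (fun κ' hκ' => hI κ' (hκ'.trans (hs t0 le_rfl).1))
          exact hG.root t (by rw [hP]; simp)
    obtain ⟨y0, hy1, hy2⟩ := hy
    obtain ⟨t, ht, hst⟩ := h.fair (Sum.inl (max n1 n2, y0)) t0 (by
      intro t ht
      have e4 : s t = ((s t0).1, κ) := by
        rw [e3 t ht]
        exact Prod.ext rfl (e1 t0 le_rfl)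
      rw [e4]
      refine ⟨_, Stp.new (s t0).1 κ (max n1 n2) y0 ?_ ?_ ?_ hy1 hy2⟩
      · have h1 := (hs t ht).2
        rw [e3 t ht] at h1
        exact h1
      · intro q y u v hq
        have := hn1 q y u v hq
        omega
      · intro hq
        have := hn2 _ hq
        omega)
    have h2 := stp_len hst (hs t ht).1 (hs (t + 1) (by omega)).1
    have h3 := hcon (t + 1) (by omega)
    omega
  obtain ⟨t1, ht1, hlen⟩ := claim
  refine ⟨t1, ht1, fun t ht => ?_⟩
  have hl : κ.length < (s t).2.length := by
    induction t, ht using Nat.le_induction with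
    | base => exact hlen
    | succ t ht ih =>
      rcases h.seq t with h1 | ⟨a, h1⟩
      · rw [h1]
        exact ih
      · exact stp_len h1 (hs t (by omega)).1 (hs (t + 1) (by omega)).1
  obtain ⟨Y, hY⟩ := (hs t (by omega)).1
  rcases List.eq_nil_or_concat Y with h1 | ⟨Y', ag, h1⟩
  · rw [h1, List.nil_append] at hY
    rw [← hY] at hl
    omega
  · refine ⟨ag, Y', ?_⟩
    rw [← hY, h1]
    simp

end Pool.Agent.KAP
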