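import Mathlib
import Pool.Agent.KAP.SD
import Pool.Agent.KAP.AX

/-!
KAP, module SA. While nothing happens, `A` is alive.
Proofs.  `not_unk`: by induction on the context.  `frozen_alive`: suppose not: then there are `N`, `n` with:
no `y` with `N ≤ |y|`, `pre A n <+: y`, `NX β (Prot L) y` and `Unk Kc (ctx (some (L, R, z) :: κ)) β y`,
where `β = (s t1).1`.  Take `m ≥ N, n` with `Short β m` and `y = pre A m`.  `NX β (Prot L) y` follows
from `NXA A β (Prot (Wv L R))` (invariant `GoodV`): if `y0 <+: pre A m` then `On A y0`, so `On A u` or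
`On A v`, and these have length at most `m`.  So `Unk` fails; by `not_unk` there are `it`, `κ'` with
`some it :: κ' <:+ ctx (some (L, R, z) :: κ)` and `Killed Kc (al Kc κ') κ'.length it β y`.  A suffix
of a `map` is the `map` of a suffix: there is an agent `some (L', R', z') :: κ'' <:+
some (L, R, z) :: κ` with `ctx κ'' = κ'`, `it = (Prot (Wv L' R'), Prot L', Forb (Wv L' R'))`.  Let
`γ m' b` be the witnesses.  Then the action `sat` for this agent with `γ m' b` is possible at all
`t ≥ t1` (the state is `s t1`): `Ready` for `κ''` by `Stab` and `Ready_suffix` (`κ'' <:+ κ`);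
`AllowX` by `AllowX_of_Allow`; `NXA A γ _` from `NX γ _ (pre A m)` and `Short`; `A m' = !b` from
`(pre A m)[m']? = some (!b)`.  By `Run.fair` it is carried out at some `t ≥ t1`; then
`(s (t + 1)).2 = none :: κ''`, but `some (L, R, z) :: κ <:+ (s (t + 1)).2` and
`κ''.length ≤ κ.length`: contradiction.
-/

set_option autoImplicit false

namespace Pool.Agent.KAP

open Encodable Pool.Agent.H19 Pool.Agent.H24P

theorem not_unk {K : ℕ → ℕ → Bool} {κ : Ctx} {β : List Sym} {y : Str} (h : ¬ Unk K κ β y) :
    ∃ it κ', some it :: κ' <:+ κ ∧ Killed K (al K κ') κ'.length it β y := by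
  induction κ with
  | nil => exact absurd trivial h
  | cons a κ ih =>
    cases a with
    | none =>
      obtain ⟨it, κ', h1, h2⟩ := ih h
      exact ⟨it, κ', h1.trans (List.suffix_cons _ _), h2⟩
    | some it =>
      by_cases hk : Unk K κ β y
      · refine ⟨it, κ, List.suffix_refl _, ?_⟩
        by_contra hc
        exact h ⟨hk, hc⟩
      · obtain ⟨it', κ', h1, h2⟩ := ih hk
        exact ⟨it', κ', h1.trans (List.suffix_cons _ _), h2⟩

private theorem sa_on_pre {A : ℕ → Bool} {y : Str} {m : ℕ} (h : y <+: pre A m) : On A y := by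
  have h1 := h.length_le
  rw [pre_length] at h1
  have h2 := List.prefix_iff_eq_take.1 h
  rw [pre_take A h1] at h2
  exact h2.symm

private theorem sa_pre_on {A : ℕ → Bool} {y : Str} {m : ℕ} (h : On A y) (hm : y.length ≤ m) :
    y <+: pre A m := by
  have h1 := pre_mono A hm
  rwa [show pre A y.length = y from h] at h1

private theorem sa_sat {X : ℕ → ℕ → ℕ → Bool} {A : ℕ → Bool} {t : ℕ} {σ σ' : State} {k m : ℕ}
    {γ : List Sym} {b : Bool} (h : Stp X A t σ (Sum.inr (Sum.inl (k, γ, m, b))) σ') :
    ∃ κ0, σ'.2 = none :: κ0 ∧ κ0.length = k := by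
  cases h
  exact ⟨_, rfl, rfl⟩

private theorem sa_map {κ : List Agt} {it : Item} {κ' : Ctx} (h : some it :: κ' <:+ ctx κ) :
    ∃ L R z κ'', some (L, R, z) :: κ'' <:+ κ ∧ ctx κ'' = κ' ∧
      it = (Prot (Wv L R), Prot L, Forb (Wv L R)) := by
  obtain ⟨Y, hY⟩ := h
  obtain ⟨l1, l2, h1, h2, h3⟩ := List.map_eq_append_iff.1 (show κ.map itemOf = _ from hY.symm)
  obtain ⟨ag, κ'', h4, h5, h6⟩ := List.map_eq_cons_iff.1 h3
  cases ag with
  | none => simp [itemOf] at h5
  | some ag =>
    obtain ⟨L, R, z⟩ := ag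
    refine ⟨L, R, z, κ'', ?_, h6, ?_⟩
    · rw [h1, h4]
      exact List.suffix_append _ _
    · simp only [itemOf, Option.some.injEq] at h5
      exact h5.symm

theorem frozen_alive {X : ℕ → ℕ → ℕ → Bool} {A : ℕ → Bool} {s : ℕ → State} (h : Run X A s)
    {κ : List Agt} {t1 : ℕ} (hs : Stab X A s κ t1) {L R : List Coord} {z : Option Str}
    (hκ : some (L, R, z) :: κ <:+ (s t1).2) (hf : ∀ t, t1 ≤ t → s t = s t1)
    (hX : ∀ t, t1 ≤ t → ∀ n ≤ κ.length + 1, ∀ q, X n t q = Kc n q) (n : ℕ) :
    al Kc (ctx (some (L, R, z) :: κ)) (Prot L) (s t1).1 (pre A n) := by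
  intro N
  obtain ⟨m0, hm0⟩ := exists_short (s t1).1
  have hmN : N ≤ max (max N n) m0 := by omega
  have hmn : n ≤ max (max N n) m0 := by omega
  have hSm : Short (s t1).1 (max (max N n) m0) := hm0 _ (by omega)
  generalize max (max N n) m0 = m at hmN hmn hSm
  have hI := run_inv h t1
  obtain ⟨_, hG, _, _⟩ := hI _ hκ
  refine ⟨pre A m, by rw [pre_length]; exact hmN, pre_mono A hmn, ?_, ?_⟩
  · intro t ht y0 u v hev hy0
    have ht' : t ∈ Prot (Wv L R) := by
      unfold Wv
      rw [Prot_append]
      exact List.mem_append_right _ ht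
    have hS := hSm _ _ _ _ hev
    rcases hG.nxa t ht' y0 u v hev (sa_on_pre hy0) with h1 | h1
    · exact Or.inl (sa_pre_on h1 hS.2.1)
    · exact Or.inr (sa_pre_on h1 hS.2.2)
  · by_contra hu
    obtain ⟨it, κ', hsuf, γ, m', b, hExt, hShort, hNX1, hNX2, hPsi, hget⟩ := not_unk hu
    obtain ⟨L', R', z', κ'', hs1, hc1, hit⟩ := sa_map hsuf
    subst hc1
    subst hit
    rw [pre_length] at hShort
    have hκ'' : κ'' <:+ κ := by
      rcases List.suffix_cons_iff.1 hs1 with h1 | h1
      · rw [(List.cons.inj h1).2]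
      · exact (List.suffix_cons _ _).trans h1
    have hlen : κ''.length ≤ κ.length := hκ''.length_le
    obtain ⟨Y, hY⟩ := hs1.trans hκ
    obtain ⟨t, ht, hst⟩ := h.fair (Sum.inr (Sum.inl (κ''.length, γ, m', b))) t1 (by
      intro t ht
      have e1 : s t = ((s t1).1, Y ++ some (L', R', z') :: κ'') := by
        rw [hf t ht, hY]
      rw [e1]
      refine ⟨_, Stp.sat (s t1).1 Y L' R' z' κ'' γ m' b ?_ ?_ ?_ ?_ ?_⟩
      · have h1 := (hs t ht).2
        rw [hf t ht] at h1
        exact Ready_suffix hκ'' h1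
      · refine Ext_mono (fun β a => AllowX_of_Allow (fun n hn q => hX t ht n ?_ q)) hExt
        rw [ctx_length] at hn
        omega
      · intro t0 ht0 y u v hev hy
        have hS := hShort (tid t0) y u v (List.mem_append_right _ hev)
        rcases hNX1 t0 ht0 y u v hev (sa_pre_on hy hS.1) with h1 | h1
        · exact Or.inl (sa_on_pre h1)
        · exact Or.inr (sa_on_pre h1)
      · rw [ctx_length] at hPsi
        exact hPsi
      · have h1 : m' < m := by
          by_contra hcon
          rw [List.getElem?_eq_none (by rw [pre_length]; omega)] at hget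
          exact absurd hget (by simp)
        rw [pre_getElem? A h1] at hget
        exact Option.some.inj hget)
    obtain ⟨κ0, h2, h3⟩ := sa_sat hst
    rw [hf (t + 1) (by omega)] at h2
    rw [h2] at hκ
    have h4 := hκ.length_le
    simp only [List.length_cons] at h4
    have h5 := hκ.eq_of_length (by simp only [List.length_cons]; omega)
    exact absurd (List.cons.inj h5).1 (by simp)

end Pool.Agent.KAP
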