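import Mathlib
import Pool.Agent.KAP.SA
import Pool.Agent.KAP.AU

/-!
KAP, module SF. An agent finds a fake.
Proof.  By `GoodSt`, `L = []`.  By `frozen_alive` all `pre A n` are alive for `P = []`.  If there is `z` with
`¬ On A z` and `al Kc (ctx (some ([], R, none) :: κ)) [] β z`, the action `fak` with `z` is possible
at all `t ≥ t1` (`Kc_spec`), so by `Run.fair` it is carried out at some `t ≥ t1`, and then the state
changes, against `hf` (the agent has a fake afterwards).  Otherwise `z` is alive iff `On A z`, so
`A n = true` iff there is `z` of length `n + 1` with `z[n]? = some true` and `al .. z`, and this is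
arithmetical (`arith_Kc` for column `κ.length + 1`, `Kc_spec`, `Arith.comp`, `Arith.ex`); against
`not_arith_of_above`.
-/

set_option autoImplicit false

namespace Pool.Agent.KAP

open Encodable Pool.Agent.H19 Pool.Agent.H24P

private theorem SF_fak {X : ℕ → ℕ → ℕ → Bool} {A : ℕ → Bool} {t : ℕ} {s s' : State} {i : ℕ}
    {z : Str}
    (h : Stp X A t s (Sum.inr (Sum.inr (Sum.inr (Sum.inr (Sum.inl (i, z)))))) s') : s ≠ s' := by
  cases h with
  | fak β Y R κ z hr hz hX =>
    intro he
    have h2 : Y ++ some ([], R, none) :: κ = some ([], R, some z) :: κ := congrArg Prod.snd he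
    have h3 := congrArg List.length h2
    simp only [List.length_append, List.length_cons] at h3
    have h4 : Y = [] := List.length_eq_zero_iff.1 (by omega)
    subst h4
    simp at h2

theorem frozen_fake {X : ℕ → ℕ → ℕ → Bool} {A : ℕ → Bool} {s : ℕ → State} (h : Run X A s)
    (hA : Above A) {κ : List Agt} {t1 : ℕ} (hs : Stab X A s κ t1) {L R : List Coord}
    (hκ : some (L, R, none) :: κ <:+ (s t1).2) (hf : ∀ t, t1 ≤ t → s t = s t1)
    (hX : ∀ t, t1 ≤ t → ∀ n ≤ κ.length + 1, ∀ q, X n t q = Kc n q) : False := by
  have hG : GoodSt A (s t1).1 (some (L, R, none) :: κ) := run_inv h t1 _ hκ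
  have hL : L = [] := hG.2.2.1 rfl
  subst hL
  have hal : ∀ n, al Kc (ctx (some ([], R, none) :: κ)) [] (s t1).1 (pre A n) := fun n =>
    frozen_alive h hs hκ hf hX n
  have hlen : (ctx (some ([], R, none) :: κ)).length = κ.length + 1 := by
    rw [ctx_length]; rfl
  by_cases hz : ∃ z, ¬ On A z ∧ al Kc (ctx (some ([], R, none) :: κ)) [] (s t1).1 z
  · obtain ⟨z, hz1, hz2⟩ := hz
    obtain ⟨Y, hY⟩ := hκ
    have hst : s t1 = ((s t1).1, Y ++ some ([], R, none) :: κ) := by rw [hY]
    have hp : ∀ t, t1 ≤ t → ∃ s', Stp X A t (s t)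
        (Sum.inr (Sum.inr (Sum.inr (Sum.inr (Sum.inl (κ.length, z)))))) s' := by
      intro t ht
      rw [hf t ht, hst]
      refine ⟨_, Stp.fak (s t1).1 Y R κ z ?_ hz1 ?_⟩
      · have := (hs t ht).2
        rwa [hf t ht] at this
      · rw [hX t ht _ le_rfl, Kc_spec]
        exact ⟨hlen.le, hz2⟩
    obtain ⟨t, ht, hstp⟩ := h.fair _ t1 hp
    exact SF_fak hstp (by rw [hf t ht, hf (t + 1) (by omega)])
  · push Not at hz
    have hon : ∀ z, al Kc (ctx (some ([], R, none) :: κ)) [] (s t1).1 z → On A z := by
      intro z hz2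
      by_contra hc
      exact hz z hc hz2
    refine not_arith_of_above hA ?_
    have e : ∀ n, (∃ z : Str, z.length = n + 1 ∧ z[n]? = some true ∧
        Kc (κ.length + 1) (qc (ctx (some ([], R, none) :: κ)) [] (s t1).1 z) = true) ↔
        A n = true := by
      intro n
      constructor
      · rintro ⟨z, h1, h2, h3⟩
        rw [Kc_spec] at h3
        have h4 := hon z h3.2
        unfold On at h4
        rw [← h4, h1, pre_getElem? A (Nat.lt_succ_self n)] at h2
        exact Option.some.inj h2
      · intro h1
        refine ⟨pre A (n + 1), pre_length A _, ?_, ?_⟩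
        · rw [pre_getElem? A (Nat.lt_succ_self n), h1]
        · rw [Kc_spec]
          exact ⟨hlen.le, hal _⟩
    refine Arith.congr ?_ e
    refine Arith.ex (Q := fun (n : ℕ) (z : Str) => z.length = n + 1 ∧ z[n]? = some true ∧
        Kc (κ.length + 1) (qc (ctx (some ([], R, none) :: κ)) [] (s t1).1 z) = true) ?_
    refine Arith.and ?_ (Arith.and ?_ ?_)
    · exact Arith.eq_comp (Computable.list_length.comp Computable.snd)
        (Computable.succ.comp Computable.fst)
    · exact Arith.eq_comp (Computable.list_getElem?.comp Computable.snd Computable.fst)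
        (Computable.const _)
    · refine (arith_Kc (κ.length + 1)).comp (f := fun p : ℕ × Str =>
        qc (ctx (some ([], R, none) :: κ)) [] (s t1).1 p.2) ?_
      unfold qc
      exact Computable.encode.comp (Computable.sumInr.comp
        ((Computable.const _).pair ((Computable.const _).pair
          ((Computable.const _).pair Computable.snd))))

end Pool.Agent.KAP
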