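import Mathlib
import Pool.Agent.KAP.SF
import Pool.Agent.KAP.MS

/-!
KAP, module ST. Stability of every level.
Proofs.  `stab_succ`: increase `t0` so that `X n t q = Kc n q` for `n ≤ κ.length + 1`, `t ≥ t0`
(`Correct`), and take `t1` from `grow`; for `t ≥ t1` let `ag t` be the agent with
`ag t :: κ <:+ (s t).2` (unique).  By `mu_step` (or if `s (t + 1) = s t`) `mu` is non-increasing and drops
whenever `ag` changes, so `ag t = ag` for `t ≥ t2`.  If `ag = none`, then `none :: κ` is stable and ready.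
Let `ag = some (L, R, z)`.  Claim: `Ready X A t (s t).1 (ag :: κ)` for all `t ≥ t2`.  Otherwise fix
`t ≥ t2` where it fails: `z = none`, or (by `hX`) not `al Kc (ctx (ag :: κ)) (Prot L) (s t).1 (pre A t)`.
Then `s t' = s t` for all `t' ≥ t`, by induction: `Ready` fails at `t'` as well (`al_pre` and
`pre A t <+: pre A t'`), and an action at `t'` would imply `Ready X A t' (s t').1 (ag :: κ)` by
`Stp.upper`.  If `z = none`: `frozen_fake`.  Otherwise `frozen_alive` with `n = t` is a
contradiction.  `stab_all` by induction.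
-/

set_option autoImplicit false

namespace Pool.Agent.KAP

open Encodable Pool.Agent.H19 Pool.Agent.H24P

theorem stab_succ {X : ℕ → ℕ → ℕ → Bool} {A : ℕ → Bool} {s : ℕ → State} (h : Run X A s)
    (hC : Correct X) (hA : Above A) {κ : List Agt} {t0 : ℕ} (hs : Stab X A s κ t0) :
    ∃ ag t1, Stab X A s (ag :: κ) t1 := by
  have hT : ∃ T, ∀ t, T ≤ t → ∀ n ≤ κ.length + 1, ∀ q, X n t q = Kc n q := by
    choose T hT using hC
    refine ⟨(Finset.range (κ.length + 2)).sup T, fun t ht n hn q => hT n t ?_ q⟩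
    exact (Finset.le_sup (f := T) (Finset.mem_range.2 (by omega))).trans ht
  obtain ⟨T, hT⟩ := hT
  obtain ⟨t1, ht1, hg⟩ := grow h hs
  have hg' : ∀ t, ∃ ag, max T t1 ≤ t → ag :: κ <:+ (s t).2 := by
    intro t
    by_cases ht : max T t1 ≤ t
    · obtain ⟨ag, hag⟩ := hg t ((le_max_right _ _).trans ht)
      exact ⟨ag, fun _ => hag⟩
    · exact ⟨none, fun h => absurd h ht⟩
  choose ag hag using hg'
  have huniq : ∀ (l : List Agt) (a b : Agt), a :: κ <:+ l → b :: κ <:+ l → b = a := by
    intro l a b ha hb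
    have h1 := List.suffix_of_suffix_length_le ha hb (by simp)
    have h2 := h1.eq_of_length (by simp)
    exact (List.cons.inj h2).1.symm
  have hstep : ∀ t, max T t1 ≤ t →
      (ag (t + 1) = ag t ∧ mu (s (t + 1)).1 κ (ag (t + 1)) ≤ mu (s t).1 κ (ag t)) ∨
        mu (s (t + 1)).1 κ (ag (t + 1)) < mu (s t).1 κ (ag t) := by
    intro t ht
    have h1 := hag t ht
    have h2 := hag (t + 1) (by omega)
    rcases h.seq t with h3 | ⟨a, h3⟩
    · left
      rw [h3] at h2 ⊢
      have h4 := huniq _ _ _ h1 h2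
      exact ⟨h4, by rw [h4]⟩
    · exact mu_step h3 (run_inv h t) (hT t ((le_max_left _ _).trans ht)) h1 h2
  obtain ⟨t2, ht2, hmin⟩ : ∃ t2, max T t1 ≤ t2 ∧
      ∀ t, max T t1 ≤ t → mu (s t2).1 κ (ag t2) ≤ mu (s t).1 κ (ag t) := by
    have hne : (Set.Ici (max T t1)).Nonempty := ⟨max T t1, Set.mem_Ici.2 le_rfl⟩
    refine ⟨Function.argminOn (fun t => mu (s t).1 κ (ag t)) (Set.Ici (max T t1)) hne,
      Function.argminOn_mem _ _ hne, fun t ht => ?_⟩
    exact Function.argminOn_le (fun t => mu (s t).1 κ (ag t)) (Set.Ici (max T t1)) ht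
  have hconst : ∀ t, t2 ≤ t → ag t = ag t2 ∧ mu (s t).1 κ (ag t) = mu (s t2).1 κ (ag t2) := by
    intro t ht
    induction t, ht using Nat.le_induction with
    | base => exact ⟨rfl, rfl⟩
    | succ t ht ih =>
      have h1 := hmin (t + 1) (by omega)
      rcases hstep t (by omega) with ⟨h2, h3⟩ | h3
      · exact ⟨h2.trans ih.1, by omega⟩
      · omega
  have hsuf : ∀ t, t2 ≤ t → ag t2 :: κ <:+ (s t).2 := by
    intro t ht
    rw [← (hconst t ht).1]
    exact hag t (ht2.trans ht)
  have ht02 : ∀ t, t2 ≤ t → t0 ≤ t := fun t ht => by omega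
  refine ⟨ag t2, t2, fun t ht => ⟨hsuf t ht, ?_⟩⟩
  have hrκ : ∀ t, t2 ≤ t → Ready X A t (s t).1 κ := fun t ht => (hs t (ht02 t ht)).2
  have hT2 : ∀ t, t2 ≤ t → ∀ n ≤ κ.length + 1, ∀ q, X n t q = Kc n q := fun t ht =>
    hT t (by omega)
  generalize hgen : ag t2 = a0 at hsuf
  rcases a0 with _ | ⟨L, R, z⟩
  · exact hrκ t ht
  by_contra hnr
  have hstab : ∀ u, t2 ≤ u → Stab X A s κ u := fun u hu t' ht' => hs t' ((ht02 u hu).trans ht')
  have hact : ∀ t', t2 ≤ t' → ¬ Ready X A t' (s t').1 (some (L, R, z) :: κ) →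
      s (t' + 1) = s t' := by
    intro t' ht' hn
    rcases h.seq t' with h3 | ⟨a, h3⟩
    · exact h3
    · obtain ⟨γ, -, h4, -, -⟩ := h3.upper (run_inv h t') (hsuf t' ht') (hsuf (t' + 1) (by omega))
      exact absurd h4 hn
  rcases z with _ | z
  · have hnn : ∀ t' β, ¬ Ready X A t' β (some (L, R, none) :: κ) := by
      intro t' β hh
      exact absurd hh.2.1 (by simp)
    have hfro : ∀ t', t ≤ t' → s t' = s t := by
      intro t' ht'
      induction t', ht' using Nat.le_induction with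
      | base => rfl
      | succ t' ht' ih => rw [hact t' (ht.trans ht') (hnn _ _), ih]
    exact frozen_fake h hA (hstab t ht) (hsuf t ht) hfro (fun t' ht' => hT2 t' (ht.trans ht'))
  · have hlen : (ctx (some (L, R, some z) :: κ)).length = κ.length + 1 := by
      rw [ctx_length]; rfl
    have hiff : ∀ t', t2 ≤ t' → (Ready X A t' (s t').1 (some (L, R, some z) :: κ) ↔
        al Kc (ctx (some (L, R, some z) :: κ)) (Prot L) (s t').1 (pre A t')) := by
      intro t' ht'
      have h5 : X (κ.length + 1) t' (qc (ctx (some (L, R, some z) :: κ)) (Prot L) (s t').1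
          (pre A t')) = true ↔
          al Kc (ctx (some (L, R, some z) :: κ)) (Prot L) (s t').1 (pre A t') := by
        rw [hT2 t' ht' _ le_rfl, Kc_spec, hlen]
        simp
      constructor
      · intro hh
        exact h5.1 hh.2.2
      · intro hh
        exact ⟨hrκ t' ht', rfl, h5.2 hh⟩
    have hnal := (not_congr (hiff t ht)).1 hnr
    have hfro : ∀ t', t ≤ t' → s t' = s t := by
      intro t' ht'
      induction t', ht' using Nat.le_induction with
      | base => rfl
      | succ t' ht' ih =>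
        rw [hact t' (ht.trans ht') ?_, ih]
        rw [hiff t' (ht.trans ht'), ih]
        intro hh
        exact hnal (al_pre (pre_mono A ht') hh)
    exact hnal (frozen_alive h (hstab t ht) (hsuf t ht) hfro
      (fun t' ht' => hT2 t' (ht.trans ht')) t)

theorem stab_all {X : ℕ → ℕ → ℕ → Bool} {A : ℕ → Bool} {s : ℕ → State} (h : Run X A s)
    (hC : Correct X) (hA : Above A) :
    ∃ κ : ℕ → List Agt, (∀ j, (κ j).length = j) ∧ (∀ j, κ j <:+ κ (j + 1)) ∧
      ∀ j, ∃ t0, Stab X A s (κ j) t0 := by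
  have hnext : ∀ κ : {κ : List Agt // ∃ t0, Stab X A s κ t0},
      ∃ ag, ∃ t1, Stab X A s (ag :: κ.1) t1 := by
    rintro ⟨κ, t0, hs⟩
    exact stab_succ h hC hA hs
  choose ag hag using hnext
  have h0 : ∃ t0, Stab X A s ([] : List Agt) t0 :=
    ⟨0, fun t _ => ⟨List.nil_suffix, trivial⟩⟩
  let K : ℕ → {κ : List Agt // ∃ t0, Stab X A s κ t0} := fun j =>
    Nat.rec ⟨[], h0⟩ (fun _ κ => ⟨ag κ :: κ.1, hag κ⟩) j
  have hK : ∀ j, (K (j + 1)).1 = ag (K j) :: (K j).1 := fun j => rfl
  refine ⟨fun j => (K j).1, fun j => ?_, fun j => ?_, fun j => (K j).2⟩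
  · induction j with
    | zero => rfl
    | succ j ih =>
      change (K (j + 1)).1.length = j + 1
      rw [hK, List.length_cons]
      exact congrArg (· + 1) ih
  · change (K j).1 <:+ (K (j + 1)).1
    rw [hK]
    exact List.suffix_cons _ _

end Pool.Agent.KAP
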