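import Mathlib
import Pool.Agent.KAP.ST

/-!
KAP, module LI. The limit real.
Proofs.  `run_pre`: each step extends the string (`Run.seq`, cases of `Stp`).  `new_inf`: let
`r' = max r (s t0).2.length`.  By `hst` for level `r' + 1` the stack is longer than `r'` at some time
`T ≥ t0`; take the least `T ≥ t0` with `r' < (s T).2.length`; then `T > t0`, and between `T - 1` and `T`
the length increases; this is only possible with `new` (all other actions do not increase the length;
`(Y ++ ag :: κ0).length ≥ (ag' :: κ0).length`), and then `(s (T - 1)).2.length = r'`.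
`exists_limit`: `cols X t r` is not empty (`r + 1 > 0`), so the lengths of `(s t).1` tend to infinity
by `new_inf`; let `B n` be the entry number `n` of `(s t).1` for the least `t` with
`n < (s t).1.length`, and use `run_pre` (`List.prefix_iff_eq_take`, `List.ext_getElem?`).
-/

set_option autoImplicit false

namespace Pool.Agent.KAP

open Encodable Pool.Agent.H19 Pool.Agent.H24P

/-- The stable levels `κ` and the limit real `B` of a run. -/
structure Lim (X : ℕ → ℕ → ℕ → Bool) (A : ℕ → Bool) (s : ℕ → State) (κ : ℕ → List Agt)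
    (B : ℕ → Sym) : Prop where
  len : ∀ j, (κ j).length = j
  suf : ∀ j, κ j <:+ κ (j + 1)
  stb : ∀ j, ∃ t0, Stab X A s (κ j) t0
  seg : ∀ t, pr B (s t).1.length = (s t).1
  unb : ∀ n, ∃ t, n ≤ (s t).1.length

private theorem stp_pre {X : ℕ → ℕ → ℕ → Bool} {A : ℕ → Bool} {t : ℕ} {s s' : State} {a : Act}
    (h : Stp X A t s a s') : s.1 <+: s'.1 := by
  cases h <;> first | exact List.prefix_append _ _ | exact List.prefix_rfl

private theorem stp_new {X : ℕ → ℕ → ℕ → Bool} {A : ℕ → Bool} {t : ℕ} {s s' : State} {a : Act}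
    (h : Stp X A t s a s') : s'.2.length ≤ s.2.length ∨
      (s'.2.length = s.2.length + 1 ∧ s'.1 = s.1 ++ cols X t s.2.length) := by
  cases h with
  | new β ags i y0 hr hf hi hy hA => exact Or.inr ⟨rfl, rfl⟩
  | sat β Y L R z κ γ m b hr hγ hA hm hb =>
    left; simp only [List.length_append, List.length_cons]; omega
  | rst β Y L R z κ n hr hz hn =>
    left; simp only [List.length_append, List.length_cons]; omega
  | imp β Y L t' R z0 κ y w z hr ha hw hz =>
    left; simp only [List.length_append, List.length_cons]; omega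
  | fak β Y R κ z hr hz hX =>
    left; simp only [List.length_append, List.length_cons]; omega
  | skp β Y L l R z κ hr =>
    left; simp only [List.length_append, List.length_cons]; omega

private theorem cols_length (X : ℕ → ℕ → ℕ → Bool) (t r : ℕ) : 0 < (cols X t r).length := by
  unfold cols
  simp

theorem run_pre {X : ℕ → ℕ → ℕ → Bool} {A : ℕ → Bool} {s : ℕ → State} (h : Run X A s)
    {t t' : ℕ} (ht : t ≤ t') : (s t).1 <+: (s t').1 := by
  induction t', ht using Nat.le_induction with
  | base => exact List.prefix_rfl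
  | succ t' ht ih =>
    rcases h.seq t' with h1 | ⟨a, h1⟩
    · rwa [h1]
    · exact ih.trans (stp_pre h1)

theorem new_inf {X : ℕ → ℕ → ℕ → Bool} {A : ℕ → Bool} {s : ℕ → State} (h : Run X A s)
    {κ : ℕ → List Agt} (hlen : ∀ j, (κ j).length = j) (hst : ∀ j, ∃ t0, Stab X A s (κ j) t0)
    (r t0 : ℕ) :
    ∃ t r', t0 ≤ t ∧ r ≤ r' ∧ (s (t + 1)).1 = (s t).1 ++ cols X t r' := by
  set r' := max r (s t0).2.length with hr'
  obtain ⟨t1, h1⟩ := hst (r' + 1)
  have hex : ∃ T, t0 ≤ T ∧ r' < (s T).2.length := by
    refine ⟨max t0 t1, le_max_left _ _, ?_⟩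
    have h2 := (h1 (max t0 t1) (le_max_right _ _)).1.length_le
    rw [hlen] at h2
    omega
  classical
  obtain ⟨hT0, hT1⟩ := Nat.find_spec hex
  have hmin := fun m (hm : m < Nat.find hex) => Nat.find_min hex hm
  set T := Nat.find hex with hTdef
  have hTt : T ≠ t0 := by
    intro e
    rw [e] at hT1
    have := le_max_right r (s t0).2.length
    omega
  obtain ⟨u, hu⟩ : ∃ u, T = u + 1 := ⟨T - 1, by omega⟩
  have hu0 : t0 ≤ u := by omega
  have hu1 : (s u).2.length ≤ r' := by
    have h3 := hmin u (by omega)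
    by_contra h4
    exact h3 ⟨hu0, by omega⟩
  rw [hu] at hT1
  rcases h.seq u with h2 | ⟨a, h2⟩
  · rw [h2] at hT1
    omega
  · rcases stp_new h2 with h3 | ⟨h3, h4⟩
    · omega
    · refine ⟨u, (s u).2.length, hu0, ?_, h4⟩
      have := le_max_left r (s t0).2.length
      omega

theorem exists_limit {X : ℕ → ℕ → ℕ → Bool} {A : ℕ → Bool} {s : ℕ → State} (h : Run X A s)
    (hC : Correct X) (hA : Above A) : ∃ κ B, Lim X A s κ B := by
  obtain ⟨κ, hlen, hsuf, hst⟩ := stab_all h hC hA
  have hunb : ∀ n, ∃ t, n ≤ (s t).1.length := by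
    intro n
    induction n with
    | zero => exact ⟨0, Nat.zero_le _⟩
    | succ n ih =>
      obtain ⟨t, ht⟩ := ih
      obtain ⟨t', r', h1, -, h2⟩ := new_inf h hlen hst 0 t
      refine ⟨t' + 1, ?_⟩
      have h3 := (run_pre h h1).length_le
      have h4 := cols_length X t' r'
      rw [h2, List.length_append]
      omega
  choose T hT using fun n => hunb (n + 1)
  have hpre : ∀ (a b : List Sym) (n : ℕ), a <+: b → n < a.length → b[n]? = a[n]? := by
    rintro a b n ⟨c, rfl⟩ hn
    exact List.getElem?_append_left hn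
  have hB : ∀ t n, n < (s t).1.length → (s t).1[n]? = (s (T n)).1[n]? := by
    intro t n hn
    rcases le_total t (T n) with h1 | h1
    · exact (hpre _ _ n (run_pre h h1) hn).symm
    · exact hpre _ _ n (run_pre h h1) (hT n)
  refine ⟨κ, fun n => (s (T n)).1[n]'(hT n), hlen, hsuf, hst, fun t => ?_, hunb⟩
  refine List.ext_getElem? fun n => ?_
  by_cases hn : n < (s t).1.length
  · rw [pr_getElem? _ hn, hB t n hn, List.getElem?_eq_getElem (hT n)]
  · rw [pr_getElem?_none _ (by omega), List.getElem?_eq_none (by omega)]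

end Pool.Agent.KAP
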