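import Mathlib
import Pool.Agent.KAP.LI

/-!
KAP, module LA. Late symbols are allowed.
Proofs.  `late_upper`: let `t0` be such that `κ j` is stable from `t0` on and `X n t q = Kc n q` for
`n ≤ j`, `t ≥ t0`.  For `t ≥ t0`: `s (t + 1) = s t` (then `γ = []`) or `Stp.upper` with
`Allow_of_AllowX` (`(ctx (κ j)).length = j`) and `Ext_mono`.
`late_allow`: with the same `t0` let `n0 = (s t0).1.length`.  For `n ≥ n0` there is `t ≥ t0` with
`(s t).1.length ≤ n < (s (t + 1)).1.length` (`Lim.unb`, least `t`).  Let `(s (t + 1)).1 = (s t).1 ++ γ`;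
then `γ = γ1 ++ B n :: γ2` with `γ1 = γ.take (n - (s t).1.length)` and `pr B n = (s t).1 ++ γ1`
(`Lim.seg`).  `late_ext`: from `late_allow`, by induction on the difference (`pr_succ`, `Ext_snoc`).
-/

set_option autoImplicit false

namespace Pool.Agent.KAP

open Encodable Pool.Agent.H19 Pool.Agent.H24P

theorem late_upper {X : ℕ → ℕ → ℕ → Bool} {A : ℕ → Bool} {s : ℕ → State} {κ : ℕ → List Agt}
    {B : ℕ → Sym} (h : Run X A s) (hC : Correct X) (hl : Lim X A s κ B) (j : ℕ) :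
    ∃ t0, ∀ t, t0 ≤ t → ∃ γ, (s (t + 1)).1 = (s t).1 ++ γ ∧
      Ext (Allow Kc (al Kc (ctx (κ j))) j (Prot (Vof (κ j))) (Forb (Vof (κ j)))) (s t).1 γ := by
  obtain ⟨t1, ht1⟩ := hl.stb j
  obtain ⟨T, hT⟩ : ∃ T, ∀ n ≤ j, ∀ t, T ≤ t → ∀ q, X n t q = Kc n q := by
    have key : ∀ j' : ℕ, ∃ T, ∀ n ≤ j', ∀ t, T ≤ t → ∀ q, X n t q = Kc n q := by
      intro j'
      induction j' with
      | zero =>
        obtain ⟨T, hT⟩ := hC 0
        refine ⟨T, fun n hn t ht q => ?_⟩
        obtain rfl : n = 0 := Nat.le_zero.1 hn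
        exact hT t ht q
      | succ j' ih =>
        obtain ⟨T, hT⟩ := ih
        obtain ⟨T', hT'⟩ := hC (j' + 1)
        refine ⟨max T T', fun n hn t ht q => ?_⟩
        rcases Nat.lt_or_ge n (j' + 1) with h1 | h1
        · exact hT n (Nat.lt_succ_iff.1 h1) t (le_trans (le_max_left _ _) ht) q
        · obtain rfl : n = j' + 1 := le_antisymm hn h1
          exact hT' t (le_trans (le_max_right _ _) ht) q
    exact key j
  have hlen : (ctx (κ j)).length = j := by rw [ctx_length, hl.len]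
  refine ⟨max t1 T, fun t ht => ?_⟩
  have h1 : t1 ≤ t := le_trans (le_max_left _ _) ht
  have h2 : T ≤ t := le_trans (le_max_right _ _) ht
  rcases h.seq t with h3 | ⟨a, h3⟩
  · exact ⟨[], by rw [h3, List.append_nil], Ext_nil _⟩
  · obtain ⟨γ, e1, -, e2, -⟩ := Stp.upper h3 (run_inv h t) (ht1 t h1).1
      (ht1 (t + 1) (le_trans h1 (Nat.le_succ t))).1
    refine ⟨γ, e1, Ext_mono (fun β a hb => ?_) e2⟩
    have := Allow_of_AllowX (κ := ctx (κ j)) (t := t)
      (fun n hn q => hT n (by rw [hlen] at hn; exact hn) t h2 q) hb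
    rw [hlen] at this
    exact this

theorem late_allow {X : ℕ → ℕ → ℕ → Bool} {A : ℕ → Bool} {s : ℕ → State} {κ : ℕ → List Agt}
    {B : ℕ → Sym} (h : Run X A s) (hC : Correct X) (hl : Lim X A s κ B) (j : ℕ) :
    ∃ n0, ∀ n, n0 ≤ n →
      Allow Kc (al Kc (ctx (κ j))) j (Prot (Vof (κ j))) (Forb (Vof (κ j))) (pr B n) (B n) := by
  obtain ⟨t0, ht0⟩ := late_upper h hC hl j
  refine ⟨(s t0).1.length, fun n hn => ?_⟩
  have hex : ∃ t, n < (s t).1.length := by
    obtain ⟨t, ht⟩ := hl.unb (n + 1)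
    exact ⟨t, ht⟩
  classical
  have hf := Nat.find_spec hex
  have hmin : ∀ t, t < Nat.find hex → (s t).1.length ≤ n := fun t ht =>
    not_lt.1 (Nat.find_min hex ht)
  generalize Nat.find hex = t1 at hf hmin
  have hlt : t0 < t1 := by
    by_contra hcon
    have hle : (s t1).1.length ≤ (s t0).1.length :=
      (run_pre h (not_lt.1 hcon)).length_le
    exact absurd (lt_of_lt_of_le hf (le_trans hle hn)) (lt_irrefl n)
  obtain ⟨t, rfl⟩ : ∃ t, t1 = t + 1 := ⟨t1 - 1, by omega⟩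
  have htn : (s t).1.length ≤ n := hmin t (Nat.lt_succ_self t)
  obtain ⟨γ, e1, e2⟩ := ht0 t (Nat.lt_succ_iff.1 hlt)
  have hseg := hl.seg (t + 1)
  have hm : n - (s t).1.length < γ.length := by
    rw [e1, List.length_append] at hf
    omega
  have hB : γ[n - (s t).1.length]? = some (B n) := by
    rw [← List.getElem?_append_right htn, ← e1, ← hseg]
    exact pr_getElem? B hf
  have hpr : pr B n = (s t).1 ++ γ.take (n - (s t).1.length) := by
    rw [← pr_take B (le_of_lt hf), hseg, e1, List.take_append, List.take_of_length_le htn]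
  have hγ : γ = γ.take (n - (s t).1.length) ++ B n :: γ.drop (n - (s t).1.length + 1) := by
    have h1 : γ.drop (n - (s t).1.length) = B n :: γ.drop (n - (s t).1.length + 1) := by
      rw [List.drop_eq_getElem_cons hm]
      congr 1
      rw [List.getElem?_eq_getElem hm] at hB
      exact Option.some.inj hB
    rw [← h1, List.take_append_drop]
  rw [hpr]
  exact e2 _ _ _ hγ

theorem late_ext {X : ℕ → ℕ → ℕ → Bool} {A : ℕ → Bool} {s : ℕ → State} {κ : ℕ → List Agt}
    {B : ℕ → Sym} (h : Run X A s) (hC : Correct X) (hl : Lim X A s κ B) (j : ℕ) :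
    ∃ n0, ∀ n n', n0 ≤ n → n ≤ n' → ∃ γ, pr B n' = pr B n ++ γ ∧
      Ext (Allow Kc (al Kc (ctx (κ j))) j (Prot (Vof (κ j))) (Forb (Vof (κ j)))) (pr B n) γ := by
  obtain ⟨n0, hn0⟩ := late_allow h hC hl j
  refine ⟨n0, fun n n' hn hnn => ?_⟩
  induction n', hnn using Nat.le_induction with
  | base => exact ⟨[], by rw [List.append_nil], Ext_nil _⟩
  | succ n' hle ih =>
    obtain ⟨γ, e1, e2⟩ := ih
    refine ⟨γ ++ [B n'], ?_, ?_⟩
    · rw [pr_succ, e1, List.append_assoc]
    · rw [Ext_snoc]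
      refine ⟨e2, ?_⟩
      rw [← e1]
      exact hn0 n' (le_trans hn hle)

end Pool.Agent.KAP
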