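import Mathlib
import Pool.Agent.KAP.LA

/-!
KAP, module KB. The real `B` computes the columns, and does not compute `A`.
Proofs.  `ar_col`: let `n0` be as in `late_allow` for level `n + 1`.  For `i ≥ n0`, `B i = col n q b`
implies `b = Kc n q` (as `n < n + 1`).  Conversely let `q` be given; take `T` with
`(s T).1.length ≥ n0` and `X n t q = Kc n q` for `t ≥ T`, and `new_inf` for `r = max n q`, `t0 = T`: the
symbol `col n q (X n t q)` is in `cols X t r'`, hence equals `B i` for some `i ≥ n0`.  So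
`Kc n q = b` iff there is `i ≥ n0` with `B i = col n q b`, and this is `Sg (gr B)` (`cp_gr`,
`sg_eq_of_cp`, `Sg.ex`).
`psi_ne`: let `κ (j + 1) = ag :: κ j` (from `Lim.suf` and `Lim.len`), stable from `t0` on.  If
`ag = none`: by `run_inv` there are `m`, `b` with `Psi j (s t0).1 m = some b`, `A m = !b`; if
`Psi j (pr B n) m = some (A m)` for some `n`, then by `Psi_mono` (longer of the two strings)
`A m = b`: contradiction.  If `ag = some (L, R, z)`: `z = some z'` by `Ready`, and `¬ On A z'` by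
`run_inv`, so there is `n` with `z'[n]? = some (!(A n))`.  If `Psi j (pr B k) n = some (A n)` for some
`k`, then for all large `t`, `Psi j (s t).1 n = some (A n)` and the action `rst` is possible, so by
`Run.fair` it is carried out and the agent changes (`z` becomes `none`): contradiction.
`not_ar_A`: `Psi_complete`.  `active_inf`: for `j = 2 * i + 1`, `Psi j` is nowhere defined (`fnl_odd`),
so `ag ≠ none` by `run_inv`.
-/

set_option autoImplicit false

namespace Pool.Agent.KAP

open Encodable Pool.Agent.H19 Pool.Agent.H24P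

theorem KB_top {X : ℕ → ℕ → ℕ → Bool} {A : ℕ → Bool} {s : ℕ → State} {κ : ℕ → List Agt}
    {B : ℕ → Sym} (hl : Lim X A s κ B) (j : ℕ) : ∃ ag, κ (j + 1) = ag :: κ j := by
  obtain ⟨Y, hY⟩ := hl.suf j
  have h1 := hl.len j
  have h2 := hl.len (j + 1)
  rw [← hY, List.length_append, h1] at h2
  have h3 : Y.length = 1 := by omega
  obtain ⟨ag, rfl⟩ := List.length_eq_one_iff.1 h3
  exact ⟨ag, by rw [← hY]; rfl⟩

theorem KB_col {X : ℕ → ℕ → ℕ → Bool} {A : ℕ → Bool} {s : ℕ → State} {κ : ℕ → List Agt}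
    {B : ℕ → Sym} (h : Run X A s) (hC : Correct X) (hl : Lim X A s κ B) (n n0 q : ℕ) :
    ∃ i, n0 ≤ i ∧ B i = col n q (Kc n q) := by
  obtain ⟨T, hT⟩ := hC n
  obtain ⟨t1, ht1⟩ := hl.unb n0
  obtain ⟨t, r', ht, hr', heq⟩ := new_inf h hl.len hl.stb (max n q) (max T t1)
  have hTt : T ≤ t := le_trans (le_max_left _ _) ht
  have ht1t : t1 ≤ t := le_trans (le_max_right _ _) ht
  have hn : n ≤ r' := le_trans (le_max_left _ _) hr'
  have hq : q ≤ r' := le_trans (le_max_right _ _) hr'
  have hmem : col n q (X n t q) ∈ cols X t r' := by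
    unfold cols
    rw [List.mem_flatMap]
    refine ⟨n, List.mem_range.2 (by omega), ?_⟩
    rw [List.mem_map]
    exact ⟨q, List.mem_range.2 (by omega), rfl⟩
  obtain ⟨p, hp, hpe⟩ := List.mem_iff_getElem.1 hmem
  have hlen : (s (t + 1)).1.length = (s t).1.length + (cols X t r').length := by
    rw [heq, List.length_append]
  have hlt : (s t).1.length + p < (s (t + 1)).1.length := by omega
  refine ⟨(s t).1.length + p, ?_, ?_⟩
  · have := (run_pre h ht1t).length_le
    omega
  · have h1 := pr_getElem? B hlt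
    rw [hl.seg (t + 1), heq, List.getElem?_append_right (by omega),
      Nat.add_sub_cancel_left, List.getElem?_eq_getElem hp, hpe, hT t hTt q] at h1
    exact (Option.some.inj h1).symm

theorem ar_col {X : ℕ → ℕ → ℕ → Bool} {A : ℕ → Bool} {s : ℕ → State} {κ : ℕ → List Agt}
    {B : ℕ → Sym} (h : Run X A s) (hC : Correct X) (hl : Lim X A s κ B) (n : ℕ) :
    Ar (gr B) (Kc n) := by
  obtain ⟨n0, hn0⟩ := late_allow h hC hl (n + 1)
  have key : ∀ q b, Kc n q = b ↔ ∃ i, n0 ≤ i ∧ B i = col n q b := by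
    intro q b
    constructor
    · rintro rfl
      exact KB_col h hC hl n n0 q
    · rintro ⟨i, hi, hB⟩
      have h1 := hn0 i hi
      rw [hB] at h1
      exact (h1 (Nat.lt_succ_self n)).symm
  have hs : ∀ b, Sg (gr B) (fun q => Kc n q = b) := by
    intro b
    refine (Sg.ex (Q := fun q i => n0 ≤ i ∧ B i = col n q b) (Sg.and ?_ ?_)).congr
      fun q => (key q b).symm
    · exact Sg.le_comp (Computable.const n0) Computable.snd
    · exact sg_eq_of_cp (f := fun p : ℕ × ℕ => B p.2) (g := fun p : ℕ × ℕ => col n p.1 b)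
        ((cp_gr B).comp Cp.snd)
        (Cp.of_computable (Computable.sumInr.comp ((Computable.const n).pair
          (Computable.fst.pair (Computable.const b)))))
  exact ⟨hs true, hs false⟩

theorem psi_ne {X : ℕ → ℕ → ℕ → Bool} {A : ℕ → Bool} {s : ℕ → State} {κ : ℕ → List Agt}
    {B : ℕ → Sym} (h : Run X A s) (hl : Lim X A s κ B) (j : ℕ) :
    ¬ ∀ m, ∃ n, Psi j (pr B n) m = some (A m) := by
  intro hall
  obtain ⟨ag, hag⟩ := KB_top hl j
  have hlj := hl.len j
  obtain ⟨t0, ht0⟩ := hl.stb (j + 1)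
  have hG := run_inv h t0 _ (ht0 t0 le_rfl).1
  rw [hag] at hG
  rcases ag with _ | ⟨L, R, z⟩
  · obtain ⟨m, b, h1, h2⟩ := hG
    rw [hlj] at h1
    obtain ⟨n, hn⟩ := hall m
    rw [← hl.seg t0] at h1
    have h3 := Psi_mono (pr_mono B (le_max_left n (s t0).1.length)) hn
    have h4 := Psi_mono (pr_mono B (le_max_right n (s t0).1.length)) h1
    rw [h3] at h4
    have h5 : A m = b := Option.some.inj h4
    rw [h5] at h2
    cases b <;> simp at h2
  · have hR := (ht0 t0 le_rfl).2
    rw [hag] at hR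
    obtain ⟨_, hz, _⟩ := hR
    obtain ⟨z', rfl⟩ := Option.isSome_iff_exists.1 hz
    have hz' : ¬ On A z' := (hG.2.2.2 z' rfl).1
    obtain ⟨n, hn⟩ : ∃ n, z'[n]? = some (!(A n)) := by
      by_contra hcon
      push Not at hcon
      apply hz'
      unfold On pre
      refine List.ext_getElem (by simp) fun i h1 h2 => ?_
      have h3 := hcon i
      rw [List.getElem?_eq_getElem h2] at h3
      have h4 : z'[i] ≠ !(A i) := fun h => h3 (congrArg some h)
      simp only [List.getElem_map, List.getElem_range]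
      cases hA : A i <;> cases hzi : z'[i] <;> simp [hA, hzi] at h4 ⊢
    obtain ⟨k, hk⟩ := hall n
    obtain ⟨t1, ht1⟩ := hl.unb k
    have hpsi : ∀ t, t1 ≤ t → Psi j (s t).1 n = some (A n) := by
      intro t ht
      have h1 := (run_pre h ht).length_le
      have h2 := Psi_mono (pr_mono B (show k ≤ (s t).1.length by omega)) hk
      rwa [hl.seg t] at h2
    have hposs : ∀ t, max t0 t1 ≤ t → ∃ s', Stp X A t (s t)
        (Sum.inr (Sum.inr (Sum.inl (j, n)))) s' := by
      intro t ht
      have h1 : t0 ≤ t := le_trans (le_max_left _ _) ht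
      have h2 : t1 ≤ t := le_trans (le_max_right _ _) ht
      obtain ⟨⟨Y, hY⟩, hr⟩ := ht0 t h1
      rw [hag] at hY hr
      have h3 := hpsi t h2
      rcases hst : s t with ⟨β, ags⟩
      rw [hst] at hY hr h3
      simp only at hY hr h3
      subst hY
      have h4 := Stp.rst (X := X) (A := A) (t := t) β Y L R z' (κ j) n hr.1 hn
        (by rw [hlj]; exact h3)
      rw [hlj] at h4
      exact ⟨_, h4⟩
    obtain ⟨t, ht, hstp⟩ := h.fair _ _ hposs
    have h1 : t0 ≤ t + 1 := le_trans (le_trans (le_max_left _ _) ht) (Nat.le_succ t)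
    have h2 := (ht0 (t + 1) h1).1
    rw [hag] at h2
    generalize s (t + 1) = s1 at h2 hstp
    generalize s t = s0 at hstp
    generalize ha : (Sum.inr (Sum.inr (Sum.inl (j, n))) : Act) = a at hstp
    cases hstp with
    | rst β Y L1 R1 z1 κ0 n1 hr0 hz0 hn0 =>
      have h3 : (j, n) = (κ0.length, n1) := Sum.inl.inj (Sum.inr.inj (Sum.inr.inj ha))
      have h4 : j = κ0.length := (Prod.mk.inj h3).1
      have h5 := h2.eq_of_length (by simp only [List.length_cons]; omega)
      simp at h5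
    | _ => simp at ha

theorem not_ar_A {X : ℕ → ℕ → ℕ → Bool} {A : ℕ → Bool} {s : ℕ → State} {κ : ℕ → List Agt}
    {B : ℕ → Sym} (h : Run X A s) (hl : Lim X A s κ B) : ¬ Ar (gr B) A := by
  intro hB
  obtain ⟨i, hi⟩ := Psi_complete hB
  exact psi_ne h hl i hi

theorem active_inf {X : ℕ → ℕ → ℕ → Bool} {A : ℕ → Bool} {s : ℕ → State} {κ : ℕ → List Agt}
    {B : ℕ → Sym} (h : Run X A s) (hl : Lim X A s κ B) (n : ℕ) :
    ∃ j, n ≤ j ∧ ∃ L R z, κ (j + 1) = some (L, R, z) :: κ j := by
  obtain ⟨ag, hag⟩ := KB_top hl (2 * n + 1)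
  refine ⟨2 * n + 1, by omega, ?_⟩
  obtain ⟨t0, ht0⟩ := hl.stb (2 * n + 1 + 1)
  have hG := run_inv h t0 _ (ht0 t0 le_rfl).1
  rw [hag] at hG
  rcases ag with _ | ⟨L, R, z⟩
  · obtain ⟨m, b, h1, h2⟩ := hG
    rw [hl.len, Psi, fnl_odd] at h1
    simp at h1
  · exact ⟨L, R, z, hag⟩

end Pool.Agent.KAP
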