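import Mathlib
import Pool.Agent.KAP.KB
import Pool.Agent.KAP.KS

/-!
KAP, module FD. `B` is above all finite jumps.
Proof: `Zs n m = Kc n (encode (Sum.inl m : Qn))` by `Kc_zs`, and `ar_col`.
-/

set_option autoImplicit false

namespace Pool.Agent.KAP

open Encodable Pool.Agent.H19 Pool.Agent.H24P

theorem above_gr {X : ℕ → ℕ → ℕ → Bool} {A : ℕ → Bool} {s : ℕ → State} {κ : ℕ → List Agt}
    {B : ℕ → Sym} (h : Run X A s) (hC : Correct X) (hl : Lim X A s κ B) : Above (gr B) := by
  intro n
  have hc := ar_col h hC hl n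
  have he : Computable (fun m : ℕ => encode (Sum.inl m : Qn)) :=
    Computable.encode.comp (Computable.sumInl)
  exact ⟨(hc.1.comp he).congr fun m => by rw [Kc_zs], (hc.2.comp he).congr fun m => by rw [Kc_zs]⟩

end Pool.Agent.KAP
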