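import Mathlib
import Pool.Agent.KAP.LA

/-!
KAP, module FE. The last node of the target on `A`.
Proof.  Let `t0` be such that `κ (k + 1)` is stable from `t0` on, and as in `late_upper` for level
`k + 1`.  By `run_inv` (`GoodSt`) at `t0`: `GoodV A (s t0).1 (Wv L (Sum.inl t' :: R))`.  Take a node `y`
of `t'` in `(s t0).1` on `A` of maximal length (there are finitely many nodes; the root is one on `A`
by `GoodV.root`).  There is no event on `t'` at `y`: an event `(y, u, v)` would give `On A u` or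
`On A v` by `GoodV.nxa`, which are longer nodes (`TI.memb`).  For `T ≥ t0` no events on `t'` are added:
`tid t' ∈ Forb (Vof (κ (k + 1))) = Forb (vout L (Sum.inl t' :: R))`, and all symbols added are allowed
(`late_upper`: `q ∉ F`); so by induction there is no event on `t'` at `y` in `(s T).1`.
-/

set_option autoImplicit false

namespace Pool.Agent.KAP

open Encodable Pool.Agent.H19 Pool.Agent.H24P

private theorem FE_prot (L R : List Coord) (t' : Tree) :
    Prot (Wv L (Sum.inl t' :: R)) = Prot R.reverse ++ t' :: Prot L := by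
  unfold Wv
  rw [List.reverse_cons, List.append_assoc, Prot_append]
  rfl

private theorem FE_forb (L R : List Coord) (t' : Tree) :
    tid t' ∈ Forb (vout L (Sum.inl t' :: R)) := by
  unfold vout
  rw [if_neg (by simp)]
  simp [Forb, ids]

private theorem FE_max {A : ℕ → Bool} {β : List Sym} {t : Tree} (hr : On A (rt t)) :
    ∃ y, Node β t y ∧ On A y ∧ ∀ y', Node β t y' → On A y' → y'.length ≤ y.length := by
  obtain ⟨n, hn⟩ := exists_short β
  let S : Set ℕ := {l | ∃ y, Node β t y ∧ On A y ∧ y.length = l}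
  have hne : S.Nonempty := ⟨_, rt t, Or.inl rfl, hr, rfl⟩
  have hb : BddAbove S := by
    refine ⟨n + (rt t).length, ?_⟩
    rintro l ⟨y, hy, -, rfl⟩
    rcases hy with rfl | ⟨y0, u, v, h1, h2⟩
    · omega
    · have h3 := hn n le_rfl _ _ _ _ h1
      rcases h2 with rfl | rfl
      · omega
      · omega
  obtain ⟨y, h1, h2, h3⟩ := Nat.sSup_mem hne hb
  refine ⟨y, h1, h2, fun y' h4 h5 => ?_⟩
  rw [h3]
  exact le_csSup hb ⟨y', h4, h5, rfl⟩

private theorem FE_len {y u : Str} (h : y <+: u) (hn : y ≠ u) : y.length < u.length := by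
  rcases lt_or_eq_of_le h.length_le with h1 | h1
  · exact h1
  · exact absurd (h.eq_of_length h1) hn

theorem final_node {X : ℕ → ℕ → ℕ → Bool} {A : ℕ → Bool} {s : ℕ → State} {κ : ℕ → List Agt}
    {B : ℕ → Sym} (h : Run X A s) (hX : Correct X) (hl : Lim X A s κ B) {k : ℕ}
    {L R : List Coord} {t' : Tree} {z0 : Option Str}
    (hk : κ (k + 1) = some (L, Sum.inl t' :: R, z0) :: κ k) :
    ∃ T0 y, On A y ∧ ∀ T, T0 ≤ T → Node (s T).1 t' y ∧
      ∀ u v, ev (tid t') y u v ∉ (s T).1 := by
  obtain ⟨t1, h1⟩ := hl.stb (k + 1)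
  obtain ⟨t2, h2⟩ := late_upper h hX hl (k + 1)
  have hs : κ (k + 1) <:+ (s (max t1 t2)).2 := (h1 _ (le_max_left _ _)).1
  have hG := run_inv h (max t1 t2) _ hs
  rw [hk] at hG
  have hV := hG.2.1
  have hP := FE_prot L R t'
  have hmem : t' ∈ Prot (Wv L (Sum.inl t' :: R)) := by
    rw [hP]
    simp
  obtain ⟨y, hy1, hy2, hy3⟩ := FE_max (β := (s (max t1 t2)).1) (hV.root t' hmem)
  have hno : ∀ u v, ev (tid t') y u v ∉ (s (max t1 t2)).1 := by
    intro u v he
    have h3 := (hV.tin _ _ _ hP).memb y u v he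
    rcases hV.nxa t' hmem y u v he hy2 with h4 | h4
    · have h5 := hy3 u (Or.inr ⟨y, u, v, he, Or.inl rfl⟩) h4
      have h6 := FE_len h3.2.2.2.1 h3.2.2.2.2.1
      omega
    · have h5 := hy3 v (Or.inr ⟨y, u, v, he, Or.inr rfl⟩) h4
      have h6 := FE_len h3.2.2.2.2.2.1 h3.2.2.2.2.2.2.1
      omega
  refine ⟨max t1 t2, y, hy2, fun T hT => ⟨?_, ?_⟩⟩
  · obtain ⟨γ, hγ⟩ := run_pre h hT
    rw [← hγ]
    exact Node_mono hy1
  · induction T, hT using Nat.le_induction with
    | base => exact hno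
    | succ T hT ih =>
      intro u v he
      obtain ⟨γ, h3, h4⟩ := h2 T ((le_max_right _ _).trans hT)
      rw [h3] at he
      rcases List.mem_append.1 he with he | he
      · exact ih u v he
      · obtain ⟨γ1, γ2, rfl⟩ := List.append_of_mem he
        have h5 := (h4 γ1 _ γ2 rfl).1
        apply h5
        rw [hk]
        exact FE_forb L R t'

end Pool.Agent.KAP
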