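import Mathlib
import Pool.Agent.KAP.LA

/-!
KAP, module FG. No further improvement is possible.
Proof.  Write `κ1 = κ (k + 1) = some (L, Sum.inl t' :: R, some z0) :: κ k`, `P = Prot L`.  Let `t0 ≥ T0` be
such that `κ1` is stable from `t0` on, `X n t q = Kc n q` for `n ≤ k + 1`, `t ≥ t0`, and
`(s t0).1.length ≥ n0` for the `n0` of `late_ext` for level `k + 1`; let `N = (s t0).1.length`.
Let `n ≥ N` and `z`, `w`, `T` be as in the statement, and suppose `Split (tf t') w z`.  Let `T'` be
such that `T ≤ T'`, `t0 ≤ T'`, `n ≤ (s T').1.length`, `w.length ≤ T'`.  Then for all `T'' ≥ T'` the action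
`imp` with `y w z` is possible for the agent at level `k` at time `T''`:
* the stack is `Y ++ some (L, Sum.inl t' :: R, some z0) :: κ k`, and `Ready` for `κ k` follows from
`Ready` for `κ1`;
* `AllowX`: `tid t' ∉ Forb (Wv ..)` and the decomposition of
`Prot (Wv L (Sum.inl t' :: R)) = Prot R.reverse ++ t' :: P` at a tree with identifier `tid t'` is
unique, both by `GoodV.nod` (all identifiers of the vector are distinct);
* `WF (s T'').1 t' P y w z`: `hy2`; `NTop` by monotonicity (`run_pre`, `Lim.seg`); `Split`;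
* `w` is alive: `Ready` for `κ1` at `T''` and `Kc_spec` say that `pre A T''` is alive, and
`w <+: pre A T''` (`al_pre`);
* `z` is alive: by `persist_ext` from `pr B n` to `(s T'').1 = pr B _` with `late_ext`; here
`P = Prot L = Prot (Vof κ1) = P'` (`Prot_vout`), `LeI_chain`; `TInv (pr B n) P'` by `persist_ext` (or
`TInv_step`) from `pr B N = (s t0).1`, where it holds by `GoodV_vout`;
* for suffixes `κ'` of `ctx κ1`: `al_suffix`, `Kc_spec` and `X = Kc` at time `T''`;
* `On A w`, `¬ On A z`.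
By `Run.fair` it is carried out at some `T''`; then `(s (T'' + 1)).2 = some (Sum.inl t' :: L, R, some z)
:: κ k`, which has the same length as `κ1`, but `κ1` is a suffix: contradiction.
-/

set_option autoImplicit false

namespace Pool.Agent.KAP

open Encodable Pool.Agent.H19 Pool.Agent.H24P

private theorem FG_prot (L R : List Coord) (t' : Tree) :
    Prot (Wv L (Sum.inl t' :: R)) = Prot R.reverse ++ t' :: Prot L := by
  unfold Wv
  rw [List.reverse_cons, List.append_assoc, Prot_append]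
  rfl

private theorem FG_ids (L R : List Coord) (t' : Tree) :
    ids (Wv L (Sum.inl t' :: R)) = ids R.reverse ++ tid t' :: ids L := by
  unfold Wv
  rw [List.reverse_cons, List.append_assoc, ids_append]
  rfl

private theorem FG_forb (L R : List Coord) (t' : Tree) :
    Forb (Wv L (Sum.inl t' :: R)) = Forb R.reverse ++ Forb L := by
  unfold Wv
  rw [List.reverse_cons, List.append_assoc, Forb_append]
  rfl

private theorem FG_not_forb {L R : List Coord} {t' : Tree}
    (h : (ids (Wv L (Sum.inl t' :: R))).Nodup) : tid t' ∉ Forb (Wv L (Sum.inl t' :: R)) := by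
  rw [FG_ids] at h
  rw [FG_forb]
  have h1 := List.nodup_append.1 h
  intro h2
  rcases List.mem_append.1 h2 with h3 | h3
  · exact h1.2.2 _ (Forb_subset_ids _ h3) _ List.mem_cons_self rfl
  · exact (List.nodup_cons.1 h1.2.1).1 (Forb_subset_ids _ h3)

private theorem FG_uniq {L R : List Coord} {t' : Tree}
    (h : (ids (Wv L (Sum.inl t' :: R))).Nodup) {P1 : List Tree} {t : Tree} {P2 : List Tree}
    (hP : Prot (Wv L (Sum.inl t' :: R)) = P1 ++ t :: P2) (ht : tid t = tid t') :
    t = t' ∧ P2 = Prot L := by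
  rw [FG_ids] at h
  rw [FG_prot] at hP
  have h1 := List.nodup_append.1 h
  rcases List.append_eq_append_iff.1 hP with ⟨a, h2, h3⟩ | ⟨a, h2, h3⟩
  · rcases a with _ | ⟨c, a⟩
    · simp only [List.nil_append, List.cons.injEq] at h3
      exact ⟨h3.1.symm, h3.2.symm⟩
    · exfalso
      simp only [List.cons_append, List.cons.injEq] at h3
      have h4 : t ∈ Prot L := by rw [h3.2]; simp
      have h5 := tid_mem_ids h4
      rw [ht] at h5
      exact (List.nodup_cons.1 h1.2.1).1 h5
  · rcases a with _ | ⟨c, a⟩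
    · simp only [List.nil_append, List.cons.injEq] at h3
      exact ⟨h3.1, h3.2⟩
    · exfalso
      simp only [List.cons_append, List.cons.injEq] at h3
      have h4 : t ∈ Prot R.reverse := by rw [h2, h3.1]; simp
      have h5 := tid_mem_ids h4
      rw [ht] at h5
      exact h1.2.2 _ h5 _ List.mem_cons_self rfl

private theorem FG_tinv {K : ℕ → ℕ → Bool} {AL : List Tree → List Sym → Str → Prop} {i : ℕ}
    {P : List Tree} {F : List ℕ} : ∀ (γ β : List Sym), TInv β P →
      Ext (Allow K AL i P F) β γ → TInv (β ++ γ) P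
  | [], β, h, _ => by simpa using h
  | a :: γ, β, h, hγ => by
    have h1 := Ext_cons.1 hγ
    have h2 := FG_tinv γ (β ++ [a]) (TInv_step h h1.1) h1.2
    simpa using h2

private theorem FG_imp {X : ℕ → ℕ → ℕ → Bool} {A : ℕ → Bool} {t : ℕ} {s s' : State} {i : ℕ}
    {y w z : Str}
    (h : Stp X A t s (Sum.inr (Sum.inr (Sum.inr (Sum.inl (i, y, w, z))))) s')
    {κ1 : List Agt} (h1 : κ1 <:+ s.2) (h2 : κ1 <:+ s'.2) (hl : κ1.length = i + 1) : False := by
  cases h with
  | imp β Y L t' R z0 κ y w z hr ha hw hz =>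
    have h3 : some (L, Sum.inl t' :: R, some z0) :: κ <:+
        Y ++ some (L, Sum.inl t' :: R, some z0) :: κ := List.suffix_append _ _
    have h4 := List.suffix_of_suffix_length_le h1 h3 (by rw [hl]; rfl)
    have h5 := h4.eq_of_length (by rw [hl]; rfl)
    have h6 := h2.eq_of_length (by rw [hl]; rfl)
    rw [h5] at h6
    simp only [List.cons.injEq, Option.some.injEq, Prod.mk.injEq] at h6
    have h7 := congrArg List.length h6.1.1
    simp at h7

theorem no_split {X : ℕ → ℕ → ℕ → Bool} {A : ℕ → Bool} {s : ℕ → State} {κ : ℕ → List Agt}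
    {B : ℕ → Sym} (h : Run X A s) (hX : Correct X) (hl : Lim X A s κ B) {k : ℕ}
    {L R : List Coord} {t' : Tree} {z0 : Str}
    (hk : κ (k + 1) = some (L, Sum.inl t' :: R, some z0) :: κ k) {T0 : ℕ} {y : Str}
    (hy2 : ∀ T, T0 ≤ T → Node (s T).1 t' y ∧ ∀ u v, ev (tid t') y u v ∉ (s T).1) :
    ∃ N, ∀ n, N ≤ n → ∀ z w T, NTop (pr B n) (Prot L) z → y <+: z → y ≠ z →
      al Kc (ctx (κ (k + 1))) (Prot L) (pr B n) z → NTop (s T).1 (Prot L) w → On A w →
      y <+: w → y ≠ w → ¬ On A z → ¬ Split (tf t') w z := by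
  obtain ⟨t1, h1⟩ := hl.stb (k + 1)
  have hT : ∃ T, ∀ t, T ≤ t → ∀ n ≤ k + 1, ∀ q, X n t q = Kc n q := by
    choose T hT using hX
    refine ⟨(Finset.range (k + 2)).sup T, fun t ht n hn q => hT n t ?_ q⟩
    exact (Finset.le_sup (f := T) (Finset.mem_range.2 (by omega))).trans ht
  obtain ⟨t2, h2⟩ := hT
  obtain ⟨n0, h3⟩ := late_ext h hX hl (k + 1)
  obtain ⟨t3, h4⟩ := hl.unb n0
  obtain ⟨t0, ht0, ht1, ht2, ht3⟩ : ∃ t0, T0 ≤ t0 ∧ t1 ≤ t0 ∧ t2 ≤ t0 ∧ t3 ≤ t0 :=
    ⟨T0 + t1 + t2 + t3, by omega, by omega, by omega, by omega⟩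
  have hlen0 : n0 ≤ (s t0).1.length := h4.trans (run_pre h ht3).length_le
  refine ⟨(s t0).1.length, fun n hn z w T hz hyz hyz' haz hw hAw hyw hyw' hAz hsp => ?_⟩
  obtain ⟨t4, h5⟩ := hl.unb n
  obtain ⟨T', hT'0, hT'1, hT'2, hT'3⟩ : ∃ T', t0 ≤ T' ∧ T ≤ T' ∧ t4 ≤ T' ∧ w.length ≤ T' :=
    ⟨t0 + T + t4 + w.length, by omega, by omega, by omega, by omega⟩
  have hklen : (κ k).length = k := hl.len k
  have hk1len : (κ (k + 1)).length = k + 1 := hl.len (k + 1)
  have hctx : (ctx (κ (k + 1))).length = k + 1 := by rw [ctx_length, hk1len]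
  have hposs : ∀ T'', T' ≤ T'' → ∃ s', Stp X A T'' (s T'')
      (Sum.inr (Sum.inr (Sum.inr (Sum.inl ((κ k).length, y, w, z))))) s' := by
    intro T'' hT''
    obtain ⟨hsuf, hrdy⟩ := h1 T'' (by omega)
    have hInv := run_inv h T''
    have hG := hInv _ hsuf
    rw [hk] at hG
    have hV := hG.2.1
    obtain ⟨Y, hY⟩ := hsuf
    have hst : s T'' = ((s T'').1, Y ++ some (L, Sum.inl t' :: R, some z0) :: κ k) := by
      rw [← hk, hY]
    -- `w` is alive
    have haw : al Kc (ctx (κ (k + 1))) (Prot L) (s T'').1 w := by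
      have h6 := hrdy
      rw [hk] at h6
      have h7 := h6.2.2
      rw [hklen, h2 T'' (by omega) _ le_rfl, Kc_spec, ← hk] at h7
      refine al_pre ?_ h7.2
      have h8 : pre A w.length = w := hAw
      rw [← h8]
      exact pre_mono A (by omega)
    -- `z` is alive
    have hPv : Prot (Vof (κ (k + 1))) = Prot L := by
      rw [hk]
      exact Prot_vout _ _
    have hT0 : TInv (s t0).1 (Prot (Vof (κ (k + 1)))) := by
      have h6 := run_inv h t0 _ (h1 t0 ht1).1
      rw [hk] at h6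
      rw [hk]
      exact (GoodV_vout h6.2.1).tin
    have hTn : TInv (pr B n) (Prot (Vof (κ (k + 1)))) := by
      obtain ⟨γ, h6, h7⟩ := h3 (s t0).1.length n hlen0 hn
      rw [h6]
      refine FG_tinv γ _ ?_ h7
      rw [hl.seg t0]
      exact hT0
    have hnlen : n ≤ (s T'').1.length :=
      h5.trans (run_pre h (by omega : t4 ≤ T'')).length_le
    obtain ⟨γ, h6, h7⟩ := h3 n (s T'').1.length (by omega) hnlen
    have h8 : (s T'').1 = pr B n ++ γ := by rw [← h6, hl.seg T'']
    have haz' : al Kc (ctx (κ (k + 1))) (Prot L) (s T'').1 z := by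
      rw [h8]
      refine (persist_ext (P' := Prot (Vof (κ (k + 1)))) (F' := Forb (Vof (κ (k + 1))))
        (by rw [hPv]) ?_ hTn ?_ hz haz).1
      · exact LeI_chain (hInv.chain ⟨Y, hY⟩)
      · rw [hctx]
        exact h7
    have hzn : NTop (s T'').1 (Prot L) z := by
      rw [h8]
      exact NTop_mono hz
    have hwn : NTop (s T'').1 (Prot L) w := by
      obtain ⟨γ', h9⟩ := run_pre h (by omega : T ≤ T'')
      rw [← h9]
      exact NTop_mono hw
    have hWF : WF (s T'').1 t' (Prot L) y w z :=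
      ⟨(hy2 T'' (by omega)).1, (hy2 T'' (by omega)).2, hyw, hyw', hyz, hyz', hwn, hzn, hsp⟩
    have hall : Allow Kc (al Kc (ctx (κ (k + 1)))) (ctx (κ (k + 1))).length
        (Prot (Wv L (Sum.inl t' :: R))) (Forb (Wv L (Sum.inl t' :: R))) (s T'').1
        (ev (tid t') y w z) := by
      refine ⟨FG_not_forb hV.nod, fun P1 t P2 h9 h10 => ?_⟩
      obtain ⟨rfl, rfl⟩ := FG_uniq hV.nod h9 h10
      exact ⟨hWF, haw, haz'⟩
    rw [hst]
    refine ⟨_, Stp.imp (s T'').1 Y L t' R z0 (κ k) y w z ?_ ?_ hAw hAz⟩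
    · exact Ready_suffix (hl.suf k) hrdy
    · rw [← hk]
      refine AllowX_of_Allow ?_ hall
      rw [hctx]
      exact h2 T'' (by omega)
  obtain ⟨T'', hT'', hstp⟩ := h.fair _ T' hposs
  exact FG_imp hstp (h1 T'' (by omega)).1 (h1 (T'' + 1) (by omega)).1 (by rw [hk1len, hklen])

end Pool.Agent.KAP
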