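import Mathlib
import Pool.Agent.KAP.FD
import Pool.Agent.KAP.FE
import Pool.Agent.KAP.FG

/-!
KAP, module FA. A coordinate which is finally forbidden.
Proof.  Write `P = Prot L`, `κ1 = κ (k + 1)`.  Take `T0`, `y` from `final_node` and `N` from `no_split`.
Claim: `C m = b` iff there are `n ≥ N` and `z` with `NTop (pr B n) P z`, `y <+: z`, `y ≠ z`,
`Kc (k + 1) (qc (ctx κ1) P (pr B n) z) = true`, `Phi (tf t') z m = some b`.
This gives `Ar (gr B) C`: `NTop` is arithmetical (`arith_NTop`, `Arith.dc` with `above_gr`); `ar_col`,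
`cp_gr`, `Cp.pr`, `Phi_computable`; `Sg.ex`.
(only if) By `hC` and `hgrow` take `T`, `w` with `NTop (s T).1 P w`, `On A w`,
`Phi (tf t') w m = some (C m)` (`Phi_mono`; `w` at least as long as the use), `|w| > |y|`, so
`y <+: w`, `y ≠ w`; increase `T` (`NTop_mono`, `run_pre`) so that `κ1` is stable and ready at `T`,
`X n T q = Kc n q` for `n ≤ k + 1`, `T ≥ |w|`, and `(s T).1.length ≥ N` (`Lim.unb`).  `Ready` at `T`
says (`Kc_spec`) that `pre A T` is alive for `P`, so `w` is alive (`al_pre`).  Let `z = w`,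
`n = (s T).1.length` (`Lim.seg`).
(if) Let `n`, `z` be given with `Phi (tf t') z m = some b`, and suppose `b ≠ C m`, so `C m = !b`.
`On A z` is impossible (`hC`, `Phi_mono`).  Take `w`, `T` as before, with
`Phi (tf t') w m = some (C m)`; then `Split (tf t') w z`, against `no_split`.
-/

set_option autoImplicit false

namespace Pool.Agent.KAP

open Encodable Pool.Agent.H19 Pool.Agent.H24P

private theorem FA_sg {X : ℕ → ℕ → ℕ → Bool} {A : ℕ → Bool} {s : ℕ → State}
    {κ : ℕ → List Agt} {B : ℕ → Sym} (h : Run X A s) (hX : Correct X) (hl : Lim X A s κ B)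
    (k N e : ℕ) (κ1 : Ctx) (P : List Tree) (y : Str) (b : Bool) :
    Sg (gr B) (fun m : ℕ => ∃ p : ℕ × Str, N ≤ p.1 ∧ NTop (pr B p.1) P p.2 ∧ y <+: p.2 ∧
      y ≠ p.2 ∧ Kc k (qc κ1 P (pr B p.1) p.2) = true ∧ Phi e p.2 m = some b) := by
  refine Sg.ex (Q := fun (m : ℕ) (p : ℕ × Str) => N ≤ p.1 ∧ NTop (pr B p.1) P p.2 ∧ y <+: p.2 ∧
      y ≠ p.2 ∧ Kc k (qc κ1 P (pr B p.1) p.2) = true ∧ Phi e p.2 m = some b) ?_
  have hn : Computable fun q : ℕ × (ℕ × Str) => q.2.1 := Computable.fst.comp Computable.snd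
  have hz : Computable fun q : ℕ × (ℕ × Str) => q.2.2 := Computable.snd.comp Computable.snd
  have hpr : Cp (gr B) (fun q : ℕ × (ℕ × Str) => pr B q.2.1) :=
    (Cp.pr (cp_gr B)).comp (Cp.of_computable hn)
  refine Sg.and ?_ (Sg.and ?_ (Sg.and ?_ (Sg.and ?_ (Sg.and ?_ ?_))))
  · exact Sg.le_comp (Computable.const N) hn
  · have h1 : Dc (gr B) (fun p : List Sym × List Tree × Str => NTop p.1 p.2.1 p.2.2) :=
      arith_NTop.dc (above_gr h hX hl)
    have h2 : Cp (gr B) (fun q : ℕ × (ℕ × Str) => (pr B q.2.1, P, q.2.2)) :=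
      hpr.pair (Cp.of_computable ((Computable.const P).pair hz))
    exact (h1.subst h2).1
  · exact (Dc.isPre (Computable.const y) hz).1
  · exact Sg.ne_comp (Computable.const y) hz
  · have h1 : Dc (gr B) (fun n => Kc k n = true) := ar_iff_dc.1 (ar_col h hX hl k)
    have h2 : Computable (fun r : List Sym × Str =>
        encode (Sum.inr (κ1, P, r.1, r.2) : Qn)) :=
      Computable.encode.comp (Computable.sumInr.comp
        ((Computable.const κ1).pair ((Computable.const P).pair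
          (Computable.fst.pair Computable.snd))))
    have h3 : Cp (gr B) (fun q : ℕ × (ℕ × Str) => (pr B q.2.1, q.2.2)) :=
      hpr.pair (Cp.of_computable hz)
    exact (h1.subst ((Cp.of_computable h2).comp h3)).1
  · refine Sg.eq_comp (Phi_computable.comp
      ((Computable.const e).pair (hz.pair Computable.fst))) (Computable.const (some b))

private theorem FA_on {A : ℕ → Bool} {z : Str} {e m : ℕ} {b c : Bool} {n : ℕ}
    (hz : On A z) (h1 : Phi e z m = some b) (h2 : Phi e (pre A n) m = some c) : b = c := by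
  have h3 : pre A z.length = z := hz
  rw [← h3] at h1
  have h4 := Phi_mono (pre_mono A (le_max_left z.length n)) h1
  have h5 := Phi_mono (pre_mono A (le_max_right z.length n)) h2
  rw [h4] at h5
  exact Option.some.inj h5

theorem F_case {X : ℕ → ℕ → ℕ → Bool} {A : ℕ → Bool} {s : ℕ → State} {κ : ℕ → List Agt}
    {B : ℕ → Sym} (h : Run X A s) (hX : Correct X) (hl : Lim X A s κ B) {k : ℕ}
    {L R : List Coord} {t' : Tree} {z0 : Str}
    (hk : κ (k + 1) = some (L, Sum.inl t' :: R, some z0) :: κ k)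
    (hgrow : ∀ n, ∃ T w, NTop (s T).1 (Prot L) w ∧ On A w ∧ n ≤ w.length)
    {C : ℕ → Bool} (hC : ∀ m, ∃ n, Phi (tf t') (pre A n) m = some (C m)) : Ar (gr B) C := by
  obtain ⟨T0, y, hy1, hy2⟩ := final_node h hX hl hk
  obtain ⟨N, hN⟩ := no_split h hX hl hk hy2
  obtain ⟨t1, h1⟩ := hl.stb (k + 1)
  have hT : ∃ T, ∀ t, T ≤ t → ∀ n ≤ k + 1, ∀ q, X n t q = Kc n q := by
    choose T hT using hX
    refine ⟨(Finset.range (k + 2)).sup T, fun t ht n hn q => hT n t ?_ q⟩
    exact (Finset.le_sup (f := T) (Finset.mem_range.2 (by omega))).trans ht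
  obtain ⟨t2, h2⟩ := hT
  have hklen : (κ k).length = k := hl.len k
  have hk1len : (κ (k + 1)).length = k + 1 := hl.len (k + 1)
  have hctx : (ctx (κ (k + 1))).length = k + 1 := by rw [ctx_length, hk1len]
  have hw : ∀ m, ∃ T w, N ≤ (s T).1.length ∧ NTop (s T).1 (Prot L) w ∧ On A w ∧ y <+: w ∧ y ≠ w ∧
      Phi (tf t') w m = some (C m) ∧
      al Kc (ctx (κ (k + 1))) (Prot L) (s T).1 w := by
    intro m
    obtain ⟨n, hn⟩ := hC m
    obtain ⟨T, w, h3, h4, h5⟩ := hgrow (n + y.length + 1)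
    obtain ⟨t3, h6⟩ := hl.unb N
    obtain ⟨T', hT1, hT2, hT3, hT4, hT5⟩ : ∃ T', T ≤ T' ∧ t1 ≤ T' ∧ t2 ≤ T' ∧ t3 ≤ T' ∧
        w.length ≤ T' := ⟨T + t1 + t2 + t3 + w.length, by omega, by omega, by omega, by omega,
          by omega⟩
    have hwA : pre A w.length = w := h4
    have hyA : pre A y.length = y := hy1
    refine ⟨T', w, h6.trans (run_pre h hT4).length_le, ?_, h4, ?_, ?_, ?_, ?_⟩
    · obtain ⟨γ, h7⟩ := run_pre h hT1
      rw [← h7]
      exact NTop_mono h3
    · rw [← hwA, ← hyA]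
      exact pre_mono A (by omega)
    · rintro rfl
      omega
    · rw [← hwA]
      exact Phi_mono (pre_mono A (by omega)) hn
    · have h6 := (h1 T' hT2).2
      rw [hk] at h6
      have h7 := h6.2.2
      rw [hklen, h2 T' hT3 _ le_rfl, Kc_spec, ← hk] at h7
      refine al_pre ?_ h7.2
      rw [← hwA]
      exact pre_mono A hT5
  have key : ∀ (m : ℕ) (b : Bool), (∃ p : ℕ × Str, N ≤ p.1 ∧ NTop (pr B p.1) (Prot L) p.2 ∧
      y <+: p.2 ∧ y ≠ p.2 ∧
      Kc (k + 1) (qc (ctx (κ (k + 1))) (Prot L) (pr B p.1) p.2) = true ∧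
      Phi (tf t') p.2 m = some b) ↔ C m = b := by
    intro m b
    obtain ⟨T, w, h3, h4, h5, h6, h7, h8, h9⟩ := hw m
    constructor
    · rintro ⟨⟨n, z⟩, hn, hz, hyz, hyz', haz, hp⟩
      simp only at hn hz hyz hyz' haz hp
      by_contra hne
      obtain ⟨n', hn'⟩ := hC m
      have hAz : ¬ On A z := fun h10 => hne (FA_on h10 hp hn').symm
      rw [Kc_spec] at haz
      refine hN n hn z w T hz hyz hyz' haz.2 h4 h5 h6 h7 hAz ⟨m, C m, h8, ?_⟩
      rw [hp]
      cases hb : C m <;> cases b <;> simp_all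
    · rintro rfl
      refine ⟨((s T).1.length, w), h3, ?_, h6, h7, ?_, h8⟩
      · simp only
        rw [hl.seg T]
        exact h4
      · simp only
        rw [hl.seg T, Kc_spec]
        exact ⟨hctx.le, h9⟩
  exact ⟨(FA_sg h hX hl (k + 1) N (tf t') (ctx (κ (k + 1))) (Prot L) y true).congr
      fun m => key m true,
    (FA_sg h hX hl (k + 1) N (tf t') (ctx (κ (k + 1))) (Prot L) y false).congr
      fun m => key m false⟩

end Pool.Agent.KAP
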