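import Mathlib
import Pool.Agent.KAP.LI

/-!
KAP, module GR. The trees which are used infinitely often grow along `A`.
Proof.  Suppose `n` is such that all `w` with `Node (s T).1 t w`, `On A w` have length `< n` (all `T`).
The root is such a `w` (for `T` large: by `hinf` and `run_inv` for a stable level, `t ∈ Prot L ⊆
Prot (Wv L R)` and `GoodV.root`).  Choose `T1`, `w1` with `Node (s T1).1 t w1`, `On A w1` and `|w1|`
maximal.  Let `j > (s T1).2.length` be as in `hinf`.  Consider the statement
`S(T)`: there are `L R z κ0` with `κ0.length = j`, `some (L, R, z) :: κ0 <:+ (s T).2`,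
`Sum.inl t ∈ L`.  `S(T1)` fails (the stack is too short), and `S(T)` holds for large `T`.  Let `T ≥ T1`
be such that `S(T)` fails and `S(T + 1)` holds.  The step at `T` is an action.  If the suffix
`some (L, R, z) :: κ0` of `(s (T + 1)).2` is also a suffix of `(s T).2`, then `S(T)`: contradiction; so
it is the whole stack at `T + 1`, and the action is `new` (but then `L = []`), or an action at this
agent: `sat` (no), `rst` (`L = []`), `fak` (`L = []`), `skp` (then `Sum.inl t` was in the old `L`), or
`imp` with a tree `t'`: if `t' ≠ t`, then `Sum.inl t` was in the old `L`; so `t' = t`, and by `AllowX`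
(`Prot (Wv L' (Sum.inl t :: R')) = Prot R'.reverse ++ t :: Prot L'`) `WF (s T).1 t (Prot L') y w z`,
`On A w`.  Now `w1` is a node of `t` in `(s T).1` (`run_pre`, `Node_mono`), `On A w1`, and `On A y`
(`y <+: w`), so `w1`, `y` are comparable; `y <+: w1`, `y ≠ w1` contradicts `WF` by `TI.inner`
(invariant of the agent at time `T`); so `w1 <+: y`, `y <+: w`, `y ≠ w`, so `|w1| < |w|`; `w` is a
node at time `T + 1`: contradiction to the maximality.
-/

set_option autoImplicit false

namespace Pool.Agent.KAP

open Encodable Pool.Agent.H19 Pool.Agent.H24P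

private theorem on_prefix {A : ℕ → Bool} {y w : Str} (h : y <+: w) (hw : On A w) : On A y := by
  unfold On at *
  have h1 : y <+: pre A w.length := by rw [hw]; exact h
  have h2 : y.length ≤ w.length := h.length_le
  have h3 := List.prefix_iff_eq_take.1 h1
  rw [pre_take A h2] at h3
  exact h3.symm

private theorem on_comp {A : ℕ → Bool} {y w : Str} (hy : On A y) (hw : On A w)
    (hl : y.length ≤ w.length) : y <+: w := by
  unfold On at *
  rw [← hy, ← hw]
  exact pre_mono A hl

private theorem stp_grow {X : ℕ → ℕ → ℕ → Bool} {A : ℕ → Bool} {T : ℕ} {s1 s2 : State}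
    {a : Act} (h : Stp X A T s1 a s2) (hI : Inv A s1) {t : Tree} {j : ℕ}
    {L R : List Coord} {z : Option Str} {κ0 : List Agt} (hj : κ0.length = j)
    (h2 : some (L, R, z) :: κ0 <:+ s2.2) (ht : Sum.inl t ∈ L)
    (hn : ∀ (L R : List Coord) (z : Option Str) (κ0 : List Agt), κ0.length = j →
      some (L, R, z) :: κ0 <:+ s1.2 → Sum.inl t ∉ L) {w1 : Str} (hw1 : Node s1.1 t w1)
    (hA : On A w1) : ∃ w, Node s2.1 t w ∧ On A w ∧ w1.length < w.length := by
  cases h with
  | new β ags i y0 hr hf hi hy hA' =>
    exfalso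
    rcases List.suffix_cons_iff.1 h2 with h3 | h3
    · simp only [List.cons.injEq, Option.some.injEq, Prod.mk.injEq] at h3
      rw [h3.1.1] at ht
      simp at ht
    · exact hn L R z κ0 hj h3 ht
  | sat β Y L' R' z' κ γ m b hr hγ hA' hm hb =>
    exfalso
    rcases List.suffix_cons_iff.1 h2 with h3 | h3
    · simp at h3
    · exact hn L R z κ0 hj
        (h3.trans ((List.suffix_cons _ _).trans (List.suffix_append _ _))) ht
  | rst β Y L' R' z' κ n hr hz hn' =>
    exfalso
    rcases List.suffix_cons_iff.1 h2 with h3 | h3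
    · simp only [List.cons.injEq, Option.some.injEq, Prod.mk.injEq] at h3
      rw [h3.1.1] at ht
      simp at ht
    · exact hn L R z κ0 hj
        (h3.trans ((List.suffix_cons _ _).trans (List.suffix_append _ _))) ht
  | imp β Y L' t' R' z0 κ y w z' hr ha hw hz =>
    rcases List.suffix_cons_iff.1 h2 with h3 | h3
    · simp only [List.cons.injEq, Option.some.injEq, Prod.mk.injEq] at h3
      obtain ⟨⟨hL, -, -⟩, hκ⟩ := h3
      have hs : some (L', Sum.inl t' :: R', some z0) :: κ <:+
          Y ++ some (L', Sum.inl t' :: R', some z0) :: κ := List.suffix_append _ _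
      have hnt : Sum.inl t ∉ L' := hn _ _ _ _ (by rw [← hκ]; exact hj) hs
      rw [hL] at ht
      have htt : t = t' := by
        rcases List.mem_cons.1 ht with h4 | h4
        · exact Sum.inl.inj h4
        · exact absurd h4 hnt
      subst htt
      have hP : Prot (Wv L' (Sum.inl t :: R')) = Prot R'.reverse ++ t :: Prot L' := by
        unfold Wv
        rw [Prot_append, List.reverse_cons, Prot_append, List.append_assoc]
        rfl
      have hWF := (ha.2 _ t _ hP rfl).1
      obtain ⟨hNy, hno, hyw, hyw', -⟩ := hWF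
      have hG := hI _ hs
      have hTI : TI β t (Prot L') := hG.2.1.tin _ _ _ hP
      have hAy : On A y := on_prefix hyw hw
      have hlt : y.length < w.length := by
        rcases Nat.lt_or_ge y.length w.length with h5 | h5
        · exact h5
        · exact absurd (hyw.eq_of_length (le_antisymm hyw.length_le h5)) hyw'
      refine ⟨w, Or.inr ⟨y, w, z', by simp, Or.inl rfl⟩, hw, ?_⟩
      rcases Nat.lt_or_ge y.length w1.length with h5 | h5
      · exfalso
        obtain ⟨u, v, huv, -⟩ := hTI.inner y w1 hNy hw1 (on_comp hAy hA h5.le)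
          (fun h6 => by rw [h6] at h5; exact lt_irrefl _ h5)
        exact hno u v huv
      · omega
    · exfalso
      exact hn L R z κ0 hj
        (h3.trans ((List.suffix_cons _ _).trans (List.suffix_append _ _))) ht
  | fak β Y R' κ z' hr hz hX =>
    exfalso
    rcases List.suffix_cons_iff.1 h2 with h3 | h3
    · simp only [List.cons.injEq, Option.some.injEq, Prod.mk.injEq] at h3
      rw [h3.1.1] at ht
      simp at ht
    · exact hn L R z κ0 hj
        (h3.trans ((List.suffix_cons _ _).trans (List.suffix_append _ _))) ht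
  | skp β Y L' l R' z' κ hr =>
    exfalso
    rcases List.suffix_cons_iff.1 h2 with h3 | h3
    · simp only [List.cons.injEq, Option.some.injEq, Prod.mk.injEq] at h3
      obtain ⟨⟨hL, -, -⟩, hκ⟩ := h3
      rw [hL] at ht
      have hnt : Sum.inl t ∉ L' := hn _ _ _ _ (by rw [← hκ]; exact hj)
        (List.suffix_append _ _)
      rcases List.mem_cons.1 ht with h4 | h4
      · simp at h4
      · exact hnt h4
    · exact hn L R z κ0 hj
        (h3.trans ((List.suffix_cons _ _).trans (List.suffix_append _ _))) ht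

theorem growth {X : ℕ → ℕ → ℕ → Bool} {A : ℕ → Bool} {s : ℕ → State} {κ : ℕ → List Agt}
    {B : ℕ → Sym} (h : Run X A s) (hl : Lim X A s κ B) {t : Tree}
    (hinf : ∀ n, ∃ j, n ≤ j ∧ ∃ L R z, κ (j + 1) = some (L, R, z) :: κ j ∧ Sum.inl t ∈ L)
    (n : ℕ) : ∃ T w, Node (s T).1 t w ∧ On A w ∧ n ≤ w.length := by
  classical
  induction n with
  | zero =>
    obtain ⟨j, -, L, R, z, hk, ht⟩ := hinf 0
    obtain ⟨t0, ht0⟩ := hl.stb (j + 1)
    have h1 := (ht0 t0 le_rfl).1
    rw [hk] at h1
    have h2 := run_inv h t0 _ h1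
    have h3 := h2.2.1.root t (mem_Prot.2 (by unfold Wv; exact List.mem_append_right _ ht))
    exact ⟨t0, rt t, Or.inl rfl, h3, Nat.zero_le _⟩
  | succ n ih =>
    obtain ⟨T1, w1, hw1, hA1, hn1⟩ := ih
    obtain ⟨j, hj, L, R, z, hk, ht⟩ := hinf (s T1).2.length
    obtain ⟨t0, ht0⟩ := hl.stb (j + 1)
    let S : ℕ → Prop := fun T => ∃ (L R : List Coord) (z : Option Str) (κ0 : List Agt),
      κ0.length = j ∧ some (L, R, z) :: κ0 <:+ (s T).2 ∧ Sum.inl t ∈ L
    have hex : ∃ T, T1 ≤ T ∧ S T := by
      refine ⟨max T1 t0, le_max_left _ _, L, R, z, κ j, hl.len j, ?_, ht⟩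
      rw [← hk]
      exact (ht0 _ (le_max_right _ _)).1
    have hnot : ¬ S T1 := by
      rintro ⟨L', R', z', κ0, h1, h2, -⟩
      have h3 := h2.length_le
      simp only [List.length_cons] at h3
      omega
    have hfs := Nat.find_spec hex
    have hfm := fun m => @Nat.find_min _ _ hex m
    generalize Nat.find hex = T2 at hfs hfm
    obtain ⟨hT, hS⟩ := hfs
    have hne : T2 ≠ T1 := by
      rintro rfl
      exact hnot hS
    obtain ⟨T, rfl⟩ : ∃ T, T2 = T + 1 := ⟨T2 - 1, by omega⟩
    have hTT : T1 ≤ T := by omega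
    have hnS : ¬ S T := fun h1 => hfm T (Nat.lt_succ_self T) ⟨hTT, h1⟩
    rcases h.seq T with h1 | ⟨a, h1⟩
    · exfalso
      apply hnS
      obtain ⟨L', R', z', κ0, h2, h3, h4⟩ := hS
      rw [h1] at h3
      exact ⟨L', R', z', κ0, h2, h3, h4⟩
    · obtain ⟨L', R', z', κ0, h2, h3, h4⟩ := hS
      have hw1' : Node (s T).1 t w1 := by
        obtain ⟨γ, hγ⟩ := run_pre h hTT
        rw [← hγ]
        exact Node_mono hw1
      obtain ⟨w, hw, hAw, hlt⟩ := stp_grow h1 (run_inv h T) h2 h3 h4
        (fun L R z κ0 h5 h6 h7 => hnS ⟨L, R, z, κ0, h5, h6, h7⟩) hw1' hA1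
      exact ⟨T + 1, w, hw, hAw, by omega⟩

end Pool.Agent.KAP
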