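import Mathlib
import Pool.Agent.KAP.KB
import Pool.Agent.KAP.GR

/-!
KAP, module SC. A coordinate which is finally a tree.
Proof.  By `hinf` take `j` with `κ (j + 1) = some (L, R, z) :: κ j`, `Sum.inl t ∈ L`, and `t0` from which
on `κ (j + 1)` is stable; by `run_inv`, for `T ≥ t0`, `GoodV A (s T).1 (Wv L R)` and
`t ∈ Prot (Wv L R)`, so `t` is well formed at `T` (`TI`), events on it do not exclude `A`, and its root
is on `A`.  Let `On'` be the least set of strings which contains `rt t` and contains `w` if for some `n`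
`y` `v`: `ev (tid t) y w v ∈ pr B n` or `ev (tid t) y v w ∈ pr B n`, `y ∈ On'`, and
`Phi (tf t) v m = some b` with `C m = !b` for some `m`, `b`.  (Use `Der` and `Sg.der` of
Pool/Agent/H24P/Rec.lean: rules `J l w`.)  `w ∈ On'` implies `On A w`: the root, and in the second
case `On A y` gives `On A w` or `On A v`, and `On A v` is impossible by `hC` and `Phi_mono`.
Conversely, if `Node (s T).1 t w`, `On A w`, `T ≥ t0`, then `w ∈ On'`, by strong induction on
`|w|`: `w = rt t`, or there is an event `(y, u, v)` with `w ∈ {u, v}`; `y` is a node, `y <+: w`,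
`y ≠ w` (`TI.memb`), so `On A y` and `y ∈ On'`; `Split (tf t) u v` gives `m`, `b`, and the value for
the string in `{u, v}` which is on `A` is `C m`.  By `growth` there are arbitrarily long such `w`.  So
`A n = b` iff there is `w ∈ On'` with `w[n]? = some b`, which is `Sg D`.
-/

set_option autoImplicit false

namespace Pool.Agent.KAP

open Encodable Pool.Agent.H19 Pool.Agent.H24P

theorem SC_mem_Prot {t : Tree} {V : List Coord} (h : Sum.inl t ∈ V) : t ∈ Prot V := by
  induction V with
  | nil => simp at h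
  | cons c V ih =>
    cases c with
    | inl t' =>
      simp only [Prot, List.mem_cons] at h ⊢
      rcases h with h | h
      · exact Or.inl (Sum.inl.inj h)
      · exact Or.inr (ih h)
    | inr l =>
      simp only [Prot, List.mem_cons] at h ⊢
      rcases h with h | h
      · exact absurd h (by simp)
      · exact ih h

theorem SC_on_pre {A : ℕ → Bool} {y w : Str} (h : y <+: w) (hw : On A w) : On A y := by
  unfold On at hw ⊢
  have h1 : y <+: pre A w.length := by rw [hw]; exact h
  exact ((prefix_pre_iff A).1 h1).2.symm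

theorem SC_val {A C : ℕ → Bool} {e : ℕ} (hC : ∀ m, ∃ n, Phi e (pre A n) m = some (C m))
    {v : Str} (hv : On A v) {m : ℕ} {b : Bool} (h : Phi e v m = some b) : C m = b := by
  obtain ⟨n, hn⟩ := hC m
  have h1 : Phi e (pre A (max n v.length)) m = some (C m) :=
    Phi_mono (pre_mono A (le_max_left _ _)) hn
  have h2 : Phi e (pre A (max n v.length)) m = some b := by
    refine Phi_mono (pre_mono A (le_max_right n v.length)) ?_
    rw [hv]
    exact h
  rw [h1] at h2
  exact Option.some.inj h2

/-- The rules for the strings on `A`. -/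
def SC_J (B : ℕ → Sym) (C : ℕ → Bool) (t : Tree) (l : List Str) (w : Str) : Prop :=
  w = rt t ∨ ∃ x : Str × Str × ℕ × ℕ × Bool, l = [x.1] ∧
    (ev (tid t) x.1 w x.2.1 ∈ pr B x.2.2.1 ∨ ev (tid t) x.1 x.2.1 w ∈ pr B x.2.2.1) ∧
    Phi (tf t) x.2.1 x.2.2.2.1 = some x.2.2.2.2 ∧ C x.2.2.2.1 = !x.2.2.2.2

theorem SC_sg {B : ℕ → Sym} {C D : ℕ → Bool} (t : Tree) (hD1 : Ar D (gr B)) (hD2 : Ar D C) :
    Sg D (fun p : List Str × Str => SC_J B C t p.1 p.2) := by
  have hev : Computable (fun p : (Str × Str) × Str => ev (tid t) p.1.1 p.1.2 p.2) := by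
    refine Computable.sumInl.comp ?_
    exact (Computable.const (tid t)).pair ((Computable.fst.comp Computable.fst).pair
      ((Computable.snd.comp Computable.fst).pair Computable.snd))
  have hmem : Sg D (fun p : Sym × ℕ => p.1 ∈ pr B p.2) := by
    have h1 : Sg (gr B) (fun p : Sym × List Sym => p.1 ∈ p.2) :=
      Sg.mem_list Computable.fst Computable.snd
    exact (h1.subst (Cp.fst.pair ((Cp.pr (cp_gr B)).comp Cp.snd))).trans hD1
  have hC : Sg D (fun p : ℕ × Bool => C p.1 = !p.2) :=
    sg_eq_of_cp ((Ar.cp hD2).comp Cp.fst) (Cp.of_computable (comp_not Computable.snd))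
  have hPhi : Computable (fun p : Str × ℕ => Phi (tf t) p.1 p.2) :=
    Phi_computable.comp ((Computable.const (tf t)).pair (Computable.fst.pair Computable.snd))
  refine Sg.or (Sg.eq_comp Computable.snd (Computable.const (rt t))) ?_
  refine Sg.ex (Q := fun (p : List Str × Str) (x : Str × Str × ℕ × ℕ × Bool) => p.1 = [x.1] ∧
    (ev (tid t) x.1 p.2 x.2.1 ∈ pr B x.2.2.1 ∨ ev (tid t) x.1 x.2.1 p.2 ∈ pr B x.2.2.1) ∧
    Phi (tf t) x.2.1 x.2.2.2.1 = some x.2.2.2.2 ∧ C x.2.2.2.1 = !x.2.2.2.2) ?_
  have c1 : Computable (fun q : (List Str × Str) × (Str × Str × ℕ × ℕ × Bool) => q.1.1) :=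
    Computable.fst.comp Computable.fst
  have c2 : Computable (fun q : (List Str × Str) × (Str × Str × ℕ × ℕ × Bool) => q.1.2) :=
    Computable.snd.comp Computable.fst
  have c3 : Computable (fun q : (List Str × Str) × (Str × Str × ℕ × ℕ × Bool) => q.2.1) :=
    Computable.fst.comp Computable.snd
  have c4 : Computable (fun q : (List Str × Str) × (Str × Str × ℕ × ℕ × Bool) => q.2.2.1) :=
    Computable.fst.comp (Computable.snd.comp Computable.snd)
  have c5 : Computable (fun q : (List Str × Str) × (Str × Str × ℕ × ℕ × Bool) => q.2.2.2.1) :=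
    Computable.fst.comp (Computable.snd.comp (Computable.snd.comp Computable.snd))
  have c6 : Computable (fun q : (List Str × Str) × (Str × Str × ℕ × ℕ × Bool) => q.2.2.2.2.1) :=
    Computable.fst.comp (Computable.snd.comp (Computable.snd.comp
      (Computable.snd.comp Computable.snd)))
  have c7 : Computable (fun q : (List Str × Str) × (Str × Str × ℕ × ℕ × Bool) => q.2.2.2.2.2) :=
    Computable.snd.comp (Computable.snd.comp (Computable.snd.comp
      (Computable.snd.comp Computable.snd)))
  refine Sg.and (Sg.eq_comp c1 (Computable.list_cons.comp c3 (Computable.const []))) ?_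
  refine Sg.and (Sg.or ?_ ?_) (Sg.and ?_ ?_)
  · have h1 : Computable (fun q : (List Str × Str) × (Str × Str × ℕ × ℕ × Bool) =>
      (ev (tid t) q.2.1 q.1.2 q.2.2.1, q.2.2.2.1)) := (hev.comp ((c3.pair c2).pair c4)).pair c5
    exact Sg.comp (P := fun p : Sym × ℕ => p.1 ∈ pr B p.2) hmem h1
  · have h1 : Computable (fun q : (List Str × Str) × (Str × Str × ℕ × ℕ × Bool) =>
      (ev (tid t) q.2.1 q.2.2.1 q.1.2, q.2.2.2.1)) := (hev.comp ((c3.pair c4).pair c2)).pair c5
    exact Sg.comp (P := fun p : Sym × ℕ => p.1 ∈ pr B p.2) hmem h1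
  · have h1 : Computable (fun q : (List Str × Str) × (Str × Str × ℕ × ℕ × Bool) =>
      (q.2.2.1, q.2.2.2.2.1)) := c4.pair c6
    have h2 : Computable (fun q : (List Str × Str) × (Str × Str × ℕ × ℕ × Bool) =>
      Phi (tf t) q.2.2.1 q.2.2.2.2.1) :=
      Computable.comp (f := fun p : Str × ℕ => Phi (tf t) p.1 p.2)
        (g := fun q : (List Str × Str) × (Str × Str × ℕ × ℕ × Bool) =>
          (q.2.2.1, q.2.2.2.2.1)) hPhi h1
    have h3 : Computable (fun q : (List Str × Str) × (Str × Str × ℕ × ℕ × Bool) =>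
      some q.2.2.2.2.2) := Computable.option_some.comp c7
    exact Sg.eq_comp h2 h3
  · have h1 : Computable (fun q : (List Str × Str) × (Str × Str × ℕ × ℕ × Bool) =>
      (q.2.2.2.2.1, q.2.2.2.2.2)) := c6.pair c7
    exact Sg.comp (P := fun p : ℕ × Bool => C p.1 = !p.2) hC h1

theorem S_case {X : ℕ → ℕ → ℕ → Bool} {A : ℕ → Bool} {s : ℕ → State} {κ : ℕ → List Agt}
    {B : ℕ → Sym} (h : Run X A s) (hl : Lim X A s κ B) {t : Tree}
    (hinf : ∀ n, ∃ j, n ≤ j ∧ ∃ L R z, κ (j + 1) = some (L, R, z) :: κ j ∧ Sum.inl t ∈ L)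
    {C : ℕ → Bool} (hC : ∀ m, ∃ n, Phi (tf t) (pre A n) m = some (C m))
    {D : ℕ → Bool} (hD1 : Ar D (gr B)) (hD2 : Ar D C) : Ar D A := by
  obtain ⟨j, _, L, R, z, hj, htL⟩ := hinf 0
  obtain ⟨t0, ht0⟩ := hl.stb (j + 1)
  have hG : ∀ T, t0 ≤ T → GoodV A (s T).1 (Wv L R) := by
    intro T hT
    have h1 := (ht0 T hT).1
    have h2 := run_inv h T (κ (j + 1)) h1
    rw [hj] at h2
    exact h2.2.1
  have htP : t ∈ Prot (Wv L R) := SC_mem_Prot (List.mem_append.2 (Or.inr htL))
  obtain ⟨P1, P2, hP⟩ := List.append_of_mem htP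
  have hroot : On A (rt t) := (hG t0 le_rfl).root t htP
  have hTI : ∀ T, t0 ≤ T → TI (s T).1 t P2 := fun T hT => (hG T hT).tin P1 t P2 hP
  -- events in `B` are events at late times
  have hBs : ∀ n, ∃ T, t0 ≤ T ∧ pr B n <+: (s T).1 := by
    intro n
    obtain ⟨T', hT'⟩ := hl.unb n
    refine ⟨max t0 T', le_max_left _ _, ?_⟩
    have h1 : (s T').1 <+: (s (max t0 T')).1 := run_pre h (le_max_right _ _)
    have h2 : pr B n <+: (s T').1 := by
      have h3 := pr_mono B hT'
      rw [hl.seg] at h3
      exact h3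
    exact h2.trans h1
  have hsound : ∀ w, Der (SC_J B C t) w → On A w := by
    intro w hw
    induction hw with
    | mk l e hx hJ ih =>
      rcases hJ with h1 | ⟨x, h1, h2, h3, h4⟩
      · rw [h1]; exact hroot
      · have hy : On A x.1 := ih x.1 (by rw [h1]; simp)
        have hno : ¬ On A x.2.1 := by
          intro h5
          have h6 := SC_val hC h5 h3
          rw [h6] at h4
          cases hb : x.2.2.2.2 <;> simp [hb] at h4
        obtain ⟨T, hT, hpre⟩ := hBs x.2.2.1
        rcases h2 with h2 | h2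
        · rcases (hG T hT).nxa t htP _ _ _ (hpre.subset h2) hy with h5 | h5
          · exact h5
          · exact absurd h5 hno
        · rcases (hG T hT).nxa t htP _ _ _ (hpre.subset h2) hy with h5 | h5
          · exact absurd h5 hno
          · exact h5
  have hcomp : ∀ k T w, t0 ≤ T → Node (s T).1 t w → On A w → w.length < k →
      Der (SC_J B C t) w := by
    intro k
    induction k with
    | zero => intro T w _ _ _ h1; exact absurd h1 (Nat.not_lt_zero _)
    | succ k ih =>
      intro T w hT hw hA hlen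
      rcases hw with h1 | ⟨y0, u, v, h1, h2⟩
      · exact Der.mk [] w (by simp) (Or.inl h1)
      · obtain ⟨m1, m2, m3, m4, m5, m6, m7, m, b, m8, m9⟩ := (hTI T hT).memb y0 u v h1
        have hseg : ev (tid t) y0 u v ∈ pr B (s T).1.length := by rw [hl.seg]; exact h1
        have hlt : ∀ u' : Str, y0 <+: u' → y0 ≠ u' → y0.length < u'.length := by
          intro u' h3 h4
          rcases Nat.lt_or_ge y0.length u'.length with h5 | h5
          · exact h5
          · exact absurd (h3.eq_of_length_le h5) h4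
        rcases h2 with rfl | rfl
        · have hy : On A y0 := SC_on_pre m4 hA
          have h3 := hlt w m4 m5
          have h4 : Der (SC_J B C t) y0 := ih T y0 hT m1 hy (by omega)
          refine Der.mk [y0] w (by simpa using h4) (Or.inr ⟨(y0, v, (s T).1.length, m, !b), rfl,
            Or.inl hseg, m9, ?_⟩)
          show C m = !(!b)
          rw [SC_val hC hA m8, Bool.not_not]
        · have hy : On A y0 := SC_on_pre m6 hA
          have h3 := hlt w m6 m7
          have h4 : Der (SC_J B C t) y0 := ih T y0 hT m1 hy (by omega)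
          refine Der.mk [y0] w (by simpa using h4) (Or.inr ⟨(y0, u, (s T).1.length, m, b), rfl,
            Or.inr hseg, m8, ?_⟩)
          exact SC_val hC hA m9
  have hlong : ∀ n, ∃ w, Der (SC_J B C t) w ∧ n < w.length := by
    intro n
    obtain ⟨T, w, h1, h2, h3⟩ := growth h hl hinf (n + 1)
    obtain ⟨γ, hγ⟩ := run_pre h (le_max_right t0 T)
    refine ⟨w, hcomp (w.length + 1) (max t0 T) w (le_max_left _ _) ?_ h2 (Nat.lt_succ_self _), h3⟩
    rw [← hγ]
    exact Node_mono h1
  have hkey : ∀ n b, (A n = b ↔ ∃ w : Str, Der (SC_J B C t) w ∧ w[n]? = some b) := by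
    intro n b
    have hval : ∀ w : Str, On A w → n < w.length → w[n]? = some (A n) := by
      intro w hw hn
      rw [← hw]
      exact pre_getElem? A hn
    constructor
    · intro h1
      obtain ⟨w, hw, hn⟩ := hlong n
      exact ⟨w, hw, by rw [hval w (hsound w hw) hn, h1]⟩
    · rintro ⟨w, hw, hn⟩
      have h2 : n < w.length := (List.getElem?_eq_some_iff.1 hn).1
      rw [hval w (hsound w hw) h2] at hn
      exact Option.some.inj hn
  have hder : Sg D (Der (SC_J B C t)) := Sg.der (SC_sg t hD1 hD2)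
  have hfin : ∀ b : Bool, Sg D (fun n => A n = b) := by
    intro b
    refine Sg.congr (Sg.ex (Q := fun (n : ℕ) (w : Str) => Der (SC_J B C t) w ∧ w[n]? = some b) ?_)
      fun n => (hkey n b).symm
    refine Sg.and (hder.comp Computable.snd) ?_
    exact Sg.eq_comp (Computable.list_getElem?.comp Computable.snd Computable.fst)
      (Computable.const (some b))
  exact ⟨hfin true, hfin false⟩

end Pool.Agent.KAP
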