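import Mathlib
import Pool.Agent.KAP.Defs

/-!
KAP, module VL. The limit of the vectors (a lemma on lists).
Proof.  Facts: for `ag j = none`, `V (j + 1) = V j`; for `ag j = some (L, R)`:
`R.reverse ++ L = Sum.inl tn :: V j`, and `V (j + 1)` is `L = Sum.inl tn :: V j` if `R = []` and
`Sum.inr (ids R) :: L` if `R ≠ []`.  Two suffixes of the same list are comparable by length
(`List.suffix_of_suffix_length_le`).
Step 1.  For all `e` there is `J` such that for `j ≥ J`, `ag j = some (L, R)`, `R ≠ []`:
`e ≤ L.length`.  Induction on `e`.  Let `J` be as for `e`.  If no `j ≥ J` has `ag j = some (L, R)`,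
`R ≠ []`, `L.length = e`, done.  Otherwise let `j0`, `L0`, `R0` be such, and `U = Sum.inr (ids R0) :: L0`.
For all `j > j0`: `U <:+ V j`.  Indeed `V (j0 + 1) = U`.  Let `U <:+ V j`.  `ag j = none`: clear.
`ag j = some (L, R)`: `U <:+ R.reverse ++ L`.  If `R = []`, `V (j + 1) = L` has suffix `V j`.  If
`R ≠ []`: `e ≤ L.length`, and `L.length = e` is impossible: `U` has length `e + 1`, so it would be
`x :: L` where `x` is the last element of `R.reverse`, the head of `R`, so `R = Sum.inr _ :: _`, against
`hsk`.  So `U.length ≤ L.length`, `U <:+ L <:+ V (j + 1)`.  The same argument shows that there is no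
`j > j0` with `ag j = some (L, R)`, `R ≠ []`, `L.length = e`.  So `J' = j0 + 1` works for `e + 1`.
Step 2.  Let `J` be as in step 1 for `e + 1`.  There is `J2 ≥ J` with `e + 1 ≤ (V j).length` for
`j ≥ J2`: `(V j).length ≥ min (e + 1) (..)` never drops below `m ≤ e + 1` once it is `≥ m` (for `R = []`
it increases by one, for `R ≠ []` it becomes at least `e + 2`), and there are infinitely many `j` with
`ag j ≠ none`.  Let `U` be the suffix of length `e + 1` of `V J2`; then `U <:+ V j` for all `j ≥ J2`
(as in step 1).  Write `U = c :: U'`, `U'.length = e`.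
Case `c = Sum.inl t`: first alternative: for `j ≥ J2`, `ag j = some (L, R)`:
`U <:+ R.reverse ++ L`; by `hidx`, `tf t = U'.length = e`; if `R = []`, `L = Sum.inl tn :: V j`
contains `Sum.inl t`; if `R ≠ []`, `e + 1 ≤ L.length`, so `U <:+ L`.
Case `c = Sum.inr l`.  Origin lemma, by induction on `j`: if `Sum.inr l :: U' <:+ V j` then there is
`k < j` with `ag k = some (U', R)`, `R ≠ []` and `Sum.inr l :: U' <:+ V i` for all `k < i ≤ j`.  (For
`j + 1`, `ag j = some (L, R)`: if `R = []` then `Sum.inr l :: U' <:+ Sum.inl tn :: V j` so it is a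
suffix of `V j`.  If `R ≠ []`, `Sum.inr l :: U' <:+ Sum.inr (ids R) :: L`; either it is equal, and
`k = j`; or it is a suffix of `L`, hence of `Sum.inl tn :: V j`, hence of `V j`.)  Apply it with
`j = J2`.  By `hsk` the head of `R` is a tree, `R = Sum.inl t :: R'`, and `tf t = U'.length = e` by
`hidx` (`(Sum.inl t :: R').reverse ++ U' = R'.reverse ++ Sum.inl t :: U'`).  Let `j > k`,
`ag j = some (L', R'')`: `U <:+ V j` and `U <:+ V (j + 1)`.  If `R'' = []`, `L' = Sum.inl tn :: V j` has
suffix `U'`.  If `R'' ≠ []`, `c :: U' <:+ Sum.inr (ids R'') :: L'`, so `U' <:+ L'`.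
-/

set_option autoImplicit false

namespace Pool.Agent.KAP

open Encodable Pool.Agent.H19 Pool.Agent.H24P

/-- VL: a suffix which is not too long is preserved. -/
theorem VL_keep {ag : ℕ → Option (List Coord × List Coord)} {V : ℕ → List Coord}
    (ha : ∀ j L R, ag j = some (L, R) → (∃ tn, R.reverse ++ L = Sum.inl tn :: V j) ∧
      V (j + 1) = vout L R) {j : ℕ} {L R U : List Coord} (hj : ag j = some (L, R))
    (hU : U <:+ V j) (hR : R ≠ [] → U.length ≤ L.length) : U <:+ L ∧ U <:+ V (j + 1) := by
  obtain ⟨⟨tn, h1⟩, h2⟩ := ha j L R hj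
  by_cases hR0 : R = []
  · subst hR0
    have h3 : L = Sum.inl tn :: V j := by simpa using h1
    have h4 : U <:+ L := by rw [h3]; exact hU.trans (List.suffix_cons _ _)
    refine ⟨h4, ?_⟩
    rw [h2, vout, if_pos rfl]; exact h4
  · have h3 : U <:+ R.reverse ++ L := by rw [h1]; exact hU.trans (List.suffix_cons _ _)
    have h4 : U <:+ L := List.suffix_of_suffix_length_le h3 (List.suffix_append _ _) (hR hR0)
    refine ⟨h4, ?_⟩
    rw [h2, vout, if_neg hR0]; exact h4.trans (List.suffix_cons _ _)

/-- VL: the key step, using that lists of identifiers are skipped. -/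
theorem VL_core {ag : ℕ → Option (List Coord × List Coord)} {V : ℕ → List Coord}
    (ha : ∀ j L R, ag j = some (L, R) → (∃ tn, R.reverse ++ L = Sum.inl tn :: V j) ∧
      V (j + 1) = vout L R)
    (hsk : ∀ j L R, ag j = some (L, R) → ∀ l R', R ≠ Sum.inr l :: R')
    {j : ℕ} {L R U' : List Coord} {l : List ℕ} (hj : ag j = some (L, R))
    (hU : Sum.inr l :: U' <:+ V j) (hR : R ≠ []) (hl : U'.length ≤ L.length) :
    Sum.inr l :: U' <:+ L := by
  obtain ⟨⟨tn, h1⟩, h2⟩ := ha j L R hj
  have h3 : Sum.inr l :: U' <:+ R.reverse ++ L := by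
    rw [h1]; exact hU.trans (List.suffix_cons _ _)
  by_cases h4 : (Sum.inr l :: U' : List Coord).length ≤ L.length
  · exact List.suffix_of_suffix_length_le h3 (List.suffix_append _ _) h4
  · exfalso
    have h5 : L.length = U'.length := by
      simp only [List.length_cons] at h4; omega
    have h6 : L <:+ Sum.inr l :: U' :=
      List.suffix_of_suffix_length_le (List.suffix_append _ _) h3 (by
        simp only [List.length_cons]; omega)
    have h7 : L = U' := by
      rcases List.suffix_cons_iff.1 h6 with h | h
      · rw [h] at h5; simp at h5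
      · exact h.eq_of_length h5
    subst h7
    obtain ⟨W, hW⟩ := h3
    have h8 : W ++ [Sum.inr l] = R.reverse := by
      have : (W ++ [Sum.inr l]) ++ L = R.reverse ++ L := by simpa using hW
      exact List.append_cancel_right this
    have h9 : R = Sum.inr l :: W.reverse := by
      have := congrArg List.reverse h8
      simpa using this.symm
    exact hsk j L R hj l _ h9

theorem VL_step1 {ag : ℕ → Option (List Coord × List Coord)} {V : ℕ → List Coord}
    (hn : ∀ j, ag j = none → V (j + 1) = V j)
    (ha : ∀ j L R, ag j = some (L, R) → (∃ tn, R.reverse ++ L = Sum.inl tn :: V j) ∧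
      V (j + 1) = vout L R)
    (hsk : ∀ j L R, ag j = some (L, R) → ∀ l R', R ≠ Sum.inr l :: R') (e : ℕ) :
    ∃ J, ∀ j, J ≤ j → ∀ L R, ag j = some (L, R) → R ≠ [] → e ≤ L.length := by
  induction e with
  | zero => exact ⟨0, fun _ _ _ _ _ _ => Nat.zero_le _⟩
  | succ e ih =>
    obtain ⟨J, hJ⟩ := ih
    by_cases hex : ∃ j0, J ≤ j0 ∧ ∃ L R, ag j0 = some (L, R) ∧ R ≠ [] ∧ L.length = e
    · obtain ⟨j0, hj0, L0, R0, h1, h2, h3⟩ := hex
      have hV : V (j0 + 1) = Sum.inr (ids R0) :: L0 := by
        rw [(ha j0 L0 R0 h1).2, vout, if_neg h2]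
      have key : ∀ j, j0 + 1 ≤ j → (Sum.inr (ids R0) :: L0 : List Coord) <:+ V j := by
        intro j hj
        induction j, hj using Nat.le_induction with
        | base => rw [hV]
        | succ j hj ih2 =>
          rcases hag : ag j with _ | ⟨L, R⟩
          · rw [hn j hag]; exact ih2
          · by_cases hR : R = []
            · exact (VL_keep ha hag ih2 (fun h => absurd hR h)).2
            · have h4 := VL_core ha hsk hag ih2 hR (by
                rw [h3]; exact hJ j (by omega) L R hag hR)
              rw [(ha j L R hag).2, vout, if_neg hR]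
              exact h4.trans (List.suffix_cons _ _)
      refine ⟨j0 + 1, fun j hj L R hag hR => ?_⟩
      have h4 := VL_core ha hsk hag (key j hj) hR (by
        rw [h3]; exact hJ j (by omega) L R hag hR)
      have h5 := h4.length_le
      simp only [List.length_cons] at h5; omega
    · refine ⟨J, fun j hj L R hag hR => ?_⟩
      have h1 := hJ j hj L R hag hR
      have h2 : L.length ≠ e := fun h => hex ⟨j, hj, L, R, hag, hR, h⟩
      omega

theorem VL_origin {ag : ℕ → Option (List Coord × List Coord)} {V : ℕ → List Coord}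
    (h0 : V 0 = []) (hn : ∀ j, ag j = none → V (j + 1) = V j)
    (ha : ∀ j L R, ag j = some (L, R) → (∃ tn, R.reverse ++ L = Sum.inl tn :: V j) ∧
      V (j + 1) = vout L R) (l : List ℕ) (U' : List Coord) (j : ℕ)
    (hj : Sum.inr l :: U' <:+ V j) :
    ∃ k, k < j ∧ ∃ R, ag k = some (U', R) ∧ R ≠ [] ∧
      ∀ i, k < i → i ≤ j → Sum.inr l :: U' <:+ V i := by
  induction j with
  | zero =>
    rw [h0] at hj
    have := hj.length_le
    simp at this
  | succ j ih =>
    have next : Sum.inr l :: U' <:+ V j → ∃ k, k < j + 1 ∧ ∃ R, ag k = some (U', R) ∧ R ≠ [] ∧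
        ∀ i, k < i → i ≤ j + 1 → Sum.inr l :: U' <:+ V i := by
      intro h
      obtain ⟨k, hk, R, h1, h2, h3⟩ := ih h
      refine ⟨k, by omega, R, h1, h2, fun i hi hi' => ?_⟩
      rcases Nat.lt_or_ge j i with h4 | h4
      · have : i = j + 1 := by omega
        rw [this]; exact hj
      · exact h3 i hi h4
    rcases hag : ag j with _ | ⟨L, R⟩
    · exact next (by rw [hn j hag] at hj; exact hj)
    · obtain ⟨⟨tn, h1⟩, h2⟩ := ha j L R hag
      by_cases hR : R = []
      · subst hR
        have h3 : L = Sum.inl tn :: V j := by simpa using h1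
        rw [h2, vout, if_pos rfl, h3] at hj
        rcases List.suffix_cons_iff.1 hj with h | h
        · simp at h
        · exact next h
      · have hj' := hj
        rw [h2, vout, if_neg hR] at hj'
        rcases List.suffix_cons_iff.1 hj' with h | h
        · refine ⟨j, by omega, R, ?_, hR, fun i hi hi' => ?_⟩
          · rw [hag]
            have : U' = L := by
              have := (List.cons.inj h).2; exact this
            rw [this]
          · have : i = j + 1 := by omega
            rw [this]; exact hj
        · have h4 : Sum.inr l :: U' <:+ Sum.inl tn :: V j := by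
            rw [← h1]; exact h.trans (List.suffix_append _ _)
          rcases List.suffix_cons_iff.1 h4 with h5 | h5
          · simp at h5
          · exact next h5

theorem vec_limit (ag : ℕ → Option (List Coord × List Coord)) (V : ℕ → List Coord)
    (h0 : V 0 = []) (hn : ∀ j, ag j = none → V (j + 1) = V j)
    (ha : ∀ j L R, ag j = some (L, R) → (∃ tn, R.reverse ++ L = Sum.inl tn :: V j) ∧
      V (j + 1) = vout L R)
    (hsk : ∀ j L R, ag j = some (L, R) → ∀ l R', R ≠ Sum.inr l :: R')
    (hidx : ∀ j L R, ag j = some (L, R) → ∀ V1 t V2, R.reverse ++ L = V1 ++ Sum.inl t :: V2 →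
      tf t = V2.length)
    (hinf : ∀ n, ∃ j, n ≤ j ∧ ag j ≠ none) (e : ℕ) :
    (∃ t : Tree, tf t = e ∧ ∀ n, ∃ j, n ≤ j ∧ ∃ L R, ag j = some (L, R) ∧ Sum.inl t ∈ L) ∨
    (∃ k L t R', ag k = some (L, Sum.inl t :: R') ∧ tf t = e ∧
      ∀ j L' R'', k < j → ag j = some (L', R'') → L <:+ L') := by
  obtain ⟨J, hJ⟩ := VL_step1 hn ha hsk (e + 1)
  -- lengths
  have hpres : ∀ m, m ≤ e + 1 → ∀ j1, J ≤ j1 → m ≤ (V j1).length → ∀ j, j1 ≤ j →
      m ≤ (V j).length := by
    intro m hm j1 hj1 h1 j hj
    induction j, hj using Nat.le_induction with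
    | base => exact h1
    | succ j hj ih =>
      rcases hag : ag j with _ | ⟨L, R⟩
      · rw [hn j hag]; exact ih
      · obtain ⟨⟨tn, h2⟩, h3⟩ := ha j L R hag
        by_cases hR : R = []
        · subst hR
          have h4 : L = Sum.inl tn :: V j := by simpa using h2
          rw [h3, vout, if_pos rfl, h4]
          simp only [List.length_cons]; omega
        · rw [h3, vout, if_neg hR]
          have := hJ j (by omega) L R hag hR
          simp only [List.length_cons]; omega
  have hlen : ∀ m, m ≤ e + 1 → ∃ j1, J ≤ j1 ∧ m ≤ (V j1).length := by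
    intro m
    induction m with
    | zero => exact fun _ => ⟨J, le_rfl, Nat.zero_le _⟩
    | succ m ih =>
      intro hm
      obtain ⟨j1, hj1, h1⟩ := ih (by omega)
      obtain ⟨j, hj, hne⟩ := hinf j1
      have h2 := hpres m (by omega) j1 hj1 h1 j hj
      refine ⟨j + 1, by omega, ?_⟩
      rcases hag : ag j with _ | ⟨L, R⟩
      · exact absurd hag hne
      · obtain ⟨⟨tn, h3⟩, h4⟩ := ha j L R hag
        by_cases hR : R = []
        · subst hR
          have h5 : L = Sum.inl tn :: V j := by simpa using h3
          rw [h4, vout, if_pos rfl, h5]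
          simp only [List.length_cons]; omega
        · rw [h4, vout, if_neg hR]
          have := hJ j (by omega) L R hag hR
          simp only [List.length_cons]; omega
  obtain ⟨J2, hJ2, hlen2⟩ := hlen (e + 1) le_rfl
  obtain ⟨U, hUs, hUl⟩ : ∃ U : List Coord, U <:+ V J2 ∧ U.length = e + 1 :=
    ⟨(V J2).drop ((V J2).length - (e + 1)), List.drop_suffix _ _, by
      rw [List.length_drop]; omega⟩
  have hstab : ∀ j, J2 ≤ j → U <:+ V j := by
    intro j hj
    induction j, hj using Nat.le_induction with
    | base => exact hUs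
    | succ j hj ih =>
      rcases hag : ag j with _ | ⟨L, R⟩
      · rw [hn j hag]; exact ih
      · exact (VL_keep ha hag ih (fun hR => by
          rw [hUl]; exact hJ j (by omega) L R hag hR)).2
  obtain ⟨c, U', rfl⟩ : ∃ c U', U = c :: U' := by
    cases U with
    | nil => simp at hUl
    | cons c U' => exact ⟨c, U', rfl⟩
  have hUl' : U'.length = e := by simpa using hUl
  rcases c with t | l
  · left
    refine ⟨t, ?_, fun n => ?_⟩
    · obtain ⟨j, hj, hne⟩ := hinf J2
      rcases hag : ag j with _ | ⟨L, R⟩
      · exact absurd hag hne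
      · obtain ⟨⟨tn, h3⟩, h4⟩ := ha j L R hag
        have h5 : Sum.inl t :: U' <:+ R.reverse ++ L := by
          rw [h3]; exact (hstab j hj).trans (List.suffix_cons _ _)
        obtain ⟨W, hW⟩ := h5
        rw [← hUl']
        exact hidx j L R hag W t U' hW.symm
    · obtain ⟨j, hj, hne⟩ := hinf (max n J2)
      have hj1 : n ≤ j := le_trans (le_max_left _ _) hj
      have hj2 : J2 ≤ j := le_trans (le_max_right _ _) hj
      rcases hag : ag j with _ | ⟨L, R⟩
      · exact absurd hag hne
      · refine ⟨j, hj1, L, R, hag, ?_⟩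
        have h5 := (VL_keep ha hag (hstab j hj2) (fun hR => by
          rw [hUl]; exact hJ j (by omega) L R hag hR)).1
        exact h5.subset List.mem_cons_self
  · right
    obtain ⟨k, hk, R, h1, h2, h3⟩ := VL_origin h0 hn ha l U' J2 hUs
    obtain ⟨t, R', rfl⟩ : ∃ t R', R = Sum.inl t :: R' := by
      rcases R with _ | ⟨c, R'⟩
      · exact absurd rfl h2
      · rcases c with t | l'
        · exact ⟨t, R', rfl⟩
        · exact absurd rfl (hsk k U' _ h1 l' R')
    refine ⟨k, U', t, R', h1, ?_, ?_⟩
    · rw [← hUl']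
      exact hidx k U' _ h1 R'.reverse t U' (by simp)
    · have hall : ∀ i, k < i → Sum.inr l :: U' <:+ V i := by
        intro i hi
        rcases Nat.lt_or_ge J2 i with h4 | h4
        · exact hstab i (by omega)
        · exact h3 i hi h4
      intro j L' R'' hkj hag
      have h4 := hall j hkj
      have h5 := hall (j + 1) (by omega)
      have hU' : U' <:+ Sum.inr l :: U' := List.suffix_cons _ _
      obtain ⟨⟨tn, h6⟩, h7⟩ := ha j L' R'' hag
      by_cases hR : R'' = []
      · subst hR
        have h8 : L' = Sum.inl tn :: V j := by simpa using h6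
        rw [h8]
        exact (hU'.trans h4).trans (List.suffix_cons _ _)
      · rw [h7, vout, if_neg hR] at h5
        rcases List.suffix_cons_iff.1 h5 with h | h
        · have : U' = L' := (List.cons.inj h).2
          rw [this]
        · exact hU'.trans h

end Pool.Agent.KAP
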