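import Mathlib
import Pool.Agent.KAP.VL
import Pool.Agent.KAP.FA
import Pool.Agent.KAP.SC

/-!
KAP, module MC. The limit real is as required.
Proofs.  `ar_B`: `B n = a` iff `(s t).1[n]? = some a` for some `t` (`Lim.seg`, `Lim.unb`); then
`ar_gr`.  `cover`: by `Phi_complete` take `e` for `C`.  Apply `vec_limit` with
`ag j = some (L, R)` if `κ (j + 1) = some (L, R, z) :: κ j`, and `none` if `κ (j + 1) = none :: κ j`,
and `V j = Vof (κ j)`; the hypotheses: `ha`, `hidx` by `run_inv` at a time when `κ (j + 1)` is stable;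
`hsk`: if `κ (j + 1) = some (L, Sum.inr l :: R', z) :: κ j`, then `z = some _` (`Ready`), and the action
`skp` would be possible at all late times, be carried out (`Run.fair`) and change the agent;
`hinf`: `active_inf`.  First alternative: `S_case` with `D = C`.  Second: `F_case`, with `z = some _`
by `Ready`, and `hgrow`: if `Prot L = []`, `NTop` is trivial and `w = pre A n`; if
`Prot L = t1 :: _`, `growth` for `t1` (`Sum.inl t1 ∈ L <:+ L'` for all later active levels,
`active_inf`).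
-/

set_option autoImplicit false

namespace Pool.Agent.KAP

open Encodable Pool.Agent.H19 Pool.Agent.H24P

theorem ar_B {X : ℕ → ℕ → ℕ → Bool} {A : ℕ → Bool} {s : ℕ → State} {κ : ℕ → List Agt}
    {B : ℕ → Sym} (hs : Cp A s) (hl : Lim X A s κ B) : Ar A (gr B) := by
  refine ar_gr ?_
  have hc : Computable (fun x : State × ℕ => x.1.1[x.2]?) :=
    Computable.list_getElem?.comp (Computable.fst.comp Computable.fst) Computable.snd
  have h1 : Cp A (fun q : (ℕ × Sym) × ℕ => (s q.2, q.1.1)) :=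
    (hs.comp Cp.snd).pair (Cp.of_computable (Computable.fst.comp Computable.fst))
  have h2 : Cp A (fun q : (ℕ × Sym) × ℕ => (s q.2).1[q.1.1]?) :=
    Cp.comp (f := fun x : State × ℕ => x.1.1[x.2]?) (Cp.of_computable hc) h1
  have h3 : Cp A (fun q : (ℕ × Sym) × ℕ => some q.1.2) :=
    Cp.of_computable (Computable.option_some.comp (Computable.snd.comp Computable.fst))
  have h4 : Sg A (fun p : ℕ × Sym => ∃ t : ℕ, (s t).1[p.1]? = some p.2) :=
    Sg.ex (Q := fun (p : ℕ × Sym) (t : ℕ) => (s t).1[p.1]? = some p.2) (sg_eq_of_cp h2 h3)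
  refine h4.congr fun p => ?_
  obtain ⟨n, a⟩ := p
  have hval : ∀ t, n < (s t).1.length → (s t).1[n]? = some (B n) := by
    intro t ht
    rw [← hl.seg t]
    exact pr_getElem? B ht
  constructor
  · rintro ⟨t, ht⟩
    have ht' : (s t).1[n]? = some a := ht
    rw [hval t (List.getElem?_eq_some_iff.1 ht').1] at ht'
    exact Option.some.inj ht'
  · intro h5
    have h6 : B n = a := h5
    obtain ⟨t, ht⟩ := hl.unb (n + 1)
    refine ⟨t, ?_⟩
    show (s t).1[n]? = some a
    rw [hval t ht, h6]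

theorem MC_cons {X : ℕ → ℕ → ℕ → Bool} {A : ℕ → Bool} {s : ℕ → State} {κ : ℕ → List Agt}
    {B : ℕ → Sym} (hl : Lim X A s κ B) (j : ℕ) : ∃ a, κ (j + 1) = a :: κ j := by
  obtain ⟨Y, hY⟩ := hl.suf j
  have h1 := congrArg List.length hY
  rw [List.length_append, hl.len, hl.len] at h1
  have h2 : Y.length = 1 := by omega
  obtain ⟨a, ha⟩ := List.length_eq_one_iff.1 h2
  exact ⟨a, by rw [← hY, ha]; rfl⟩

/-- The vector of the last agent. -/
def MC_ag : List Agt → Option (List Coord × List Coord)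
  | some (L, R, _) :: _ => some (L, R)
  | _ => none

theorem MC_suf_eq {α : Type} {l1 l2 l : List α} (h1 : l1 <:+ l) (h2 : l2 <:+ l)
    (h : l1.length = l2.length) : l1 = l2 :=
  (List.suffix_of_suffix_length_le h1 h2 h.le).eq_of_length h

theorem MC_mem_of_Prot {t : Tree} {V : List Coord} (h : t ∈ Prot V) : Sum.inl t ∈ V := by
  induction V with
  | nil => simp [Prot] at h
  | cons c V ih =>
    cases c with
    | inl t' =>
      simp only [Prot, List.mem_cons] at h ⊢
      rcases h with h | h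
      · exact Or.inl (by rw [h])
      · exact Or.inr (ih h)
    | inr l =>
      simp only [Prot] at h
      exact List.mem_cons_of_mem _ (ih h)

theorem MC_ready {X : ℕ → ℕ → ℕ → Bool} {A : ℕ → Bool} {s : ℕ → State} {κ : ℕ → List Agt}
    {B : ℕ → Sym} (hl : Lim X A s κ B) {j : ℕ} {L R : List Coord} {z : Option Str}
    (hj : κ (j + 1) = some (L, R, z) :: κ j) : ∃ z', z = some z' := by
  obtain ⟨t0, ht0⟩ := hl.stb (j + 1)
  have h1 := (ht0 t0 le_rfl).2
  rw [hj] at h1
  exact Option.isSome_iff_exists.1 h1.2.1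

theorem MC_skp {X : ℕ → ℕ → ℕ → Bool} {A : ℕ → Bool} {s : ℕ → State} {κ : ℕ → List Agt}
    {B : ℕ → Sym} (h : Run X A s) (hl : Lim X A s κ B) {j : ℕ} {L R : List Coord} {l : List ℕ}
    {z : Str} (hj : κ (j + 1) = some (L, Sum.inr l :: R, some z) :: κ j) : False := by
  obtain ⟨t0, ht0⟩ := hl.stb (j + 1)
  have hposs : ∀ t, t0 ≤ t → ∃ s', Stp X A t (s t)
      (Sum.inr (Sum.inr (Sum.inr (Sum.inr (Sum.inr (κ j).length))))) s' := by
    intro t ht
    obtain ⟨⟨Y, hY⟩, h2⟩ := ht0 t ht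
    rw [hj] at hY h2
    have h3 := Stp.skp (X := X) (A := A) (t := t) (s t).1 Y L l R z (κ j) h2.1
    rw [hY] at h3
    exact ⟨_, h3⟩
  obtain ⟨t, ht, hst⟩ := h.fair _ t0 hposs
  have h1 := (ht0 t ht).1
  have h2 := (ht0 (t + 1) (by omega)).1
  rw [hj] at h1 h2
  generalize hs1 : s t = s1 at hst h1
  generalize hs2 : s (t + 1) = s2 at hst h2
  generalize ha : (Sum.inr (Sum.inr (Sum.inr (Sum.inr (Sum.inr (κ j).length)))) : Act) = a at hst
  cases hst with
  | new => simp at ha
  | sat => simp at ha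
  | rst => simp at ha
  | imp => simp at ha
  | fak => simp at ha
  | skp β Y L' l' R' z' κ' hr =>
    simp only [Sum.inr.injEq] at ha
    have h3 : some (L, Sum.inr l :: R, some z) :: κ j = some (L', Sum.inr l' :: R', some z') :: κ' :=
      MC_suf_eq h1 ⟨Y, rfl⟩ (by simp [ha])
    have h4 : some (L, Sum.inr l :: R, some z) :: κ j = some (Sum.inr l' :: L', R', some z') :: κ' :=
      MC_suf_eq h2 (List.suffix_refl _) (by simp [ha])
    rw [h3] at h4
    simp only [List.cons.injEq, Option.some.injEq, Prod.mk.injEq] at h4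
    have h5 := congrArg List.length h4.1.1
    simp at h5

theorem cover {X : ℕ → ℕ → ℕ → Bool} {A : ℕ → Bool} {s : ℕ → State} {κ : ℕ → List Agt}
    {B : ℕ → Sym} (h : Run X A s) (hX : Correct X) (hl : Lim X A s κ B) {C : ℕ → Bool}
    (h1 : Ar A C) (h2 : Ar C (gr B)) : Ar (gr B) C ∨ Ar C A := by
  obtain ⟨e, he⟩ := Phi_complete h1
  have hag : ∀ j L R, MC_ag (κ (j + 1)) = some (L, R) →
      ∃ z, κ (j + 1) = some (L, R, z) :: κ j := by
    intro j L R hj
    obtain ⟨a, ha⟩ := MC_cons hl j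
    rw [ha] at hj
    cases a with
    | none => simp [MC_ag] at hj
    | some p =>
      obtain ⟨L', R', z⟩ := p
      simp only [MC_ag, Option.some.injEq, Prod.mk.injEq] at hj
      exact ⟨z, by rw [ha, hj.1, hj.2]⟩
  have hgood : ∀ j L R z, κ (j + 1) = some (L, R, z) :: κ j →
      (∃ tn, Wv L R = Sum.inl tn :: Vof (κ j)) ∧ ∃ β, GoodV A β (Wv L R) := by
    intro j L R z hj
    obtain ⟨t0, ht0⟩ := hl.stb (j + 1)
    have h3 := run_inv h t0 (κ (j + 1)) (ht0 t0 le_rfl).1
    rw [hj] at h3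
    exact ⟨h3.1, _, h3.2.1⟩
  have hinf : ∀ n, ∃ j, n ≤ j ∧ ∃ L R z, κ (j + 1) = some (L, R, z) :: κ j := active_inf h hl
  have hv0 : Vof (κ 0) = [] := by
    have h3 : κ 0 = [] := List.length_eq_zero_iff.1 (hl.len 0)
    rw [h3]
    rfl
  have hvn : ∀ j, MC_ag (κ (j + 1)) = none → Vof (κ (j + 1)) = Vof (κ j) := by
    intro j hj
    obtain ⟨a, ha⟩ := MC_cons hl j
    cases a with
    | none => rw [ha]; rfl
    | some p =>
      rw [ha] at hj
      obtain ⟨L', R', z⟩ := p
      simp [MC_ag] at hj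
  have hva : ∀ j L R, MC_ag (κ (j + 1)) = some (L, R) →
      (∃ tn, R.reverse ++ L = Sum.inl tn :: Vof (κ j)) ∧ Vof (κ (j + 1)) = vout L R := by
    intro j L R hj
    obtain ⟨z, hz⟩ := hag j L R hj
    refine ⟨(hgood j L R z hz).1, ?_⟩
    rw [hz]
    rfl
  have hvs : ∀ j L R, MC_ag (κ (j + 1)) = some (L, R) → ∀ l R', R ≠ Sum.inr l :: R' := by
    intro j L R hj l R' hR
    obtain ⟨z, hz⟩ := hag j L R hj
    subst hR
    obtain ⟨z0, rfl⟩ := MC_ready hl hz
    exact MC_skp h hl hz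
  have hvi : ∀ j L R, MC_ag (κ (j + 1)) = some (L, R) → ∀ V1 t V2,
      R.reverse ++ L = V1 ++ Sum.inl t :: V2 → tf t = V2.length := by
    intro j L R hj V1 t V2 hV
    obtain ⟨z, hz⟩ := hag j L R hj
    obtain ⟨_, β, hβ⟩ := hgood j L R z hz
    exact hβ.idx V1 t V2 hV
  have hvf : ∀ n, ∃ j, n ≤ j ∧ MC_ag (κ (j + 1)) ≠ none := by
    intro n
    obtain ⟨j, hj, L, R, z, h3⟩ := hinf n
    refine ⟨j, hj, ?_⟩
    rw [h3]
    simp [MC_ag]
  rcases vec_limit (fun j => MC_ag (κ (j + 1))) (fun j => Vof (κ j)) hv0 hvn hva hvs hvi hvf e with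
    ⟨t, hte, ht⟩ | ⟨k, L, t', R', hk, hte, hlate⟩
  · right
    refine S_case h hl (t := t) ?_ (C := C) ?_ h2 (Ar.refl C)
    · intro n
      obtain ⟨j, hj, L, R, h3, h4⟩ := ht n
      obtain ⟨z, hz⟩ := hag j L R h3
      exact ⟨j, hj, L, R, z, hz, h4⟩
    · rw [hte]; exact he
  · left
    obtain ⟨z, hz⟩ := hag k L _ hk
    obtain ⟨z0, rfl⟩ := MC_ready hl hz
    refine F_case h hX hl hz ?_ (by rw [hte]; exact he)
    intro n
    cases hP : Prot L with
    | nil =>
      refine ⟨0, pre A n, ?_, ?_, ?_⟩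
      · intro t ht
        simp at ht
      · unfold On
        rw [pre_length]
      · rw [pre_length]
    | cons t1 P =>
      have ht1 : Sum.inl t1 ∈ L := MC_mem_of_Prot (by rw [hP]; simp)
      obtain ⟨T, w, h3, h4, h5⟩ := growth h hl (t := t1) (fun m => by
        obtain ⟨j, hj, L', R'', z', h6⟩ := hinf (max m (k + 1))
        have h7 : m ≤ j := le_trans (le_max_left _ _) hj
        have h8 : k + 1 ≤ j := le_trans (le_max_right _ _) hj
        refine ⟨j, h7, L', R'', z', h6, ?_⟩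
        have h9 : MC_ag (κ (j + 1)) = some (L', R'') := by rw [h6]; rfl
        exact (hlate j L' R'' (by omega) h9).subset ht1) n
      refine ⟨T, w, ?_, h4, h5⟩
      intro t ht
      simp only [List.head?_cons, Option.some.injEq] at ht
      rw [← ht]
      exact h3

end Pool.Agent.KAP
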