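import Mathlib
import Pool.Agent.KAP.CA

/-!
KAP, module RL. Computability of the functions on vectors and stacks.
Proofs: `Prot` is a `filterMap` (or `flatMap`), `Forb`, `ids` are `flatMap`s (`comp_list_flatMap`),
`Vof ags` is `vout` of the first element of `ags.filterMap id` (or `flatMap Option.toList`), `ctx` is a
`map`; see Pool/Agent/H19/CompList.lean and the `Primrec` library.
-/

set_option autoImplicit false

namespace Pool.Agent.KAP

open Encodable Pool.Agent.H19 Pool.Agent.H24P

private def RL_p (c : Coord) : List Tree := Sum.casesOn c (fun t => [t]) (fun _ => [])

private theorem RL_single {α β : Type} [Primcodable α] [Primcodable β] {f : α → β}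
    (hf : Computable f) : Computable (fun a => [f a]) :=
  Computable.list_cons.comp hf (Computable.const [])

private theorem RL_p_comp : Computable RL_p := by
  refine Computable.sumCasesOn (f := fun s : Coord => s) Computable.id ?_ ?_
  · exact RL_single Computable.snd
  · exact Computable.const []

private theorem RL_Prot (V : List Coord) : V.flatMap RL_p = Prot V := by
  induction V with
  | nil => rfl
  | cons c V ih =>
    rcases c with t | l
    · rw [List.flatMap_cons, ih]; rfl
    · rw [List.flatMap_cons, ih]; rfl

theorem Prot_comp : Computable Prot :=
  (comp_list_flatMap (f := fun V : List Coord => V) (g := fun _ c => RL_p c) Computable.id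
    (RL_p_comp.comp Computable.snd)).of_eq fun V => RL_Prot V

private def RL_f (c : Coord) : List ℕ := Sum.casesOn c (fun _ => []) (fun l => l)

private theorem RL_f_comp : Computable RL_f := by
  refine Computable.sumCasesOn (f := fun s : Coord => s) Computable.id ?_ ?_
  · exact Computable.const []
  · exact Computable.snd

private theorem RL_Forb (V : List Coord) : V.flatMap RL_f = Forb V := by
  induction V with
  | nil => rfl
  | cons c V ih =>
    rcases c with t | l
    · rw [List.flatMap_cons, ih]; rfl
    · rw [List.flatMap_cons, ih]; rfl

theorem Forb_comp : Computable Forb :=
  (comp_list_flatMap (f := fun V : List Coord => V) (g := fun _ c => RL_f c) Computable.id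
    (RL_f_comp.comp Computable.snd)).of_eq fun V => RL_Forb V

private def RL_i (c : Coord) : List ℕ := Sum.casesOn c (fun t => [tid t]) (fun l => l)

private theorem RL_i_comp : Computable RL_i := by
  refine Computable.sumCasesOn (f := fun s : Coord => s) Computable.id ?_ ?_
  · exact RL_single (Computable.fst.comp (Computable.snd.comp Computable.snd))
  · exact Computable.snd

private theorem RL_ids (V : List Coord) : V.flatMap RL_i = ids V := by
  induction V with
  | nil => rfl
  | cons c V ih =>
    rcases c with t | l
    · rw [List.flatMap_cons, ih]; rfl
    · rw [List.flatMap_cons, ih]; rfl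

theorem ids_comp : Computable ids :=
  (comp_list_flatMap (f := fun V : List Coord => V) (g := fun _ c => RL_i c) Computable.id
    (RL_i_comp.comp Computable.snd)).of_eq fun V => RL_ids V

theorem vout_comp : Computable (fun p : List Coord × List Coord => vout p.1 p.2) := by
  have hc : Computable (fun p : List Coord × List Coord => decide (p.2 = [])) :=
    comp_decEq Computable.snd (Computable.const [])
  have hg : Computable (fun p : List Coord × List Coord => (Sum.inr (ids p.2) : Coord) :: p.1) :=
    Computable.list_cons.comp (Computable.sumInr.comp (ids_comp.comp Computable.snd))
      Computable.fst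
  refine (Computable.cond hc Computable.fst hg).of_eq fun p => ?_
  obtain ⟨L, R⟩ := p
  by_cases h : R = []
  · simp [vout, h]
  · simp [vout, h]

theorem Wv_comp : Computable (fun p : List Coord × List Coord => Wv p.1 p.2) :=
  Computable.list_append.comp (Computable.list_reverse.comp Computable.snd) Computable.fst

private theorem RL_Vof (ags : List Agt) :
    (Option.casesOn (ags.flatMap Option.toList).head? ([] : List Coord)
      (fun q => vout q.1 q.2.1) : List Coord) = Vof ags := by
  induction ags with
  | nil => rfl
  | cons a ags ih =>
    rcases a with _ | ⟨L, R, z⟩
    · rw [List.flatMap_cons]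
      exact ih
    · rfl

theorem Vof_comp : Computable Vof := by
  have h1 : Computable (fun ags : List Agt => ags.flatMap Option.toList) := by
    refine comp_list_flatMap (f := fun ags : List Agt => ags)
      (g := fun _ (a : Agt) => Option.toList a) Computable.id ?_
    have h2 : Computable (fun a : Agt => Option.toList a) := by
      refine (Computable.option_casesOn (o := fun a : Agt => a)
        (f := fun _ => ([] : List (List Coord × List Coord × Option Str)))
        (g := fun _ b => [b]) Computable.id (Computable.const [])
        (RL_single Computable.snd)).of_eq fun a => ?_
      cases a <;> rfl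
    exact h2.comp Computable.snd
  have h3 : Computable (fun ags : List Agt => (ags.flatMap Option.toList).head?) :=
    Primrec.list_head?.to_comp.comp h1
  refine (Computable.option_casesOn (f := fun _ => ([] : List Coord))
    (g := fun (_ : List Agt) q => vout q.1 q.2.1) h3 (Computable.const []) ?_).of_eq RL_Vof
  exact vout_comp.comp ((Computable.fst.comp Computable.snd).pair
    (Computable.fst.comp (Computable.snd.comp Computable.snd)))

theorem itemOf_comp : Computable itemOf := by
  have hW : Computable (fun p : Agt × (List Coord × List Coord × Option Str) =>
      Wv p.2.1 p.2.2.1) :=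
    Wv_comp.comp ((Computable.fst.comp Computable.snd).pair
      (Computable.fst.comp (Computable.snd.comp Computable.snd)))
  refine (Computable.option_casesOn (o := fun a : Agt => a)
    (f := fun _ => (none : Option Item))
    (g := fun _ b => some (Prot (Wv b.1 b.2.1), Prot b.1, Forb (Wv b.1 b.2.1)))
    Computable.id (Computable.const none) ?_).of_eq fun a => ?_
  · exact Computable.option_some.comp ((Prot_comp.comp hW).pair
      ((Prot_comp.comp (Computable.fst.comp Computable.snd)).pair (Forb_comp.comp hW)))
  · rcases a with _ | ⟨L, R, z⟩ <;> rfl

theorem ctx_comp : Computable ctx :=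
  comp_list_map (f := fun κ : List Agt => κ) (g := fun _ a => itemOf a) Computable.id
    (itemOf_comp.comp Computable.snd)

theorem qc_comp : Computable (fun p : Ctx × List Tree × List Sym × Str =>
    qc p.1 p.2.1 p.2.2.1 p.2.2.2) :=
  Computable.encode.comp (Computable.sumInr.comp Computable.id)

end Pool.Agent.KAP
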