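import Mathlib
import Pool.Agent.KAP.RL
import Pool.Agent.KAP.AT
import Pool.Agent.KAP.AX

/-!
KAP, module RD. Decidability of the simple conditions.
Proofs.  `dc_On`: `Cp.pre`, equality is decidable.  `dc_NXA`: quantify over `t ∈ P` and over the
symbols of `β` (`Dc.ball`); a symbol is an event or not (`Dc.sum` or `Dc.optAll`).  `dc_X`: the value
`Xof x n t q` is `x (Nat.pair n (Nat.pair t q))`, `Ar.cp hx`.  `cp_cols`: e.g. by the graph: a list `l`
equals `cols ..` iff its length is `(r + 1) * (r + 1)` and its entries are the right ones; or prove a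
general lemma that `fun a => (l a).map (g a)` is `Cp A` if `l` is computable and `g` is `Cp A`.
-/

set_option autoImplicit false

namespace Pool.Agent.KAP

open Encodable Pool.Agent.H19 Pool.Agent.H24P

theorem dc_On (A : ℕ → Bool) : Dc A (fun y : Str => On A y) := by
  have h1 : Dc A (fun p : Str × Str => p.1 = p.2) := Dc.eq_comp Computable.fst Computable.snd
  have h2 : Cp A (fun y : Str => pre A y.length) :=
    (Cp.pre A).comp (Cp.of_computable Computable.list_length)
  exact (h1.subst (f := fun y : Str => (pre A y.length, y))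
    (h2.pair (Cp.of_computable Computable.id))).congr fun y => Iff.rfl

private def RD_g (a : Sym) : Option (ℕ × Str × Str × Str) :=
  Sum.casesOn a (fun e => some e) (fun _ => none)

private theorem RD_g_comp : Computable RD_g := by
  refine Computable.sumCasesOn (f := fun s : Sym => s) Computable.id ?_ ?_
  · exact Computable.option_some.comp Computable.snd
  · exact Computable.const none

theorem dc_NXA (A : ℕ → Bool) : Dc A (fun p : List Sym × List Tree => NXA A p.1 p.2) := by
  have h0 : Dc A (fun r : (((List Sym × List Tree) × Tree) × Sym) × (ℕ × Str × Str × Str) =>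
      r.2.1 = tid r.1.1.2 → On A r.2.2.1 → On A r.2.2.2.1 ∨ On A r.2.2.2.2) := by
    refine Dc.imp ?_ (Dc.imp ?_ (Dc.or ?_ ?_))
    · exact Dc.eq_comp (Computable.fst.comp Computable.snd)
        (Computable.fst.comp (Computable.snd.comp (Computable.snd.comp
          (Computable.fst.comp Computable.fst))))
    · exact (dc_On A).comp (Computable.fst.comp (Computable.snd.comp Computable.snd))
    · exact (dc_On A).comp (Computable.fst.comp (Computable.snd.comp
        (Computable.snd.comp Computable.snd)))
    · exact (dc_On A).comp (Computable.snd.comp (Computable.snd.comp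
        (Computable.snd.comp Computable.snd)))
  have h1 : Dc A (fun r : ((List Sym × List Tree) × Tree) × Sym =>
      ∀ e, RD_g r.2 = some e → (e.1 = tid r.1.2 → On A e.2.1 → On A e.2.2.1 ∨ On A e.2.2.2)) :=
    Dc.optAll (f := fun r : ((List Sym × List Tree) × Tree) × Sym => RD_g r.2)
      (Q := fun (r : ((List Sym × List Tree) × Tree) × Sym) (e : ℕ × Str × Str × Str) =>
        e.1 = tid r.1.2 → On A e.2.1 → On A e.2.2.1 ∨ On A e.2.2.2)
      (Cp.of_computable (RD_g_comp.comp Computable.snd)) h0
  have h2 := Dc.ball (Q := fun (p : (List Sym × List Tree) × Tree) (a : Sym) =>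
      ∀ e, RD_g a = some e → (e.1 = tid p.2 → On A e.2.1 → On A e.2.2.1 ∨ On A e.2.2.2)) h1
    (l := fun p => p.1.1) (Computable.fst.comp Computable.fst)
  have h3 := Dc.ball (Q := fun (p : List Sym × List Tree) (t : Tree) =>
      ∀ a ∈ p.1, ∀ e, RD_g a = some e →
        (e.1 = tid t → On A e.2.1 → On A e.2.2.1 ∨ On A e.2.2.2)) h2
    (l := fun p => p.2) Computable.snd
  refine h3.congr fun p => ?_
  constructor
  · intro h t ht y u v hm hy
    exact h t ht _ hm _ rfl rfl hy
  · intro h t ht a ha e he h4 hy
    rcases a with e' | c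
    · have h5 : e' = e := Option.some.inj he
      subst h5
      obtain ⟨q, y, u, v⟩ := e'
      have h6 : q = tid t := h4
      subst h6
      exact h t ht y u v ha hy
    · exact absurd he (by simp [RD_g])

theorem dc_X {x A : ℕ → Bool} (hx : Ar A x) :
    Dc A (fun p : ℕ × ℕ × ℕ => Xof x p.1 p.2.1 p.2.2 = true) :=
  (ar_iff_dc.1 hx).comp (f := fun p : ℕ × ℕ × ℕ => Nat.pair p.1 (Nat.pair p.2.1 p.2.2))
    (comp_natpair Computable.fst (comp_natpair (Computable.fst.comp Computable.snd)
      (Computable.snd.comp Computable.snd)))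

private theorem RD_map {α β γ : Type} [Primcodable α] [Primcodable β] [Primcodable γ]
    {Z : ℕ → Bool} {l : α → List β} (hl : Computable l) {g : α → β → γ}
    (hg : Cp Z (fun p : α × β => g p.1 p.2)) : Cp Z (fun a => (l a).map (g a)) := by
  have h0 : Sg Z (fun r : (((α × List γ) × ℕ) × β) × γ => g r.1.1.1.1 r.1.2 = r.2) :=
    Sg.comp (P := fun p : (α × β) × γ => g p.1.1 p.1.2 = p.2) hg
      (f := fun r : (((α × List γ) × ℕ) × β) × γ => ((r.1.1.1.1, r.1.2), r.2))
      (((Computable.fst.comp (Computable.fst.comp (Computable.fst.comp Computable.fst))).pair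
        (Computable.snd.comp Computable.fst)).pair Computable.snd)
  have e1 : Sg Z (fun r : (((α × List γ) × ℕ) × β) × γ =>
      encode ((l r.1.1.1.1)[r.1.1.2]?) = encode (some r.1.2)) :=
    Sg.eq_comp (Computable.encode.comp (Computable.list_getElem?.comp
      (hl.comp (Computable.fst.comp (Computable.fst.comp (Computable.fst.comp Computable.fst))))
      (Computable.snd.comp (Computable.fst.comp Computable.fst))))
      (Computable.encode.comp (Computable.option_some.comp (Computable.snd.comp Computable.fst)))
  have e2 : Sg Z (fun r : (((α × List γ) × ℕ) × β) × γ =>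
      encode ((r.1.1.1.2)[r.1.1.2]?) = encode (some r.2)) :=
    Sg.eq_comp (Computable.encode.comp (Computable.list_getElem?.comp
      (Computable.snd.comp (Computable.fst.comp (Computable.fst.comp Computable.fst)))
      (Computable.snd.comp (Computable.fst.comp Computable.fst))))
      (Computable.encode.comp (Computable.option_some.comp Computable.snd))
  have h1 : Sg Z (fun p : (α × List γ) × ℕ => ∃ b, ∃ c,
      encode ((l p.1.1)[p.2]?) = encode (some b) ∧ encode ((p.1.2)[p.2]?) = encode (some c) ∧
        g p.1.1 b = c) :=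
    Sg.ex (Q := fun (p : (α × List γ) × ℕ) (b : β) => ∃ c,
      encode ((l p.1.1)[p.2]?) = encode (some b) ∧ encode ((p.1.2)[p.2]?) = encode (some c) ∧
        g p.1.1 b = c)
    (Sg.ex (Q := fun (p : ((α × List γ) × ℕ) × β) (c : γ) =>
      encode ((l p.1.1.1)[p.1.2]?) = encode (some p.2) ∧
        encode ((p.1.1.2)[p.1.2]?) = encode (some c) ∧ g p.1.1.1 p.2 = c)
    (e1.and (e2.and h0)))
  have h2 := Sg.ball_lt (Q := fun (p : α × List γ) (i : ℕ) => ∃ b, ∃ c,
      encode ((l p.1)[i]?) = encode (some b) ∧ encode ((p.2)[i]?) = encode (some c) ∧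
        g p.1 b = c) h1 (l := fun p => (l p.1).length)
    (Computable.list_length.comp (hl.comp Computable.fst))
  have h3 : Sg Z (fun p : α × List γ => p.2.length = (l p.1).length) :=
    Sg.eq_comp (Computable.list_length.comp Computable.snd)
      (Computable.list_length.comp (hl.comp Computable.fst))
  refine (h3.and h2).congr fun p => ?_
  obtain ⟨a, m⟩ := p
  simp only [encode_injective.eq_iff]
  constructor
  · rintro ⟨h4, h5⟩
    refine List.ext_getElem? fun i => ?_
    by_cases hi : i < (l a).length
    · obtain ⟨b, c, h6, h7, h8⟩ := h5 i hi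
      rw [List.getElem?_map, h6, h7, ← h8]
      rfl
    · rw [List.getElem?_map, List.getElem?_eq_none (by omega),
        List.getElem?_eq_none (by omega)]
      rfl
  · rintro rfl
    refine ⟨by simp, fun i hi => ?_⟩
    refine ⟨(l a)[i], g a (l a)[i], List.getElem?_eq_getElem hi, ?_, rfl⟩
    rw [List.getElem?_map, List.getElem?_eq_getElem hi]
    rfl

theorem cp_cols {x A : ℕ → Bool} (hx : Ar A x) :
    Cp A (fun p : ℕ × ℕ => cols (Xof x) p.1 p.2) := by
  have hl : Computable (fun p : ℕ × ℕ => (List.range (p.2 + 1)).flatMap fun n =>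
      (List.range (p.2 + 1)).map fun q => (n, q)) := by
    have hr : Computable (fun p : ℕ × ℕ => List.range (p.2 + 1)) :=
      comp_range (Computable.succ.comp Computable.snd)
    refine comp_list_flatMap (f := fun p : ℕ × ℕ => List.range (p.2 + 1))
      (g := fun p n => (List.range (p.2 + 1)).map fun q => (n, q)) hr ?_
    exact comp_list_map (f := fun r : (ℕ × ℕ) × ℕ => List.range (r.1.2 + 1))
      (g := fun r q => (r.2, q)) (hr.comp Computable.fst)
      ((Computable.snd.comp Computable.fst).pair Computable.snd)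
  have hg : Cp A (fun r : (ℕ × ℕ) × (ℕ × ℕ) => col r.2.1 r.2.2 (Xof x r.2.1 r.1.1 r.2.2)) := by
    have h1 : Cp A (fun r : (ℕ × ℕ) × (ℕ × ℕ) => Xof x r.2.1 r.1.1 r.2.2) :=
      (Ar.cp hx).comp (g := fun r : (ℕ × ℕ) × (ℕ × ℕ) =>
        Nat.pair r.2.1 (Nat.pair r.1.1 r.2.2)) (Cp.of_computable
        (comp_natpair (Computable.fst.comp Computable.snd)
          (comp_natpair (Computable.fst.comp Computable.fst)
            (Computable.snd.comp Computable.snd))))
    have h2 : Cp A (fun r : (ℕ × ℕ) × (ℕ × ℕ) => (r.2.1, r.2.2, Xof x r.2.1 r.1.1 r.2.2)) :=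
      Cp.pair (Cp.of_computable (Computable.fst.comp Computable.snd))
        (Cp.pair (Cp.of_computable (Computable.snd.comp Computable.snd)) h1)
    exact Cp.comp_computable (f := fun c : ℕ × ℕ × Bool => (Sum.inr c : Sym))
      Computable.sumInr h2
  refine (RD_map hl (g := fun (p : ℕ × ℕ) (c : ℕ × ℕ) =>
    col c.1 c.2 (Xof x c.1 p.1 c.2)) hg).congr fun p => ?_
  have e : ((List.range (p.1.2 + 1)).flatMap fun n =>
      (List.range (p.1.2 + 1)).map fun q => (n, q)).map
      (fun c : ℕ × ℕ => col c.1 c.2 (Xof x c.1 p.1.1 c.2)) = cols (Xof x) p.1.1 p.1.2 := by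
    simp only [cols, List.map_flatMap, List.map_map, Function.comp_def]
  beta_reduce
  rw [e]

end Pool.Agent.KAP
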