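import Mathlib
import Pool.Agent.KAP.RD

/-!
KAP, module RA. Decidability of `AllowX`.
Proofs: `dc_AllowX`: by cases on the symbol (`Dc.sum` after moving the symbol to the front); for an
event: `P = P1 ++ t' :: P2` iff `P.drop i = t' :: P2` for some `i < P.length`; `WF` is arithmetical
(`arith_WF`, `Arith.dc`); suffixes of `κ` are the lists `κ.drop i`, `i ≤ κ.length`.  `dc_Ext`:
`γ = γ1 ++ a :: γ2` iff `γ[i]? = some a` and `γ1 = γ.take i` for some `i < γ.length`.
-/

set_option autoImplicit false

namespace Pool.Agent.KAP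

open Encodable Pool.Agent.H19 Pool.Agent.H24P

private theorem RA_sum {α β γ : Type} [Primcodable α] [Primcodable β] [Primcodable γ]
    {Z : ℕ → Bool} {f : α → β ⊕ γ} (hf : Computable f) {Q : α → β ⊕ γ → Prop}
    (h1 : Dc Z (fun p : α × β => Q p.1 (Sum.inl p.2)))
    (h2 : Dc Z (fun p : α × γ => Q p.1 (Sum.inr p.2))) : Dc Z (fun a => Q a (f a)) := by
  have hl : Computable (fun a : α => (Sum.casesOn (f a) (fun a => some a) (fun _ => none) :
      Option β)) := by
    refine Computable.sumCasesOn hf ?_ ?_
    · exact Computable.option_some.comp Computable.snd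
    · exact Computable.const none
  have hr : Computable (fun a : α => (Sum.casesOn (f a) (fun _ => none) (fun b => some b) :
      Option γ)) := by
    refine Computable.sumCasesOn hf ?_ ?_
    · exact Computable.const none
    · exact Computable.option_some.comp Computable.snd
  refine ((Dc.optEx (Cp.of_computable hl) (Q := fun a b => Q a (Sum.inl b))
    h1).or (Dc.optEx (Cp.of_computable hr) (Q := fun a b => Q a (Sum.inr b))
    h2)).congr fun a => ?_
  cases f a <;> simp

private theorem RA_split {α : Type} {l : List α} {S : List α → α → List α → Prop} :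
    (∀ l1 a l2, l = l1 ++ a :: l2 → S l1 a l2) ↔
      ∀ i < l.length, ∀ a, l[i]? = some a → S (l.take i) a (l.drop (i + 1)) := by
  constructor
  · intro h i hi a ha
    refine h _ _ _ ?_
    have h1 : l[i] = a := by
      rw [List.getElem?_eq_getElem hi] at ha
      exact Option.some.inj ha
    rw [← h1, ← List.drop_eq_getElem_cons hi, List.take_append_drop]
  · rintro h l1 a l2 rfl
    have := h l1.length (by simp) a (by simp)
    simpa using this

private theorem RA_suffix {α : Type} {l : List α} {S : List α → Prop} :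
    (∀ l', l' <:+ l → S l') ↔ ∀ i < l.length + 1, S (l.drop i) := by
  constructor
  · intro h i _
    exact h _ (List.drop_suffix i l)
  · rintro h l' hl'
    obtain ⟨l1, rfl⟩ := hl'
    have := h l1.length (by simp)
    simpa using this

private theorem RA_getElem {α β : Type} [Primcodable α] [Primcodable β] {Z : ℕ → Bool}
    {l : α → List β} (hl : Computable l) {S : α → ℕ → β → Prop}
    (h : Dc Z (fun p : (α × ℕ) × β => S p.1.1 p.1.2 p.2)) :
    Dc Z (fun a => ∀ i < (l a).length, ∀ b, (l a)[i]? = some b → S a i b) := by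
  refine Dc.ball_lt (Q := fun a i => ∀ b, (l a)[i]? = some b → S a i b) ?_
    (Computable.list_length.comp hl)
  refine Dc.optAll (f := fun p : α × ℕ => (l p.1)[p.2]?)
    (Q := fun (p : α × ℕ) b => S p.1 p.2 b) ?_ h
  exact Cp.of_computable (Computable.list_getElem?.comp (hl.comp Computable.fst) Computable.snd)

section

variable {α : Type} [Primcodable α] {x A : ℕ → Bool}
  {t : α → ℕ} {κ : α → Ctx} {P : α → List Tree} {F : α → List ℕ} {β : α → List Sym}

private theorem RA_X (hx : Ar A x) {i t : α → ℕ} {κ : α → Ctx} {P : α → List Tree}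
    {β : α → List Sym} {u : α → Str} (hi : Computable i) (ht : Computable t)
    (hκ : Computable κ) (hP : Computable P) (hβ : Computable β) (hu : Computable u) :
    Dc A (fun a => Xof x (i a) (t a) (qc (κ a) (P a) (β a) (u a)) = true) :=
  (dc_X hx).comp (f := fun a => (i a, t a, qc (κ a) (P a) (β a) (u a)))
    (hi.pair (ht.pair (qc_comp.comp (hκ.pair (hP.pair (hβ.pair hu))))))

private theorem RA_suf (hx : Ar A x) {u v : α → Str} (ht : Computable t)
    (hκ : Computable κ) (hP : Computable P) (hβ : Computable β) (hu : Computable u)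
    (hv : Computable v) :
    Dc A (fun a => ∀ κ', κ' <:+ κ a →
        Xof x κ'.length (t a) (qc κ' (P a) (β a) (u a)) = true ∧
        Xof x κ'.length (t a) (qc κ' (P a) (β a) (v a)) = true) := by
  refine Dc.congr (P := fun a => ∀ k < (κ a).length + 1,
        Xof x ((κ a).drop k).length (t a) (qc ((κ a).drop k) (P a) (β a) (u a)) = true ∧
        Xof x ((κ a).drop k).length (t a) (qc ((κ a).drop k) (P a) (β a) (v a)) = true) ?_ ?_
  · have hd : Computable (fun s : α × ℕ => (κ s.1).drop s.2) :=
      comp_drop Computable.snd (hκ.comp Computable.fst)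
    have hl := Computable.list_length.comp hd
    exact Dc.ball_lt (Q := fun a k =>
        Xof x ((κ a).drop k).length (t a) (qc ((κ a).drop k) (P a) (β a) (u a)) = true ∧
        Xof x ((κ a).drop k).length (t a) (qc ((κ a).drop k) (P a) (β a) (v a)) = true)
      (Dc.and (RA_X hx hl (ht.comp Computable.fst) hd (hP.comp Computable.fst)
        (hβ.comp Computable.fst) (hu.comp Computable.fst))
        (RA_X hx hl (ht.comp Computable.fst) hd (hP.comp Computable.fst)
        (hβ.comp Computable.fst) (hv.comp Computable.fst)))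
      (Computable.succ.comp (Computable.list_length.comp hκ))
  · intro a
    exact (RA_suffix (l := κ a) (S := fun κ' =>
      Xof x κ'.length (t a) (qc κ' (P a) (β a) (u a)) = true
      ∧ Xof x κ'.length (t a) (qc κ' (P a) (β a) (v a)) = true)).symm

private theorem RA_ev (hx : Ar A x) (hA : Above A) {q : α → ℕ} {y u v : α → Str}
    (ht : Computable t) (hκ : Computable κ) (hP : Computable P) (hF : Computable F)
    (hβ : Computable β) (hq : Computable q) (hy : Computable y) (hu : Computable u)
    (hv : Computable v) :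
    Dc A (fun a => AllowX (Xof x) (t a) (κ a) (P a) (F a) (β a)
      (Sum.inl (q a, y a, u a, v a))) := by
  refine Dc.congr (P := fun a => q a ∉ F a ∧ ∀ i < (P a).length, ∀ t',
      (P a)[i]? = some t' → (tid t' = q a →
      WF (β a) t' ((P a).drop (i + 1)) (y a) (u a) (v a) ∧ ∀ κ', κ' <:+ κ a →
        Xof x κ'.length (t a) (qc κ' ((P a).drop (i + 1)) (β a) (u a)) = true ∧
        Xof x κ'.length (t a) (qc κ' ((P a).drop (i + 1)) (β a) (v a)) = true)) ?_ ?_
  · refine Dc.and (Dc.not (Dc.mem_list hq hF)) ?_
    refine RA_getElem (l := P) (S := fun a i t' => tid t' = q a →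
      WF (β a) t' ((P a).drop (i + 1)) (y a) (u a) (v a) ∧ ∀ κ', κ' <:+ κ a →
        Xof x κ'.length (t a) (qc κ' ((P a).drop (i + 1)) (β a) (u a)) = true ∧
        Xof x κ'.length (t a) (qc κ' ((P a).drop (i + 1)) (β a) (v a)) = true) hP ?_
    have h11 : Computable (fun r : (α × ℕ) × Tree => r.1.1) :=
      Computable.fst.comp Computable.fst
    have h12 : Computable (fun r : (α × ℕ) × Tree => r.1.2) :=
      Computable.snd.comp Computable.fst
    have h2 : Computable (fun r : (α × ℕ) × Tree => r.2) := Computable.snd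
    have htid : Computable (fun r : (α × ℕ) × Tree => tid r.2) :=
      Computable.fst.comp (Computable.snd.comp Computable.snd)
    have hd : Computable (fun r : (α × ℕ) × Tree => (P r.1.1).drop (r.1.2 + 1)) :=
      comp_drop (Computable.succ.comp h12) (hP.comp h11)
    refine Dc.imp (Dc.eq_comp htid (hq.comp h11)) (Dc.and ?_ ?_)
    · exact (arith_WF.dc hA).comp (f := fun r : (α × ℕ) × Tree =>
        (β r.1.1, r.2, (P r.1.1).drop (r.1.2 + 1), y r.1.1, u r.1.1, v r.1.1))
        ((hβ.comp h11).pair (h2.pair (hd.pair ((hy.comp h11).pair ((hu.comp h11).pair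
          (hv.comp h11))))))
    · exact RA_suf hx (ht.comp h11) (hκ.comp h11) hd (hβ.comp h11) (hu.comp h11)
        (hv.comp h11)
  · intro a
    dsimp only [AllowX]
    refine and_congr Iff.rfl ?_
    exact (RA_split (l := P a) (S := fun _ t' P2 => tid t' = q a →
      WF (β a) t' P2 (y a) (u a) (v a) ∧ ∀ κ', κ' <:+ κ a →
        Xof x κ'.length (t a) (qc κ' P2 (β a) (u a)) = true ∧
        Xof x κ'.length (t a) (qc κ' P2 (β a) (v a)) = true)).symm

private theorem RA_col (hx : Ar A x) {n q : α → ℕ} {b : α → Bool}
    (ht : Computable t) (hκ : Computable κ) (hn : Computable n) (hq : Computable q)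
    (hb : Computable b) :
    Dc A (fun a => AllowX (Xof x) (t a) (κ a) (P a) (F a) (β a)
      (Sum.inr (n a, q a, b a))) := by
  refine Dc.congr (P := fun a =>
    n a < (κ a).length → (Xof x (n a) (t a) (q a) = true ↔ b a = true)) ?_ ?_
  · refine Dc.imp (Dc.lt_comp hn (Computable.list_length.comp hκ))
      (Dc.iff ?_ (Dc.of_comp hb))
    exact (dc_X hx).comp (f := fun a => (n a, t a, q a)) (hn.pair (ht.pair hq))
  · intro a
    dsimp only [AllowX]
    refine forall_congr' fun _ => ?_
    cases b a <;> cases Xof x (n a) (t a) (q a) <;> simp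

private theorem RA_main (hx : Ar A x) (hA : Above A) {s : α → Sym}
    (ht : Computable t) (hκ : Computable κ) (hP : Computable P) (hF : Computable F)
    (hβ : Computable β) (hs : Computable s) :
    Dc A (fun a => AllowX (Xof x) (t a) (κ a) (P a) (F a) (β a) (s a)) := by
  refine RA_sum (f := s) (Q := fun a s => AllowX (Xof x) (t a) (κ a) (P a) (F a) (β a) s)
    hs ?_ ?_
  · have h1 : Computable (fun r : α × (ℕ × Str × Str × Str) => r.1) := Computable.fst
    have h2 : Computable (fun r : α × (ℕ × Str × Str × Str) => r.2) := Computable.snd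
    have h22 : Computable (fun r : α × (ℕ × Str × Str × Str) => r.2.2) := Computable.snd.comp h2
    have h222 : Computable (fun r : α × (ℕ × Str × Str × Str) => r.2.2.2) :=
      Computable.snd.comp h22
    exact RA_ev hx hA (ht.comp h1) (hκ.comp h1) (hP.comp h1) (hF.comp h1) (hβ.comp h1)
      (q := fun r => r.2.1) (y := fun r => r.2.2.1) (u := fun r => r.2.2.2.1)
      (v := fun r => r.2.2.2.2)
      (Computable.fst.comp h2) (Computable.fst.comp h22) (Computable.fst.comp h222)
      (Computable.snd.comp h222)
  · have h1 : Computable (fun r : α × (ℕ × ℕ × Bool) => r.1) := Computable.fst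
    have h2 : Computable (fun r : α × (ℕ × ℕ × Bool) => r.2) := Computable.snd
    have h22 : Computable (fun r : α × (ℕ × ℕ × Bool) => r.2.2) := Computable.snd.comp h2
    exact RA_col (P := fun r => P r.1) (F := fun r => F r.1) (β := fun r => β r.1) hx
      (ht.comp h1) (hκ.comp h1)
      (n := fun r => r.2.1) (q := fun r => r.2.2.1) (b := fun r => r.2.2.2)
      (Computable.fst.comp h2) (Computable.fst.comp h22) (Computable.snd.comp h22)

private theorem RA_Ext (hx : Ar A x) (hA : Above A) {γ : α → List Sym}
    (ht : Computable t) (hκ : Computable κ) (hP : Computable P) (hF : Computable F)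
    (hβ : Computable β) (hγ : Computable γ) :
    Dc A (fun a => Ext (AllowX (Xof x) (t a) (κ a) (P a) (F a)) (β a) (γ a)) := by
  refine Dc.congr (P := fun a =>
    ∀ i < (γ a).length, ∀ s, (γ a)[i]? = some s →
      AllowX (Xof x) (t a) (κ a) (P a) (F a) (β a ++ (γ a).take i) s) ?_ ?_
  · refine RA_getElem (l := γ) (S := fun a i s =>
      AllowX (Xof x) (t a) (κ a) (P a) (F a) (β a ++ (γ a).take i) s) hγ ?_
    have h11 : Computable (fun r : (α × ℕ) × Sym => r.1.1) :=
      Computable.fst.comp Computable.fst
    have h12 : Computable (fun r : (α × ℕ) × Sym => r.1.2) :=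
      Computable.snd.comp Computable.fst
    have h2 : Computable (fun r : (α × ℕ) × Sym => r.2) := Computable.snd
    have h3 : Computable (fun r : (α × ℕ) × Sym => (γ r.1.1).take r.1.2) :=
      comp_take h12 (hγ.comp h11)
    have h4 : Computable (fun r : (α × ℕ) × Sym => β r.1.1 ++ (γ r.1.1).take r.1.2) :=
      Computable.list_append.comp (hβ.comp h11) h3
    exact RA_main hx hA (ht.comp h11) (hκ.comp h11) (hP.comp h11) (hF.comp h11)
      (β := fun r => β r.1.1 ++ (γ r.1.1).take r.1.2) (s := fun r => r.2) h4 h2
  · intro a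
    dsimp only [Ext]
    exact (RA_split (l := γ a) (S := fun γ1 s _ =>
      AllowX (Xof x) (t a) (κ a) (P a) (F a) (β a ++ γ1) s)).symm

end

theorem dc_AllowX {x A : ℕ → Bool} (hx : Ar A x) (hA : Above A) :
    Dc A (fun p : ℕ × Ctx × List Tree × List ℕ × List Sym × Sym =>
      AllowX (Xof x) p.1 p.2.1 p.2.2.1 p.2.2.2.1 p.2.2.2.2.1 p.2.2.2.2.2) := by
  have h1 : Computable (fun p : ℕ × Ctx × List Tree × List ℕ × List Sym × Sym => p.1) :=
    Computable.fst
  have h2 : Computable (fun p : ℕ × Ctx × List Tree × List ℕ × List Sym × Sym => p.2) :=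
    Computable.snd
  have h3 : Computable (fun p : ℕ × Ctx × List Tree × List ℕ × List Sym × Sym => p.2.2) :=
    Computable.snd.comp h2
  have h4 : Computable (fun p : ℕ × Ctx × List Tree × List ℕ × List Sym × Sym => p.2.2.2) :=
    Computable.snd.comp h3
  have h5 : Computable (fun p : ℕ × Ctx × List Tree × List ℕ × List Sym × Sym => p.2.2.2.2) :=
    Computable.snd.comp h4
  exact RA_main hx hA h1 (κ := fun p => p.2.1) (Computable.fst.comp h2)
    (P := fun p => p.2.2.1) (Computable.fst.comp h3) (F := fun p => p.2.2.2.1)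
    (Computable.fst.comp h4) (β := fun p => p.2.2.2.2.1) (Computable.fst.comp h5)
    (s := fun p => p.2.2.2.2.2) (Computable.snd.comp h5)

theorem dc_Ext {x A : ℕ → Bool} (hx : Ar A x) (hA : Above A) :
    Dc A (fun p : ℕ × Ctx × List Tree × List ℕ × List Sym × List Sym =>
      Ext (AllowX (Xof x) p.1 p.2.1 p.2.2.1 p.2.2.2.1) p.2.2.2.2.1 p.2.2.2.2.2) := by
  have h1 : Computable (fun p : ℕ × Ctx × List Tree × List ℕ × List Sym × List Sym => p.1) :=
    Computable.fst
  have h2 : Computable (fun p : ℕ × Ctx × List Tree × List ℕ × List Sym × List Sym => p.2) :=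
    Computable.snd
  have h3 : Computable (fun p : ℕ × Ctx × List Tree × List ℕ × List Sym × List Sym => p.2.2) :=
    Computable.snd.comp h2
  have h4 : Computable (fun p : ℕ × Ctx × List Tree × List ℕ × List Sym × List Sym =>
      p.2.2.2) := Computable.snd.comp h3
  have h5 : Computable (fun p : ℕ × Ctx × List Tree × List ℕ × List Sym × List Sym =>
      p.2.2.2.2) := Computable.snd.comp h4
  exact RA_Ext hx hA h1 (κ := fun p => p.2.1) (Computable.fst.comp h2)
    (P := fun p => p.2.2.1) (Computable.fst.comp h3) (F := fun p => p.2.2.2.1)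
    (Computable.fst.comp h4) (β := fun p => p.2.2.2.2.1) (Computable.fst.comp h5)
    (γ := fun p => p.2.2.2.2.2) (Computable.snd.comp h5)

end Pool.Agent.KAP
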