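import Mathlib
import Pool.Agent.KAP.RL

/-!
KAP, module RP. The agent at a given level.
Definition: `pick ags j` is `some (L, R, z, κ)` if `ags = Y ++ some (L, R, z) :: κ` with `κ.length = j`.
Proofs: lists (`List.drop_append`, `List.getElem?`), and computability of `drop`, `head?`, `bind`.
-/

set_option autoImplicit false

namespace Pool.Agent.KAP

open Encodable Pool.Agent.H19 Pool.Agent.H24P

/-- The agent at level `j`, if it is active, and the stack below it. -/
def pick (ags : List Agt) (j : ℕ) : Option (List Coord × List Coord × Option Str × List Agt) :=
  if j < ags.length then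
    ((ags.drop (ags.length - (j + 1))).head?).bind fun ag =>
      ag.map fun a => (a.1, a.2.1, a.2.2, ags.drop (ags.length - j))
  else none

theorem pick_spec {ags : List Agt} {j : ℕ} {L R : List Coord} {z : Option Str}
    {κ : List Agt} : pick ags j = some (L, R, z, κ) ↔
      κ.length = j ∧ ∃ Y, ags = Y ++ some (L, R, z) :: κ := by
  constructor
  · intro h
    unfold pick at h
    split_ifs at h with hj
    have hi : ags.length - (j + 1) < ags.length := by omega
    have hd : ags.drop (ags.length - (j + 1)) =
        ags[ags.length - (j + 1)] :: ags.drop (ags.length - j) := by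
      rw [List.drop_eq_getElem_cons hi]
      congr 2
      omega
    rw [hd] at h
    rw [List.head?_cons, Option.bind_some] at h
    cases hag : ags[ags.length - (j + 1)] with
    | none => rw [hag] at h; simp at h
    | some a =>
      obtain ⟨L', R', z'⟩ := a
      rw [hag] at h
      simp only [Option.map_some, Option.some.injEq, Prod.mk.injEq] at h
      obtain ⟨rfl, rfl, rfl, rfl⟩ := h
      refine ⟨by rw [List.length_drop]; omega, ags.take (ags.length - (j + 1)), ?_⟩
      rw [← hag, ← hd, List.take_append_drop]
  · rintro ⟨rfl, Y, rfl⟩
    unfold pick
    rw [if_pos (by simp; omega)]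
    have h1 : (Y ++ some (L, R, z) :: κ).length - (κ.length + 1) = Y.length := by simp
    have h2 : (Y ++ some (L, R, z) :: κ).length - κ.length = Y.length + 1 := by
      simp; omega
    rw [h1, h2]
    simp

theorem pick_comp : Computable (fun p : List Agt × ℕ => pick p.1 p.2) := by
  have hlen : Computable (fun p : List Agt × ℕ => p.1.length) :=
    Computable.list_length.comp Computable.fst
  have hsub : ∀ {f : List Agt × ℕ → ℕ}, Computable f →
      Computable (fun p : List Agt × ℕ => p.1.length - f p) := fun {f} hf =>
    Computable.comp (f := fun q : ℕ × ℕ => q.1 - q.2) Primrec.nat_sub.to_comp (hlen.pair hf)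
  have h1 : Computable (fun p : List Agt × ℕ => (p.1.drop (p.1.length - (p.2 + 1))).head?) :=
    Primrec.list_head?.to_comp.comp
      (comp_drop (hsub (Computable.succ.comp Computable.snd)) Computable.fst)
  have h2 : Computable (fun p : List Agt × ℕ => p.1.drop (p.1.length - p.2)) :=
    comp_drop (hsub Computable.snd) Computable.fst
  have h3 : Computable (fun p : List Agt × ℕ =>
      ((p.1.drop (p.1.length - (p.2 + 1))).head?).bind fun ag =>
        ag.map fun a => (a.1, a.2.1, a.2.2, p.1.drop (p.1.length - p.2))) := by
    refine Computable.option_bind h1 ?_
    refine Computable.option_map (f := fun q : (List Agt × ℕ) × Agt => q.2) Computable.snd ?_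
    refine Computable.pair (Computable.fst.comp Computable.snd) (Computable.pair
      (Computable.fst.comp (Computable.snd.comp Computable.snd)) (Computable.pair
      (Computable.snd.comp (Computable.snd.comp Computable.snd)) ?_))
    exact h2.comp (Computable.fst.comp Computable.fst)
  refine (comp_ite (c := fun p : List Agt × ℕ => decide (p.2 < p.1.length))
    (comp_decLt Computable.snd hlen) h3 (Computable.const none)).of_eq fun p => ?_
  unfold pick
  simp only [decide_eq_true_eq]

end Pool.Agent.KAP
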