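import Mathlib
import Pool.Agent.KAP.RD

/-!
KAP, module RR. Decidability of `Ready`.
Proof: `Ready X A t β ags` iff for all `i < ags.length` and all `a` with `ags[i]? = some (some a)`,
`a = (L, R, z)`: `z.isSome = true` and
`X (ags.drop i).length t (qc (ctx (ags.drop i)) (Prot L) β (pre A t)) = true` (induction on `ags`).
Then `Dc.ball_lt`, `Dc.optAll`, `dc_X` and `Dc.subst` with `Cp.pre`.
-/

set_option autoImplicit false

namespace Pool.Agent.KAP

open Encodable Pool.Agent.H19 Pool.Agent.H24P

theorem RR_iff {X : ℕ → ℕ → ℕ → Bool} {A : ℕ → Bool} {t : ℕ} {β : List Sym} {ags : List Agt} :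
    Ready X A t β ags ↔ ∀ i < ags.length, ∀ a : List Coord × List Coord × Option Str,
      (ags[i]?).getD none = some a → a.2.2.isSome = true ∧
        X (ags.drop i).length t (qc (ctx (ags.drop i)) (Prot a.1) β (pre A t)) = true := by
  induction ags with
  | nil => simp [Ready]
  | cons g κ ih =>
    have h1 : (∀ i < (g :: κ).length, ∀ a : List Coord × List Coord × Option Str,
        ((g :: κ)[i]?).getD none = some a → a.2.2.isSome = true ∧
        X ((g :: κ).drop i).length t (qc (ctx ((g :: κ).drop i)) (Prot a.1) β (pre A t)) = true) ↔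
        (∀ a : List Coord × List Coord × Option Str, g = some a → a.2.2.isSome = true ∧
          X (κ.length + 1) t (qc (ctx (g :: κ)) (Prot a.1) β (pre A t)) = true) ∧
        Ready X A t β κ := by
      rw [ih]
      constructor
      · intro h
        refine ⟨fun a ha => ?_, fun i hi a ha => ?_⟩
        · have := h 0 (by simp) a (by simpa using ha)
          simpa using this
        · have := h (i + 1) (by simpa using hi) a (by simpa using ha)
          simpa using this
      · rintro ⟨h2, h3⟩ i hi a ha
        cases i with
        | zero =>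
          have := h2 a (by simpa using ha)
          simpa using this
        | succ i =>
          have := h3 i (by simpa using hi) a (by simpa using ha)
          simpa using this
    rw [h1]
    rcases g with _ | ⟨L, R, z⟩
    · simp [Ready]
    · constructor
      · rintro ⟨h2, h3, h4⟩
        refine ⟨fun a ha => ?_, h2⟩
        obtain rfl := Option.some.inj ha
        exact ⟨h3, h4⟩
      · rintro ⟨h2, h3⟩
        exact ⟨h3, h2 (L, R, z) rfl⟩

theorem dc_Ready {x A : ℕ → Bool} (hx : Ar A x) :
    Dc A (fun p : ℕ × List Sym × List Agt => Ready (Xof x) A p.1 p.2.1 p.2.2) := by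
  have hd : Computable (fun q : (ℕ × List Sym × List Agt) × ℕ => q.1.2.2.drop q.2) :=
    comp_drop Computable.snd (Computable.snd.comp (Computable.snd.comp Computable.fst))
  have hf : Computable (fun q : (ℕ × List Sym × List Agt) × ℕ =>
      ((q.1.2.2[q.2]?).getD none : Option (List Coord × List Coord × Option Str))) :=
    Computable.option_getD (Computable.list_getElem?.comp
      (Computable.snd.comp (Computable.snd.comp Computable.fst)) Computable.snd)
      (Computable.const none)
  have hX : Dc A (fun r : ((ℕ × List Sym × List Agt) × ℕ) ×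
      (List Coord × List Coord × Option Str) =>
      Xof x (r.1.1.2.2.drop r.1.2).length r.1.1.1
        (qc (ctx (r.1.1.2.2.drop r.1.2)) (Prot r.2.1) r.1.1.2.1 (pre A r.1.1.1)) = true) := by
    have hd' : Computable (fun r : ((ℕ × List Sym × List Agt) × ℕ) ×
      (List Coord × List Coord × Option Str) => r.1.1.2.2.drop r.1.2) := hd.comp Computable.fst
    have ht : Computable (fun r : ((ℕ × List Sym × List Agt) × ℕ) ×
      (List Coord × List Coord × Option Str) => r.1.1.1) :=
      Computable.fst.comp (Computable.fst.comp Computable.fst)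
    have hβ : Computable (fun r : ((ℕ × List Sym × List Agt) × ℕ) ×
      (List Coord × List Coord × Option Str) => r.1.1.2.1) :=
      Computable.fst.comp (Computable.snd.comp (Computable.fst.comp Computable.fst))
    have hpre : Cp A (fun r : ((ℕ × List Sym × List Agt) × ℕ) ×
      (List Coord × List Coord × Option Str) => pre A r.1.1.1) :=
      (Cp.pre A).comp (Cp.of_computable ht)
    refine (dc_X hx).subst (f := fun r : ((ℕ × List Sym × List Agt) × ℕ) ×
      (List Coord × List Coord × Option Str) => ((r.1.1.2.2.drop r.1.2).length, r.1.1.1,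
        qc (ctx (r.1.1.2.2.drop r.1.2)) (Prot r.2.1) r.1.1.2.1 (pre A r.1.1.1))) ?_
    refine Cp.pair (Cp.of_computable (Computable.list_length.comp hd')) (Cp.pair
      (Cp.of_computable ht) ?_)
    have hq := Cp.of_computable (Z := A) qc_comp
    refine hq.comp (g := fun r : ((ℕ × List Sym × List Agt) × ℕ) ×
      (List Coord × List Coord × Option Str) => (ctx (r.1.1.2.2.drop r.1.2), Prot r.2.1,
        r.1.1.2.1, pre A r.1.1.1)) ?_
    exact Cp.pair (Cp.of_computable (ctx_comp.comp hd')) (Cp.pair
      (Cp.of_computable (Prot_comp.comp (Computable.fst.comp Computable.snd)))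
      (Cp.pair (Cp.of_computable hβ) hpre))
  have hS : Dc A (fun r : ((ℕ × List Sym × List Agt) × ℕ) ×
      (List Coord × List Coord × Option Str) => r.2.2.2.isSome = true) :=
    Dc.of_comp (Primrec.option_isSome.to_comp.comp
      (Computable.snd.comp (Computable.snd.comp Computable.snd)))
  have h1 : Dc A (fun q : (ℕ × List Sym × List Agt) × ℕ =>
      ∀ a : List Coord × List Coord × Option Str, (q.1.2.2[q.2]?).getD none = some a →
        a.2.2.isSome = true ∧ Xof x (q.1.2.2.drop q.2).length q.1.1
          (qc (ctx (q.1.2.2.drop q.2)) (Prot a.1) q.1.2.1 (pre A q.1.1)) = true) :=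
    Dc.optAll (Cp.of_computable hf) (Q := fun (q : (ℕ × List Sym × List Agt) × ℕ)
      (a : List Coord × List Coord × Option Str) => a.2.2.isSome = true ∧
        Xof x (q.1.2.2.drop q.2).length q.1.1
          (qc (ctx (q.1.2.2.drop q.2)) (Prot a.1) q.1.2.1 (pre A q.1.1)) = true) (hS.and hX)
  have h2 := Dc.ball_lt (Q := fun (p : ℕ × List Sym × List Agt) (i : ℕ) =>
      ∀ a : List Coord × List Coord × Option Str, (p.2.2[i]?).getD none = some a →
        a.2.2.isSome = true ∧ Xof x (p.2.2.drop i).length p.1
          (qc (ctx (p.2.2.drop i)) (Prot a.1) p.2.1 (pre A p.1)) = true) h1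
      (l := fun p => p.2.2.length)
      (Computable.list_length.comp (Computable.snd.comp Computable.snd))
  exact h2.congr fun p => RR_iff.symm

end Pool.Agent.KAP
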