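import Mathlib
import Pool.Agent.KAP.RP
import Pool.Agent.KAP.RR
import Pool.Agent.KAP.RA

/-!
KAP, module RF. Functional relations, and their combination.
Proof: for `comb` use a version of `Dc.sum` for the first component of a pair, and for the function
the graph: `f (Sum.inl d, t, s) = f1 (d, t, s)`.
-/

set_option autoImplicit false

namespace Pool.Agent.KAP

open Encodable Pool.Agent.H19 Pool.Agent.H24P

/-- The relation `S` is the graph of a function computable in `A`, with domain decidable in `A`. -/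
def Fnc (A : ℕ → Bool) {D : Type} [Primcodable D] (S : D → ℕ → State → State → Prop) : Prop :=
  ∃ (V : D × ℕ × State → Prop) (f : D × ℕ × State → State), Dc A V ∧ Cp A f ∧
    ∀ d t s s', S d t s s' ↔ V (d, t, s) ∧ s' = f (d, t, s)

theorem rf_cp_sum {A : ℕ → Bool} {α β γ : Type} [Primcodable α] [Primcodable β] [Primcodable γ]
    {f : α → γ} {g : β → γ} (hf : Cp A f) (hg : Cp A g) :
    Cp A (fun s : α ⊕ β => Sum.elim f g s) := by
  have h1 : Sg A (fun p : (α ⊕ β) × γ => ∃ a, p.1 = Sum.inl a ∧ f a = p.2) := by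
    refine Sg.ex (Q := fun (p : (α ⊕ β) × γ) (a : α) => p.1 = Sum.inl a ∧ f a = p.2)
      (Sg.and ?_ ?_)
    · exact sg_eq_of_cp (f := fun q : ((α ⊕ β) × γ) × α => q.1.1)
        (g := fun q : ((α ⊕ β) × γ) × α => (Sum.inl q.2 : α ⊕ β))
        (Cp.of_computable (Computable.fst.comp Computable.fst))
        (Cp.of_computable (Computable.sumInl.comp Computable.snd))
    · exact sg_eq_of_cp (f := fun q : ((α ⊕ β) × γ) × α => f q.2)
        (g := fun q : ((α ⊕ β) × γ) × α => q.1.2)
        (hf.comp Cp.snd)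
        (Cp.of_computable (Computable.snd.comp Computable.fst))
  have h2 : Sg A (fun p : (α ⊕ β) × γ => ∃ b, p.1 = Sum.inr b ∧ g b = p.2) := by
    refine Sg.ex (Q := fun (p : (α ⊕ β) × γ) (b : β) => p.1 = Sum.inr b ∧ g b = p.2)
      (Sg.and ?_ ?_)
    · exact sg_eq_of_cp (f := fun q : ((α ⊕ β) × γ) × β => q.1.1)
        (g := fun q : ((α ⊕ β) × γ) × β => (Sum.inr q.2 : α ⊕ β))
        (Cp.of_computable (Computable.fst.comp Computable.fst))
        (Cp.of_computable (Computable.sumInr.comp Computable.snd))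
    · exact sg_eq_of_cp (f := fun q : ((α ⊕ β) × γ) × β => g q.2)
        (g := fun q : ((α ⊕ β) × γ) × β => q.1.2)
        (hg.comp Cp.snd)
        (Cp.of_computable (Computable.snd.comp Computable.fst))
  refine (h1.or h2).congr fun p => ?_
  obtain ⟨s, c⟩ := p
  cases s <;> simp

theorem rf_comp {D E F : Type} [Primcodable D] [Primcodable E] [Primcodable F] :
    Computable (fun p : (D ⊕ E) × F =>
      (Sum.elim (fun d => Sum.inl (d, p.2)) (fun e => Sum.inr (e, p.2)) p.1 :
        (D × F) ⊕ (E × F))) := by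
  have h := Computable.sumCasesOn (f := fun p : (D ⊕ E) × F => p.1)
    (g := fun (p : (D ⊕ E) × F) (d : D) => (Sum.inl (d, p.2) : (D × F) ⊕ (E × F)))
    (h := fun (p : (D ⊕ E) × F) (e : E) => (Sum.inr (e, p.2) : (D × F) ⊕ (E × F)))
    Computable.fst
    (Computable.sumInl.comp (Computable.snd.pair (Computable.snd.comp Computable.fst)))
    (Computable.sumInr.comp (Computable.snd.pair (Computable.snd.comp Computable.fst)))
  refine h.of_eq fun p => ?_
  obtain ⟨s, x⟩ := p
  cases s <;> rfl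

theorem Fnc.comb {A : ℕ → Bool} {D E : Type} [Primcodable D] [Primcodable E]
    {S : D ⊕ E → ℕ → State → State → Prop} (h1 : Fnc A (fun d => S (Sum.inl d)))
    (h2 : Fnc A (fun d => S (Sum.inr d))) : Fnc A S := by
  obtain ⟨V1, f1, hV1, hf1, e1⟩ := h1
  obtain ⟨V2, f2, hV2, hf2, e2⟩ := h2
  have hV : Dc A (fun s : (D × ℕ × State) ⊕ (E × ℕ × State) => Sum.elim V1 V2 s) :=
    Dc.sum (P := fun s : (D × ℕ × State) ⊕ (E × ℕ × State) => Sum.elim V1 V2 s) hV1 hV2
  refine ⟨fun p : (D ⊕ E) × ℕ × State => Sum.elim V1 V2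
      (Sum.elim (fun d => Sum.inl (d, p.2)) (fun e => Sum.inr (e, p.2)) p.1),
    fun p : (D ⊕ E) × ℕ × State => Sum.elim f1 f2
      (Sum.elim (fun d => Sum.inl (d, p.2)) (fun e => Sum.inr (e, p.2)) p.1),
    hV.comp rf_comp, (rf_cp_sum hf1 hf2).comp (Cp.of_computable rf_comp), ?_⟩
  intro d t s s'
  cases d with
  | inl d => exact e1 d t s s'
  | inr e => exact e2 e t s s'

end Pool.Agent.KAP
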