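import Mathlib
import Pool.Agent.KAP.RF

/-!
KAP, module K0. Each action is decidable and computable.
Proof: the condition is the conjunction of the hypotheses of the constructor, with the agent found by
`pick` (`Dc.optEx`, `pick_spec`, `pick_comp`); the new state is a computable function of the old one
and of the data of the action (use `Option.getD` of `pick`, and a default state if it is `none`).
-/

set_option autoImplicit false

namespace Pool.Agent.KAP

open Encodable Pool.Agent.H19 Pool.Agent.H24P

private theorem k0_dc_ev (A : ℕ → Bool) : Dc A (fun p : Sym × ℕ =>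
    ∀ q y u v, p.1 = ev q y u v → q ≠ p.2) := by
  have hg : Computable (fun p : Sym × ℕ => (Sum.casesOn p.1 (fun e => some e.1) (fun _ => none) :
      Option ℕ)) := by
    refine Computable.sumCasesOn (f := fun p : Sym × ℕ => p.1) Computable.fst ?_ ?_
    · exact Computable.option_some.comp (Computable.fst.comp Computable.snd)
    · exact Computable.const none
  refine (Dc.eq_comp hg (Computable.option_some.comp Computable.snd)).not.congr fun p => ?_
  obtain ⟨a, i⟩ := p
  rcases a with ⟨q, y, u, v⟩ | ⟨n, q, b⟩
  · constructor
    · intro h q' y' u' v' h1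
      have h2 : q = q' := by
        injection h1 with h3
        injection h3
      subst h2
      intro h3
      exact h (congrArg some h3)
    · intro h h1
      exact h q y u v rfl (Option.some.inj h1)
  · constructor
    · intro _ q' y' u' v' h1
      injection h1
    · intro _ h1
      injection h1

theorem fnc_new {x A : ℕ → Bool} (hx : Ar A x) (hA : Above A) :
    Fnc A (fun (d : ℕ × Str) (t : ℕ) (s s' : State) =>
      Stp (Xof x) A t s (Sum.inl d) s') := by
  have cs : Computable (fun p : (ℕ × Str) × ℕ × State => p.2.2) :=
    Computable.snd.comp Computable.snd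
  have cβ : Computable (fun p : (ℕ × Str) × ℕ × State => p.2.2.1) := Computable.fst.comp cs
  have cags : Computable (fun p : (ℕ × Str) × ℕ × State => p.2.2.2) := Computable.snd.comp cs
  have ct : Computable (fun p : (ℕ × Str) × ℕ × State => p.2.1) :=
    Computable.fst.comp Computable.snd
  have ci : Computable (fun p : (ℕ × Str) × ℕ × State => p.1.1) :=
    Computable.fst.comp Computable.fst
  have cy : Computable (fun p : (ℕ × Str) × ℕ × State => p.1.2) :=
    Computable.snd.comp Computable.fst
  have cV : Computable (fun p : (ℕ × Str) × ℕ × State => Vof p.2.2.2) := Vof_comp.comp cags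
  refine ⟨fun p => Ready (Xof x) A p.2.1 p.2.2.1 p.2.2.2 ∧
      (∀ a ∈ p.2.2.1, ∀ q y u v, a = ev q y u v → q ≠ p.1.1) ∧
      p.1.1 ∉ ids (Vof p.2.2.2) ∧ NTop p.2.2.1 (Prot (Vof p.2.2.2)) p.1.2 ∧ On A p.1.2,
    fun p => (p.2.2.1 ++ cols (Xof x) p.2.1 p.2.2.2.length,
      some ([], (Vof p.2.2.2).reverse ++ [Sum.inl ((Vof p.2.2.2).length, p.1.1, p.1.2)], none) ::
        p.2.2.2), ?_, ?_, ?_⟩
  · refine Dc.and ?_ (Dc.and ?_ (Dc.and ?_ (Dc.and ?_ ?_)))
    · exact (dc_Ready hx).comp (f := fun p : (ℕ × Str) × ℕ × State => (p.2.1, p.2.2.1, p.2.2.2))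
        (ct.pair (cβ.pair cags))
    · refine Dc.ball (Q := fun (p : (ℕ × Str) × ℕ × State) (a : Sym) =>
        ∀ q y u v, a = ev q y u v → q ≠ p.1.1) ?_ cβ
      exact (k0_dc_ev A).comp (f := fun r : ((ℕ × Str) × ℕ × State) × Sym => (r.2, r.1.1.1))
        (Computable.snd.pair (ci.comp Computable.fst))
    · exact (Dc.mem_list ci (ids_comp.comp cV)).not
    · exact (arith_NTop.dc hA).comp
        (f := fun p : (ℕ × Str) × ℕ × State => (p.2.2.1, Prot (Vof p.2.2.2), p.1.2))
        (cβ.pair ((Prot_comp.comp cV).pair cy))
    · exact (dc_On A).comp cy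
  · refine Cp.pair ?_ ?_
    · have h1 : Cp A (fun p : (ℕ × Str) × ℕ × State =>
          (p.2.2.1, cols (Xof x) p.2.1 p.2.2.2.length)) :=
        Cp.pair (Cp.of_computable cβ) ((cp_cols hx).comp
          (Cp.of_computable (ct.pair (Computable.list_length.comp cags))))
      exact Cp.comp_computable
        (f := fun q : List Sym × List Sym => q.1 ++ q.2)
        (Computable.list_append.comp Computable.fst Computable.snd) h1
    · refine Cp.of_computable ?_
      refine Computable.list_cons.comp (Computable.option_some.comp ?_) cags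
      refine (Computable.const _).pair (Computable.pair ?_ (Computable.const _))
      refine Computable.list_append.comp (Computable.list_reverse.comp cV) ?_
      refine Computable.list_cons.comp (Computable.sumInl.comp ?_) (Computable.const _)
      exact (Computable.list_length.comp cV).pair (ci.pair cy)
  · intro d t s s'
    obtain ⟨i, y0⟩ := d
    constructor
    · intro h
      cases h with
      | new β ags _ _ hr hf hi hy hA' =>
        refine ⟨⟨hr, ?_, hi, hy, hA'⟩, rfl⟩
        intro a ha q y u v hav
        exact hf q y u v (hav ▸ ha)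
    · rintro ⟨⟨hr, hf, hi, hy, hA'⟩, rfl⟩
      obtain ⟨β, ags⟩ := s
      exact Stp.new β ags i y0 hr (fun q y u v h => hf _ h q y u v rfl) hi hy hA'

end Pool.Agent.KAP
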