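import Mathlib
import Pool.Agent.KAP.RF

/-!
KAP, module K1. Each action is decidable and computable.
Proof: the condition is the conjunction of the hypotheses of the constructor, with the agent found by
`pick` (`Dc.optEx`, `pick_spec`, `pick_comp`); the new state is a computable function of the old one
and of the data of the action (use `Option.getD` of `pick`, and a default state if it is `none`).
-/

set_option autoImplicit false
set_option synthInstance.maxSize 2000

namespace Pool.Agent.KAP

open Encodable Pool.Agent.H19 Pool.Agent.H24P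

theorem K1_dc_eq (A : ℕ → Bool) {α : Type} [Primcodable α] {f : α → ℕ} {g : α → Bool}
    (hf : Computable f) (hg : Computable g) : Dc A (fun a => A (f a) = g a) :=
  ⟨(Ar.refl A).eq hf hg, ((Ar.refl A).eq hf (comp_not hg)).congr fun a => by
    show (A (f a) = !(g a)) ↔ ¬ (A (f a) = g a)
    cases A (f a) <;> cases g a <;> simp⟩

/-- The data found by `pick`. -/
abbrev K1W := List Coord × List Coord × Option Str × List Agt

/-- Data of the action, time and state. -/
abbrev K1T := (ℕ × List Sym × ℕ × Bool) × ℕ × State

theorem fnc_sat {x A : ℕ → Bool} (hx : Ar A x) (hA : Above A) :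
    Fnc A (fun (d : ℕ × List Sym × ℕ × Bool) (t : ℕ) (s s' : State) =>
      Stp (Xof x) A t s (Sum.inr (Sum.inl d)) s') := by
  have h0 : Computable (fun p : K1T => ((p.2.2.2, p.1.1) : List Agt × ℕ)) :=
    (Computable.snd.comp (Computable.snd.comp Computable.snd)).pair
      (Computable.fst.comp Computable.fst)
  have hpick : Computable (fun p : K1T => pick p.2.2.2 p.1.1) := by
    have h1 := pick_comp.comp h0
    exact h1
  -- projections from `K1T × K1W`
  have pj : Computable (fun q : K1T × K1W => q.1.2.1) :=
    Computable.fst.comp (Computable.snd.comp Computable.fst)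
  have pβ : Computable (fun q : K1T × K1W => q.1.2.2.1) :=
    Computable.fst.comp (Computable.snd.comp (Computable.snd.comp Computable.fst))
  have pγ : Computable (fun q : K1T × K1W => q.1.1.2.1) :=
    Computable.fst.comp (Computable.snd.comp (Computable.fst.comp Computable.fst))
  have pm : Computable (fun q : K1T × K1W => q.1.1.2.2.1) :=
    Computable.fst.comp (Computable.snd.comp (Computable.snd.comp
      (Computable.fst.comp Computable.fst)))
  have pb : Computable (fun q : K1T × K1W => q.1.1.2.2.2) :=
    Computable.snd.comp (Computable.snd.comp (Computable.snd.comp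
      (Computable.fst.comp Computable.fst)))
  have pκ : Computable (fun q : K1T × K1W => q.2.2.2.2) :=
    Computable.snd.comp (Computable.snd.comp (Computable.snd.comp Computable.snd))
  have pLR : Computable (fun q : K1T × K1W => ((q.2.1, q.2.2.1) : List Coord × List Coord)) :=
    (Computable.fst.comp Computable.snd).pair
      (Computable.fst.comp (Computable.snd.comp Computable.snd))
  have pW : Computable (fun q : K1T × K1W => Wv q.2.1 q.2.2.1) := by
    have h1 := Wv_comp.comp pLR
    exact h1
  have pP : Computable (fun q : K1T × K1W => Prot (Wv q.2.1 q.2.2.1)) := Prot_comp.comp pW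
  have pF : Computable (fun q : K1T × K1W => Forb (Wv q.2.1 q.2.2.1)) := Forb_comp.comp pW
  have pc : Computable (fun q : K1T × K1W => ctx q.2.2.2.2) := ctx_comp.comp pκ
  have p1 : Computable (fun q : K1T × K1W => q.2.2.2.2.length) := Computable.list_length.comp pκ
  have p2 : Computable (fun q : K1T × K1W => q.1.2.2.1 ++ q.1.1.2.1) :=
    Computable.list_append.comp pβ pγ
  have pPsi : Computable (fun q : K1T × K1W =>
      Psi q.2.2.2.2.length (q.1.2.2.1 ++ q.1.1.2.1) q.1.1.2.2.1) := by
    have h1 := Psi_computable.comp (p1.pair (p2.pair pm))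
    exact h1
  refine ⟨fun p => ∃ w : K1W, pick p.2.2.2 p.1.1 = some w ∧
      (Ready (Xof x) A p.2.1 p.2.2.1 w.2.2.2 ∧
        Ext (AllowX (Xof x) p.2.1 (ctx w.2.2.2) (Prot (Wv w.1 w.2.1)) (Forb (Wv w.1 w.2.1)))
          p.2.2.1 p.1.2.1 ∧ NXA A p.1.2.1 (Prot (Wv w.1 w.2.1)) ∧
        Psi w.2.2.2.length (p.2.2.1 ++ p.1.2.1) p.1.2.2.1 = some p.1.2.2.2 ∧
        A p.1.2.2.1 = !p.1.2.2.2),
    fun p => (p.2.2.1 ++ p.1.2.1,
      none :: ((pick p.2.2.2 p.1.1).getD ([], [], none, [])).2.2.2), ?_, ?_, ?_⟩
  · refine Dc.optEx (Cp.of_computable hpick) ?_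
    refine Dc.and ?_ (Dc.and ?_ (Dc.and ?_ (Dc.and ?_ ?_)))
    · exact (dc_Ready hx).comp (pj.pair (pβ.pair pκ))
    · exact (dc_Ext hx hA).comp (pj.pair (pc.pair (pP.pair (pF.pair (pβ.pair pγ)))))
    · exact (dc_NXA A).comp (pγ.pair pP)
    · exact Dc.eq_comp pPsi (Computable.option_some.comp pb)
    · exact K1_dc_eq A pm (comp_not pb)
  · refine Cp.of_computable ?_
    refine Computable.pair (Computable.list_append.comp
      (Computable.fst.comp (Computable.snd.comp Computable.snd))
      (Computable.fst.comp (Computable.snd.comp Computable.fst))) ?_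
    refine Computable.list_cons.comp (Computable.const none) ?_
    exact Computable.snd.comp (Computable.snd.comp (Computable.snd.comp
      (Computable.option_getD hpick (Computable.const _))))
  · rintro ⟨j, γ, m, b⟩ t ⟨β, ags⟩ s'
    constructor
    · intro h
      cases h with
      | sat β Y L R z κ γ m b hr hγ hA' hm hb =>
        have hp : pick (Y ++ some (L, R, z) :: κ) κ.length = some (L, R, z, κ) :=
          pick_spec.2 ⟨rfl, Y, rfl⟩
        refine ⟨⟨(L, R, z, κ), hp, hr, hγ, hA', hm, hb⟩, ?_⟩
        simp only [hp, Option.getD_some]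
    · rintro ⟨⟨⟨L, R, z, κ⟩, hp, hr, hγ, hA', hm, hb⟩, rfl⟩
      simp only at hp hr hγ hA' hm hb ⊢
      rw [hp]
      obtain ⟨h1, Y, h2⟩ := pick_spec.1 hp
      subst h1
      subst h2
      exact Stp.sat β Y L R z κ γ m b hr hγ hA' hm hb

end Pool.Agent.KAP
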