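import Mathlib
import Pool.Agent.KAP.RF

/-!
KAP, module K2. Each action is decidable and computable.
Proof: the condition is the conjunction of the hypotheses of the constructor, with the agent found by
`pick` (`Dc.optEx`, `pick_spec`, `pick_comp`); the new state is a computable function of the old one
and of the data of the action (use `Option.getD` of `pick`, and a default state if it is `none`).
-/

set_option autoImplicit false
set_option synthInstance.maxSize 2000

namespace Pool.Agent.KAP

open Encodable Pool.Agent.H19 Pool.Agent.H24P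

theorem K2_dc_some (A : ℕ → Bool) {α : Type} [Primcodable α] {f : α → ℕ} {g : α → Option Bool}
    (hf : Computable f) (hg : Computable g) : Dc A (fun a => g a = some (A (f a))) := by
  have h1 : Dc A (fun a => (A (f a) = true ∧ g a = some true) ∨
      (¬ (A (f a) = true) ∧ g a = some false)) :=
    Dc.or (Dc.and ((Dc.oracle A).comp hf) (Dc.eq_comp hg (Computable.const (some true))))
      (Dc.and ((Dc.oracle A).comp hf).not (Dc.eq_comp hg (Computable.const (some false))))
  refine h1.congr fun a => ?_
  cases A (f a) <;> simp

theorem K2_dc_some_not (A : ℕ → Bool) {α : Type} [Primcodable α] {f : α → ℕ}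
    {g : α → Option Bool} (hf : Computable f) (hg : Computable g) :
    Dc A (fun a => g a = some (!(A (f a)))) := by
  have h1 : Dc A (fun a => (A (f a) = true ∧ g a = some false) ∨
      (¬ (A (f a) = true) ∧ g a = some true)) :=
    Dc.or (Dc.and ((Dc.oracle A).comp hf) (Dc.eq_comp hg (Computable.const (some false))))
      (Dc.and ((Dc.oracle A).comp hf).not (Dc.eq_comp hg (Computable.const (some true))))
  refine h1.congr fun a => ?_
  cases A (f a) <;> simp

/-- The data found by `pick`. -/
abbrev K2W := List Coord × List Coord × Option Str × List Agt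

/-- Data of the action, time and state. -/
abbrev K2T := (ℕ × ℕ) × ℕ × State

theorem fnc_rst {x A : ℕ → Bool} (hx : Ar A x) (hA : Above A) :
    Fnc A (fun (d : ℕ × ℕ) (t : ℕ) (s s' : State) =>
      Stp (Xof x) A t s (Sum.inr (Sum.inr (Sum.inl d))) s') := by
  have h0 : Computable (fun p : K2T => ((p.2.2.2, p.1.1) : List Agt × ℕ)) :=
    (Computable.snd.comp (Computable.snd.comp Computable.snd)).pair
      (Computable.fst.comp Computable.fst)
  have hpick : Computable (fun p : K2T => pick p.2.2.2 p.1.1) := by
    have h1 := pick_comp.comp h0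
    exact h1
  -- projections from `K2T × K2W`
  have pj : Computable (fun q : K2T × K2W => q.1.2.1) :=
    Computable.fst.comp (Computable.snd.comp Computable.fst)
  have pβ : Computable (fun q : K2T × K2W => q.1.2.2.1) :=
    Computable.fst.comp (Computable.snd.comp (Computable.snd.comp Computable.fst))
  have pn : Computable (fun q : K2T × K2W => q.1.1.2) :=
    Computable.snd.comp (Computable.fst.comp Computable.fst)
  have pz : Computable (fun q : K2T × K2W => q.2.2.2.1) :=
    Computable.fst.comp (Computable.snd.comp (Computable.snd.comp Computable.snd))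
  have pκ : Computable (fun q : K2T × K2W => q.2.2.2.2) :=
    Computable.snd.comp (Computable.snd.comp (Computable.snd.comp Computable.snd))
  have p1 : Computable (fun q : K2T × K2W => q.2.2.2.2.length) := Computable.list_length.comp pκ
  have pPsi : Computable (fun q : K2T × K2W => Psi q.2.2.2.2.length q.1.2.2.1 q.1.1.2) := by
    have h1 := Psi_computable.comp (p1.pair (pβ.pair pn))
    exact h1
  have pzn : Computable (fun r : (K2T × K2W) × Str => r.2[r.1.1.1.2]?) := by
    have h1 := Computable.list_getElem?.comp (Computable.snd (α := K2T × K2W) (β := Str))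
      (pn.comp (Computable.fst (α := K2T × K2W) (β := Str)))
    exact h1
  refine ⟨fun p => ∃ w : K2W, pick p.2.2.2 p.1.1 = some w ∧
      (Ready (Xof x) A p.2.1 p.2.2.1 w.2.2.2 ∧
        (∃ z : Str, w.2.2.1 = some z ∧ z[p.1.2]? = some (!(A p.1.2))) ∧
        Psi w.2.2.2.length p.2.2.1 p.1.2 = some (A p.1.2)),
    fun p => (p.2.2.1,
      some ([], ((pick p.2.2.2 p.1.1).getD ([], [], none, [])).1.reverse ++
        ((pick p.2.2.2 p.1.1).getD ([], [], none, [])).2.1, none) ::
      ((pick p.2.2.2 p.1.1).getD ([], [], none, [])).2.2.2), ?_, ?_, ?_⟩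
  · refine Dc.optEx (Cp.of_computable hpick) ?_
    refine Dc.and ?_ (Dc.and ?_ ?_)
    · exact (dc_Ready hx).comp (pj.pair (pβ.pair pκ))
    · refine Dc.optEx (f := fun q : K2T × K2W => q.2.2.2.1)
        (Q := fun (q : K2T × K2W) (z : Str) => z[q.1.1.2]? = some (!(A q.1.1.2)))
        (Cp.of_computable pz) ?_
      exact K2_dc_some_not A (pn.comp Computable.fst) pzn
    · exact K2_dc_some A pn pPsi
  · refine Cp.of_computable ?_
    have hg : Computable (fun p : K2T =>
        (pick p.2.2.2 p.1.1).getD (([], [], none, []) : K2W)) :=
      Computable.option_getD hpick (Computable.const _)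
    have g1 : Computable (fun p : K2T =>
        ((pick p.2.2.2 p.1.1).getD (([], [], none, []) : K2W)).1) := Computable.fst.comp hg
    have g2 : Computable (fun p : K2T =>
        ((pick p.2.2.2 p.1.1).getD (([], [], none, []) : K2W)).2.1) :=
      Computable.fst.comp (Computable.snd.comp hg)
    have g3 : Computable (fun p : K2T =>
        ((pick p.2.2.2 p.1.1).getD (([], [], none, []) : K2W)).2.2.2) :=
      Computable.snd.comp (Computable.snd.comp (Computable.snd.comp hg))
    have g4 : Computable (fun p : K2T =>
        ((pick p.2.2.2 p.1.1).getD (([], [], none, []) : K2W)).1.reverse ++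
        ((pick p.2.2.2 p.1.1).getD (([], [], none, []) : K2W)).2.1) :=
      Computable.list_append.comp (Computable.list_reverse.comp g1) g2
    refine Computable.pair (Computable.fst.comp (Computable.snd.comp Computable.snd)) ?_
    refine Computable.list_cons.comp (Computable.option_some.comp ?_) g3
    exact (Computable.const _).pair (g4.pair (Computable.const _))
  · rintro ⟨j, n⟩ t ⟨β, ags⟩ s'
    constructor
    · intro h
      cases h with
      | rst β Y L R z κ n hr hz hn =>
        have hp : pick (Y ++ some (L, R, some z) :: κ) κ.length = some (L, R, some z, κ) :=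
          pick_spec.2 ⟨rfl, Y, rfl⟩
        refine ⟨⟨(L, R, some z, κ), hp, hr, ⟨z, rfl, hz⟩, hn⟩, ?_⟩
        simp only [hp, Option.getD_some]
    · rintro ⟨⟨⟨L, R, z', κ⟩, hp, hr, ⟨z, hz', hz⟩, hn⟩, rfl⟩
      simp only at hp hr hz' hz hn ⊢
      subst hz'
      rw [hp]
      obtain ⟨h1, Y, h2⟩ := pick_spec.1 hp
      subst h1
      subst h2
      exact Stp.rst β Y L R z κ n hr hz hn

end Pool.Agent.KAP
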