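import Mathlib
import Pool.Agent.KAP.RF

/-!
KAP, module K3. Each action is decidable and computable.
Proof: the condition is the conjunction of the hypotheses of the constructor, with the agent found by
`pick` (`Dc.optEx`, `pick_spec`, `pick_comp`); the new state is a computable function of the old one
and of the data of the action (use `Option.getD` of `pick`, and a default state if it is `none`).
-/

set_option autoImplicit false

namespace Pool.Agent.KAP

open Encodable Pool.Agent.H19 Pool.Agent.H24P

/-- The data of an agent in position to add an event. -/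
abbrev K3Dat := List Coord × Tree × List Coord × Str × List Agt

local instance K3i1 : Primcodable (List Coord) := inferInstance

local instance K3i2 : Primcodable (List Agt) := inferInstance

local instance K3i3 : Primcodable State := inferInstance

local instance K3i4 : Primcodable K3Dat := inferInstance

/-- The data of the agent at level `j`, if it is in position to add an event. -/
def K3pick (ags : List Agt) (j : ℕ) : Option K3Dat :=
  (pick ags j).bind fun a => (a.2.1.head?).bind fun c =>
    (Sum.casesOn c (fun t' => some t') (fun _ => none) : Option Tree).bind fun t' =>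
      a.2.2.1.map fun z0 => (a.1, t', a.2.1.tail, z0, a.2.2.2)

theorem K3pick_spec {ags : List Agt} {j : ℕ} {L : List Coord} {t' : Tree} {R : List Coord}
    {z0 : Str} {κ : List Agt} : K3pick ags j = some (L, t', R, z0, κ) ↔
      κ.length = j ∧ ∃ Y, ags = Y ++ some (L, Sum.inl t' :: R, some z0) :: κ := by
  rw [← pick_spec]
  simp only [K3pick, Option.bind_eq_some_iff, Option.map_eq_some_iff, Prod.mk.injEq]
  constructor
  · rintro ⟨⟨L1, R1, z1, κ1⟩, h1, c, hc, t1, ht1, z2, hz, rfl, rfl, rfl, rfl, rfl⟩
    rw [h1]
    cases R1 with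
    | nil => simp at hc
    | cons c1 R1 =>
      simp only [List.head?_cons, Option.some.injEq] at hc
      subst hc
      cases c1 with
      | inl t2 =>
        simp only [Option.some.injEq] at ht1
        subst ht1
        simp only at hz
        subst hz
        rfl
      | inr l => simp at ht1
  · intro h
    exact ⟨(L, Sum.inl t' :: R, some z0, κ), h, Sum.inl t', rfl, t', rfl, z0, rfl, rfl, rfl, rfl,
      rfl, rfl⟩

theorem K3pick_comp : Computable (fun p : List Agt × ℕ => K3pick p.1 p.2) := by
  have ha : Computable (fun w : ((((List Agt × ℕ) ×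
      (List Coord × List Coord × Option Str × List Agt)) × Coord) × Tree) × Str =>
      w.1.1.1.2) :=
    Computable.snd.comp (Computable.fst.comp (Computable.fst.comp Computable.fst))
  have ht : Computable (fun w : ((((List Agt × ℕ) ×
      (List Coord × List Coord × Option Str × List Agt)) × Coord) × Tree) × Str =>
      w.1.1.1.2.2.1.tail) :=
    Primrec.list_tail.to_comp.comp (Computable.fst.comp (Computable.snd.comp ha))
  have hk : Computable (fun w : ((((List Agt × ℕ) ×
      (List Coord × List Coord × Option Str × List Agt)) × Coord) × Tree) × Str =>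
      w.1.1.1.2.2.2.2) :=
    Computable.snd.comp (Computable.snd.comp (Computable.snd.comp ha))
  have h1 : Computable₂ (fun (u : (((List Agt × ℕ) ×
      (List Coord × List Coord × Option Str × List Agt)) × Coord) × Tree) (z0 : Str) =>
      ((u.1.1.2.1, u.2, u.1.1.2.2.1.tail, z0, u.1.1.2.2.2.2) : K3Dat)) :=
    Computable.pair (Computable.fst.comp ha) (Computable.pair
      (Computable.snd.comp Computable.fst) (Computable.pair ht
        (Computable.pair Computable.snd hk)))
  have h2 : Computable (fun u : (((List Agt × ℕ) ×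
      (List Coord × List Coord × Option Str × List Agt)) × Coord) × Tree => u.1.1.2.2.2.1) :=
    Computable.fst.comp (Computable.snd.comp (Computable.snd.comp (Computable.snd.comp
      (Computable.fst.comp Computable.fst))))
  have h3 : Computable₂ (fun (r : ((List Agt × ℕ) ×
      (List Coord × List Coord × Option Str × List Agt)) × Coord) (t' : Tree) =>
      r.1.2.2.2.1.map fun z0 => ((r.1.2.1, t', r.1.2.2.1.tail, z0, r.1.2.2.2.2) : K3Dat)) :=
    Computable.option_map h2 h1
  have h4 : Computable (fun r : ((List Agt × ℕ) ×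
      (List Coord × List Coord × Option Str × List Agt)) × Coord =>
      (Sum.casesOn r.2 (fun t' => some t') (fun _ => none) : Option Tree)) := by
    refine Computable.sumCasesOn (f := fun r : ((List Agt × ℕ) ×
      (List Coord × List Coord × Option Str × List Agt)) × Coord => r.2) Computable.snd ?_ ?_
    · exact Computable.option_some.comp Computable.snd
    · exact Computable.const none
  have h5 : Computable₂ (fun (q : (List Agt × ℕ) ×
      (List Coord × List Coord × Option Str × List Agt)) (c : Coord) =>
      (Sum.casesOn c (fun t' => some t') (fun _ => none) : Option Tree).bind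
      fun t' => q.2.2.2.1.map fun z0 => ((q.2.1, t', q.2.2.1.tail, z0, q.2.2.2.2) : K3Dat)) :=
    Computable.option_bind h4 h3
  have h6 : Computable (fun q : (List Agt × ℕ) ×
      (List Coord × List Coord × Option Str × List Agt) => q.2.2.1.head?) :=
    Primrec.list_head?.to_comp.comp (Computable.fst.comp (Computable.snd.comp
      Computable.snd))
  have h7 : Computable₂ (fun (p : List Agt × ℕ)
      (a : List Coord × List Coord × Option Str × List Agt) => (a.2.1.head?).bind fun c =>
      (Sum.casesOn c (fun t' => some t') (fun _ => none) : Option Tree).bind fun t' =>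
      a.2.2.1.map fun z0 => ((a.1, t', a.2.1.tail, z0, a.2.2.2) : K3Dat)) :=
    Computable.option_bind h6 h5
  exact Computable.option_bind pick_comp h7

/-- The condition for adding the event. -/
def K3Q (x A : ℕ → Bool) (q : (ℕ × Str × Str × Str) × ℕ × State) (a : K3Dat) : Prop :=
  Ready (Xof x) A q.2.1 q.2.2.1 a.2.2.2.2 ∧
    AllowX (Xof x) q.2.1 (ctx (some (a.1, Sum.inl a.2.1 :: a.2.2.1, some a.2.2.2.1) :: a.2.2.2.2))
      (Prot (a.2.2.1.reverse.append (Sum.inl a.2.1 :: a.1)))
      (Forb (a.2.2.1.reverse.append (Sum.inl a.2.1 :: a.1)))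
      q.2.2.1 (ev (tid a.2.1) q.1.2.1 q.1.2.2.1 q.1.2.2.2) ∧
    On A q.1.2.2.1 ∧ ¬ On A q.1.2.2.2

/-- The new state. -/
def K3f (q : (ℕ × Str × Str × Str) × ℕ × State) : State :=
  ((K3pick q.2.2.2 q.1.1).map fun a =>
    (q.2.2.1 ++ [ev (tid a.2.1) q.1.2.1 q.1.2.2.1 q.1.2.2.2],
      some (Sum.inl a.2.1 :: a.1, a.2.2.1, some q.1.2.2.2) :: a.2.2.2.2)).getD q.2.2

theorem K3_Wv (L R : List Coord) (t' : Tree) :
    Wv L (Sum.inl t' :: R) = R.reverse.append (Sum.inl t' :: L) := by
  simp [Wv]

theorem K3_dcQ {x A : ℕ → Bool} (hx : Ar A x) (hA : Above A) :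
    Dc A (fun p : ((ℕ × Str × Str × Str) × ℕ × State) × K3Dat => K3Q x A p.1 p.2) := by
  have ht : Computable (fun p : ((ℕ × Str × Str × Str) × ℕ × State) × K3Dat => p.1.2.1) :=
    Computable.fst.comp (Computable.snd.comp Computable.fst)
  have hβ : Computable (fun p : ((ℕ × Str × Str × Str) × ℕ × State) × K3Dat => p.1.2.2.1) :=
    Computable.fst.comp (Computable.snd.comp (Computable.snd.comp Computable.fst))
  have hκ : Computable (fun p : ((ℕ × Str × Str × Str) × ℕ × State) × K3Dat => p.2.2.2.2.2) :=
    Computable.snd.comp (Computable.snd.comp (Computable.snd.comp (Computable.snd.comp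
      Computable.snd)))
  have hL : Computable (fun p : ((ℕ × Str × Str × Str) × ℕ × State) × K3Dat => p.2.1) :=
    Computable.fst.comp Computable.snd
  have ht' : Computable (fun p : ((ℕ × Str × Str × Str) × ℕ × State) × K3Dat => p.2.2.1) :=
    Computable.fst.comp (Computable.snd.comp Computable.snd)
  have hR : Computable (fun p : ((ℕ × Str × Str × Str) × ℕ × State) × K3Dat => p.2.2.2.1) :=
    Computable.fst.comp (Computable.snd.comp (Computable.snd.comp Computable.snd))
  have hz0 : Computable (fun p : ((ℕ × Str × Str × Str) × ℕ × State) × K3Dat =>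
      p.2.2.2.2.1) :=
    Computable.fst.comp (Computable.snd.comp (Computable.snd.comp (Computable.snd.comp
      Computable.snd)))
  have hy : Computable (fun p : ((ℕ × Str × Str × Str) × ℕ × State) × K3Dat => p.1.1.2.1) :=
    Computable.fst.comp (Computable.snd.comp (Computable.fst.comp Computable.fst))
  have hw : Computable (fun p : ((ℕ × Str × Str × Str) × ℕ × State) × K3Dat => p.1.1.2.2.1) :=
    Computable.fst.comp (Computable.snd.comp (Computable.snd.comp (Computable.fst.comp
      Computable.fst)))
  have hz : Computable (fun p : ((ℕ × Str × Str × Str) × ℕ × State) × K3Dat => p.1.1.2.2.2) :=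
    Computable.snd.comp (Computable.snd.comp (Computable.snd.comp (Computable.fst.comp
      Computable.fst)))
  have hin : Computable (fun p : ((ℕ × Str × Str × Str) × ℕ × State) × K3Dat =>
      (Sum.inl p.2.2.1 : Coord)) := Computable.sumInl.comp ht'
  have hW : Computable (fun p : ((ℕ × Str × Str × Str) × ℕ × State) × K3Dat =>
      p.2.2.2.1.reverse.append (Sum.inl p.2.2.1 :: p.2.1)) :=
    Computable.list_append.comp (Computable.list_reverse.comp hR)
      (Computable.list_cons.comp hin hL)
  have hag : Computable (fun p : ((ℕ × Str × Str × Str) × ℕ × State) × K3Dat =>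
      (some (p.2.1, Sum.inl p.2.2.1 :: p.2.2.2.1, some p.2.2.2.2.1) :: p.2.2.2.2.2 :
        List Agt)) :=
    Computable.list_cons.comp (Computable.option_some.comp (Computable.pair hL (Computable.pair
      (Computable.list_cons.comp hin hR) (Computable.option_some.comp hz0)))) hκ
  have hev : Computable (fun p : ((ℕ × Str × Str × Str) × ℕ × State) × K3Dat =>
      ev (tid p.2.2.1) p.1.1.2.1 p.1.1.2.2.1 p.1.1.2.2.2) :=
    Computable.sumInl.comp (Computable.pair (Computable.fst.comp (Computable.snd.comp ht'))
      (Computable.pair hy (Computable.pair hw hz)))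
  have q1 : Dc A (fun p : ((ℕ × Str × Str × Str) × ℕ × State) × K3Dat =>
      Ready (Xof x) A p.1.2.1 p.1.2.2.1 p.2.2.2.2.2) :=
    (dc_Ready hx).comp (f := fun p : ((ℕ × Str × Str × Str) × ℕ × State) × K3Dat =>
      (p.1.2.1, p.1.2.2.1, p.2.2.2.2.2)) (Computable.pair ht (Computable.pair hβ hκ))
  have q2 : Dc A (fun p : ((ℕ × Str × Str × Str) × ℕ × State) × K3Dat =>
      AllowX (Xof x) p.1.2.1
        (ctx (some (p.2.1, Sum.inl p.2.2.1 :: p.2.2.2.1, some p.2.2.2.2.1) :: p.2.2.2.2.2))
        (Prot (p.2.2.2.1.reverse.append (Sum.inl p.2.2.1 :: p.2.1)))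
        (Forb (p.2.2.2.1.reverse.append (Sum.inl p.2.2.1 :: p.2.1))) p.1.2.2.1
        (ev (tid p.2.2.1) p.1.1.2.1 p.1.1.2.2.1 p.1.1.2.2.2)) :=
    (dc_AllowX hx hA).comp (f := fun p : ((ℕ × Str × Str × Str) × ℕ × State) × K3Dat =>
      (p.1.2.1, ctx (some (p.2.1, Sum.inl p.2.2.1 :: p.2.2.2.1, some p.2.2.2.2.1) ::
        p.2.2.2.2.2), Prot (p.2.2.2.1.reverse.append (Sum.inl p.2.2.1 :: p.2.1)),
        Forb (p.2.2.2.1.reverse.append (Sum.inl p.2.2.1 :: p.2.1)), p.1.2.2.1,
        ev (tid p.2.2.1) p.1.1.2.1 p.1.1.2.2.1 p.1.1.2.2.2))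
      (Computable.pair ht (Computable.pair (ctx_comp.comp hag) (Computable.pair
        (Prot_comp.comp hW) (Computable.pair (Forb_comp.comp hW) (Computable.pair hβ hev)))))
  have q3 : Dc A (fun p : ((ℕ × Str × Str × Str) × ℕ × State) × K3Dat =>
      On A p.1.1.2.2.1) := (dc_On A).comp hw
  have q4 : Dc A (fun p : ((ℕ × Str × Str × Str) × ℕ × State) × K3Dat =>
      ¬ On A p.1.1.2.2.2) := Dc.not ((dc_On A).comp hz)
  exact q1.and (q2.and (q3.and q4))

theorem K3g_comp : Computable₂ (fun (q : (ℕ × Str × Str × Str) × ℕ × State) (a : K3Dat) =>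
    ((q.2.2.1 ++ [ev (tid a.2.1) q.1.2.1 q.1.2.2.1 q.1.2.2.2],
      some (Sum.inl a.2.1 :: a.1, a.2.2.1, some q.1.2.2.2) :: a.2.2.2.2) : State)) := by
  have hβ : Computable (fun p : ((ℕ × Str × Str × Str) × ℕ × State) × K3Dat => p.1.2.2.1) :=
    Computable.fst.comp (Computable.snd.comp (Computable.snd.comp Computable.fst))
  have hκ : Computable (fun p : ((ℕ × Str × Str × Str) × ℕ × State) × K3Dat => p.2.2.2.2.2) :=
    Computable.snd.comp (Computable.snd.comp (Computable.snd.comp (Computable.snd.comp
      Computable.snd)))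
  have hL : Computable (fun p : ((ℕ × Str × Str × Str) × ℕ × State) × K3Dat => p.2.1) :=
    Computable.fst.comp Computable.snd
  have ht' : Computable (fun p : ((ℕ × Str × Str × Str) × ℕ × State) × K3Dat => p.2.2.1) :=
    Computable.fst.comp (Computable.snd.comp Computable.snd)
  have hR : Computable (fun p : ((ℕ × Str × Str × Str) × ℕ × State) × K3Dat => p.2.2.2.1) :=
    Computable.fst.comp (Computable.snd.comp (Computable.snd.comp Computable.snd))
  have hy : Computable (fun p : ((ℕ × Str × Str × Str) × ℕ × State) × K3Dat => p.1.1.2.1) :=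
    Computable.fst.comp (Computable.snd.comp (Computable.fst.comp Computable.fst))
  have hw : Computable (fun p : ((ℕ × Str × Str × Str) × ℕ × State) × K3Dat => p.1.1.2.2.1) :=
    Computable.fst.comp (Computable.snd.comp (Computable.snd.comp (Computable.fst.comp
      Computable.fst)))
  have hz : Computable (fun p : ((ℕ × Str × Str × Str) × ℕ × State) × K3Dat => p.1.1.2.2.2) :=
    Computable.snd.comp (Computable.snd.comp (Computable.snd.comp (Computable.fst.comp
      Computable.fst)))
  have hin : Computable (fun p : ((ℕ × Str × Str × Str) × ℕ × State) × K3Dat =>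
      (Sum.inl p.2.2.1 : Coord)) := Computable.sumInl.comp ht'
  have hev : Computable (fun p : ((ℕ × Str × Str × Str) × ℕ × State) × K3Dat =>
      ev (tid p.2.2.1) p.1.1.2.1 p.1.1.2.2.1 p.1.1.2.2.2) :=
    Computable.sumInl.comp (Computable.pair (Computable.fst.comp (Computable.snd.comp ht'))
      (Computable.pair hy (Computable.pair hw hz)))
  have h1 : Computable (fun p : ((ℕ × Str × Str × Str) × ℕ × State) × K3Dat =>
      p.1.2.2.1 ++ [ev (tid p.2.2.1) p.1.1.2.1 p.1.1.2.2.1 p.1.1.2.2.2]) :=
    Computable.list_append.comp hβ (Computable.list_cons.comp hev (Computable.const []))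
  have h2 : Computable (fun p : ((ℕ × Str × Str × Str) × ℕ × State) × K3Dat =>
      (some (Sum.inl p.2.2.1 :: p.2.1, p.2.2.2.1, some p.1.1.2.2.2) :: p.2.2.2.2.2 :
        List Agt)) :=
    Computable.list_cons.comp (Computable.option_some.comp (Computable.pair
      (Computable.list_cons.comp hin hL) (Computable.pair hR (Computable.option_some.comp hz)))) hκ
  exact h1.pair h2

theorem K3p_comp : Computable (fun q : (ℕ × Str × Str × Str) × ℕ × State =>
    K3pick q.2.2.2 q.1.1) :=
  K3pick_comp.comp (f := fun p : List Agt × ℕ => K3pick p.1 p.2)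
      (g := fun q : (ℕ × Str × Str × Str) × ℕ × State => (q.2.2.2, q.1.1))
      (Computable.pair (Computable.snd.comp (Computable.snd.comp Computable.snd))
      (Computable.fst.comp Computable.fst))

theorem K3f_comp : Computable K3f := by
  have h1 := Computable.option_map K3p_comp K3g_comp
  have h2 : Computable (fun q : (ℕ × Str × Str × Str) × ℕ × State => q.2.2) :=
    Computable.snd.comp Computable.snd
  have h3 := Computable.option_getD h1 h2
  exact h3

theorem fnc_imp {x A : ℕ → Bool} (hx : Ar A x) (hA : Above A) :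
    Fnc A (fun (d : ℕ × Str × Str × Str) (t : ℕ) (s s' : State) =>
      Stp (Xof x) A t s (Sum.inr (Sum.inr (Sum.inr (Sum.inl d)))) s') := by
  refine ⟨fun q => ∃ a, K3pick q.2.2.2 q.1.1 = some a ∧ K3Q x A q a, K3f, ?_,
    Cp.of_computable K3f_comp, ?_⟩
  · refine Dc.optEx (Cp.of_computable ?_) (K3_dcQ hx hA)
    exact K3pick_comp.comp (f := fun p : List Agt × ℕ => K3pick p.1 p.2)
      (g := fun q : (ℕ × Str × Str × Str) × ℕ × State => (q.2.2.2, q.1.1))
      (Computable.pair (Computable.snd.comp (Computable.snd.comp Computable.snd))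
      (Computable.fst.comp Computable.fst))
  · rintro ⟨j, y, w, z⟩ t ⟨β, ags⟩ s'
    constructor
    · intro h
      cases h with
      | imp β Y L t' R z0 κ y w z hr ha hw hz =>
        have hp : K3pick (Y ++ some (L, Sum.inl t' :: R, some z0) :: κ) κ.length =
            some (L, t', R, z0, κ) := K3pick_spec.2 ⟨rfl, Y, rfl⟩
        refine ⟨⟨(L, t', R, z0, κ), hp, hr, ?_, hw, hz⟩, ?_⟩
        · rw [K3_Wv] at ha
          exact ha
        · simp only [K3f, hp, Option.map_some, Option.getD_some]
    · rintro ⟨⟨⟨L, t', R, z0, κ⟩, hp, hr, ha, hw, hz⟩, hs⟩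
      dsimp only at hp hr ha hw hz
      obtain ⟨rfl, Y, rfl⟩ := K3pick_spec.1 hp
      rw [hs]
      simp only [K3f, hp, Option.map_some, Option.getD_some]
      rw [← K3_Wv] at ha
      exact Stp.imp β Y L t' R z0 κ y w z hr ha hw hz

end Pool.Agent.KAP
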