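import Mathlib
import Pool.Agent.KAP.RF

/-!
KAP, module K4. Each action is decidable and computable.
Proof: the condition is the conjunction of the hypotheses of the constructor, with the agent found by
`pick` (`Dc.optEx`, `pick_spec`, `pick_comp`); the new state is a computable function of the old one
and of the data of the action (use `Option.getD` of `pick`, and a default state if it is `none`).
-/

set_option autoImplicit false

namespace Pool.Agent.KAP

open Encodable Pool.Agent.H19 Pool.Agent.H24P

/-- The inversion of the action `fak`. -/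
theorem stp_fak_iff {X : ℕ → ℕ → ℕ → Bool} {A : ℕ → Bool} {t j : ℕ} {z : Str} {β : List Sym}
    {ags : List Agt} {s' : State} :
    Stp X A t (β, ags) (Sum.inr (Sum.inr (Sum.inr (Sum.inr (Sum.inl (j, z)))))) s' ↔
      ∃ (R : List Coord) (κ : List Agt), pick ags j = some ([], R, none, κ) ∧
        Ready X A t β κ ∧ ¬ On A z ∧
        X (κ.length + 1) t (qc (ctx (some ([], R, none) :: κ)) [] β z) = true ∧
        s' = (β, some ([], R, some z) :: κ) := by
  constructor
  · intro h
    generalize ha : (Sum.inr (Sum.inr (Sum.inr (Sum.inr (Sum.inl (j, z))))) : Act) = a at h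
    generalize hs : ((β, ags) : State) = s at h
    cases h with
    | new => simp at ha
    | sat => simp at ha
    | rst => simp at ha
    | imp => simp at ha
    | skp => simp at ha
    | fak β1 Y R κ z1 hr hz hX =>
      simp only [Sum.inr.injEq, Sum.inl.injEq, Prod.mk.injEq] at ha hs
      obtain ⟨rfl, rfl⟩ := ha
      obtain ⟨rfl, rfl⟩ := hs
      exact ⟨R, κ, pick_spec.2 ⟨rfl, Y, rfl⟩, hr, hz, hX, rfl⟩
  · rintro ⟨R, κ, hp, hr, hz, hX, rfl⟩
    obtain ⟨rfl, Y, rfl⟩ := pick_spec.1 hp
    exact Stp.fak β Y R κ z hr hz hX

/-- The parameters of the condition: time, built string, rest of the vector, stack, fake. -/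
theorem dc_fak_aux {x A : ℕ → Bool} (hx : Ar A x) {δ : Type} [Primcodable δ]
    {L R : δ → List Coord} {zo : δ → Option Str} {κ : δ → List Agt} {t : δ → ℕ}
    {β : δ → List Sym} {z : δ → Str} (hL : Computable L) (hR : Computable R)
    (hzo : Computable zo) (hκ : Computable κ) (ht : Computable t) (hβ : Computable β)
    (hz : Computable z) :
    Dc A (fun p : δ => L p = [] ∧ zo p = none ∧ Ready (Xof x) A (t p) (β p) (κ p) ∧
      ¬ On A (z p) ∧ Xof x ((κ p).length + 1) (t p)
        (qc (ctx (some ([], R p, none) :: κ p)) [] (β p) (z p)) = true) := by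
  have hag : Computable (fun p : δ => ((some ([], R p, none) :: κ p) : List Agt)) :=
    Computable.list_cons.comp (Computable.option_some.comp
      ((Computable.const ([] : List Coord)).pair (hR.pair
        (Computable.const (none : Option Str))))) hκ
  have h1 : Dc A (fun p : δ => L p = []) := Dc.eq_comp hL (Computable.const [])
  have h2 : Dc A (fun p : δ => zo p = none) := Dc.eq_comp hzo (Computable.const none)
  have h3 : Dc A (fun p : δ => Ready (Xof x) A (t p) (β p) (κ p)) :=
    (dc_Ready hx).comp (ht.pair (hβ.pair hκ))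
  have h4 : Dc A (fun p : δ => On A (z p)) := (dc_On A).comp hz
  have h5 : Computable (fun p : δ => qc (ctx (some ([], R p, none) :: κ p)) [] (β p) (z p)) :=
    qc_comp.comp ((ctx_comp.comp hag).pair ((Computable.const ([] : List Tree)).pair
      (hβ.pair hz)))
  have h6 : Dc A (fun p : δ => Xof x ((κ p).length + 1) (t p)
        (qc (ctx (some ([], R p, none) :: κ p)) [] (β p) (z p)) = true) :=
    (dc_X hx).comp ((Computable.succ.comp (Computable.list_length.comp hκ)).pair (ht.pair h5))
  exact h1.and (h2.and (h3.and (h4.not.and h6)))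

/-- The combination of `pick` with a condition. -/
theorem dc_fak_ex {Z : ℕ → Bool} {δ W : Type} [Primcodable δ] [Primcodable W]
    {f : δ → Option W} (hf : Computable f) {Q : δ → W → Prop}
    (h : Dc Z (fun p : δ × W => Q p.1 p.2)) : Dc Z (fun a => ∃ w, f a = some w ∧ Q a w) :=
  Dc.optEx (Cp.of_computable hf) h

/-- The new state. -/
theorem cp_fak_aux {Z : ℕ → Bool} {δ : Type} [Primcodable δ]
    {R : δ → List Coord} {κ : δ → List Agt} {β : δ → List Sym} {z : δ → Str}
    (hR : Computable R) (hκ : Computable κ) (hβ : Computable β) (hz : Computable z) :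
    Cp Z (fun p : δ => ((β p, some ([], R p, some (z p)) :: κ p) : State)) :=
  Cp.of_computable (hβ.pair (Computable.list_cons.comp (Computable.option_some.comp
    ((Computable.const ([] : List Coord)).pair (hR.pair (Computable.option_some.comp hz)))) hκ))

local instance instPW4 : Primcodable (List Coord × List Coord × Option Str × List Agt) :=
  inferInstance

local instance instPI4 : Primcodable ((ℕ × Str) × ℕ × State) := inferInstance

theorem fnc_fak {x A : ℕ → Bool} (hx : Ar A x) (hA : Above A) :
    Fnc A (fun (d : ℕ × Str) (t : ℕ) (s s' : State) =>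
      Stp (Xof x) A t s (Sum.inr (Sum.inr (Sum.inr (Sum.inr (Sum.inl d))))) s') := by
  have hp : Computable (fun a : (ℕ × Str) × ℕ × State => pick a.2.2.2 a.1.1) :=
    pick_comp.comp ((Computable.snd.comp (Computable.snd.comp Computable.snd)).pair
      (Computable.fst.comp Computable.fst))
  have hg : Computable (fun a : (ℕ × Str) × ℕ × State =>
      (pick a.2.2.2 a.1.1).getD ([], [], none, [])) :=
    Computable.option_getD hp (Computable.const _)
  refine ⟨fun a => ∃ w, pick a.2.2.2 a.1.1 = some w ∧ (w.1 = [] ∧ w.2.2.1 = none ∧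
      Ready (Xof x) A a.2.1 a.2.2.1 w.2.2.2 ∧ ¬ On A a.1.2 ∧
      Xof x (w.2.2.2.length + 1) a.2.1
        (qc (ctx (some ([], w.2.1, none) :: w.2.2.2)) [] a.2.2.1 a.1.2) = true),
    fun a => (a.2.2.1, some ([], ((pick a.2.2.2 a.1.1).getD ([], [], none, [])).2.1, some a.1.2) ::
      ((pick a.2.2.2 a.1.1).getD ([], [], none, [])).2.2.2), ?_, ?_, ?_⟩
  · refine dc_fak_ex hp ?_
    exact dc_fak_aux hx (Computable.fst.comp Computable.snd)
      (Computable.fst.comp (Computable.snd.comp Computable.snd))
      (Computable.fst.comp (Computable.snd.comp (Computable.snd.comp Computable.snd)))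
      (Computable.snd.comp (Computable.snd.comp (Computable.snd.comp Computable.snd)))
      (Computable.fst.comp (Computable.snd.comp Computable.fst))
      (Computable.fst.comp (Computable.snd.comp (Computable.snd.comp Computable.fst)))
      (Computable.snd.comp (Computable.fst.comp Computable.fst))
  · exact cp_fak_aux (Computable.fst.comp (Computable.snd.comp hg))
      (Computable.snd.comp (Computable.snd.comp (Computable.snd.comp hg)))
      (Computable.fst.comp (Computable.snd.comp Computable.snd))
      (Computable.snd.comp Computable.fst)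
  · rintro ⟨j, z⟩ t ⟨β, ags⟩ s'
    refine stp_fak_iff.trans ?_
    constructor
    · rintro ⟨R, κ, hp, hr, hz, hX, rfl⟩
      refine ⟨⟨_, hp, rfl, rfl, hr, hz, hX⟩, ?_⟩
      simp [hp]
    · rintro ⟨⟨⟨L, R, zo, κ⟩, hp, h1, h2, hr, hz, hX⟩, rfl⟩
      obtain rfl : L = [] := h1
      obtain rfl : zo = none := h2
      refine ⟨R, κ, hp, hr, hz, hX, ?_⟩
      simp only at hp
      simp [hp]

end Pool.Agent.KAP
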