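import Mathlib
import Pool.Agent.KAP.RF

/-!
KAP, module K5. Each action is decidable and computable.
Proof: the condition is the conjunction of the hypotheses of the constructor, with the agent found by
`pick` (`Dc.optEx`, `pick_spec`, `pick_comp`); the new state is a computable function of the old one
and of the data of the action (use `Option.getD` of `pick`, and a default state if it is `none`).
-/

set_option autoImplicit false

namespace Pool.Agent.KAP

open Encodable Pool.Agent.H19 Pool.Agent.H24P

namespace K5_

/-- Is the coordinate a list of forbidden identifiers? -/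
def isF (c : Coord) : Bool := Sum.casesOn c (fun _ => false) (fun _ => true)

theorem isF_comp : Computable isF := by
  refine Computable.sumCasesOn (f := fun s : Coord => s) Computable.id ?_ ?_
  · exact Computable.const false
  · exact Computable.const true

/-- Is the first coordinate a list of forbidden identifiers? -/
def hdF (R : List Coord) : Bool := (R.take 1).any isF

theorem hdF_comp : Computable hdF := by
  refine comp_list_any (f := fun R : List Coord => R.take 1) (g := fun _ c => isF c) ?_ ?_
  · exact comp_take (Computable.const 1) Computable.id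
  · exact isF_comp.comp Computable.snd

theorem hdF_iff {R : List Coord} : hdF R = true ↔ ∃ l R', R = Sum.inr l :: R' := by
  cases R with
  | nil => simp [hdF]
  | cons c R =>
    cases c with
    | inl t => simp [hdF, isF]
    | inr l => simp [hdF, isF]

abbrev Pk := List Coord × List Coord × Option Str × List Agt

/-- The new state. -/
def nw (β : List Sym) (q : Pk) : State :=
  (β, some (q.2.1.take 1 ++ q.1, q.2.1.drop 1, q.2.2.1) :: q.2.2.2)

theorem nw_comp : Computable (fun p : List Sym × Pk => nw p.1 p.2) := by
  have h1 : Computable (fun p : List Sym × Pk => p.2.1) :=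
    Computable.fst.comp Computable.snd
  have h2 : Computable (fun p : List Sym × Pk => p.2.2.1) :=
    Computable.fst.comp (Computable.snd.comp Computable.snd)
  have h3 : Computable (fun p : List Sym × Pk => p.2.2.2.1) :=
    Computable.fst.comp (Computable.snd.comp (Computable.snd.comp Computable.snd))
  have h4 : Computable (fun p : List Sym × Pk => p.2.2.2.2) :=
    Computable.snd.comp (Computable.snd.comp (Computable.snd.comp Computable.snd))
  have h5 : Computable (fun p : List Sym × Pk => p.2.2.1.take 1 ++ p.2.1) :=
    Computable.list_append.comp (comp_take (Computable.const 1) h2) h1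
  have h6 : Computable (fun p : List Sym × Pk => p.2.2.1.drop 1) :=
    comp_drop (Computable.const 1) h2
  have h7 : Computable (fun p : List Sym × Pk =>
      ((p.2.2.1.take 1 ++ p.2.1, p.2.2.1.drop 1, p.2.2.2.1) :
        List Coord × List Coord × Option Str)) := h5.pair (h6.pair h3)
  have h8 : Computable (fun p : List Sym × Pk =>
      ((some (p.2.2.1.take 1 ++ p.2.1, p.2.2.1.drop 1, p.2.2.2.1) : Agt) :: p.2.2.2.2)) :=
    Computable.list_cons.comp (Computable.option_some.comp h7) h4
  exact Computable.fst.pair h8

/-- The function. -/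
def fn (p : ℕ × ℕ × State) : State := ((pick p.2.2.2 p.1).map (nw p.2.2.1)).getD p.2.2

theorem pk_comp1 : Computable (fun p : ℕ × ℕ × State => p.2.2.2) :=
  Computable.snd.comp (Computable.snd.comp Computable.snd)

theorem pk_comp2 : Computable (fun p : ℕ × ℕ × State => ((p.2.2.2, p.1) : List Agt × ℕ)) :=
  pk_comp1.pair Computable.fst

theorem pk_comp : Computable (fun p : ℕ × ℕ × State => pick p.2.2.2 p.1) := by
  have h3 := pick_comp.comp pk_comp2
  exact h3

theorem fn_comp : Computable fn := by
  have h1 : Computable (fun p : ℕ × ℕ × State => (pick p.2.2.2 p.1).map (nw p.2.2.1)) := by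
    refine Computable.option_map (f := fun p : ℕ × ℕ × State => pick p.2.2.2 p.1)
      (g := fun p q => nw p.2.2.1 q) pk_comp ?_
    have h2 : Computable (fun q : (ℕ × ℕ × State) × Pk => q.1.2.2.1) :=
      Computable.fst.comp (Computable.snd.comp (Computable.snd.comp Computable.fst))
    have h3 : Computable (fun q : (ℕ × ℕ × State) × Pk => ((q.1.2.2.1, q.2) : List Sym × Pk)) :=
      h2.pair Computable.snd
    have h4 := nw_comp.comp h3
    exact h4
  exact Computable.option_getD h1 (Computable.snd.comp Computable.snd)

end K5_

open K5_ in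
theorem fnc_skp {x A : ℕ → Bool} (hx : Ar A x) (hA : Above A) :
    Fnc A (fun (d : ℕ) (t : ℕ) (s s' : State) =>
      Stp (Xof x) A t s (Sum.inr (Sum.inr (Sum.inr (Sum.inr (Sum.inr d))))) s') := by
  have hR : Dc A (fun r : (ℕ × ℕ × State) × Pk =>
      Ready (Xof x) A r.1.2.1 r.1.2.2.1 r.2.2.2.2) :=
    (dc_Ready hx).comp (f := fun r : (ℕ × ℕ × State) × Pk =>
      ((r.1.2.1, r.1.2.2.1, r.2.2.2.2) : ℕ × List Sym × List Agt))
      ((Computable.fst.comp (Computable.snd.comp Computable.fst)).pair
        ((Computable.fst.comp (Computable.snd.comp (Computable.snd.comp Computable.fst))).pair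
          (Computable.snd.comp (Computable.snd.comp (Computable.snd.comp Computable.snd)))))
  have hz : Dc A (fun r : (ℕ × ℕ × State) × Pk => r.2.2.2.1.isSome = true) :=
    Dc.of_comp ((Primrec.option_isSome.to_comp).comp
      (Computable.fst.comp (Computable.snd.comp (Computable.snd.comp Computable.snd))))
  have hF : Dc A (fun r : (ℕ × ℕ × State) × Pk => hdF r.2.2.1 = true) :=
    Dc.of_comp (hdF_comp.comp (Computable.fst.comp (Computable.snd.comp Computable.snd)))
  have hV := Dc.optEx (Z := A) (Cp.of_computable pk_comp)
    (Q := fun p (q : Pk) => Ready (Xof x) A p.2.1 p.2.2.1 q.2.2.2 ∧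
      q.2.2.1.isSome = true ∧ hdF q.2.1 = true) (hR.and (hz.and hF))
  refine ⟨_, fn, hV, Cp.of_computable fn_comp, ?_⟩
  rintro d t ⟨β, ags⟩ s'
  constructor
  · intro h
    generalize ha : (Sum.inr (Sum.inr (Sum.inr (Sum.inr (Sum.inr d)))) : Act) = a at h
    generalize hs : ((β, ags) : State) = s at h
    cases h with
    | skp β' Y L l R z κ hr =>
      obtain ⟨rfl, rfl⟩ := hs
      have hp : pick (Y ++ some (L, Sum.inr l :: R, some z) :: κ) κ.length =
          some (L, Sum.inr l :: R, some z, κ) := pick_spec.2 ⟨rfl, Y, rfl⟩
      refine ⟨⟨(L, Sum.inr l :: R, some z, κ), hp, hr, rfl, hdF_iff.2 ⟨l, R, rfl⟩⟩, ?_⟩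
      simp only [fn, hp, nw, Option.map_some, Option.getD_some, List.take_succ_cons,
        List.take_zero, List.drop_succ_cons, List.drop_zero, List.cons_append, List.nil_append]
  · rintro ⟨⟨⟨L, R, z, κ⟩, hp, hr, hz, hF⟩, rfl⟩
    obtain ⟨l, R', rfl⟩ := hdF_iff.1 hF
    obtain ⟨z, rfl⟩ := Option.isSome_iff_exists.1 hz
    have hp' := hp
    simp only at hp'
    obtain ⟨hd, Y, hY⟩ := pick_spec.1 hp'
    have e : fn (d, t, β, ags) = (β, some (Sum.inr l :: L, R', some z) :: κ) := by
      simp only [fn, hp', nw, Option.map_some, Option.getD_some, List.take_succ_cons,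
        List.take_zero, List.drop_succ_cons, List.drop_zero, List.cons_append, List.nil_append]
    rw [e, ← hd, hY]
    exact Stp.skp β Y L l R' z κ hr

end Pool.Agent.KAP
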