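import Mathlib
import Pool.Agent.KAP.K0
import Pool.Agent.KAP.K1
import Pool.Agent.KAP.K2
import Pool.Agent.KAP.K3
import Pool.Agent.KAP.K4
import Pool.Agent.KAP.K5

/-!
KAP, module RU. Existence of a run computable in `A`.
Proof.  `fnc_stp` by `Fnc.comb` (five times).  Let `V`, `f` be as in `Fnc`.  Let `R (t, s) (t', s')` be:
`t' = t + 1` and either there is `a` with `decode t.unpair.1 = some a`, `V (a, t, s)`,
`s' = f (a, t, s)`, or (`decode t.unpair.1 = none` or it is `some a` with `¬ V (a, t, s)`) and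
`s' = s`.  This is `Sg A`, and `Sg.exists_seq` (with `Good = True`, start `(0, ([], []))`) gives
`g : ℕ → ℕ × State`, `Cp A g`, `(g t).1 = t`.  Let `s t = (g t).2`.  Fairness: if
`∀ t ≥ t0, ∃ s', Stp X A t (s t) a s'`, take `t = Nat.pair (encode a) t0 ≥ t0`.
-/

set_option autoImplicit false

namespace Pool.Agent.KAP

open Encodable Pool.Agent.H19 Pool.Agent.H24P

theorem fnc_stp {x A : ℕ → Bool} (hx : Ar A x) (hA : Above A) :
    Fnc A (fun (a : Act) (t : ℕ) (s s' : State) => Stp (Xof x) A t s a s') := by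
  exact Fnc.comb (fnc_new hx hA) (Fnc.comb (fnc_sat hx hA) (Fnc.comb (fnc_rst hx hA)
    (Fnc.comb (fnc_imp hx hA) (Fnc.comb (fnc_fak hx hA) (fnc_skp hx hA)))))

section

local instance ruState : Primcodable State := inferInstance

local instance ruAct : Primcodable Act := inferInstance

local instance ruPair : Primcodable (ℕ × State) := inferInstance

private theorem exists_run_aux {x A : ℕ → Bool} (hx : Ar A x) (hA : Above A) :
    ∃ s : ℕ → State, Cp A s ∧ Run (Xof x) A s := by
  obtain ⟨V, f, hV, hf, e⟩ := fnc_stp hx hA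
  have i2 : DecidableEq (ℕ × State) := Classical.decEq _
  -- the relation
  let R : (ℕ × State) → (ℕ × State) → Prop := fun p q =>
    q.1 = p.1 + 1 ∧ ((∃ a, (decode p.1.unpair.1 : Option Act) = some a ∧ V (a, p.1, p.2) ∧
      f (a, p.1, p.2) = q.2) ∨
      ((∀ a, (decode p.1.unpair.1 : Option Act) = some a → ¬ V (a, p.1, p.2)) ∧ q.2 = p.2))
  have cd : Computable (fun p : (ℕ × State) × (ℕ × State) =>
      (decode p.1.1.unpair.1 : Option Act)) :=
    Computable.decode.comp (Computable.fst.comp (Computable.unpair.comp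
      (Computable.fst.comp Computable.fst)))
  have c1 : Computable (fun r : ((ℕ × State) × (ℕ × State)) × Act => (r.2, r.1.1.1, r.1.1.2)) :=
    Computable.snd.pair ((Computable.fst.comp (Computable.fst.comp Computable.fst)).pair
      (Computable.snd.comp (Computable.fst.comp Computable.fst)))
  have hV' : Dc A (fun r : ((ℕ × State) × (ℕ × State)) × Act => V (r.2, r.1.1.1, r.1.1.2)) :=
    hV.comp c1
  have hR : Sg A (fun p : (ℕ × State) × (ℕ × State) => R p.1 p.2) := by
    refine Sg.and ?_ (Sg.or ?_ (Sg.and ?_ ?_))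
    · exact Sg.eq_comp (Computable.fst.comp Computable.snd)
        (Computable.succ.comp (Computable.fst.comp Computable.fst))
    · refine Sg.ex (Q := fun (p : (ℕ × State) × (ℕ × State)) (a : Act) =>
        (decode p.1.1.unpair.1 : Option Act) = some a ∧ V (a, p.1.1, p.1.2) ∧
          f (a, p.1.1, p.1.2) = p.2.2) (Sg.and ?_ (Sg.and hV'.1 ?_))
      · exact sg_eq_of_cp (f := fun r : ((ℕ × State) × (ℕ × State)) × Act =>
          (decode r.1.1.1.unpair.1 : Option Act)) (g := fun r => some r.2)
          (Cp.of_computable (cd.comp Computable.fst))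
          (Cp.of_computable (Computable.option_some.comp Computable.snd))
      · exact sg_eq_of_cp (f := fun r : ((ℕ × State) × (ℕ × State)) × Act =>
          f (r.2, r.1.1.1, r.1.1.2)) (g := fun r => r.1.2.2)
          (hf.comp (Cp.of_computable c1))
          (Cp.of_computable (Computable.snd.comp (Computable.snd.comp Computable.fst)))
    · exact (Dc.optAll (f := fun p : (ℕ × State) × (ℕ × State) =>
        (decode p.1.1.unpair.1 : Option Act))
        (Q := fun (p : (ℕ × State) × (ℕ × State)) (a : Act) => ¬ V (a, p.1.1, p.1.2))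
        (Cp.of_computable cd) hV'.not).1
    · exact sg_eq_of_cp (f := fun p : (ℕ × State) × (ℕ × State) => p.2.2)
        (g := fun p => p.1.2)
        (Cp.of_computable (Computable.snd.comp Computable.snd))
        (Cp.of_computable (Computable.snd.comp Computable.fst))
  have hex : ∀ p, True → ∃ q, R p q := by
    intro p _
    by_cases h : ∃ a, (decode p.1.unpair.1 : Option Act) = some a ∧ V (a, p.1, p.2)
    · obtain ⟨a, h1, h2⟩ := h
      exact ⟨(p.1 + 1, f (a, p.1, p.2)), rfl, Or.inl ⟨a, h1, h2, rfl⟩⟩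
    · refine ⟨(p.1 + 1, p.2), rfl, Or.inr ⟨fun a h1 h2 => h ⟨a, h1, h2⟩, rfl⟩⟩
  obtain ⟨g, hg, g0, gR, -⟩ := Sg.exists_seq (R := R) hR (fun _ => True) (0, ([], [])) trivial
    hex (fun _ _ _ _ => trivial)
  have g1 : ∀ t, (g t).1 = t := by
    intro t
    induction t with
    | zero => rw [g0]
    | succ t ih => rw [(gR t).1, ih]
  refine ⟨fun t => (g t).2, ?_, ?_⟩
  · exact Cp.comp_computable Computable.snd hg
  · refine ⟨by simp only [g0], fun t => ?_, fun a t0 h => ?_⟩
    · rcases (gR t).2 with ⟨a, h1, h2, h3⟩ | ⟨h1, h2⟩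
      · right
        refine ⟨a, ?_⟩
        rw [g1 t] at h2 h3
        exact (e a t _ _).2 ⟨h2, h3.symm⟩
      · left
        exact h2
    · refine ⟨Nat.pair (encode a) t0, Nat.right_le_pair _ _, ?_⟩
      obtain ⟨s', h1⟩ := h (Nat.pair (encode a) t0) (Nat.right_le_pair _ _)
      have h2 := ((e a _ _ _).1 h1).1
      rcases (gR (Nat.pair (encode a) t0)).2 with ⟨a', h3, h4, h5⟩ | ⟨h3, h4⟩
      · rw [g1, Nat.unpair_pair, encodek] at h3
        have h6 : a = a' := Option.some.inj h3
        subst h6
        rw [g1] at h4 h5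
        exact (e a _ _ _).2 ⟨h4, h5.symm⟩
      · exfalso
        rw [g1, Nat.unpair_pair, encodek] at h3
        exact h3 a rfl h2

end

theorem exists_run {x A : ℕ → Bool} (hx : Ar A x) (hA : Above A) :
    ∃ s : ℕ → State, Cp A s ∧ Run (Xof x) A s :=
  exists_run_aux hx hA

end Pool.Agent.KAP
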