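import Mathlib
import Pool.Agent.KAP.KS
import Pool.Agent.KAP.CA

/-!
KAP, module XG. `x` is above all finite jumps.
Proof: let `T` be such that `Xof x n t q = Kc n q` for `t ≥ T`; then
`Kc n q = x (Nat.pair n (Nat.pair T q))`, so `Ar x (Kc n)`, and `Zs n m = Kc n (encode (Sum.inl m : Qn))`
(`Kc_zs`).
-/

set_option autoImplicit false

namespace Pool.Agent.KAP

open Encodable Pool.Agent.H19 Pool.Agent.H24P

theorem above_of_correct {x : ℕ → Bool} (hx : Correct (Xof x)) : Above x := by
  intro n
  obtain ⟨T, hT⟩ := hx n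
  have hc : Computable (fun m : ℕ => Nat.pair n (Nat.pair T (encode (Sum.inl m : Qn)))) :=
    comp_natpair (Computable.const n) (comp_natpair (Computable.const T)
      (Computable.encode.comp Computable.sumInl))
  have hD : Dc x (fun m : ℕ => x (Nat.pair n (Nat.pair T (encode (Sum.inl m : Qn)))) = true) :=
    (Dc.oracle x).comp hc
  rw [ar_iff_dc]
  refine hD.congr fun m => ?_
  have h1 : x (Nat.pair n (Nat.pair T (encode (Sum.inl m : Qn)))) =
      Kc n (encode (Sum.inl m : Qn)) := hT T le_rfl _
  rw [h1, Kc_zs]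

end Pool.Agent.KAP
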