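import Mathlib
import Pool.Agent.KAP.XG
import Pool.Agent.KAP.AU
import Pool.Agent.KAP.FQ

/-!
KAP, module XF. The real `x`.
Proof.  Write `Cond k σ τ` for: `σ <+: τ` and for all `n < k`, `t`, `q`: if
`σ.length ≤ Nat.pair n (Nat.pair t q)` then `τ[Nat.pair n (Nat.pair t q)]?` is `none` or
`some (Kc n q)`.  Every `σ` has proper `τ` with `Cond k σ τ` (append the right value), and `Cond k` is
transitive.  Define `σ k` by recursion: `σ 0 = []`; if there is `τ` with `Cond k (σ k) τ` and
`Phi k τ m = some (!(Zom m))` for some `m`, let `σ (k + 1)` be a proper extension of such a `τ` with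
`Cond k (σ k) (σ (k + 1))`; otherwise let `σ (k + 1)` be a proper extension of `σ k` with `Cond k`.
(All this by choice.)  Let `x` be the limit (`pre x (σ k).length = σ k`).
`Correct (Xof x)`: for column `n` take `T = (σ (n + 1)).length`: for `t ≥ T`,
`Nat.pair n (Nat.pair t q) ≥ t ≥ T`, and all later steps respect column `n`.
`¬ Ar x Zom`: otherwise by `Phi_complete` there is `e` with: for all `m` there is `s` with
`Phi e (pre x s) m = some (Zom m)`.  If at step `e` there was a `τ`, then `Phi e (pre x _) m =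
some (!(Zom m))` for some `m`: contradiction (`Phi_mono`).  Otherwise: `Zom m = b` iff there is `τ` with
`Cond e (σ e) τ` and `Phi e τ m = some b`: (if) as there was no such `τ` with the wrong value; (only
if) `τ = pre x s` for large `s`.  By `arith_Kc` (finitely many `n < e`, induction) `Cond e (σ e) τ` is
arithmetical, so `Zom` is arithmetical: contradiction to `Zom_not_arith`.
-/

set_option autoImplicit false

namespace Pool.Agent.KAP

open Encodable Pool.Agent.H19 Pool.Agent.H24P

namespace XF_

/-- The string `τ` extends `σ` and respects the columns with number `< k`. -/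
def Cond (k : ℕ) (σ τ : Str) : Prop :=
  σ <+: τ ∧ ∀ (p : ℕ) (b : Bool), σ.length ≤ p → τ[p]? = some b → p.unpair.1 < k →
    b = Kc p.unpair.1 p.unpair.2.unpair.2

theorem Cond.refl (k : ℕ) (σ : Str) : Cond k σ σ := by
  refine ⟨List.prefix_refl _, fun p b hp hb => ?_⟩
  rw [List.getElem?_eq_none hp] at hb
  exact absurd hb (by simp)

theorem getElem?_of_prefix {σ τ : Str} (h : σ <+: τ) {p : ℕ} (hp : p < σ.length) :
    τ[p]? = σ[p]? := by
  obtain ⟨u, rfl⟩ := h
  exact List.getElem?_append_left hp

theorem Cond.trans {k : ℕ} {σ τ ρ : Str} (h1 : Cond k σ τ) (h2 : Cond k τ ρ) : Cond k σ ρ := by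
  refine ⟨h1.1.trans h2.1, fun p b hp hb hk => ?_⟩
  by_cases hq : τ.length ≤ p
  · exact h2.2 p b hq hb hk
  · rw [getElem?_of_prefix h2.1 (by omega)] at hb
    exact h1.2 p b hp hb hk

theorem Cond.mono {k k' : ℕ} {σ τ : Str} (h : Cond k' σ τ) (hk : k ≤ k') : Cond k σ τ :=
  ⟨h.1, fun p b hp hb h1 => h.2 p b hp hb (by omega)⟩

theorem Cond.sub {k : ℕ} {σ τ τ' : Str} (h : Cond k σ τ) (h1 : σ <+: τ') (h2 : τ' <+: τ) :
    Cond k σ τ' := by
  refine ⟨h1, fun p b hp hb hk => ?_⟩
  have hl : p < τ'.length := by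
    by_contra hc
    rw [List.getElem?_eq_none (by omega)] at hb
    exact absurd hb (by simp)
  rw [← getElem?_of_prefix h2 hl] at hb
  exact h.2 p b hp hb hk

theorem Cond.snoc (k : ℕ) (σ : Str) :
    Cond k σ (σ ++ [Kc σ.length.unpair.1 σ.length.unpair.2.unpair.2]) := by
  refine ⟨List.prefix_append _ _, fun p b hp hb _ => ?_⟩
  rw [List.getElem?_append_right hp] at hb
  rcases Nat.eq_or_lt_of_le hp with h | h
  · subst h
    simp only [Nat.sub_self, List.getElem?_cons_zero, Option.some.injEq] at hb
    exact hb.symm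
  · rw [List.getElem?_eq_none (by simp; omega)] at hb
    exact absurd hb (by simp)

/-- One step of the construction. -/
def Step (k : ℕ) (σ τ' : Str) : Prop :=
  Cond k σ τ' ∧ σ.length < τ'.length ∧
    ((∃ τ, Cond k σ τ ∧ ∃ m, Phi k τ m = some (!(Zom m))) →
      ∃ m, Phi k τ' m = some (!(Zom m)))

theorem exists_step (k : ℕ) (σ : Str) : ∃ τ', Step k σ τ' := by
  by_cases h : ∃ τ, Cond k σ τ ∧ ∃ m, Phi k τ m = some (!(Zom m))
  · obtain ⟨τ, h1, m, hm⟩ := h
    refine ⟨_, h1.trans (Cond.snoc k τ), ?_, fun _ => ⟨m, Phi_mono (Cond.snoc k τ).1 hm⟩⟩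
    have := h1.1.length_le
    simp only [List.length_append, List.length_singleton]
    omega
  · exact ⟨_, Cond.snoc k σ, by simp, fun h1 => absurd h1 h⟩

/-- The limit of a chain of strings. -/
theorem exists_lim (ρ : ℕ → List Bool) (h1 : ∀ k, ρ k <+: ρ (k + 1))
    (h2 : ∀ k, k ≤ (ρ k).length) : ∃ Z : ℕ → Bool, ∀ k, pre Z (ρ k).length = ρ k := by
  have hmono : ∀ {k l}, k ≤ l → ρ k <+: ρ l := by
    intro k l hkl
    induction hkl with
    | refl => exact List.prefix_refl _
    | step _ ih => exact ih.trans (h1 _)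
  refine ⟨fun n => (ρ (n + 1)).getD n false, fun k => ?_⟩
  apply List.ext_getElem?
  intro n
  by_cases hn : n < (ρ k).length
  · rw [pre_getElem? _ hn]
    have hn' : n < (ρ (n + 1)).length := h2 (n + 1)
    rcases le_total k (n + 1) with hk | hk
    · obtain ⟨u, hu⟩ := hmono hk
      rw [← hu, List.getD_append _ _ _ _ hn, List.getD_eq_getElem?_getD,
        List.getElem?_eq_getElem hn]
      rfl
    · obtain ⟨u, hu⟩ := hmono hk
      rw [← hu, List.getElem?_append_left hn', List.getD_eq_getElem?_getD,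
        List.getElem?_eq_getElem hn']
      rfl
  · rw [List.getElem?_eq_none, List.getElem?_eq_none]
    · omega
    · rw [pre_length]; omega

theorem arith_eqKc (e : ℕ) : Arith (fun q : ℕ × ℕ × Bool => q.2.2 = Kc e q.2.1) := by
  have h1 : Arith (fun q : ℕ × ℕ × Bool => Kc e q.2.1 = true) :=
    Arith.comp (P := fun q => Kc e q = true) (arith_Kc e) (f := fun q : ℕ × ℕ × Bool => q.2.1)
      (Computable.fst.comp Computable.snd)
  have h2 : Arith (fun q : ℕ × ℕ × Bool => q.2.2 = true) :=
    Arith.of_comp (Computable.snd.comp Computable.snd)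
  refine (h2.iff h1).congr fun q => ?_
  cases q.2.2 <;> cases Kc e q.2.1 <;> simp

theorem arith_cols (e : ℕ) :
    Arith (fun q : ℕ × ℕ × Bool => q.1 < e → q.2.2 = Kc q.1 q.2.1) := by
  induction e with
  | zero => exact (Arith.const True).congr fun q => by simp
  | succ e ih =>
    have h1 : Arith (fun q : ℕ × ℕ × Bool => q.1 = e) :=
      Arith.eq_comp Computable.fst (Computable.const e)
    refine (ih.and (h1.imp (arith_eqKc e))).congr fun q => ?_
    constructor
    · rintro ⟨h2, h3⟩ h4
      rcases Nat.lt_or_ge q.1 e with h5 | h5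
      · exact h2 h5
      · have h6 : q.1 = e := by omega
        rw [h6]; exact h3 h6
    · intro h2
      exact ⟨fun h3 => h2 (by omega), fun h3 => by rw [h2 (by omega), h3]⟩

theorem arith_Cond (e : ℕ) (σ : Str) : Arith (fun τ : Str => Cond e σ τ) := by
  have h1 : Arith (fun τ : Str => σ <+: τ) :=
    Arith.isPre (Computable.const σ) Computable.id
  have a1 : Arith (fun r : (Str × ℕ) × Bool => σ.length ≤ r.1.2) :=
    Arith.le_comp (Computable.const _) (Computable.snd.comp Computable.fst)
  have a2 : Arith (fun r : (Str × ℕ) × Bool => r.1.1[r.1.2]? = some r.2) :=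
    Arith.eq_comp (Computable.list_getElem?.comp (Computable.fst.comp Computable.fst)
      (Computable.snd.comp Computable.fst)) (Computable.option_some.comp Computable.snd)
  have c1 : Computable (fun r : (Str × ℕ) × Bool => r.1.2.unpair.1) :=
    Computable.fst.comp (Computable.unpair.comp (Computable.snd.comp Computable.fst))
  have c2 : Computable (fun r : (Str × ℕ) × Bool => r.1.2.unpair.2.unpair.2) :=
    Computable.snd.comp (Computable.unpair.comp (Computable.snd.comp
      (Computable.unpair.comp (Computable.snd.comp Computable.fst))))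
  have c3 : Computable (fun r : (Str × ℕ) × Bool =>
      ((r.1.2.unpair.1, r.1.2.unpair.2.unpair.2, r.2) : ℕ × ℕ × Bool)) :=
    c1.pair (c2.pair Computable.snd)
  have a3 : Arith (fun r : (Str × ℕ) × Bool => r.1.2.unpair.1 < e →
      r.2 = Kc r.1.2.unpair.1 r.1.2.unpair.2.unpair.2) :=
    Arith.comp (P := fun q : ℕ × ℕ × Bool => q.1 < e → q.2.2 = Kc q.1 q.2.1) (arith_cols e)
      (f := fun r : (Str × ℕ) × Bool =>
        ((r.1.2.unpair.1, r.1.2.unpair.2.unpair.2, r.2) : ℕ × ℕ × Bool)) c3
  have a4 : Arith (fun τ : Str => ∀ (p : ℕ) (b : Bool), σ.length ≤ p → τ[p]? = some b →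
      p.unpair.1 < e → b = Kc p.unpair.1 p.unpair.2.unpair.2) := by
    refine Arith.all (Q := fun (τ : Str) (p : ℕ) => ∀ (b : Bool), σ.length ≤ p →
      τ[p]? = some b → p.unpair.1 < e → b = Kc p.unpair.1 p.unpair.2.unpair.2) ?_
    refine Arith.all (Q := fun (r : Str × ℕ) (b : Bool) => σ.length ≤ r.2 →
      r.1[r.2]? = some b → r.2.unpair.1 < e → b = Kc r.2.unpair.1 r.2.unpair.2.unpair.2) ?_
    exact a1.imp (a2.imp a3)
  exact h1.and a4

end XF_

open XF_ in
theorem exists_x : ∃ x : ℕ → Bool, Correct (Xof x) ∧ ¬ Ar x Zom := by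
  choose f hf using exists_step
  let σ : ℕ → Str := fun k => Nat.rec [] (fun k τ => f k τ) k
  have hσ : ∀ k, Step k (σ k) (σ (k + 1)) := fun k => hf k (σ k)
  have hpre : ∀ k, σ k <+: σ (k + 1) := fun k => (hσ k).1.1
  have hlen : ∀ k, k ≤ (σ k).length := by
    intro k
    induction k with
    | zero => exact Nat.zero_le _
    | succ k ih => have := (hσ k).2.1; omega
  obtain ⟨x, hx⟩ := exists_lim σ hpre hlen
  have hcond : ∀ k l, k ≤ l → Cond k (σ k) (σ l) := by
    intro k l hkl
    induction hkl with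
    | refl => exact Cond.refl _ _
    | step h ih => exact ih.trans ((hσ _).1.mono h)
  have hval : ∀ k p, p < (σ k).length → (σ k)[p]? = some (x p) := by
    intro k p hp
    rw [← hx k, pre_getElem? x hp]
  have hcx : ∀ k t, (σ k).length ≤ t → Cond k (σ k) (pre x t) := by
    intro k t ht
    have h1 : σ k <+: pre x t := by
      rw [← hx k]; exact pre_mono x ht
    have h2 : pre x t <+: σ (max k t) := by
      rw [← hx (max k t)]
      exact pre_mono x (le_trans (le_max_right k t) (hlen _))
    exact (hcond k (max k t) (le_max_left _ _)).sub h1 h2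
  refine ⟨x, fun n => ⟨(σ (n + 1)).length, fun t ht q => ?_⟩, fun har => ?_⟩
  · have hp : (σ (n + 1)).length ≤ Nat.pair n (Nat.pair t q) :=
      ht.trans ((Nat.left_le_pair t q).trans (Nat.right_le_pair n _))
    have h1 := hcx (n + 1) (Nat.pair n (Nat.pair t q) + 1) (by omega)
    have h2 := h1.2 (Nat.pair n (Nat.pair t q)) (x (Nat.pair n (Nat.pair t q))) hp
      (pre_getElem? x (by omega)) (by simp)
    simpa [Xof] using h2
  · obtain ⟨e, he⟩ := Phi_complete har
    by_cases hE : ∃ τ, Cond e (σ e) τ ∧ ∃ m, Phi e τ m = some (!(Zom m))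
    · obtain ⟨m, hm⟩ := (hσ e).2.2 hE
      obtain ⟨s, hs⟩ := he m
      have h1 : Phi e (pre x (max s (σ (e + 1)).length)) m = some (Zom m) :=
        Phi_mono (pre_mono x (le_max_left _ _)) hs
      have h2 : Phi e (pre x (max s (σ (e + 1)).length)) m = some (!(Zom m)) := by
        refine Phi_mono (?_ : σ (e + 1) <+: _) hm
        conv_lhs => rw [← hx (e + 1)]
        exact pre_mono x (le_max_right _ _)
      rw [h1] at h2
      cases hZ : Zom m <;> rw [hZ] at h2 <;> simp at h2
    · refine Zom_not_arith ?_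
      have c1 : Computable (fun r : ℕ × Str => ((e, r.2, r.1) : ℕ × Str × ℕ)) :=
        (Computable.const e).pair (Computable.snd.pair Computable.fst)
      have c2 := Phi_computable.comp c1
      have a1 : Arith (fun r : ℕ × Str => Phi e r.2 r.1 = some true) :=
        Arith.eq_comp c2 (Computable.const (some true))
      have a2 : Arith (fun r : ℕ × Str => Cond e (σ e) r.2) :=
        Arith.comp (P := fun τ : Str => Cond e (σ e) τ) (arith_Cond e (σ e))
          (f := fun r : ℕ × Str => r.2) Computable.snd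
      have a3 : Arith (fun m : ℕ => ∃ τ : Str, Cond e (σ e) τ ∧ Phi e τ m = some true) :=
        Arith.ex (Q := fun (m : ℕ) (τ : Str) => Cond e (σ e) τ ∧ Phi e τ m = some true)
          (a2.and a1)
      refine a3.congr fun m => ?_
      constructor
      · rintro ⟨τ, h1, h2⟩
        cases hZ : Zom m with
        | true => rfl
        | false => exact absurd ⟨τ, h1, m, by rw [h2, hZ]; rfl⟩ hE
      · intro hZ
        obtain ⟨s, hs⟩ := he m
        refine ⟨pre x (max s (σ e).length), hcx e _ (le_max_right _ _), ?_⟩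
        rw [← hZ]
        exact Phi_mono (pre_mono x (le_max_left _ _)) hs

end Pool.Agent.KAP
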