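import Mathlib
import Pool.Agent.KAP.MC
import Pool.Agent.KAP.XF
import Pool.Agent.KAP.RU
import Pool.Agent.KAP.BR

/-!
KAP, the assembly.
-/

set_option autoImplicit false

namespace Pool.Agent.KAP

open Encodable Pool.Agent.H19 Pool.Agent.H24P

/-- There is a set `x` not above all finite jumps uniformly, such that every set above `x` is a
minimal cover. -/
theorem main_bool : ∃ x : ℕ → Bool, ¬ Ar x Zom ∧ ∀ A, Ar A x →
    ∃ B, Ar A B ∧ ¬ Ar B A ∧ ∀ C, Ar C B → Ar A C → Ar B C ∨ Ar C A := by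
  obtain ⟨x, hx, hx'⟩ := exists_x
  refine ⟨x, hx', fun A hA => ?_⟩
  have hab : Above A := fun n => hA.trans (above_of_correct hx n)
  obtain ⟨s, hs, hrun⟩ := exists_run hA hab
  obtain ⟨κ, B, hl⟩ := exists_limit hrun hx hab
  exact ⟨gr B, ar_B hs hl, not_ar_A hrun hl, fun C h1 h2 => cover hrun hx hl h2 h1⟩

/-- The same for functions. -/
theorem main_fun : ∃ x : ℕ → ℕ,
    (∀ a : ℕ → ℕ, TuringReducible (PFun.lift x) (PFun.lift a) →
      ∃ b : ℕ → ℕ, TuringReducible (PFun.lift b) (PFun.lift a) ∧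
        ¬ TuringReducible (PFun.lift a) (PFun.lift b) ∧
        ∀ c : ℕ → ℕ, TuringReducible (PFun.lift b) (PFun.lift c) →
          TuringReducible (PFun.lift c) (PFun.lift a) →
          (TuringReducible (PFun.lift c) (PFun.lift b) ∨
            TuringReducible (PFun.lift a) (PFun.lift c))) ∧
    ¬ TuringReducible (PFun.lift (fun m => if Zom m then (1 : ℕ) else 0)) (PFun.lift x) := by
  obtain ⟨x, hx, hA⟩ := main_bool
  refine ⟨fun n => if x n then 1 else 0, fun a ha => ?_, fun h => hx ?_⟩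
  · obtain ⟨B, h1, h2, h3⟩ := hA (gr a) (((lift_red_iff _ _).1 ha).trans (ar_of_gr_chi x))
    refine ⟨fun n => if B n then 1 else 0, ?_, ?_, fun c hc1 hc2 => ?_⟩
    · exact (lift_red_iff _ _).2 (h1.trans (ar_gr_chi B))
    · exact fun h => h2 ((ar_gr_chi B).trans ((lift_red_iff _ _).1 h))
    · rcases h3 (gr c) (((lift_red_iff _ _).1 hc1).trans (ar_of_gr_chi B))
        ((lift_red_iff _ _).1 hc2) with h4 | h4
      · exact Or.inl ((lift_red_iff _ _).2 ((ar_of_gr_chi B).trans h4))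
      · exact Or.inr ((lift_red_iff _ _).2 h4)
  · exact (ar_gr_chi x).trans (((lift_red_iff _ _).1 h).trans (ar_of_gr_chi Zom))

end Pool.Agent.KAP
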